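import Mathlib

set_option autoImplicit false

open scoped ComplexConjugate InnerProductSpace
open Finsupp

namespace Pool.Agent.H612Z.Op

/-- letters: `(i, false)` stands for `Y i`, `(i, true)` for its adjoint -/
abbrev Lt (k : ℕ) : Type := Fin k × Bool

def bar {k : ℕ} (a : Lt k) : Lt k := (a.1, !a.2)

@[simp] theorem bar_bar {k : ℕ} (a : Lt k) : bar (bar a) = a := by
  simp [bar]

theorem bar_ne {k : ℕ} (a : Lt k) : bar a ≠ a := by
  obtain ⟨i, b⟩ := a
  cases b <;> simp [bar]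

/-! ### finitely supported vectors, operators, kernels -/

abbrev HS (I : Type) : Type := lp (fun _ : I => ℂ) 2

noncomputable def emb (I : Type) : (I →₀ ℂ) →ₗ[ℂ] HS I :=
  Finsupp.linearCombination ℂ (fun i => (default : HilbertBasis I ℂ (HS I)) i)

abbrev En (I : Type) : Type := Module.End ℂ (I →₀ ℂ)

/-- the operator with columns `f` -/
noncomputable def lin {I : Type} (f : I → (I →₀ ℂ)) : En I := Finsupp.linearCombination ℂ f

@[simp] theorem lin_single {I : Type} (f : I → (I →₀ ℂ)) (i : I) (c : ℂ) :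
    lin f (single i c) = c • f i := by
  simp [lin]

def Bdd {I : Type} (T : En I) (C : ℝ) : Prop := ∀ ξ : I →₀ ℂ, ‖emb I (T ξ)‖ ≤ C * ‖emb I ξ‖

noncomputable def ker {I : Type} (T : En I) : I → I → ℂ := fun i j => T (single j 1) i

/-- the form of the kernel `K` is bounded by `C` on vectors supported in `s` -/
def KB {I : Type} (K : I → I → ℂ) (s : Set I) (C : ℝ) : Prop :=
  ∀ F : Finset I, (F : Set I) ⊆ s → ∀ η ξ : I → ℂ,
    ‖∑ i ∈ F, ∑ j ∈ F, conj (η i) * K i j * ξ j‖ ≤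
      C * √(∑ i ∈ F, ‖η i‖ ^ 2) * √(∑ j ∈ F, ‖ξ j‖ ^ 2)

def IsAdj {I : Type} (S T : En I) : Prop := ∀ i j, ker S i j = conj (ker T j i)

noncomputable def tens {I J : Type} (S : En I) (T : En J) : En (I × J) :=
  (finsuppTensorFinsupp' ℂ I J).conjAlgEquiv ℂ (TensorProduct.map S T)

/-- the operator of a matrix -/
noncomputable def mE {D : Type} [Fintype D] (M : Matrix D D ℂ) : En D :=
  lin fun j => ∑ i, single i (M i j)

/-! ### the Fock model -/

open Classical in
/-- creation of `a` plus (deformed) annihilation of `bar a` -/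
noncomputable def cF {k : ℕ} (θ : ℂ) (a : Lt k) : En (List (Lt k)) :=
  lin fun w => single (a :: w) 1 +
    match w with
    | [] => 0
    | b :: w' => if b = bar a then single w' (1 - if w'.head? = some a then θ else 0) else 0

/-! ### random unimodular matrices and non-backtracking path sums -/

noncomputable def xi {k d q : ℕ} [NeZero q] (ω : Fin k × Fin d × Fin d → ZMod q) (a : Lt k)
    (x x' : Fin d) : ℂ :=
  if a.2 = true then ZMod.stdAddChar (-(ω (a.1, x', x))) else ZMod.stdAddChar (ω (a.1, x, x'))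

def NBc {k j : ℕ} {D : Type} (w : Fin j → Lt k) (γ : Fin (j + 1) → D) : Prop :=
  ∀ (t : ℕ) (h : t + 1 < j), w ⟨t + 1, h⟩ = bar (w ⟨t, by omega⟩) →
    γ ⟨t + 2, by omega⟩ ≠ γ ⟨t, by omega⟩

open Classical in
noncomputable def NB {k d q : ℕ} [NeZero q] (ω : Fin k × Fin d × Fin d → ZMod q) {j : ℕ}
    (w : Fin j → Lt k) (x y : Fin d) : ℂ :=
  ∑ γ : Fin (j + 1) → Fin d,
    if γ 0 = x ∧ γ (Fin.last j) = y ∧ NBc w γ then
      ∏ t : Fin j, xi ω (w t) (γ t.castSucc) (γ t.succ) else 0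

/-- the random matrix of a coefficient array -/
noncomputable def SM {k d q J : ℕ} [NeZero q] {R : Type}
    (α : R → R → (j j' : Fin (J + 1)) → (Fin j → Lt k) → (Fin j' → Lt k) → ℂ)
    (ω : Fin k × Fin d × Fin d → ZMod q) :
    Matrix (R × (Fin d × Fin d)) (R × (Fin d × Fin d)) ℂ := fun u v =>
  ∑ j : Fin (J + 1), ∑ j' : Fin (J + 1), ∑ w : Fin j → Lt k, ∑ w' : Fin j' → Lt k,
    α u.1 v.1 j j' w w' * NB ω w u.2.1 v.2.1 * NB ω w' u.2.2 v.2.2 /
      ((√(d : ℝ) : ℝ) : ℂ) ^ ((j : ℕ) + (j' : ℕ))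

/-! ### positions, pairings, walks -/

abbrev Pos {m : ℕ} (len : Bool × Fin m → ℕ) : Type := Σ β : Bool × Fin m, Fin (len β)

def PairOK {m : ℕ} {len : Bool × Fin m → ℕ} (π : Pos len → Pos len) : Prop :=
  (∀ p, π (π p) = p) ∧ (∀ p, π p ≠ p) ∧
    ∀ (β : Bool × Fin m) (t : ℕ) (h : t + 1 < len β), π ⟨β, ⟨t, by omega⟩⟩ ≠ ⟨β, ⟨t + 1, h⟩⟩

open Classical in
noncomputable def badN {m : ℕ} {len : Bool × Fin m → ℕ} (π : Pos len → Pos len) : ℕ :=
  (Finset.univ.filter fun s : Fin m => ∃ p : Pos len, p.1.2 = s ∧ (π p).1.2 = s).card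

def WalkOK {m : ℕ} {len : Bool × Fin m → ℕ} {D : Type} (π : Pos len → Pos len)
    (z : Fin (m + 1) → D × D) (Γ : ∀ β : Bool × Fin m, Fin (len β + 1) → D) : Prop :=
  (∀ s : Fin m, Γ (false, s) 0 = (z s.castSucc).1 ∧ Γ (false, s) (Fin.last _) = (z s.succ).1 ∧
    Γ (true, s) 0 = (z s.castSucc).2 ∧ Γ (true, s) (Fin.last _) = (z s.succ).2) ∧
  ∀ p : Pos len, Γ (π p).1 (π p).2.castSucc = Γ p.1 p.2.succ

/-! ### levels, the alphabet and the representation -/

structure Level (k : ℕ) where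
  d : ℕ
  Y : Lt k → Matrix (Fin d) (Fin d) ℂ

abbrev FA (G : Type) : Type := FreeAlgebra ℂ G

/-- rational codes of elements of the free algebra -/
abbrev Code (G : Type) : Type := List ((ℚ × ℚ) × List G)

noncomputable def code {G : Type} (c : Code G) : FA G :=
  (c.map fun x => ((x.1.1 : ℂ) + (x.1.2 : ℂ) * Complex.I) • (x.2.map (FreeAlgebra.ι ℂ)).prod).sum

/-- the alphabet: at each level matrix (or null) letters and Fock letters -/
abbrev Al (k : ℕ) : Type := ℕ × (ℕ ⊕ Lt k)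

/-- the head is a Fock letter of level `m` -/
def isF {k : ℕ} (m : ℕ) : List (Al k) → Prop
  | (m', Sum.inr _) :: _ => m' = m
  | _ => False

open Classical in
noncomputable def yv {k : ℕ} (Y : ℕ → Level k) (a : Lt k) : List (Al k) → (List (Al k) →₀ ℂ)
  | [] => 0
  | (m, Sum.inl x) :: t =>
      if h : x < (Y m).d then
        ∑ x' : Fin (Y m).d, single ((m, Sum.inl (x' : ℕ)) :: t) ((Y m).Y a x' ⟨x, h⟩)
      else 0
  | (m, Sum.inr b) :: t =>
      single ((m, Sum.inr a) :: (m, Sum.inr b) :: t) 1 +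
        if b = bar a ∧ isF m t then single t 1 else 0

noncomputable def crv {A : Type} (ι : A) : List A → (List A →₀ ℂ) := fun t => single (ι :: t) 1

open Classical in
noncomputable def anv {A : Type} (ι : A) : List A → (List A →₀ ℂ)
  | [] => 0
  | ι' :: t => if ι' = ι then single t 1 else 0

/-- generators: creation, annihilation, and the `y a` -/
abbrev Gen (k : ℕ) : Type := (Al k ⊕ Al k) ⊕ Lt k

noncomputable def colG {k : ℕ} (Y : ℕ → Level k) : Gen k → List (Al k) → (List (Al k) →₀ ℂ)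
  | Sum.inl (Sum.inl ι) => crv ι
  | Sum.inl (Sum.inr ι) => anv ι
  | Sum.inr a => yv Y a

noncomputable def rho {k : ℕ} (Y : ℕ → Level k) : FA (Gen k) →ₐ[ℂ] En (List (Al k)) :=
  FreeAlgebra.lift ℂ fun g => lin (colG Y g)

/-- the universal model, with coefficients in the free algebra on the letters -/
noncomputable def uG {k : ℕ} (Y : ℕ → Level k) (g : Gen k) :
    Module.End ℂ (List (Al k) →₀ FA (Lt k)) :=
  Finsupp.lsum ℂ (fun u => (colG Y g u).sum fun u' c => c • Finsupp.lsingle u') +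
    match g with
    | Sum.inl _ => 0
    | Sum.inr a => (Finsupp.lsingle []) ∘ₗ (LinearMap.mulLeft ℂ (FreeAlgebra.ι ℂ a)) ∘ₗ
        (Finsupp.lapply [])

noncomputable def univ' {k : ℕ} (Y : ℕ → Level k) :
    FA (Gen k) →ₐ[ℂ] Module.End ℂ (List (Al k) →₀ FA (Lt k)) :=
  FreeAlgebra.lift ℂ (uG Y)

noncomputable def Fu {k : ℕ} (Y : ℕ → Level k) (p : FA (Gen k)) (u u' : List (Al k)) :
    FA (Lt k) := univ' Y p (single u' 1) u

/-- lists over `B` -/
def BL {A : Type} (B : Set A) : Set (List A) := {u | ∀ ι ∈ u, ι ∈ B}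

def genIn {k : ℕ} (B : Set (Al k)) : Gen k → Prop
  | Sum.inl (Sum.inl ι) => ι ∈ B
  | Sum.inl (Sum.inr ι) => ι ∈ B
  | Sum.inr _ => True

noncomputable def adj {k : ℕ} (B : Set (Al k)) : Subalgebra ℂ (FA (Gen k)) :=
  Algebra.adjoin ℂ (FreeAlgebra.ι ℂ '' {g | genIn B g})

/-- `B` is closed under the action of the `y a`, and `Y`, `Y'` agree on `B` -/
structure Clo {k : ℕ} (Y Y' : ℕ → Level k) (B : Set (Al k)) : Prop where
  mat : ∀ m x x', (m, Sum.inl x) ∈ B → x < (Y' m).d → x' < (Y' m).d → (m, Sum.inl x') ∈ B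
  foc : ∀ m a a', (m, Sum.inr a) ∈ B → (m, Sum.inr a') ∈ B
  agree : ∀ m x, (m, Sum.inl x) ∈ B → Y m = Y' m

/-- a family of roots outside `B` on which the `y a` act as `z a` -/
structure IsBlock {k : ℕ} (Y : ℕ → Level k) (B : Set (Al k)) {S : Type} (κ : S → List (Al k))
    (z : Lt k → En S) : Prop where
  inj : Function.Injective κ
  out : ∀ s ι t, κ s = ι :: t → ι ∉ B
  act : ∀ a s, yv Y a (κ s) = mapDomain κ (z a (single s 1))

/-- the finite sets of letters -/
def BB (k n N : ℕ) : Set (Al k) :=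
  {ι | ι.1 < n ∧ ∀ x, ι.2 = Sum.inl x → x < N}

/-! ### two-leg evaluation -/

abbrev GR (R : Type) (k : ℕ) : Type := (R × R) ⊕ (Lt k ⊕ Lt k)

open Classical in
noncomputable def unitE {R : Type} (r r' : R) : En R :=
  lin fun j => if j = r' then single r 1 else 0

noncomputable def ev2 {R S S' : Type} {k : ℕ} (z : Lt k → En S) (z' : Lt k → En S') :
    FA (GR R k) →ₐ[ℂ] En (R × (S × S')) :=
  FreeAlgebra.lift ℂ fun g => match g with
    | Sum.inl rr => tens (unitE rr.1 rr.2) 1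
    | Sum.inr (Sum.inl a) => tens 1 (tens (z a) 1)
    | Sum.inr (Sum.inr a) => tens 1 (tens 1 (z' a))

/-- evaluation of the free algebra on the letters -/
noncomputable def ev1 {S : Type} {k : ℕ} (z : Lt k → En S) : FA (Lt k) →ₐ[ℂ] En S :=
  FreeAlgebra.lift ℂ z

/-- one-leg kernel -/
noncomputable def K1 {R S : Type} {k : ℕ} (G : R → R → FA (Lt k)) (z : Lt k → En S) :
    R × S → R × S → ℂ := fun u v => ker (ev1 z (G u.1 v.1)) u.2 v.2

/-- two-leg kernel -/
noncomputable def K2 {R S S' : Type} {k : ℕ} (F : Fin k → R → R → FA (Lt k)) (z : Lt k → En S)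
    (z' : Lt k → En S') : (R × S) × S' → (R × S) × S' → ℂ := fun u v =>
  ∑ i, ker (ev1 z (F i u.1.1 v.1.1)) u.1.2 v.1.2 * ker (z' (i, false)) u.2 v.2

/-- basic properties of a level -/
structure LevOK {k : ℕ} (L : Level k) : Prop where
  pos : 0 < L.d
  herm : ∀ a, L.Y (bar a) = (L.Y a).conjTranspose
  uni : ∀ a x x', ‖L.Y a x x'‖ ^ 2 = 1 / (L.d : ℝ)

noncomputable def zL {k : ℕ} (L : Level k) : Lt k → En (Fin L.d) := fun a => mE (L.Y a)

end Pool.Agent.H612Z.Op
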