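import Pool.Agent.H612Z.Op.CStarC

set_option autoImplicit false

open scoped ComplexConjugate InnerProductSpace
open Finsupp

namespace Pool.Agent.H612Z.Op

theorem cstar_main {G J : Type} [Countable G] [Nonempty J] (ρ : FA G →ₐ[ℂ] En J)
    (hb : ∀ p, ∃ C, Bdd (ρ p) C) (hadj : ∀ p, ∃ q, IsAdj (ρ q) (ρ p))
    (hexc : ∀ (p : FA G) (ζ : J →₀ ℂ), ∃ x : FA G, Bdd (ρ x) (ζ.sum fun _ c => ‖c‖) ∧ ∀ t t' : J,
      (t' = t → ⟪emb J (ρ x (single t' 1)), emb J (ρ p (ρ x (single t 1)))⟫_ℂ =
        ⟪emb J ζ, emb J (ρ p ζ)⟫_ℂ) ∧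
      (t' ≠ t → ⟪emb J (ρ x (single t' 1)), emb J (ρ p (ρ x (single t 1)))⟫_ℂ = 0))
    (Jc : ℕ → FA G) (e : ℕ → J → J) (he : Function.Injective (Function.uncurry e))
    (hJ : ∀ s t, ρ (Jc s) (single t 1) = single (e s t) 1)
    (k : ℕ) (hk : 720 ^ 2 < k) (y : Fin k → FA G) (hy : ∀ i, Bdd (ρ (y i)) 4)
    (hest : ∀ c : Fin k → Code G, (∀ i, Bdd (ρ (code (c i))) 5) →
      ∃ d : ℕ, 0 < d ∧ ∃ (Y : Fin k → Matrix (Fin d) (Fin d) ℂ) (v : Fin d → J),
        (∀ i, KB (Y i) Set.univ 4) ∧ (∀ i s t, ‖Y i s t‖ ^ 2 = 1 / (d : ℝ)) ∧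
        (∀ i s t, ker (ρ (y i)) (v s) (v t) = conj (Y i t s)) ∧
        KB (fun a b : J × Fin d => ∑ i, ker (ρ (code (c i))) a.1 b.1 * Y i a.2 b.2) Set.univ
          (360 * √(k : ℝ))) :
    ∃ (A : Type) (_ : NonUnitalCStarAlgebra A),
      TopologicalSpace.SeparableSpace A ∧
      Nontrivial A ∧
      (∀ I : TwoSidedIdeal A, IsClosed (I : Set A) → I = ⊥ ∨ I = ⊤) ∧
      (∃ a b : A, a * b ≠ b * a) ∧
      (∀ c d : A, c ≠ 0 → d ≠ 0 → ∀ ε : ℝ, 0 < ε →
        ∃ x : A, ‖star x * (star c * c) * x - star d * d‖ < ε) ∧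
      IsEmpty (A ≃⋆ₐ[ℂ] Aᵐᵒᵖ) := by
  classical
  obtain ⟨A, inst, π, h1, h2, h3⟩ := cstarB_model ρ hb hadj
  have hkey := cstarC_key h1 h2 h3 hadj hexc
  choose Jq hq using fun s => hadj (Jc s)
  have hnt : Nontrivial A := by
    refine ⟨⟨1, 0, fun h => ?_⟩⟩
    have h4 : ‖π 1‖ ≤ 0 := by rw [map_one, h, norm_zero]
    have h5 := (h1 1 0 le_rfl).1 h4 (single (Classical.arbitrary J) 1)
    rw [map_one, Module.End.one_apply, norm_emb_single] at h5
    norm_num at h5
  have horth : ∀ s t, star (π (Jc s)) * π (Jc t) = if s = t then 1 else 0 := by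
    intro s t
    rw [← h2 _ _ (hq s), ← map_mul, cstarC_congr h1 (cstarC_orth he hJ hq s t)]
    split_ifs <;> simp
  refine ⟨A, CStarAlgebra.toNonUnitalCStarAlgebra A, ?_, hnt, ?_, ?_, ?_, ⟨fun θ => ?_⟩⟩
  · exact ⟨⟨_, Set.countable_range _, code_dense π h3⟩⟩
  · intro I _
    by_cases hI : I = ⊥
    · exact Or.inl hI
    right
    obtain ⟨c, hcI, hc⟩ : ∃ c ∈ I, c ≠ 0 := by
      by_contra h
      push Not at h
      exact hI (eq_bot_iff.2 fun c hc => (TwoSidedIdeal.mem_bot (R := A)).2 (h c hc))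
    obtain ⟨x, hx⟩ := hkey c hc 1 one_pos
    have hu : IsUnit (star x * (star c * c) * x) := by
      have := isUnit_one_sub_of_norm_lt_one (x := 1 - star x * (star c * c) * x)
        (by rwa [norm_sub_rev])
      rwa [sub_sub_cancel] at this
    have hm : star x * (star c * c) * x ∈ I :=
      I.mul_mem_right _ _ (I.mul_mem_left _ _ (I.mul_mem_left _ _ hcI))
    obtain ⟨u, hu⟩ := hu
    rw [← hu] at hm
    refine eq_top_iff.2 fun a _ => ?_
    have := I.mul_mem_left (a * (u⁻¹ : Aˣ)) _ hm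
    rwa [mul_assoc, Units.inv_mul, mul_one] at this
  · refine ⟨star (π (Jc 0)), π (Jc 0), fun h => ?_⟩
    have e0 := horth 0 0
    have e1 := horth 0 1
    have e2 := horth 1 1
    rw [if_pos rfl] at e0 e2
    rw [if_neg (by omega)] at e1
    have h4 : π (Jc 0) * star (π (Jc 0)) = 1 := h.symm.trans e0
    have h5 : π (Jc 1) = 0 := by
      rw [← one_mul (π (Jc 1)), ← h4, mul_assoc, e1, mul_zero]
    rw [h5, mul_zero] at e2
    exact zero_ne_one e2
  · intro c d hc _ ε hε
    obtain ⟨x, hx⟩ := hkey c hc (ε / (‖d‖ * ‖d‖ + 1)) (by positivity)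
    refine ⟨x * d, ?_⟩
    have h4 : star (x * d) * (star c * c) * (x * d) - star d * d =
        star d * (star x * (star c * c) * x - 1) * d := by
      simp only [star_mul, mul_sub, sub_mul, mul_assoc, one_mul, mul_one]
    rw [h4]
    have h5 := norm_mul_le (star d * (star x * (star c * c) * x - 1)) d
    have h6 := norm_mul_le (star d) (star x * (star c * c) * x - 1)
    rw [norm_star] at h6
    rw [lt_div_iff₀ (by positivity)] at hx
    have h7 := norm_nonneg d
    have h8 := norm_nonneg (star x * (star c * c) * x - 1)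
    calc _ ≤ ‖d‖ * ‖star x * (star c * c) * x - 1‖ * ‖d‖ :=
          h5.trans (mul_le_mul_of_nonneg_right h6 h7)
      _ ≤ ‖star x * (star c * c) * x - 1‖ * (‖d‖ * ‖d‖ + 1) := by nlinarith
      _ < ε := hx
  · let ψ : A →ₗ[ℂ] A :=
      { toFun := fun a => MulOpposite.unop (θ a)
        map_add' := fun a b => by simp
        map_smul' := fun r a => by simp }
    have hψ : ∀ a, ψ a = MulOpposite.unop (θ a) := fun _ => rfl
    have hψs : ∀ a, ψ (star a) = star (ψ a) := fun a => by
      rw [hψ, hψ, map_star, MulOpposite.unop_star]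
    have hψm : ∀ a b, ψ (a * b) = ψ b * ψ a := fun a b => by
      rw [hψ, hψ, hψ, map_mul, MulOpposite.unop_mul]
    have hψn : ∀ a, ‖ψ a‖ = ‖a‖ := fun a => by
      rw [hψ, MulOpposite.norm_unop]
      exact NonUnitalStarAlgHom.norm_map θ θ.injective a
    let a : Fin k → A := fun i => θ.symm (MulOpposite.op (π (y i)))
    have ha : ∀ i, ψ (a i) = π (y i) := fun i => by
      rw [hψ, StarAlgEquiv.apply_symm_apply, MulOpposite.unop_op]
    have ha4 : ∀ i, ‖a i‖ ≤ 4 := fun i => by
      rw [← hψn, ha]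
      exact (h1 _ _ (by norm_num)).2 (hy i)
    choose c hc using fun i => (code_dense π h3).exists_dist_lt (a i) (show (0 : ℝ) < 1 / 8 by norm_num)
    simp only [dist_eq_norm] at hc
    have hc5 : ∀ i, Bdd (ρ (code (c i))) 5 := fun i => by
      refine (h1 _ _ (by norm_num)).1 ?_
      have h4 := norm_sub_le (a i) (a i - π (code (c i)))
      rw [sub_sub_cancel] at h4
      linarith [hc i, ha4 i]
    obtain ⟨d, hd, Y, v, hY1, hY2, hY3, hY4⟩ := hest c hc5
    let Jd : Fin d → A := fun s => π (Jc s)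
    have hJd : Orth Jd := fun s t => by
      simp only [Jd, horth, Fin.val_inj]
    let M : Matrix (Fin d) (Fin d) A := Matrix.of fun s t => ∑ i, Y i s t • a i
    have hanti := amp_anti hJd ψ hψs hψm (fun a => (hψn a).le) M
    have hlow : (k : ℝ) ≤ ‖amp Jd (Matrix.of fun s t => ψ (M t s))‖ := by
      have e1 : amp Jd (Matrix.of fun s t => ψ (M t s)) =
          π (ampF Jc Jq fun s t : Fin d => ∑ i, Y i t s • y i) := by
        rw [pi_ampF h2 hq]
        simp only [M, Matrix.of_apply, map_sum, map_smul, ha]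
        rfl
      rw [e1]
      set C := ‖π (ampF Jc Jq fun s t : Fin d => ∑ i, Y i t s • y i)‖ with hC
      have hC0 : 0 ≤ C := norm_nonneg _
      have e2 := (bdd_iff_KB hC0).1 ((h1 _ C hC0).1 le_rfl)
      have e3 : KB (fun _ _ : Fin d => ((k / d : ℝ) : ℂ)) Set.univ C := by
        refine e2.pull (fun s : Fin d => e s (v s)) (fun s _ t _ h => ?_) (fun _ _ => trivial)
          fun s _ t _ => ?_
        · exact Fin.ext (cstarC_inj he h).1
        · rw [ker_ampF_in he hJ hq]
          simp only [map_sum, map_smul, ker_sum, ker_smul, hY3, Complex.mul_conj,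
            Complex.normSq_eq_norm_sq, hY2]
          simp [div_eq_mul_inv]
      have e4 := e3 Finset.univ (Set.subset_univ _) (fun _ => 1) (fun _ => 1)
      have hd' : (0 : ℝ) < d := by exact_mod_cast hd
      simp only [map_one, one_mul, mul_one, Finset.sum_const, Finset.card_univ, Fintype.card_fin,
        nsmul_eq_mul, norm_one, one_pow, norm_mul, Complex.norm_natCast, Complex.norm_real] at e4
      rw [mul_assoc C, Real.mul_self_sqrt hd'.le, Real.norm_of_nonneg (by positivity),
        mul_div_cancel₀ _ hd'.ne', mul_comm] at e4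
      exact le_of_mul_le_mul_right e4 hd'
    have hup : ‖amp Jd M‖ ≤ 360 * √(k : ℝ) + k / 2 := by
      have e1 : M = (Matrix.of fun s t => π (∑ i, Y i s t • code (c i))) +
          ∑ i, (Matrix.diagonal fun _ => a i - π (code (c i))) *
            (Matrix.of fun s t => π (Y i s t • 1)) := by
        ext s t
        simp only [M, Matrix.of_apply, Matrix.add_apply, Matrix.sum_apply, Matrix.diagonal_mul,
          map_sum, map_smul, map_one, mul_smul_comm, mul_one, ← Finset.sum_add_distrib,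
          ← smul_add, add_sub_cancel]
      have e2 : ‖amp Jd (Matrix.of fun s t => π (∑ i, Y i s t • code (c i)))‖ ≤
          360 * √(k : ℝ) := by
        rw [← pi_ampF h2 hq]
        refine (h1 _ _ (by positivity)).2 (bdd_ampF he hJ hq _ (by positivity) ?_)
        refine hY4.congr fun u _ w _ => ?_
        simp only [map_sum, map_smul, ker_sum, ker_smul, mul_comm]
      have e3 : ∀ i, ‖amp Jd (Matrix.of fun s t => π (Y i s t • 1))‖ ≤ 4 := by
        intro i
        rw [← pi_ampF h2 hq]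
        refine (h1 _ _ (by norm_num)).2 (bdd_ampF he hJ hq _ (by norm_num) ?_)
        refine (KB.ampl (by norm_num) (hY1 i) J).pull Prod.swap (Prod.swap_injective.injOn)
          (fun _ _ => trivial) fun u _ w _ => ?_
        simp only [map_smul, map_one, ker_smul, ker_one, Prod.fst_swap, Prod.snd_swap]
      rw [e1, amp_add, amp_sum]
      refine (norm_add_le _ _).trans (add_le_add e2 ((norm_sum_le _ _).trans ?_))
      calc _ ≤ ∑ _i : Fin k, (1 / 2 : ℝ) := by
            refine Finset.sum_le_sum fun i _ => ?_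
            rw [amp_mul hJd]
            refine (norm_mul_le _ _).trans ?_
            have e4 := (amp_diag hJd (a i - π (code (c i)))).trans (hc i).le
            calc _ ≤ 1 / 8 * 4 := mul_le_mul e4 (e3 i) (norm_nonneg _) (by norm_num)
              _ = 1 / 2 := by norm_num
        _ = k / 2 := by simp [div_eq_mul_inv]
    have hk' : (720 : ℝ) ^ 2 < k := by exact_mod_cast hk
    have hs := Real.mul_self_sqrt (show (0 : ℝ) ≤ k by positivity)
    have hs0 := Real.sqrt_nonneg (k : ℝ)
    have hs1 : 720 < √(k : ℝ) := by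
      rw [Real.lt_sqrt (by norm_num)]
      exact hk'
    nlinarith

end Pool.Agent.H612Z.Op
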