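import Mathlib

set_option autoImplicit false

open Matrix

namespace Pool.Agent.H612Z.Op

theorem cstarA_le_of_pow {x C D : ℝ} (hC : 0 ≤ C) (hD : 0 ≤ D)
    (h : ∀ r : ℕ, x ^ 2 ^ r ≤ D * C ^ 2 ^ r) : x ≤ C := by
  by_contra hlt
  have hlt : C < x := not_le.1 hlt
  have hx : 0 < x := lt_of_le_of_lt hC hlt
  have hq0 : 0 ≤ C / x := div_nonneg hC hx.le
  have hq1 : C / x < 1 := (div_lt_one hx).2 hlt
  obtain ⟨n, hn⟩ := exists_pow_lt_of_lt_one (show 0 < 1 / (D + 1) by positivity) hq1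
  have h1 : (C / x) ^ 2 ^ n ≤ (C / x) ^ n :=
    pow_le_pow_of_le_one hq0 hq1.le (Nat.lt_two_pow_self).le
  have h2 := h n
  have h3 : C ^ 2 ^ n = (C / x) ^ 2 ^ n * x ^ 2 ^ n := by
    rw [← mul_pow, div_mul_cancel₀ _ hx.ne']
  have h4 : 0 < x ^ 2 ^ n := pow_pos hx _
  rw [h3, ← mul_assoc] at h2
  have h5 : 1 ≤ D * (C / x) ^ 2 ^ n := by
    by_contra h6
    have h6 : D * (C / x) ^ 2 ^ n < 1 := not_le.1 h6
    nlinarith
  have h7 : (C / x) ^ 2 ^ n * (D + 1) < 1 := by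
    have := lt_of_le_of_lt h1 hn
    rwa [lt_div_iff₀ (by positivity)] at this
  have h8 : 0 ≤ (C / x) ^ 2 ^ n := pow_nonneg hq0 _
  nlinarith

section Amp

variable {A : Type} [CStarAlgebra A] {d : ℕ}

noncomputable def amp (J : Fin d → A) (M : Matrix (Fin d) (Fin d) A) : A :=
  ∑ s, ∑ t, J s * M s t * star (J t)

def Orth (J : Fin d → A) : Prop := ∀ s t, star (J s) * J t = if s = t then 1 else 0

theorem amp_add (J : Fin d → A) (M N : Matrix (Fin d) (Fin d) A) :
    amp J (M + N) = amp J M + amp J N := by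
  simp only [amp, Matrix.add_apply, mul_add, add_mul, Finset.sum_add_distrib]

theorem amp_sum {α : Type} (J : Fin d → A) (S : Finset α) (M : α → Matrix (Fin d) (Fin d) A) :
    amp J (∑ i ∈ S, M i) = ∑ i ∈ S, amp J (M i) := by
  classical
  induction S using Finset.induction_on with
  | empty => simp [amp]
  | insert a S ha ih => rw [Finset.sum_insert ha, Finset.sum_insert ha, amp_add, ih]

theorem amp_star (J : Fin d → A) (M : Matrix (Fin d) (Fin d) A) :
    star (amp J M) = amp J Mᴴ := by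
  simp only [amp, star_sum, star_mul, star_star, conjTranspose_apply, mul_assoc]
  exact Finset.sum_comm

theorem amp_mul_J {J : Fin d → A} (hJ : Orth J) (M : Matrix (Fin d) (Fin d) A) (t : Fin d) :
    amp J M * J t = ∑ s, J s * M s t := by
  simp only [amp, Finset.sum_mul, mul_assoc, hJ _ _, mul_ite, mul_one, mul_zero,
    Finset.sum_ite_eq', Finset.mem_univ, if_true]

theorem amp_mul {J : Fin d → A} (hJ : Orth J) (M N : Matrix (Fin d) (Fin d) A) :
    amp J (M * N) = amp J M * amp J N := by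
  have h : amp J M * amp J N = ∑ u, ∑ t, (∑ s, J s * M s u) * N u t * star (J t) := by
    conv_lhs => rw [amp.eq_1 J N]
    simp only [Finset.mul_sum, ← mul_assoc, amp_mul_J hJ]
  rw [h, amp]
  simp only [Matrix.mul_apply, Finset.mul_sum, Finset.sum_mul, mul_assoc]
  calc ∑ s, ∑ t, ∑ u, J s * (M s u * (N u t * star (J t)))
      = ∑ s, ∑ u, ∑ t, J s * (M s u * (N u t * star (J t))) :=
        Finset.sum_congr rfl fun _ _ => Finset.sum_comm
    _ = ∑ u, ∑ s, ∑ t, J s * (M s u * (N u t * star (J t))) := Finset.sum_comm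
    _ = _ := Finset.sum_congr rfl fun _ _ => Finset.sum_comm

theorem amp_entry {J : Fin d → A} (hJ : Orth J) (M : Matrix (Fin d) (Fin d) A) (s t : Fin d) :
    star (J s) * amp J M * J t = M s t := by
  rw [mul_assoc, amp_mul_J hJ]
  simp only [Finset.mul_sum, ← mul_assoc, hJ _ _, ite_mul, one_mul, zero_mul, Finset.sum_ite_eq,
    Finset.mem_univ, if_true]

theorem orth_norm {J : Fin d → A} (hJ : Orth J) (s : Fin d) : ‖J s‖ ≤ 1 := by
  have h := CStarRing.norm_star_mul_self (x := J s)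
  rw [hJ s s, if_pos rfl] at h
  have h1 : ‖(1 : A)‖ ≤ 1 := by
    rcases subsingleton_or_nontrivial A with hA | hA
    · rw [Subsingleton.elim (1 : A) 0]; simp
    · simp
  have h2 := norm_nonneg (J s)
  nlinarith

theorem norm_mul3_le {a b c : A} (ha : ‖a‖ ≤ 1) (hc : ‖c‖ ≤ 1) : ‖a * b * c‖ ≤ ‖b‖ := by
  have h1 := norm_mul_le (a * b) c
  have h2 := norm_mul_le a b
  have h3 := norm_nonneg b
  have h4 := norm_nonneg (a * b)
  have h5 := norm_nonneg c
  have h6 := norm_nonneg a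
  nlinarith

theorem entry_le_amp {J : Fin d → A} (hJ : Orth J) (M : Matrix (Fin d) (Fin d) A) (s t : Fin d) :
    ‖M s t‖ ≤ ‖amp J M‖ := by
  rw [← amp_entry hJ M s t]
  exact norm_mul3_le (by rw [norm_star]; exact orth_norm hJ s) (orth_norm hJ t)

theorem amp_le_entries {J : Fin d → A} (hJ : Orth J) (M : Matrix (Fin d) (Fin d) A) {C : ℝ}
    (h : ∀ s t, ‖M s t‖ ≤ C) : ‖amp J M‖ ≤ (d * d : ℝ) * C := by
  calc ‖amp J M‖ ≤ ∑ s, ‖∑ t, J s * M s t * star (J t)‖ := norm_sum_le _ _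
    _ ≤ ∑ _s : Fin d, ∑ _t : Fin d, C := by
        refine Finset.sum_le_sum fun s _ => (norm_sum_le _ _).trans ?_
        refine Finset.sum_le_sum fun t _ => le_trans ?_ (h s t)
        exact norm_mul3_le (orth_norm hJ s) (by rw [norm_star]; exact orth_norm hJ t)
    _ = _ := by simp [mul_assoc]

theorem amp_pow {J : Fin d → A} (hJ : Orth J) (M : Matrix (Fin d) (Fin d) A) (n : ℕ) :
    amp J (M ^ (n + 1)) = amp J M ^ (n + 1) := by
  induction n with
  | zero => simp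
  | succ n ih => rw [pow_succ, amp_mul hJ, ih, ← pow_succ]

theorem amp_power_trick {J : Fin d → A} (hJ : Orth J) (M : Matrix (Fin d) (Fin d) A) {C : ℝ}
    (hC : 0 ≤ C) (h : ∀ (n : ℕ) s t, ‖((Mᴴ * M) ^ (n + 1)) s t‖ ≤ (C ^ 2) ^ (n + 1)) :
    ‖amp J M‖ ≤ C := by
  have h1 : amp J (Mᴴ * M) = star (amp J M) * amp J M := by rw [amp_mul hJ, amp_star]
  have h2 : IsSelfAdjoint (amp J (Mᴴ * M)) := by
    rw [h1]; exact IsSelfAdjoint.star_mul_self _
  have h3 : ‖amp J (Mᴴ * M)‖ ≤ C ^ 2 := by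
    refine cstarA_le_of_pow (D := d * d) (by positivity) (by positivity) fun r => ?_
    obtain ⟨n, hn⟩ : ∃ n, 2 ^ r = n + 1 := ⟨2 ^ r - 1, by have := Nat.one_le_two_pow (n := r); omega⟩
    rw [← h2.norm_pow_two_pow r, hn, ← amp_pow hJ]
    exact amp_le_entries hJ _ (h n)
  rw [h1, CStarRing.norm_star_mul_self] at h3
  have h4 := norm_nonneg (amp J M)
  nlinarith

theorem amp_diag {J : Fin d → A} (hJ : Orth J) (b : A) :
    ‖amp J (Matrix.diagonal fun _ => b)‖ ≤ ‖b‖ := by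
  refine amp_power_trick hJ _ (norm_nonneg _) fun n s t => ?_
  rw [Matrix.diagonal_conjTranspose, Matrix.diagonal_mul_diagonal, Matrix.diagonal_pow,
    Matrix.diagonal_apply]
  split_ifs
  · simp only [Pi.pow_apply, Pi.star_apply]
    refine (norm_pow_le' _ (Nat.succ_pos n)).trans ?_
    rw [CStarRing.norm_star_mul_self, sq]
  · simp only [norm_zero]; positivity

theorem amp_anti {J : Fin d → A} (hJ : Orth J) (ψ : A →ₗ[ℂ] A)
    (hs : ∀ a, ψ (star a) = star (ψ a)) (hm : ∀ a b, ψ (a * b) = ψ b * ψ a)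
    (hn : ∀ a, ‖ψ a‖ ≤ ‖a‖) (M : Matrix (Fin d) (Fin d) A) :
    ‖amp J (Matrix.of fun s t => ψ (M t s))‖ ≤ ‖amp J M‖ := by
  let Φ : Matrix (Fin d) (Fin d) A → Matrix (Fin d) (Fin d) A :=
    fun N => Matrix.of fun s t => ψ (N t s)
  have h1 : ∀ N N', Φ (N * N') = Φ N' * Φ N := by
    intro N N'
    ext s t
    simp only [Φ, Matrix.of_apply, Matrix.mul_apply, map_sum, hm]
  have h2 : ∀ N, (Φ N)ᴴ = Φ Nᴴ := by
    intro N
    ext s t
    simp only [Φ, Matrix.of_apply, conjTranspose_apply, hs]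
  have h3 : ∀ N (n : ℕ), Φ N ^ (n + 1) = Φ (N ^ (n + 1)) := by
    intro N n
    induction n with
    | zero => simp
    | succ n ih => rw [pow_succ, ih, ← h1, ← pow_succ']
  change ‖amp J (Φ M)‖ ≤ _
  refine amp_power_trick hJ _ (norm_nonneg _) fun n s t => ?_
  rw [h2, ← h1, h3]
  refine (hn _).trans ((entry_le_amp hJ _ t s).trans ?_)
  rw [amp_pow hJ]
  refine (norm_pow_le' _ (Nat.succ_pos n)).trans ?_
  rw [amp_mul hJ, ← amp_star, CStarRing.norm_self_mul_star, sq]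

end Amp

end Pool.Agent.H612Z.Op
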