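import Pool.Agent.H612Z.Op.Ker

set_option autoImplicit false

open scoped ComplexConjugate InnerProductSpace
open Finsupp

namespace Pool.Agent.H612Z.Op

variable {J : Type}

noncomputable def cext (T : En J) : HS J →L[ℂ] HS J := ((emb J) ∘ₗ T).extendOfNorm (emb J)

theorem cext_emb {T : En J} (h : ∃ C, Bdd T C) (ξ : J →₀ ℂ) :
    cext T (emb J ξ) = emb J (T ξ) :=
  LinearMap.extendOfNorm_eq (f := (emb J) ∘ₗ T) dense_emb h ξ

theorem cext_norm_le {T : En J} {C : ℝ} (hC : 0 ≤ C) (h : Bdd T C) : ‖cext T‖ ≤ C :=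
  LinearMap.opNorm_extendOfNorm_le (f := (emb J) ∘ₗ T) dense_emb hC h

theorem cstarB_ext {S T : HS J →L[ℂ] HS J} (h : ∀ ξ, S (emb J ξ) = T (emb J ξ)) : S = T := by
  ext1 x
  exact dense_emb.induction_on x (isClosed_eq S.continuous T.continuous) h

theorem cstarB_model {G : Type} (ρ : FA G →ₐ[ℂ] En J)
    (hb : ∀ p, ∃ C, Bdd (ρ p) C) (hadj : ∀ p, ∃ q, IsAdj (ρ q) (ρ p)) :
    ∃ (A : Type) (_ : CStarAlgebra A) (π : FA G →ₐ[ℂ] A),
      (∀ p C, 0 ≤ C → (‖π p‖ ≤ C ↔ Bdd (ρ p) C)) ∧
      (∀ p q, IsAdj (ρ q) (ρ p) → π q = star (π p)) ∧ DenseRange π := by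
  let π0 : FA G →ₐ[ℂ] (HS J →L[ℂ] HS J) :=
    { toFun := fun p => cext (ρ p)
      map_one' := cstarB_ext fun ξ => by rw [cext_emb (hb _), map_one]; rfl
      map_mul' := fun p q => cstarB_ext fun ξ => by
        rw [cext_emb (hb _), mul_apply_eq_comp, cext_emb (hb _), cext_emb (hb _),
          map_mul]
        rfl
      map_zero' := cstarB_ext fun ξ => by rw [cext_emb (hb _), map_zero]; simp
      map_add' := fun p q => cstarB_ext fun ξ => by
        rw [cext_emb (hb _), _root_.add_apply, cext_emb (hb _), cext_emb (hb _),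
          map_add, LinearMap.add_apply, map_add]
      commutes' := fun r => cstarB_ext fun ξ => by
        rw [cext_emb (hb _), AlgHom.commutes, Algebra.algebraMap_eq_smul_one,
          Algebra.algebraMap_eq_smul_one]
        simp }
  have hπ0 : ∀ p ξ, π0 p (emb J ξ) = emb J (ρ p ξ) := fun p ξ => cext_emb (hb p) ξ
  have hstar : ∀ p q, IsAdj (ρ q) (ρ p) → π0 q = star (π0 p) := by
    intro p q h
    rw [ContinuousLinearMap.star_eq_adjoint, ContinuousLinearMap.eq_adjoint_iff]
    intro x y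
    refine dense_emb.induction_on₂ (p := fun x y => ⟪π0 q x, y⟫_ℂ = ⟪x, π0 p y⟫_ℂ)
      (isClosed_eq (by fun_prop) (by fun_prop)) (fun η ξ => ?_) x y
    rw [hπ0, hπ0]
    exact h.inner η ξ
  let A0 : StarSubalgebra ℂ (HS J →L[ℂ] HS J) :=
    { toSubalgebra := π0.range
      star_mem' := by
        rintro _ ⟨p, rfl⟩
        obtain ⟨q, hq⟩ := hadj p
        exact ⟨q, hstar p q hq⟩ }
  have hcl : IsClosed (A0.topologicalClosure : Set (HS J →L[ℂ] HS J)) :=
    A0.isClosed_topologicalClosure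
  have hmem : ∀ p, π0 p ∈ A0.topologicalClosure := fun p => A0.le_topologicalClosure ⟨p, rfl⟩
  let π : FA G →ₐ[ℂ] A0.topologicalClosure :=
    π0.codRestrict A0.topologicalClosure.toSubalgebra hmem
  refine ⟨A0.topologicalClosure, inferInstance, π, fun p C hC => ⟨fun h ξ => ?_, fun h => ?_⟩,
    fun p q h => Subtype.ext (hstar p q h), ?_⟩
  · rw [← hπ0]
    exact ((π0 p).le_opNorm _).trans (mul_le_mul_of_nonneg_right h (norm_nonneg _))
  · exact cext_norm_le hC h
  · intro a
    have ha : (a : HS J →L[ℂ] HS J) ∈ closure (Set.range π0) := a.2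
    rw [Metric.mem_closure_iff] at ha ⊢
    intro ε hε
    obtain ⟨_, ⟨p, rfl⟩, hp⟩ := ha ε hε
    exact ⟨π p, ⟨p, rfl⟩, hp⟩

/-! ### codes -/

noncomputable def cmono {G : Type} (x : (ℚ × ℚ) × List G) : FA G :=
  ((x.1.1 : ℂ) + (x.1.2 : ℂ) * Complex.I) • (x.2.map (FreeAlgebra.ι ℂ)).prod

theorem code_nil {G : Type} : code ([] : Code G) = 0 := rfl

theorem code_cons {G : Type} (x : (ℚ × ℚ) × List G) (c : Code G) :
    code (x :: c) = cmono x + code c := rfl

theorem code_append {G : Type} (c c' : Code G) : code (c ++ c') = code c + code c' := by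
  simp [code]

theorem code_mono_mul {G : Type} (x : (ℚ × ℚ) × List G) (c : Code G) :
    ∃ c', code c' = cmono x * code c := by
  induction c with
  | nil => exact ⟨[], by simp [code_nil]⟩
  | cons y c ih =>
    obtain ⟨c', hc'⟩ := ih
    refine ⟨((x.1.1 * y.1.1 - x.1.2 * y.1.2, x.1.1 * y.1.2 + x.1.2 * y.1.1), x.2 ++ y.2) :: c', ?_⟩
    rw [code_cons, code_cons, mul_add, hc']
    congr 1
    simp only [cmono, List.map_append, List.prod_append, smul_mul_smul_comm]
    congr 1
    push_cast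
    linear_combination (-(x.1.2 : ℂ) * (y.1.2 : ℂ)) * Complex.I_mul_I

theorem code_mul {G : Type} (c c' : Code G) : ∃ c'', code c'' = code c * code c' := by
  induction c with
  | nil => exact ⟨[], by simp [code_nil]⟩
  | cons x c ih =>
    obtain ⟨c1, h1⟩ := ih
    obtain ⟨c2, h2⟩ := code_mono_mul x c'
    exact ⟨c2 ++ c1, by rw [code_append, code_cons, add_mul, h1, h2]⟩

theorem code_dense {G A : Type} [CStarAlgebra A] (π : FA G →ₐ[ℂ] A) (h : DenseRange π) :
    DenseRange (fun c : Code G => π (code c)) := by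
  have h1 : ∀ p, π p ∈ closure (Set.range fun c : Code G => π (code c)) := by
    intro p
    induction p using FreeAlgebra.induction with
    | grade0 r =>
      have hr : π (algebraMap ℂ (FA G) r) = ((r.re : ℂ) + (r.im : ℂ) * Complex.I) • (1 : A) := by
        rw [Complex.re_add_im, AlgHom.commutes, Algebra.algebraMap_eq_smul_one]
      rw [hr]
      refine map_mem_closure₂ (f := fun a b : ℝ => ((a : ℂ) + (b : ℂ) * Complex.I) • (1 : A))
        (by fun_prop) (Rat.denseRange_cast r.re) (Rat.denseRange_cast r.im) ?_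
      rintro _ ⟨a, rfl⟩ _ ⟨b, rfl⟩
      exact ⟨[((a, b), [])], by simp [code]⟩
    | grade1 g => exact subset_closure ⟨[((1, 0), [g])], by simp [code]⟩
    | mul a b ha hb =>
      rw [map_mul]
      refine map_mem_closure₂ (f := fun a b : A => a * b) (by fun_prop) ha hb ?_
      rintro _ ⟨c, rfl⟩ _ ⟨c', rfl⟩
      obtain ⟨c'', h''⟩ := code_mul c c'
      exact ⟨c'', by simp only [h'', map_mul]⟩
    | add a b ha hb =>
      rw [map_add]
      refine map_mem_closure₂ (f := fun a b : A => a + b) (by fun_prop) ha hb ?_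
      rintro _ ⟨c, rfl⟩ _ ⟨c', rfl⟩
      exact ⟨c ++ c', by simp only [code_append, map_add]⟩
  intro a
  have h2 : closure (Set.range π) ⊆ closure (Set.range fun c : Code G => π (code c)) :=
    closure_minimal (by rintro _ ⟨p, rfl⟩; exact h1 p) isClosed_closure
  exact h2 (h a)

end Pool.Agent.H612Z.Op
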