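import Pool.Agent.H612Z.Op.CStarA
import Pool.Agent.H612Z.Op.CStarB

set_option autoImplicit false

open scoped ComplexConjugate InnerProductSpace
open Finsupp

namespace Pool.Agent.H612Z.Op

variable {G J A : Type} [CStarAlgebra A]

theorem cstarC_congr {ρ : FA G →ₐ[ℂ] En J} {π : FA G →ₐ[ℂ] A}
    (h1 : ∀ p C, 0 ≤ C → (‖π p‖ ≤ C ↔ Bdd (ρ p) C)) {p p' : FA G} (h : ρ p = ρ p') :
    π p = π p' := by
  have h2 : ‖π (p - p')‖ ≤ 0 := (h1 _ 0 le_rfl).2 (by rw [map_sub, h, sub_self]; exact bdd_zero)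
  rw [map_sub] at h2
  exact sub_eq_zero.1 (norm_le_zero_iff.1 h2)

theorem cstarC_coord (ξ : J →₀ ℂ) (t : J) : ⟪emb J (single t 1), emb J ξ⟫_ℂ = ξ t := by
  rw [inner_emb _ _ {t} (Finsupp.support_single_subset)]
  simp

theorem cstarC_key {ρ : FA G →ₐ[ℂ] En J} {π : FA G →ₐ[ℂ] A}
    (h1 : ∀ p C, 0 ≤ C → (‖π p‖ ≤ C ↔ Bdd (ρ p) C))
    (h2 : ∀ p q, IsAdj (ρ q) (ρ p) → π q = star (π p)) (h3 : DenseRange π)
    (hadj : ∀ p, ∃ q, IsAdj (ρ q) (ρ p))
    (hexc : ∀ (p : FA G) (ζ : J →₀ ℂ), ∃ x : FA G, Bdd (ρ x) (ζ.sum fun _ c => ‖c‖) ∧ ∀ t t' : J,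
      (t' = t → ⟪emb J (ρ x (single t' 1)), emb J (ρ p (ρ x (single t 1)))⟫_ℂ =
        ⟪emb J ζ, emb J (ρ p ζ)⟫_ℂ) ∧
      (t' ≠ t → ⟪emb J (ρ x (single t' 1)), emb J (ρ p (ρ x (single t 1)))⟫_ℂ = 0))
    (c : A) (hc : c ≠ 0) (ε : ℝ) (hε : 0 < ε) :
    ∃ x : A, ‖star x * (star c * c) * x - 1‖ < ε := by
  classical
  have hN : 0 < ‖c‖ := norm_pos_iff.2 hc
  obtain ⟨p0, hp0⟩ := h3.exists_dist_lt c (show 0 < ‖c‖ / 4 by positivity)
  rw [dist_eq_norm] at hp0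
  have hp0' : ¬ Bdd (ρ p0) (3 * ‖c‖ / 4) := by
    intro h
    have h4 := (h1 p0 _ (by positivity)).2 h
    have h5 := norm_add_le (c - π p0) (π p0)
    rw [sub_add_cancel] at h5
    linarith
  obtain ⟨ζ, hζ⟩ := not_forall.1 hp0'
  have hζ : 3 * ‖c‖ / 4 * ‖emb J ζ‖ < ‖emb J (ρ p0 ζ)‖ := not_le.1 hζ
  have hζ0 : 0 < ‖emb J ζ‖ := by
    refine lt_of_le_of_ne (norm_nonneg _) fun h => ?_
    have h4 := (h1 p0 _ (norm_nonneg _)).1 le_rfl ζ
    rw [← h] at h4 hζ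
    linarith
  set L : ℝ := ζ.sum fun _ c => ‖c‖ with hL
  have hL0 : 0 ≤ L := Finset.sum_nonneg fun _ _ => norm_nonneg _
  set μ : ℝ := ‖c‖ / 4 * ‖emb J ζ‖ with hμ
  have hμ0 : 0 < μ := by positivity
  have hη : 0 < ε / ((L / μ) ^ 2 + 1) := by positivity
  have hopen : IsOpen {a : A | ‖c - a‖ < ‖c‖ / 4 ∧
      ‖star c * c - star a * a‖ < ε / ((L / μ) ^ 2 + 1)} :=
    IsOpen.and (isOpen_lt (f := fun a : A => ‖c - a‖) (by fun_prop) continuous_const)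
      (isOpen_lt (f := fun a : A => ‖star c * c - star a * a‖) (by fun_prop) continuous_const)
  obtain ⟨p, hp1, hp2⟩ := h3.exists_mem_open hopen ⟨c, by simp [hN], by simp [hη]⟩
  have h4 : ‖π (p0 - p)‖ ≤ ‖c‖ / 2 := by
    rw [map_sub]
    have h5 := norm_sub_le (c - π p) (c - π p0)
    rw [show c - π p - (c - π p0) = π p0 - π p by abel] at h5
    linarith
  have h5 := (h1 _ _ (by positivity)).1 h4 ζ
  rw [map_sub, LinearMap.sub_apply, map_sub] at h5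
  set ν : ℝ := ‖emb J (ρ p ζ)‖ with hν
  have hμν : μ ≤ ν := by
    have h6 := norm_add_le (emb J (ρ p0 ζ) - emb J (ρ p ζ)) (emb J (ρ p ζ))
    rw [sub_add_cancel] at h6
    rw [hμ]
    linarith
  have hν0 : 0 < ν := lt_of_lt_of_le hμ0 hμν
  obtain ⟨q, hq⟩ := hadj p
  obtain ⟨x, hx1, hx2⟩ := hexc (q * p) ζ
  obtain ⟨x', hx'⟩ := hadj x
  have hlam : ⟪emb J ζ, emb J (ρ (q * p) ζ)⟫_ℂ = ((ν ^ 2 : ℝ) : ℂ) := by
    rw [map_mul, Module.End.mul_apply, ← hq.symm.inner, inner_self_eq_norm_sq_to_K]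
    simp [hν]
  have h6 : ρ (x' * (q * p) * x) = ρ (((ν ^ 2 : ℝ) : ℂ) • 1) := by
    refine ker_ext fun t' t => ?_
    rw [map_smul, map_one, ker_smul, ker_one, ker, ← cstarC_coord, map_mul, map_mul ρ x',
      Module.End.mul_apply, Module.End.mul_apply, ← hx'.symm.inner]
    split_ifs with h
    · rw [(hx2 t t').1 h, hlam, mul_one]
    · rw [(hx2 t t').2 h, mul_zero]
  have h7 := cstarC_congr h1 h6
  rw [map_mul, map_mul, map_mul, h2 _ _ hx', h2 _ _ hq, map_smul, map_one] at h7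
  have h8 : ‖π x‖ ≤ L := (h1 _ _ hL0).2 hx1
  set X : A := ((ν⁻¹ : ℝ) : ℂ) • π x with hX
  have h9 : star X * (star (π p) * π p) * X = 1 := by
    rw [hX, star_smul, smul_mul_assoc, smul_mul_assoc, mul_smul_comm, h7, smul_smul, smul_smul]
    have : star ((ν⁻¹ : ℝ) : ℂ) * ((ν⁻¹ : ℝ) : ℂ) * ((ν ^ 2 : ℝ) : ℂ) = 1 := by
      rw [Complex.star_def, Complex.conj_ofReal, ← Complex.ofReal_mul, ← Complex.ofReal_mul]
      have : ν⁻¹ * ν⁻¹ * ν ^ 2 = 1 := by field_simp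
      rw [this, Complex.ofReal_one]
    rw [this, one_smul]
  have h10 : ‖X‖ ≤ L / μ := by
    rw [hX, norm_smul, Complex.norm_real, Real.norm_of_nonneg (inv_nonneg.2 hν0.le)]
    calc ν⁻¹ * ‖π x‖ ≤ μ⁻¹ * L :=
          mul_le_mul (inv_anti₀ hμ0 hμν) h8 (norm_nonneg _) (inv_nonneg.2 hμ0.le)
      _ = L / μ := by rw [div_eq_inv_mul]
  refine ⟨X, ?_⟩
  rw [← h9, ← sub_mul, ← mul_sub]
  have h11 := norm_mul_le (star X * (star c * c - star (π p) * π p)) X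
  have h12 := norm_mul_le (star X) (star c * c - star (π p) * π p)
  rw [norm_star] at h12
  rw [lt_div_iff₀ (by positivity)] at hp2
  have h13 := norm_nonneg X
  have h14 := norm_nonneg (star c * c - star (π p) * π p)
  have h15 : ‖X‖ * ‖X‖ ≤ (L / μ) ^ 2 := by nlinarith
  calc _ ≤ ‖X‖ * ‖star c * c - star (π p) * π p‖ * ‖X‖ :=
        h11.trans (mul_le_mul_of_nonneg_right h12 h13)
    _ = ‖star c * c - star (π p) * π p‖ * (‖X‖ * ‖X‖) := by ring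
    _ ≤ ‖star c * c - star (π p) * π p‖ * ((L / μ) ^ 2 + 1) :=
        mul_le_mul_of_nonneg_left (by linarith) h14
    _ < ε := hp2

section Iso

variable {ρ : FA G →ₐ[ℂ] En J} {Jc Jq : ℕ → FA G} {e : ℕ → J → J}

theorem cstarC_inj (he : Function.Injective (Function.uncurry e)) {s s' : ℕ} {l l' : J}
    (h : e s l = e s' l') : s = s' ∧ l = l' := by
  have := he (a₁ := (s, l)) (a₂ := (s', l')) h
  exact ⟨congrArg Prod.fst this, congrArg Prod.snd this⟩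

theorem cstarC_Jc (hJ : ∀ s t, ρ (Jc s) (single t 1) = single (e s t) 1) (s : ℕ) (ξ : J →₀ ℂ) :
    ρ (Jc s) ξ = mapDomain (e s) ξ := by
  have : ρ (Jc s) = Finsupp.lmapDomain ℂ ℂ (e s) := by
    refine Finsupp.lhom_ext' fun t => LinearMap.ext_ring ?_
    simp [hJ]
  rw [this]
  rfl

open Classical in
theorem cstarC_Jq (hJ : ∀ s t, ρ (Jc s) (single t 1) = single (e s t) 1)
    (hq : ∀ s, IsAdj (ρ (Jq s)) (ρ (Jc s))) (t : ℕ) (j l : J) :
    ρ (Jq t) (single j 1) l = if e t l = j then 1 else 0 := by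
  have h := hq t l j
  rw [ker, ker, hJ, single_apply] at h
  rw [h]
  split_ifs <;> simp

theorem cstarC_Jq_in (he : Function.Injective (Function.uncurry e))
    (hJ : ∀ s t, ρ (Jc s) (single t 1) = single (e s t) 1)
    (hq : ∀ s, IsAdj (ρ (Jq s)) (ρ (Jc s))) (t' t : ℕ) (l : J) :
    ρ (Jq t') (single (e t l) 1) = if t' = t then single l 1 else 0 := by
  classical
  ext l'
  rw [cstarC_Jq hJ hq]
  by_cases h : t' = t
  · subst h
    rw [if_pos rfl, single_apply]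
    by_cases h' : l = l'
    · subst h'; simp
    · rw [if_neg h', if_neg fun h'' => h' (cstarC_inj he h'').2.symm]
  · rw [if_neg h, if_neg fun h'' => h (cstarC_inj he h'').1]
    rfl

theorem cstarC_mapD (he : Function.Injective (Function.uncurry e)) (s' s : ℕ) (l : J)
    (ξ : J →₀ ℂ) : mapDomain (e s') ξ (e s l) = if s' = s then ξ l else 0 := by
  split_ifs with h
  · subst h
    exact mapDomain_apply (fun a b hab => (cstarC_inj he hab).2) ξ l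
  · refine mapDomain_of_notMem_range _ _ ?_
    rintro ⟨l', hl'⟩
    exact h (cstarC_inj he hl').1

theorem cstarC_orth (he : Function.Injective (Function.uncurry e))
    (hJ : ∀ s t, ρ (Jc s) (single t 1) = single (e s t) 1)
    (hq : ∀ s, IsAdj (ρ (Jq s)) (ρ (Jc s))) (s t : ℕ) :
    ρ (Jq s * Jc t) = ρ (if s = t then 1 else 0) := by
  refine Finsupp.lhom_ext' fun l => LinearMap.ext_ring ?_
  simp only [LinearMap.comp_apply, lsingle_apply, map_mul, Module.End.mul_apply, hJ,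
    cstarC_Jq_in he hJ hq]
  split_ifs <;> simp

noncomputable def ampF (Jc Jq : ℕ → FA G) {d : ℕ} (T : Fin d → Fin d → FA G) : FA G :=
  ∑ s : Fin d, ∑ t : Fin d, Jc s * T s t * Jq t

theorem ker_ampF (hJ : ∀ s t, ρ (Jc s) (single t 1) = single (e s t) 1) {d : ℕ}
    (T : Fin d → Fin d → FA G) (i j : J) :
    ker (ρ (ampF Jc Jq T)) i j =
      ∑ s : Fin d, ∑ t : Fin d, mapDomain (e s) (ρ (T s t) (ρ (Jq t) (single j 1))) i := by
  simp only [ampF, map_sum, ker_sum]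
  simp only [ker, map_mul, Module.End.mul_apply, cstarC_Jc hJ]

theorem ker_ampF_in (he : Function.Injective (Function.uncurry e))
    (hJ : ∀ s t, ρ (Jc s) (single t 1) = single (e s t) 1)
    (hq : ∀ s, IsAdj (ρ (Jq s)) (ρ (Jc s))) {d : ℕ}
    (T : Fin d → Fin d → FA G) (s t : Fin d) (l l' : J) :
    ker (ρ (ampF Jc Jq T)) (e s l) (e t l') = ker (ρ (T s t)) l l' := by
  rw [ker_ampF hJ]
  simp only [cstarC_mapD he, cstarC_Jq_in he hJ hq, Fin.val_inj]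
  rw [Finset.sum_eq_single s, Finset.sum_eq_single t]
  · simp [ker]
  · intro b _ hb
    simp [hb]
  · simp
  · intro b _ hb
    simp [hb]
  · simp

theorem ker_ampF_out (hJ : ∀ s t, ρ (Jc s) (single t 1) = single (e s t) 1)
    (hq : ∀ s, IsAdj (ρ (Jq s)) (ρ (Jc s))) {d : ℕ}
    (T : Fin d → Fin d → FA G) (i j : J) (h : ker (ρ (ampF Jc Jq T)) i j ≠ 0) :
    (∃ u : J × Fin d, e u.2 u.1 = i) ∧ (∃ u : J × Fin d, e u.2 u.1 = j) := by
  classical
  rw [ker_ampF hJ] at h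
  obtain ⟨s, -, h⟩ := Finset.exists_ne_zero_of_sum_ne_zero h
  obtain ⟨t, -, h⟩ := Finset.exists_ne_zero_of_sum_ne_zero h
  constructor
  · by_contra hi
    refine h (mapDomain_of_notMem_range _ _ ?_)
    rintro ⟨l, hl⟩
    exact hi ⟨(l, s), hl⟩
  · by_contra hj
    apply h
    have : ρ (Jq t) (single j 1) = 0 := by
      ext l
      rw [cstarC_Jq hJ hq, if_neg fun hl => hj ⟨(l, t), hl⟩]
      rfl
    rw [this]
    simp

theorem bdd_ampF (he : Function.Injective (Function.uncurry e))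
    (hJ : ∀ s t, ρ (Jc s) (single t 1) = single (e s t) 1)
    (hq : ∀ s, IsAdj (ρ (Jq s)) (ρ (Jc s))) {d : ℕ}
    (T : Fin d → Fin d → FA G) {C : ℝ} (hC : 0 ≤ C)
    (h : KB (fun a b : J × Fin d => ker (ρ (T a.2 b.2)) a.1 b.1) Set.univ C) :
    Bdd (ρ (ampF Jc Jq T)) C := by
  rw [bdd_iff_KB hC]
  have h1 : KB (ker (ρ (ampF Jc Jq T)))
      ((fun u : J × Fin d => e u.2 u.1) '' Set.univ) C :=
    h.push (fun u : J × Fin d => e u.2 u.1) le_rfl
      (fun a _ b _ => (ker_ampF_in he hJ hq T a.2 b.2 a.1 b.1).symm)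
  refine h1.supp hC fun i _ j _ hij => ?_
  obtain ⟨⟨u, hu⟩, ⟨v, hv⟩⟩ := ker_ampF_out hJ hq T i j hij
  exact ⟨⟨u, trivial, hu⟩, ⟨v, trivial, hv⟩⟩

theorem pi_ampF {π : FA G →ₐ[ℂ] A} (h2 : ∀ p q, IsAdj (ρ q) (ρ p) → π q = star (π p))
    (hq : ∀ s, IsAdj (ρ (Jq s)) (ρ (Jc s))) {d : ℕ} (T : Fin d → Fin d → FA G) :
    π (ampF Jc Jq T) = amp (fun s : Fin d => π (Jc s)) (Matrix.of fun s t => π (T s t)) := by
  simp only [ampF, amp, map_sum, map_mul, h2 _ _ (hq _), Matrix.of_apply]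

end Iso

end Pool.Agent.H612Z.Op
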