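import Pool.Agent.H612Z.Op.CountA

set_option autoImplicit false

namespace Pool.Agent.H612Z.Op

noncomputable def countW (ε : ℝ) (i : Fin 4) : ℝ := if i = 1 ∨ i = 3 then ε else 1

open Classical in
noncomputable def countV {D C : Type} (a b : ℝ) (c₀ : C) (i : Fin 4) (c : D ⊕ C) : ℝ :=
  if i = 0 then (if c.isLeft then a else 0)
  else if i = 2 then (if c = Sum.inr c₀ then 1 else 0)
  else (if c.isRight then b else 0)

theorem countV_nonneg {D C : Type} {a b : ℝ} (ha : 0 ≤ a) (hb : 0 ≤ b) (c₀ : C) (i : Fin 4)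
    (c : D ⊕ C) : 0 ≤ countV a b c₀ i c := by
  unfold countV
  split_ifs <;> first | assumption | norm_num

theorem countV_sum {D C : Type} [Fintype D] [Fintype C] {a b ε : ℝ} (c₀ : C)
    (ha : (Fintype.card D : ℝ) * a ≤ 1) (hb : (Fintype.card C : ℝ) * b ≤ ε) (i : Fin 4) :
    ∑ c : D ⊕ C, countV a b c₀ i c ≤ countW ε i := by
  classical
  unfold countV countW
  fin_cases i
  · simpa [Fintype.sum_sum_type] using ha
  · simpa [Fintype.sum_sum_type] using hb
  · simp
  · simpa [Fintype.sum_sum_type] using hb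

theorem countV_cd {P D : Type} {tm : P → ℕ} {pre : P → P ⊕ Bool} {π : P → P}
    {v : P ⊕ Bool → D} (a b : ℝ) (p : P) :
    countV a b (Sum.inr false) (countTy tm pre π v p) (countCd tm pre π v p) =
      (if countTy tm pre π v p = 0 then a else 1) * (if countTy tm pre π v p = 1 then b else 1) *
        (if countTy tm pre π v p = 3 then b else 1) := by
  by_cases ho : tm p < tm (π p)
  · by_cases hN : countN tm π v p
    · have h0 : countTy tm pre π v p = 0 := countTy_eq0.2 hN
      have h1 := (countN_iff ho).1 hN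
      rw [h0]
      unfold countCd
      rw [if_pos ho, dif_neg h1]
      simp [countV]
    · have h0 : countTy tm pre π v p = 1 := countTy_eq1.2 ⟨ho, hN⟩
      have h1 : ∃ x, countEarly tm p x ∧ v x = v (Sum.inl p) := by
        by_contra h
        exact hN ((countN_iff ho).2 h)
      rw [h0]
      unfold countCd
      rw [if_pos ho, dif_pos h1]
      simp [countV]
  · by_cases hG : countG tm pre π v p
    · have h0 : countTy tm pre π v p = 2 := countTy_eq2.2 ⟨ho, hG⟩
      rw [h0]
      unfold countCd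
      rw [if_neg ho, if_pos hG]
      simp [countV]
    · have h0 : countTy tm pre π v p = 3 := countTy_eq3.2 ⟨ho, hG⟩
      rw [h0]
      unfold countCd
      rw [if_neg ho, if_neg hG]
      simp [countV]

theorem count_num {d K R N O B b : ℕ} (hK : 1 ≤ K) (hR : 1 ≤ R) (hd : (K ^ 2 * R) ^ 3 ≤ d)
    (hB : B ≤ 2 * O) (hb : b ≤ 2 * (O + B) + 1) :
    (K : ℝ) ^ b ≤ K * √(d : ℝ) ^ (2 * (N + O)) *
      ((1 / (d : ℝ)) ^ N * (1 / (R : ℝ)) ^ O * (1 / (R : ℝ)) ^ B) := by
  have hKR : 1 ≤ K ^ 2 * R := Nat.one_le_iff_ne_zero.2 (by positivity)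
  have hd0 : 0 < d := lt_of_lt_of_le (by positivity) hd
  have hdr : (0 : ℝ) < d := by exact_mod_cast hd0
  have hRr : (0 : ℝ) < R := by exact_mod_cast hR
  have h1 : K ^ b * R ^ (O + B) ≤ K * d ^ O := by
    calc K ^ b * R ^ (O + B) ≤ K ^ (2 * (O + B) + 1) * R ^ (O + B) :=
          Nat.mul_le_mul_right _ (Nat.pow_le_pow_right hK hb)
      _ = K * (K ^ 2 * R) ^ (O + B) := by rw [mul_pow, ← pow_mul]; ring
      _ ≤ K * (K ^ 2 * R) ^ (3 * O) :=
          Nat.mul_le_mul_left _ (Nat.pow_le_pow_right hKR (by omega))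
      _ ≤ K * d ^ O := by
          rw [pow_mul]
          exact Nat.mul_le_mul_left _ (Nat.pow_le_pow_left hd _)
  have h2 : (K : ℝ) ^ b * (R : ℝ) ^ (O + B) ≤ K * (d : ℝ) ^ O := by exact_mod_cast h1
  rw [pow_mul, Real.sq_sqrt hdr.le]
  have e : (K : ℝ) * (d : ℝ) ^ (N + O) *
      ((1 / (d : ℝ)) ^ N * (1 / (R : ℝ)) ^ O * (1 / (R : ℝ)) ^ B) =
      K * (d : ℝ) ^ O / (R : ℝ) ^ (O + B) := by
    simp only [one_div, inv_pow, pow_add]
    field_simp
  rw [e, le_div_iff₀ (by positivity)]
  exact h2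

open Classical in
theorem count_abs {P : Type} [Fintype P] {tm : P → ℕ} {pre : P → P ⊕ Bool}
    (htm : Function.Injective tm) (hpre : ∀ q p, pre q = Sum.inl p → tm p < tm q)
    {d K M E : ℕ} (hK : 1 ≤ K) (hE : 1 ≤ E) (hM : Fintype.card P + 2 ≤ M)
    (hd : (K ^ 2 * M * E) ^ 3 ≤ d) {X : Type} (s : Finset X) (π : X → P → P)
    (v : X → P ⊕ Bool → Fin d) (hinj : ∀ x ∈ s, ∀ y ∈ s, π x = π y → v x = v y → x = y)
    (hc : ∀ x ∈ s, CountCfg pre (π x) (v x)) (val : (P → Fin 4) → Prop)
    (hval : ∀ x ∈ s, val (countTy tm pre (π x) (v x))) (b : X → ℕ)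
    (hb : ∀ x ∈ s, b x ≤
      2 * ((Finset.univ.filter fun p => countTy tm pre (π x) (v x) p = 1).card +
        (Finset.univ.filter fun p => countTy tm pre (π x) (v x) p = 3).card) + 1) :
    ∑ x ∈ s, (K : ℝ) ^ b x ≤ K * (d : ℝ) ^ 2 * √(d : ℝ) ^ Fintype.card P *
      ∑ τ : P → Fin 4, if val τ then ∏ p, countW (1 / (E : ℝ)) (τ p) else 0 := by
  have hM0 : 1 ≤ M := by omega
  have hR : 1 ≤ M * E := Nat.one_le_iff_ne_zero.2 (by positivity)
  have hd' : (K ^ 2 * (M * E)) ^ 3 ≤ d := by rwa [← mul_assoc]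
  have hd0 : 0 < d := lt_of_lt_of_le (by positivity) hd
  have hdr : (0 : ℝ) < d := by exact_mod_cast hd0
  set a : ℝ := 1 / (d : ℝ) with ha
  set c : ℝ := 1 / ((M * E : ℕ) : ℝ) with hcdef
  have ha0 : 0 ≤ a := by positivity
  have hc0 : 0 ≤ c := by positivity
  let F : (Bool → Fin d) × (P → Fin 4) × (P → Fin d ⊕ (P ⊕ Bool)) → ℝ := fun y =>
    if val y.2.1 then ∏ p, countV a c (Sum.inr false) (y.2.1 p) (y.2.2 p) else 0
  let φ : X → (Bool → Fin d) × (P → Fin 4) × (P → Fin d ⊕ (P ⊕ Bool)) := fun x =>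
    (fun g => v x (Sum.inr g), countTy tm pre (π x) (v x), countCd tm pre (π x) (v x))
  have hF0 : ∀ y, 0 ≤ F y := by
    intro y
    simp only [F]
    split_ifs
    · exact Finset.prod_nonneg fun p _ => countV_nonneg ha0 hc0 _ _ _
    · exact le_rfl
  have hφ : Set.InjOn φ s := by
    intro x hx y hy h
    simp only [φ, Prod.mk.injEq] at h
    obtain ⟨e1, e2⟩ := count_code_inj htm hpre (hc x hx) (hc y hy) (fun g => congrFun h.1 g)
      h.2.1 h.2.2
    exact hinj x hx y hy e1 e2
  have hpt : ∀ x ∈ s, (K : ℝ) ^ b x ≤ K * √(d : ℝ) ^ Fintype.card P * F (φ x) := by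
    intro x hx
    simp only [F, φ]
    rw [if_pos (hval x hx)]
    simp only [countV_cd, Finset.prod_mul_distrib, Finset.prod_ite, Finset.prod_const,
      one_pow, mul_one]
    rw [count_half htm (hc x hx)]
    exact count_num hK hR hd' (count_B_le htm (hc x hx)) (hb x hx)
  have hsum : ∑ y, F y ≤ (d : ℝ) ^ 2 *
      ∑ τ : P → Fin 4, if val τ then ∏ p, countW (1 / (E : ℝ)) (τ p) else 0 := by
    rw [Fintype.sum_prod_type]
    simp only [F, Finset.sum_const, Finset.card_univ, Fintype.card_fun, Fintype.card_fin,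
      Fintype.card_bool, nsmul_eq_mul, Nat.cast_pow]
    apply mul_le_mul_of_nonneg_left _ (by positivity)
    rw [Fintype.sum_prod_type]
    apply Finset.sum_le_sum
    intro τ _
    by_cases hτ : val τ
    · simp only [hτ, if_true]
      have := Finset.prod_univ_sum (fun _ : P => (Finset.univ : Finset (Fin d ⊕ (P ⊕ Bool))))
        (fun p c' => countV a c (Sum.inr false) (τ p) c')
      rw [Fintype.piFinset_univ] at this
      rw [← this]
      apply Finset.prod_le_prod
      · intro p _
        exact Finset.sum_nonneg fun c' _ => countV_nonneg ha0 hc0 _ _ _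
      · intro p _
        apply countV_sum
        · rw [Fintype.card_fin, ha, mul_one_div, div_self hdr.ne']
        · have hMr : (0 : ℝ) < M := by exact_mod_cast hM0
          have hEr : (0 : ℝ) < E := by exact_mod_cast hE
          have hM' : (Fintype.card (P ⊕ Bool) : ℝ) ≤ M := by
            rw [Fintype.card_sum, Fintype.card_bool]; exact_mod_cast hM
          rw [hcdef]
          push_cast
          rw [mul_one_div, div_le_div_iff₀ (by positivity) hEr]
          nlinarith
    · simp [hτ]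
  calc ∑ x ∈ s, (K : ℝ) ^ b x ≤ ∑ x ∈ s, K * √(d : ℝ) ^ Fintype.card P * F (φ x) :=
        Finset.sum_le_sum hpt
    _ = K * √(d : ℝ) ^ Fintype.card P * ∑ y ∈ s.image φ, F y := by
        rw [← Finset.mul_sum, Finset.sum_image hφ]
    _ ≤ K * √(d : ℝ) ^ Fintype.card P * ∑ y, F y := by
        apply mul_le_mul_of_nonneg_left _ (by positivity)
        exact Finset.sum_le_sum_of_subset_of_nonneg (Finset.subset_univ _) fun y _ _ => hF0 y
    _ ≤ K * √(d : ℝ) ^ Fintype.card P * ((d : ℝ) ^ 2 *
        ∑ τ : P → Fin 4, if val τ then ∏ p, countW (1 / (E : ℝ)) (τ p) else 0) :=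
        mul_le_mul_of_nonneg_left hsum (by positivity)
    _ = _ := by ring

/-- valid block patterns: an opening is never followed by a good closing -/
def countVal {l : ℕ} (σ : Fin l → Fin 4) : Prop :=
  ∀ (t : ℕ) (h : t + 1 < l), (σ ⟨t, by omega⟩ = 0 ∨ σ ⟨t, by omega⟩ = 1) → σ ⟨t + 1, h⟩ ≠ 2

theorem countVal_trans {l : ℕ} {σ : Fin l → Fin 4} (hσ : countVal σ) (h3 : ∀ t, σ t ≠ 3)
    {a : ℕ} (ha : a < l) (h : σ ⟨a, ha⟩ = 0 ∨ σ ⟨a, ha⟩ = 1) :
    ∀ (t : ℕ) (ht : t < l), a ≤ t → σ ⟨t, ht⟩ = 0 ∨ σ ⟨t, ht⟩ = 1 := by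
  intro t
  induction t with
  | zero => intro ht hle; obtain rfl : a = 0 := by omega
            exact h
  | succ t ih =>
    intro ht hle
    rcases hle.eq_or_lt with e | e
    · subst e; exact h
    · have h1 := hσ t ht (ih (by omega) (by omega))
      have h2 := h3 ⟨t + 1, ht⟩
      revert h1 h2
      generalize σ ⟨t + 1, ht⟩ = i
      revert i
      decide

open Classical in
theorem count_block {l J : ℕ} (hl : l ≤ J) :
    (∑ σ : Fin l → Fin 4, if countVal σ then ∏ t, countW (1 / ((4 ^ J : ℕ) : ℝ)) (σ t) else 0) ≤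
      (J : ℝ) + 2 := by
  set ε : ℝ := 1 / ((4 ^ J : ℕ) : ℝ) with hε
  have hε0 : 0 ≤ ε := by positivity
  have hε1 : ε ≤ 1 := by
    rw [hε, div_le_one (by positivity)]
    exact_mod_cast Nat.one_le_pow _ _ (by norm_num)
  have hW0 : ∀ i, 0 ≤ countW ε i := fun i => by unfold countW; split_ifs <;> linarith
  have hW1 : ∀ i, countW ε i ≤ 1 := fun i => by unfold countW; split_ifs <;> linarith
  let S : Finset (Fin l → Fin 4) := (Finset.range (l + 1)).image
    fun k => fun t : Fin l => if (t : ℕ) < k then 2 else 0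
  have hpt : ∀ σ : Fin l → Fin 4, (if countVal σ then ∏ t, countW ε (σ t) else 0) ≤
      (if σ ∈ S then 1 else 0) + ε := by
    intro σ
    by_cases hS : σ ∈ S
    · rw [if_pos hS]
      split_ifs
      · have : ∏ t, countW ε (σ t) ≤ 1 := Finset.prod_le_one (fun t _ => hW0 _) fun t _ => hW1 _
        linarith
      · linarith
    · rw [if_neg hS, zero_add]
      split_ifs with hv
      · by_cases hX : ∃ t, σ t = 1 ∨ σ t = 3
        · obtain ⟨t, ht⟩ := hX
          rw [← Finset.mul_prod_erase _ _ (Finset.mem_univ t)]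
          have h1 : countW ε (σ t) = ε := if_pos ht
          have h2 : ∏ x ∈ Finset.univ.erase t, countW ε (σ x) ≤ 1 :=
            Finset.prod_le_one (fun t _ => hW0 _) fun t _ => hW1 _
          rw [h1]
          nlinarith
        · exfalso
          push Not at hX
          apply hS
          have hex : ∃ k, k = l ∨ ∃ h : k < l, σ ⟨k, h⟩ = 0 := ⟨l, Or.inl rfl⟩
          have hk : Nat.find hex ≤ l := Nat.find_min' hex (Or.inl rfl)
          refine Finset.mem_image.2 ⟨Nat.find hex, Finset.mem_range.2 (by omega), ?_⟩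
          funext t
          split_ifs with ht
          · have h1 := Nat.find_min hex ht
            push Not at h1
            have h2 : σ t ≠ 0 := h1.2 t.2
            have h3 := hX t
            revert h2 h3
            generalize σ t = i
            revert i
            decide
          · rcases Nat.find_spec hex with h1 | ⟨h1, h2⟩
            · have := t.2
              omega
            · have h3 := countVal_trans hv (fun t => (hX t).2) h1 (Or.inl h2) t t.2 (by omega)
              rcases h3 with h3 | h3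
              · exact h3.symm
              · exact absurd h3 (hX t).1
      · exact hε0
  refine (Finset.sum_le_sum fun σ _ => hpt σ).trans ?_
  rw [Finset.sum_add_distrib]
  have h1 : (∑ σ : Fin l → Fin 4, if σ ∈ S then (1 : ℝ) else 0) ≤ (J : ℝ) + 1 := by
    rw [Finset.sum_ite_mem, Finset.univ_inter, Finset.sum_const, nsmul_eq_mul, mul_one]
    have : S.card ≤ J + 1 := Finset.card_image_le.trans (by rw [Finset.card_range]; omega)
    exact_mod_cast this
  have h2 : (∑ _σ : Fin l → Fin 4, ε) ≤ 1 := by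
    rw [Finset.sum_const, Finset.card_univ, Fintype.card_fun, Fintype.card_fin, Fintype.card_fin,
      nsmul_eq_mul, hε, mul_one_div, div_le_one (by positivity)]
    exact_mod_cast Nat.pow_le_pow_right (by norm_num) hl
  linarith

end Pool.Agent.H612Z.Op
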