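import Pool.Agent.H612Z.Op.Basic
import Pool.Agent.H612Z.Op.CountB

set_option autoImplicit false

namespace Pool.Agent.H612Z.Op

section conc

variable {m : ℕ} {len : Bool × Fin m → ℕ}

def countKey (p : Pos len) : ℕ := (if p.1.1 = true then m else 0) + (p.1.2 : ℕ)

def countTm (J : ℕ) (p : Pos len) : ℕ := countKey p * J + (p.2 : ℕ)

theorem countTm_lt {J : ℕ} (hlen : ∀ β, len β ≤ J) (p q : Pos len) :
    countTm J p < countTm J q ↔
      countKey p < countKey q ∨ (countKey p = countKey q ∧ (p.2 : ℕ) < (q.2 : ℕ)) := by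
  have hp : (p.2 : ℕ) < J := lt_of_lt_of_le p.2.2 (hlen _)
  have hq : (q.2 : ℕ) < J := lt_of_lt_of_le q.2.2 (hlen _)
  unfold countTm
  rcases lt_trichotomy (countKey p) (countKey q) with h | h | h
  · have : (countKey p + 1) * J ≤ countKey q * J := Nat.mul_le_mul_right _ h
    rw [add_mul] at this
    constructor
    · intro _; exact Or.inl h
    · intro _; omega
  · rw [h]
    constructor
    · intro h1; exact Or.inr ⟨rfl, by omega⟩
    · intro h1; omega
  · have : (countKey q + 1) * J ≤ countKey p * J := Nat.mul_le_mul_right _ h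
    rw [add_mul] at this
    constructor
    · intro h1; omega
    · intro h1; omega

theorem countKey_eq {p q : Pos len} (h : countKey p = countKey q) : p.1 = q.1 := by
  obtain ⟨⟨g, s⟩, t⟩ := p
  obtain ⟨⟨g', s'⟩, t'⟩ := q
  have h1 := s.2
  have h2 := s'.2
  unfold countKey at h
  cases g <;> cases g' <;> simp at h ⊢ <;> omega

theorem countTm_inj {J : ℕ} (hlen : ∀ β, len β ≤ J) :
    Function.Injective (countTm (len := len) J) := by
  intro p q h
  have h1 := countTm_lt hlen p q
  have h2 := countTm_lt hlen q p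
  have h3 : countKey p = countKey q := by omega
  have h4 : (p.2 : ℕ) = (q.2 : ℕ) := by omega
  have h5 := countKey_eq h3
  obtain ⟨β, t⟩ := p
  obtain ⟨β', t'⟩ := q
  simp only at h5 h4
  subst h5
  rw [Fin.ext h4]

def countLast (len : Bool × Fin m → ℕ) (g : Bool) : ℕ → Pos len ⊕ Bool
  | 0 => Sum.inr g
  | s + 1 =>
    if hs : s < m then
      (if hl : 0 < len (g, ⟨s, hs⟩) then
        Sum.inl ⟨(g, ⟨s, hs⟩), ⟨len (g, ⟨s, hs⟩) - 1, by omega⟩⟩
      else countLast len g s)
    else countLast len g s

def countPre (p : Pos len) : Pos len ⊕ Bool :=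
  if 0 < (p.2 : ℕ) then Sum.inl ⟨p.1, ⟨p.2 - 1, lt_of_le_of_lt (Nat.sub_le _ _) p.2.2⟩⟩
  else countLast len p.1.1 p.1.2

theorem countLast_inl (g : Bool) :
    ∀ (s : ℕ) (r : Pos len), countLast len g s = Sum.inl r → r.1.1 = g ∧ (r.1.2 : ℕ) < s := by
  intro s
  induction s with
  | zero => intro r h; simp [countLast] at h
  | succ s ih =>
    intro r h
    unfold countLast at h
    split_ifs at h with hs hl
    · have := Sum.inl.inj h
      subst this
      simp
    · have := ih r h
      exact ⟨this.1, by omega⟩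
    · have := ih r h
      exact ⟨this.1, by omega⟩

theorem countLast_ge (g : Bool) :
    ∀ (s : ℕ) (q : Pos len), q.1.1 = g → (q.1.2 : ℕ) < s → ∃ r, countLast len g s = Sum.inl r ∧
      (countKey q < countKey r ∨ (countKey q = countKey r ∧ (q.2 : ℕ) ≤ (r.2 : ℕ))) := by
  intro s
  induction s with
  | zero => intro q _ h; omega
  | succ s ih =>
    intro q hg h
    obtain ⟨⟨g', s'⟩, t⟩ := q
    simp only at hg h
    subst hg
    unfold countLast
    split_ifs with hs hl
    · refine ⟨_, rfl, ?_⟩
      by_cases e : (s' : ℕ) = s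
      · right
        subst e
        refine ⟨rfl, ?_⟩
        have := t.2
        simp only at this ⊢
        simp only [Fin.eta]
        omega
      · left
        simp only [countKey]
        omega
    · apply ih _ rfl
      by_cases e : (s' : ℕ) = s
      · exfalso
        subst e
        have := t.2
        simp only [Fin.eta] at hl
        omega
      · simp only
        omega
    · apply ih _ rfl
      have := s'.2
      simp only
      omega

theorem countPre_lt {J : ℕ} (hlen : ∀ β, len β ≤ J) (q p : Pos len)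
    (h : countPre q = Sum.inl p) : countTm J p < countTm J q := by
  rw [countTm_lt hlen]
  unfold countPre at h
  split_ifs at h with h0
  · have := Sum.inl.inj h
    subst this
    right
    refine ⟨rfl, ?_⟩
    simp only
    omega
  · obtain ⟨h1, h2⟩ := countLast_inl _ _ _ h
    left
    unfold countKey
    rw [h1]
    omega

theorem countPre_succ {J : ℕ} (hlen : ∀ β, len β ≤ J) (q₁ : Pos len) (hq : q₁.1.1 = true)
    (q : Pos len) (h : countTm J q₁ < countTm J q) :
    ∃ r, countPre q = Sum.inl r ∧ countTm J q₁ ≤ countTm J r := by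
  rw [countTm_lt hlen] at h
  have hm := q.1.2.2
  have hg : q.1.1 = true := by
    by_contra hg
    simp only [countKey, hq, hg] at h
    simp at h
    omega
  unfold countPre
  split_ifs with h0
  · refine ⟨_, rfl, ?_⟩
    rw [← not_lt, countTm_lt hlen]
    have : countKey (len := len) ⟨q.1, ⟨q.2 - 1, lt_of_le_of_lt (Nat.sub_le _ _) q.2.2⟩⟩ =
      countKey q := rfl
    rw [this]
    simp only
    omega
  · have h1 : (q₁.1.2 : ℕ) < (q.1.2 : ℕ) := by
      simp only [countKey, hq, hg] at h
      omega
    obtain ⟨r, hr, hr'⟩ := countLast_ge q.1.1 q.1.2 q₁ (hq.trans hg.symm) h1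
    refine ⟨r, hr, ?_⟩
    rw [← not_lt, countTm_lt hlen]
    omega

def countCo {D : Type} (g : Bool) (z : D × D) : D := if g = true then z.2 else z.1

def countVx {D : Type} (z : Fin (m + 1) → D × D) (Γ : ∀ β : Bool × Fin m, Fin (len β + 1) → D) :
    Pos len ⊕ Bool → D :=
  Sum.elim (fun p => Γ p.1 p.2.succ) (fun g => countCo g (z 0))

theorem count_ends {D : Type} {π : Pos len → Pos len} {z : Fin (m + 1) → D × D}
    {Γ : ∀ β : Bool × Fin m, Fin (len β + 1) → D} (hw : WalkOK π z Γ) (g : Bool) (s : Fin m) :
    Γ (g, s) 0 = countCo g (z s.castSucc) ∧ Γ (g, s) (Fin.last _) = countCo g (z s.succ) := by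
  obtain ⟨h1, h2, h3, h4⟩ := hw.1 s
  cases g
  · exact ⟨h1, h2⟩
  · exact ⟨h3, h4⟩

theorem countLast_v {D : Type} {π : Pos len → Pos len} {z : Fin (m + 1) → D × D}
    {Γ : ∀ β : Bool × Fin m, Fin (len β + 1) → D} (hw : WalkOK π z Γ) (g : Bool) :
    ∀ (s : ℕ) (hs : s < m + 1), countVx z Γ (countLast len g s) = countCo g (z ⟨s, hs⟩) := by
  intro s
  induction s with
  | zero => intro hs; rfl
  | succ s ih =>
    intro hs
    have hs' : s < m := by omega
    obtain ⟨h1, h2⟩ := count_ends hw g ⟨s, hs'⟩
    unfold countLast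
    rw [dif_pos hs']
    split_ifs with hl
    · refine Eq.trans ?_ h2
      simp only [countVx, Sum.elim_inl]
      congr 1
      apply Fin.ext
      simp only [Fin.val_succ, Fin.val_last]
      omega
    · rw [ih (by omega)]
      refine Eq.trans h1.symm (Eq.trans ?_ h2)
      congr 1
      apply Fin.ext
      simp only [Fin.val_zero, Fin.val_last]
      omega

theorem countPre_v {D : Type} {π : Pos len → Pos len} {z : Fin (m + 1) → D × D}
    {Γ : ∀ β : Bool × Fin m, Fin (len β + 1) → D} (hw : WalkOK π z Γ) (p : Pos len) :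
    countVx z Γ (countPre p) = Γ p.1 p.2.castSucc := by
  obtain ⟨⟨g, s⟩, t⟩ := p
  unfold countPre
  split_ifs with h0
  · simp only [countVx, Sum.elim_inl]
    congr 1
    apply Fin.ext
    simp only [Fin.val_succ, Fin.val_castSucc] at h0 ⊢
    omega
  · rw [countLast_v hw g s (by have := s.2; omega)]
    refine Eq.trans (count_ends hw g s).1.symm ?_
    congr 1
    apply Fin.ext
    simp only [Fin.val_zero, Fin.val_castSucc] at h0 ⊢
    omega

theorem count_cfg {D : Type} {π : Pos len → Pos len} {z : Fin (m + 1) → D × D}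
    {Γ : ∀ β : Bool × Fin m, Fin (len β + 1) → D} (hp : PairOK π) (hw : WalkOK π z Γ) :
    CountCfg countPre π (countVx z Γ) :=
  ⟨hp.1, hp.2.1, fun p => by rw [countPre_v hw]; exact hw.2 p⟩

theorem countVx_inj {D : Type} {π π' : Pos len → Pos len} {z z' : Fin (m + 1) → D × D}
    {Γ Γ' : ∀ β : Bool × Fin m, Fin (len β + 1) → D} (hw : WalkOK π z Γ) (hw' : WalkOK π' z' Γ')
    (h : countVx z Γ = countVx z' Γ') : z = z' ∧ Γ = Γ' := by
  have hz : z = z' := by
    funext s
    have h1 := countLast_v hw false s s.2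
    have h2 := countLast_v hw true s s.2
    have h3 := countLast_v hw' false s s.2
    have h4 := countLast_v hw' true s s.2
    rw [h] at h1 h2
    exact Prod.ext (h1.symm.trans h3) (h2.symm.trans h4)
  refine ⟨hz, ?_⟩
  funext β t
  obtain ⟨g, s⟩ := β
  refine Fin.cases ?_ (fun i => ?_) t
  · rw [(count_ends hw g s).1, (count_ends hw' g s).1, hz]
  · exact congrFun h (Sum.inl ⟨(g, s), i⟩)

theorem count_valid {J : ℕ} {D : Type} {π : Pos len → Pos len}
    {v : Pos len ⊕ Bool → D} (hp : PairOK π) (β : Bool × Fin m) :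
    countVal fun t : Fin (len β) => countTy (countTm J) countPre π v ⟨β, t⟩ := by
  intro t h ho h2
  have ho' := countTy_open.2 ho
  obtain ⟨-, hG⟩ := countTy_eq2.1 h2
  have e1 : countTm (len := len) J ⟨β, ⟨t + 1, h⟩⟩ = countTm (len := len) J ⟨β, ⟨t, by omega⟩⟩ + 1 :=
    rfl
  have e2 : countPre (len := len) ⟨β, ⟨t + 1, h⟩⟩ = Sum.inl ⟨β, ⟨t, by omega⟩⟩ := by
    unfold countPre
    rw [if_pos (by simp)]
    rfl
  have := hG.2 ⟨β, ⟨t, by omega⟩⟩ (by omega) (by omega) (by rw [e2])
  apply hp.2.2 β t h
  rw [this, hp.1]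

theorem count_card_image_le {A B : Type} [DecidableEq B] (S : Finset A) (l : A → B) (c : A → ℕ)
    (n : ℕ) (hc : ∀ a ∈ S, c a ≤ n) (h : ∀ a ∈ S, ∀ b ∈ S, c a = c b → l a = l b) :
    (S.image l).card ≤ n + 1 := by
  have hex : ∀ y ∈ S.image l, ∃ a ∈ S, l a = y := fun y hy => Finset.mem_image.1 hy
  rcases (S.image l).eq_empty_or_nonempty with h0 | ⟨y₀, hy₀⟩
  · simp [h0]
  have : Nonempty A := ⟨(hex y₀ hy₀).choose⟩
  choose! f hf using hex
  rw [← Finset.card_range (n + 1)]
  apply Finset.card_le_card_of_injOn (fun y => c (f y))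
  · intro y hy
    have := hc _ (hf y hy).1
    simp only [Finset.coe_range, Set.mem_Iio]
    omega
  · intro y hy y' hy' e
    rw [← (hf y hy).2, ← (hf y' hy').2]
    exact h _ (hf y hy).1 _ (hf y' hy').1 e

open Classical in
theorem count_bad {J : ℕ} (hlen : ∀ β, len β ≤ J) {D : Type} {π : Pos len → Pos len}
    {v : Pos len ⊕ Bool → D} (hp : PairOK π) (hc : CountCfg countPre π v) :
    badN π ≤ 2 * ((Finset.univ.filter fun p => countTy (countTm J) countPre π v p = 1).card +
      (Finset.univ.filter fun p => countTy (countTm J) countPre π v p = 3).card) + 1 := by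
  have htm := countTm_inj hlen
  set τ := countTy (countTm J) countPre π v with hτ
  set O := Finset.univ.filter fun p => τ p = 1 with hO
  set B := Finset.univ.filter fun p => τ p = 3 with hB
  set C := Finset.univ.filter fun p : Pos len =>
    τ p = 2 ∧ p.1.1 = true ∧ (π p).1.1 = false ∧ (π p).1.2 = p.1.2 with hC
  have hsub : (Finset.univ.filter fun s : Fin m => ∃ p : Pos len, p.1.2 = s ∧ (π p).1.2 = s) ⊆
      B.image (fun p => p.1.2) ∪ C.image (fun p => p.1.2) := by
    intro s hs
    obtain ⟨p, hp1, hp2⟩ := (Finset.mem_filter.1 hs).2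
    have hq : ∃ q : Pos len, q.1.2 = s ∧ (π q).1.2 = s ∧ countTm J (π q) < countTm J q := by
      by_cases ho : countTm J p < countTm J (π p)
      · exact ⟨π p, hp2, by rw [hc.inv]; exact hp1, by rw [hc.inv]; exact ho⟩
      · exact ⟨p, hp1, hp2, count_closing htm hc ho⟩
    obtain ⟨q, hq1, hq2, hq3⟩ := hq
    by_contra hcon
    rw [Finset.mem_union, not_or] at hcon
    obtain ⟨hc1, hc2⟩ := hcon
    have hnB : ∀ r : Pos len, r.1.2 = s → τ r ≠ 3 := fun r hr h3 =>
      hc1 (Finset.mem_image.2 ⟨r, Finset.mem_filter.2 ⟨Finset.mem_univ _, h3⟩, hr⟩)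
    have hqc : ¬ (τ q = 0 ∨ τ q = 1) := fun h => by
      have := countTy_open.2 h
      omega
    have hq2' : τ q = 2 := by
      have h3 := hnB q hq1
      revert hqc h3
      generalize τ q = i
      revert i
      decide
    have hlt := (countTm_lt hlen _ _).1 hq3
    by_cases hleg : (π q).1.1 = q.1.1
    · have hβ : (π q).1 = q.1 := Prod.ext hleg (hq2.trans hq1.symm)
      have hopen : τ (π q) = 0 ∨ τ (π q) = 1 := countTy_open.1 (by rw [hc.inv]; exact hq3)
      have hk : countKey (π q) = countKey q := by unfold countKey; rw [hβ]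
      have ht : ((π q).2 : ℕ) ≤ (q.2 : ℕ) := by omega
      generalize π q = u at hβ hopen ht
      obtain ⟨β, a⟩ := u
      obtain ⟨β', t⟩ := q
      simp only at hβ ht hq1
      subst hβ
      exact hqc (countVal_trans (count_valid hp β) (fun t' => hnB ⟨β, t'⟩ hq1) a.2 hopen
        t t.2 ht)
    · apply hc2
      refine Finset.mem_image.2 ⟨q, Finset.mem_filter.2 ⟨Finset.mem_univ _, hq2', ?_⟩, hq1⟩
      have hs := s.2
      have h1 : q.1.1 = true := by
        by_contra h1
        have h2 : (π q).1.1 = true := by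
          revert hleg h1
          cases (π q).1.1 <;> cases q.1.1 <;> simp
        simp only [countKey, h1, h2, hq1, hq2] at hlt
        simp at hlt
        omega
      refine ⟨h1, ?_, hq2.trans hq1.symm⟩
      rw [h1] at hleg
      simpa using hleg
  have hC' : (C.image fun p => p.1.2).card ≤ (O ∪ B).card + 1 := by
    apply count_card_image_le C _
      (fun q => ((O ∪ B).filter fun x => countTm J x < countTm J q).card)
    · intro a _
      exact Finset.card_filter_le _ _
    · have main : ∀ a ∈ C, ∀ b ∈ C, countTm J a < countTm J b →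
          ((O ∪ B).filter fun x => countTm J x < countTm J a).card =
            ((O ∪ B).filter fun x => countTm J x < countTm J b).card → a.1.2 = b.1.2 := by
        intro a ha b hb hab e
        obtain ⟨ha1, ha2, ha3, ha4⟩ := (Finset.mem_filter.1 ha).2
        obtain ⟨hb1, hb2, hb3, hb4⟩ := (Finset.mem_filter.1 hb).2
        have hm := (π b).1.2.2
        have hu : countTm J (π b) < countTm J a := by
          rw [countTm_lt hlen]
          left
          simp only [countKey, ha2, hb3]
          simp
          omega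
        have hcr := count_cross htm (countPre_lt hlen) hc (countPre_succ hlen a ha2) hab
          (countTy_eq2.1 hb1).2 hu (by
            intro q h1 h2
            by_contra hcon
            have hq : q ∈ O ∪ B := by
              rw [Finset.mem_union]
              simp only [hO, hB, Finset.mem_filter, Finset.mem_univ, true_and]
              revert hcon
              rw [← hτ]
              generalize τ q = i
              revert i
              decide
            have : ((O ∪ B).filter fun x => countTm J x < countTm J a) ⊂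
                ((O ∪ B).filter fun x => countTm J x < countTm J b) := by
              rw [Finset.ssubset_iff_of_subset]
              · refine ⟨q, Finset.mem_filter.2 ⟨hq, h2⟩, fun h => ?_⟩
                have := (Finset.mem_filter.1 h).2
                omega
              · intro x hx
                obtain ⟨hx1, hx2⟩ := Finset.mem_filter.1 hx
                exact Finset.mem_filter.2 ⟨hx1, by omega⟩
            have := Finset.card_lt_card this
            omega)
        rw [countTm_lt hlen] at hab hcr
        simp only [countKey, ha2, ha3, hb2, hb3, ha4, hb4] at hab hcr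
        apply Fin.ext
        omega
      intro a ha b hb e
      rcases lt_trichotomy (countTm J a) (countTm J b) with h | h | h
      · exact main a ha b hb h e
      · rw [htm h]
      · exact (main b hb a ha h e.symm).symm
  have h1 := Finset.card_le_card hsub
  have h2 := Finset.card_union_le (B.image fun p => p.1.2) (C.image fun p => p.1.2)
  have h3 : (B.image fun p => p.1.2).card ≤ B.card := Finset.card_image_le
  have h4 := Finset.card_union_le O B
  unfold badN
  omega

open Classical in
theorem count_fact {J : ℕ} (hlen : ∀ β, len β ≤ J) :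
    (∑ τ : Pos len → Fin 4, if (∀ β, countVal fun t : Fin (len β) => τ ⟨β, t⟩) then
      ∏ p, countW (1 / ((4 ^ J : ℕ) : ℝ)) (τ p) else 0) ≤ ((J : ℝ) + 2) ^ (2 * m) := by
  set ε : ℝ := 1 / ((4 ^ J : ℕ) : ℝ) with hε
  have hε0 : 0 ≤ ε := by positivity
  have hW0 : ∀ i, 0 ≤ countW ε i := fun i => by unfold countW; split_ifs <;> linarith
  have h1 := Finset.prod_univ_sum
    (fun β : Bool × Fin m => (Finset.univ : Finset (Fin (len β) → Fin 4)))
    (fun β σ => if countVal σ then ∏ t, countW ε (σ t) else 0)
  rw [Fintype.piFinset_univ] at h1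
  have h2 : (∑ τ : Pos len → Fin 4, if (∀ β, countVal fun t : Fin (len β) => τ ⟨β, t⟩) then
      ∏ p, countW ε (τ p) else 0) = ∑ x : (∀ β : Bool × Fin m, Fin (len β) → Fin 4),
        ∏ β, if countVal (x β) then ∏ t, countW ε (x β t) else 0 := by
    apply Fintype.sum_equiv (Equiv.piCurry fun (β : Bool × Fin m) (_ : Fin (len β)) => Fin 4)
    intro τ
    rw [Finset.prod_ite_zero, Fintype.prod_sigma]
    simp only [Finset.mem_univ, forall_const]
    rfl
  rw [h2, ← h1]
  calc _ ≤ ∏ _β : Bool × Fin m, ((J : ℝ) + 2) := by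
        apply Finset.prod_le_prod
        · intro β _
          apply Finset.sum_nonneg
          intro σ _
          split_ifs
          · exact Finset.prod_nonneg fun t _ => hW0 _
          · exact le_rfl
        · intro β _
          exact count_block (hlen β)
    _ = _ := by
        rw [Finset.prod_const, Finset.card_univ, Fintype.card_prod, Fintype.card_bool,
          Fintype.card_fin]

end conc

open Classical in
theorem walk_count {m J d K : ℕ} (hK : 1 ≤ K) (len : Bool × Fin m → ℕ) (hlen : ∀ β, len β ≤ J)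
    (hd : (K ^ 2 * (2 * m * J + 2) * 4 ^ J) ^ 3 ≤ d) :
    (∑ π : Pos len → Pos len, ∑ z : Fin (m + 1) → Fin d × Fin d,
      ∑ Γ : (∀ β : Bool × Fin m, Fin (len β + 1) → Fin d),
        if PairOK π ∧ WalkOK π z Γ then (K : ℝ) ^ badN π else 0) ≤
      (K : ℝ) * (d : ℝ) ^ 2 * √(d : ℝ) ^ (∑ β, len β) * ((J : ℝ) + 2) ^ (2 * m) := by
  have hcard : Fintype.card (Pos len) = ∑ β, len β := by
    simp [Fintype.card_sigma]
  have hM : Fintype.card (Pos len) + 2 ≤ 2 * m * J + 2 := by
    rw [hcard]
    have : ∑ β, len β ≤ ∑ _β : Bool × Fin m, J := Finset.sum_le_sum fun β _ => hlen β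
    rw [Finset.sum_const, Finset.card_univ, Fintype.card_prod, Fintype.card_bool,
      Fintype.card_fin, smul_eq_mul] at this
    omega
  have key := count_abs (countTm_inj hlen) (countPre_lt hlen) hK
    (Nat.one_le_pow J 4 (by norm_num)) hM hd
    (Finset.univ.filter fun x : (Pos len → Pos len) × (Fin (m + 1) → Fin d × Fin d) ×
      (∀ β : Bool × Fin m, Fin (len β + 1) → Fin d) => PairOK x.1 ∧ WalkOK x.1 x.2.1 x.2.2)
    (fun x => x.1) (fun x => countVx x.2.1 x.2.2)
    (by
      intro x hx y hy e1 e2
      obtain ⟨e3, e4⟩ := countVx_inj (Finset.mem_filter.1 hx).2.2 (Finset.mem_filter.1 hy).2.2 e2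
      exact Prod.ext e1 (Prod.ext e3 e4))
    (fun x hx => count_cfg (Finset.mem_filter.1 hx).2.1 (Finset.mem_filter.1 hx).2.2)
    (fun τ => ∀ β, countVal fun t : Fin (len β) => τ ⟨β, t⟩)
    (fun x hx β => count_valid (Finset.mem_filter.1 hx).2.1 β)
    (fun x => badN x.1)
    (fun x hx => count_bad hlen (Finset.mem_filter.1 hx).2.1
      (count_cfg (Finset.mem_filter.1 hx).2.1 (Finset.mem_filter.1 hx).2.2))
  rw [Finset.sum_filter, Fintype.sum_prod_type] at key
  simp only [Fintype.sum_prod_type] at key
  rw [hcard] at key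
  refine le_trans (le_of_eq ?_) (key.trans ?_)
  · rfl
  · apply mul_le_mul_of_nonneg_left _ (by positivity)
    refine le_trans (le_of_eq ?_) (count_fact hlen)
    refine Finset.sum_congr (by ext; simp) ?_
    intro τ _
    congr

end Pool.Agent.H612Z.Op
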