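import Mathlib

set_option autoImplicit false

namespace Pool.Agent.H612Z.Op

section abs

variable {P D : Type}

/-- an abstract configuration: pairing and vertex map -/
structure CountCfg (pre : P → P ⊕ Bool) (π : P → P) (v : P ⊕ Bool → D) : Prop where
  inv : ∀ p, π (π p) = p
  ne : ∀ p, π p ≠ p
  walk : ∀ p, v (pre (π p)) = v (Sum.inl p)

def countN (tm : P → ℕ) (π : P → P) (v : P ⊕ Bool → D) (p : P) : Prop :=
  tm p < tm (π p) ∧ (∀ g, v (Sum.inr g) ≠ v (Sum.inl p)) ∧
    ∀ r, tm r < tm p → v (Sum.inl r) ≠ v (Sum.inl p)

def countG (tm : P → ℕ) (pre : P → P ⊕ Bool) (π : P → P) (v : P ⊕ Bool → D) (p : P) : Prop :=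
  countN tm π v (π p) ∧
    ∀ p', tm p' < tm p → tm p ≤ tm (π p') → v (Sum.inl p') = v (pre p) → p' = π p

open Classical in
noncomputable def countTy (tm : P → ℕ) (pre : P → P ⊕ Bool) (π : P → P) (v : P ⊕ Bool → D)
    (p : P) : Fin 4 :=
  if tm p < tm (π p) then (if countN tm π v p then 0 else 1)
  else (if countG tm pre π v p then 2 else 3)

/-- earlier vertices -/
def countEarly (tm : P → ℕ) (p : P) : P ⊕ Bool → Prop
  | Sum.inl r => tm r < tm p
  | Sum.inr _ => True

open Classical in
noncomputable def countCd (tm : P → ℕ) (pre : P → P ⊕ Bool) (π : P → P) (v : P ⊕ Bool → D)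
    (p : P) : D ⊕ (P ⊕ Bool) :=
  if tm p < tm (π p) then
    (if h : ∃ x, countEarly tm p x ∧ v x = v (Sum.inl p) then Sum.inr h.choose
      else Sum.inl (v (Sum.inl p)))
  else (if countG tm pre π v p then Sum.inr (Sum.inr false) else Sum.inr (Sum.inl (π p)))

variable {tm : P → ℕ} {pre : P → P ⊕ Bool} {π : P → P} {v : P ⊕ Bool → D}

theorem countN_iff {p : P} (h : tm p < tm (π p)) :
    countN tm π v p ↔ ¬ ∃ x, countEarly tm p x ∧ v x = v (Sum.inl p) := by
  constructor
  · rintro ⟨-, h1, h2⟩ ⟨x, hx, hv⟩
    cases x with
    | inl r => exact h2 r hx hv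
    | inr g => exact h1 g hv
  · intro hn
    exact ⟨h, fun g hg => hn ⟨Sum.inr g, trivial, hg⟩, fun r hr hg => hn ⟨Sum.inl r, hr, hg⟩⟩

theorem countTy_eq0 {p : P} : countTy tm pre π v p = 0 ↔ countN tm π v p := by
  unfold countTy
  split_ifs with h1 h2 h3
  · simp [h2]
  · simp [h2]
  · exact ⟨fun h => by simp at h, fun h => absurd h.1 h1⟩
  · exact ⟨fun h => by simp at h, fun h => absurd h.1 h1⟩

theorem countTy_eq1 {p : P} :
    countTy tm pre π v p = 1 ↔ tm p < tm (π p) ∧ ¬ countN tm π v p := by
  unfold countTy
  split_ifs with h1 h2 h3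
  · simp [h2]
  · simp [h2, h1]
  · exact ⟨fun h => by simp at h, fun h => absurd h.1 h1⟩
  · exact ⟨fun h => by simp at h, fun h => absurd h.1 h1⟩

theorem countTy_eq2 {p : P} :
    countTy tm pre π v p = 2 ↔ ¬ tm p < tm (π p) ∧ countG tm pre π v p := by
  unfold countTy
  split_ifs with h1 h2 h3
  · exact ⟨fun h => by simp at h, fun h => absurd h1 h.1⟩
  · exact ⟨fun h => by simp at h, fun h => absurd h1 h.1⟩
  · simp [h1, h3]
  · simp [h3]

theorem countTy_eq3 {p : P} :
    countTy tm pre π v p = 3 ↔ ¬ tm p < tm (π p) ∧ ¬ countG tm pre π v p := by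
  unfold countTy
  split_ifs with h1 h2 h3
  · exact ⟨fun h => by simp at h, fun h => absurd h1 h.1⟩
  · exact ⟨fun h => by simp at h, fun h => absurd h1 h.1⟩
  · simp [h3]
  · simp [h1, h3]

theorem countTy_open {p : P} :
    tm p < tm (π p) ↔ (countTy tm pre π v p = 0 ∨ countTy tm pre π v p = 1) := by
  rw [countTy_eq0, countTy_eq1]
  constructor
  · intro h
    by_cases h2 : countN tm π v p
    · exact Or.inl h2
    · exact Or.inr ⟨h, h2⟩
  · rintro (h | h)
    · exact h.1
    · exact h.1

theorem count_closing (htm : Function.Injective tm) (hc : CountCfg pre π v) {p : P}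
    (h : ¬ tm p < tm (π p)) : tm (π p) < tm p := by
  have : tm (π p) ≠ tm p := fun e => hc.ne p (htm e)
  omega

theorem countN_inj (htm : Function.Injective tm) {p q : P} (hp : countN tm π v p)
    (hq : countN tm π v q) (h : v (Sum.inl p) = v (Sum.inl q)) : p = q := by
  rcases lt_trichotomy (tm p) (tm q) with h1 | h1 | h1
  · exact absurd h (hq.2.2 p h1)
  · exact htm h1
  · exact absurd h.symm (hp.2.2 q h1)

/-- the code determines the configuration -/
theorem count_code_inj (htm : Function.Injective tm)
    (hpre : ∀ q p, pre q = Sum.inl p → tm p < tm q) {π' : P → P} {v' : P ⊕ Bool → D}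
    (hc : CountCfg pre π v) (hc' : CountCfg pre π' v')
    (hst : ∀ g, v (Sum.inr g) = v' (Sum.inr g))
    (hty : countTy tm pre π v = countTy tm pre π' v')
    (hcd : countCd tm pre π v = countCd tm pre π' v') : π = π' ∧ v = v' := by
  have hop : ∀ p, tm p < tm (π p) ↔ tm p < tm (π' p) := fun p => by
    rw [countTy_open (pre := pre) (v := v), countTy_open (pre := pre) (v := v'), hty]
  have key : ∀ n, ∀ p, tm p = n →
      v (Sum.inl p) = v' (Sum.inl p) ∧ (¬ tm p < tm (π p) → π p = π' p) := by
    intro n
    induction n using Nat.strong_induction_on with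
    | _ n ih =>
      intro p hp
      have ihe : ∀ x, countEarly tm p x → v x = v' x := by
        intro x hx
        cases x with
        | inl r => exact (ih (tm r) (hp ▸ hx) r rfl).1
        | inr g => exact hst g
      have ihp : ∀ r, tm r ≤ tm p → v (pre r) = v' (pre r) := by
        intro r hr
        apply ihe
        cases hx : pre r with
        | inl r' => exact lt_of_lt_of_le (hpre r r' hx) hr
        | inr g => trivial
      have hcp := congrFun hcd p
      have htp := congrFun hty p
      by_cases ho : tm p < tm (π p)
      · have ho' := (hop p).1 ho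
        refine ⟨?_, fun h => absurd ho h⟩
        unfold countCd at hcp
        rw [if_pos ho, if_pos ho'] at hcp
        split_ifs at hcp with h1 h2 h2
        · have e : h1.choose = h2.choose := by simpa using hcp
          rw [← h1.choose_spec.2, ← h2.choose_spec.2, ← e]
          exact ihe _ h1.choose_spec.1
        · simpa using hcp
      · have ho' : ¬ tm p < tm (π' p) := fun h => ho ((hop p).2 h)
        have hl := count_closing htm hc ho
        have hpi : π p = π' p := by
          by_cases hG : countG tm pre π v p
          · have hG' : countG tm pre π' v' p :=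
              (countTy_eq2.1 (htp ▸ countTy_eq2.2 ⟨ho, hG⟩)).2
            apply hG'.2 (π p) hl
            · by_contra hlt
              push Not at hlt
              have h1 : tm (π p) < tm (π' (π p)) := by
                apply (hop _).1
                rw [hc.inv]; exact hl
              have h2 : ¬ tm (π' (π p)) < tm (π (π' (π p))) := by
                rw [hop, hc'.inv]; omega
              have h3 := (ih _ (hp ▸ hlt) (π' (π p)) rfl).2 h2
              rw [hc'.inv] at h3
              have h4 : π' (π p) = p := by
                have := congrArg π h3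
                rwa [hc.inv, hc.inv] at this
              rw [h4] at hlt
              exact lt_irrefl _ hlt
            · rw [← ihp p le_rfl, ← ihe (Sum.inl (π p)) hl, ← hc.walk (π p), hc.inv]
          · have hG' : ¬ countG tm pre π' v' p :=
              (countTy_eq3.1 (htp ▸ countTy_eq3.2 ⟨ho, hG⟩)).2
            unfold countCd at hcp
            rw [if_neg ho, if_neg ho', if_neg hG, if_neg hG'] at hcp
            simpa using hcp
        refine ⟨?_, fun _ => hpi⟩
        rw [← hc.walk p, ← hc'.walk p, ← hpi]
        exact ihp _ hl.le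
  constructor
  · funext p
    by_cases ho : tm p < tm (π p)
    · have h1 : ¬ tm (π p) < tm (π (π p)) := by rw [hc.inv]; omega
      have h2 := (key _ (π p) rfl).2 h1
      rw [hc.inv] at h2
      have := congrArg π' h2
      rw [hc'.inv] at this
      exact this.symm
    · exact (key _ p rfl).2 ho
  · funext x
    cases x with
    | inl p => exact (key _ p rfl).1
    | inr g => exact hst g

open Classical in
theorem count_B_le [Fintype P] (htm : Function.Injective tm) (hc : CountCfg pre π v) :
    (Finset.univ.filter fun p => countTy tm pre π v p = 3).card ≤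
      2 * (Finset.univ.filter fun p => countTy tm pre π v p = 1).card := by
  set B := Finset.univ.filter fun p => countTy tm pre π v p = 3 with hB
  set O := Finset.univ.filter fun p => countTy tm pre π v p = 1 with hO
  have hsplit := Finset.card_filter_add_card_filter_not (s := B) (fun p => countN tm π v (π p))
  have h1 : (B.filter fun p => ¬ countN tm π v (π p)).card ≤ O.card := by
    apply Finset.card_le_card_of_injOn π
    · intro p hp
      simp only [hB, hO, Finset.coe_filter, Finset.mem_filter, Finset.mem_univ, true_and,
        Set.mem_ofPred_eq] at hp ⊢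
      rw [countTy_eq3] at hp
      rw [countTy_eq1, hc.inv]
      exact ⟨count_closing htm hc hp.1.1, hp.2⟩
    · intro p _ q _ h
      have := congrArg π h
      rwa [hc.inv, hc.inv] at this
  have h2 : (B.filter fun p => countN tm π v (π p)).card ≤ O.card := by
    have hex : ∀ p ∈ B.filter fun p => countN tm π v (π p),
        ∃ p' ∈ O, v (Sum.inl p') = v (Sum.inl (π p)) := by
      intro p hp
      simp only [hB, Finset.mem_filter, Finset.mem_univ, true_and] at hp
      rw [countTy_eq3] at hp
      obtain ⟨⟨ho, hG⟩, hN⟩ := hp
      unfold countG at hG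
      push Not at hG
      obtain ⟨p', h1, h2, h3, h4⟩ := hG hN
      have h5 : v (Sum.inl p') = v (Sum.inl (π p)) := by
        rw [h3, ← hc.walk (π p), hc.inv]
      refine ⟨p', ?_, h5⟩
      simp only [hO, Finset.mem_filter, Finset.mem_univ, true_and]
      rw [countTy_eq1]
      exact ⟨by omega, fun hN' => h4 (countN_inj htm hN' hN h5)⟩
    choose! f hf using hex
    apply Finset.card_le_card_of_injOn f
    · intro p hp
      exact (hf p hp).1
    · intro p hp q hq h
      have e1 := (hf p hp).2
      have e2 := (hf q hq).2
      have hp' : countN tm π v (π p) := (Finset.mem_filter.1 hp).2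
      have hq' : countN tm π v (π q) := (Finset.mem_filter.1 hq).2
      have := countN_inj htm hp' hq' (by rw [← e1, ← e2, h])
      have := congrArg π this
      rwa [hc.inv, hc.inv] at this
  omega

open Classical in
theorem count_half [Fintype P] (htm : Function.Injective tm) (hc : CountCfg pre π v) :
    Fintype.card P = 2 * ((Finset.univ.filter fun p => countTy tm pre π v p = 0).card +
      (Finset.univ.filter fun p => countTy tm pre π v p = 1).card) := by
  have h0 := Finset.card_filter_add_card_filter_not (s := (Finset.univ : Finset P))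
    (fun p => tm p < tm (π p))
  have h1 : (Finset.univ.filter fun p => tm p < tm (π p)).card =
      (Finset.univ.filter fun p => ¬ tm p < tm (π p)).card := by
    apply Finset.card_nbij' π π
    · intro p hp
      simp only [Finset.coe_filter, Finset.mem_univ, true_and, Set.mem_ofPred_eq] at hp ⊢
      rw [hc.inv]; omega
    · intro p hp
      simp only [Finset.coe_filter, Finset.mem_univ, true_and, Set.mem_ofPred_eq] at hp ⊢
      rw [hc.inv]; exact count_closing htm hc hp
    · intro p _; exact hc.inv p
    · intro p _; exact hc.inv p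
  have h2 : (Finset.univ.filter fun p => tm p < tm (π p)).card =
      (Finset.univ.filter fun p => countTy tm pre π v p = 0).card +
      (Finset.univ.filter fun p => countTy tm pre π v p = 1).card := by
    rw [← Finset.card_union_of_disjoint]
    · congr 1
      ext p
      simp only [Finset.mem_filter, Finset.mem_univ, true_and, Finset.mem_union]
      exact countTy_open
    · rw [Finset.disjoint_filter]
      intro p _ h h'
      rw [h] at h'
      simp at h'
  rw [Finset.card_univ] at h0
  omega

/-- the nesting of good closings -/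
theorem count_cross (htm : Function.Injective tm)
    (hpre : ∀ q p, pre q = Sum.inl p → tm p < tm q) (hc : CountCfg pre π v) {q₁ q₂ : P}
    (hsucc : ∀ q, tm q₁ < tm q → ∃ r, pre q = Sum.inl r ∧ tm q₁ ≤ tm r)
    (h12 : tm q₁ < tm q₂) (hG : countG tm pre π v q₂) (hu : tm (π q₂) < tm q₁)
    (hX : ∀ q, tm q₁ < tm q → tm q < tm q₂ → countTy tm pre π v q = 0 ∨ countTy tm pre π v q = 2) :
    tm (π q₂) < tm (π q₁) := by
  have hold : ∀ r, tm r ≤ tm (π q₁) → ∃ x, countEarly tm (π q₁) x ∧ v x = v (pre r) := by
    intro r hr
    refine ⟨pre r, ?_, rfl⟩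
    cases hx : pre r with
    | inl r' => exact lt_of_lt_of_le (hpre r r' hx) hr
    | inr g => trivial
  have hNold : ∀ u, countN tm π v u → (∃ x, countEarly tm (π q₁) x ∧ v x = v (Sum.inl u)) →
      tm u < tm (π q₁) := by
    rintro u hu ⟨x, hx, hv⟩
    cases x with
    | inl r =>
      by_contra hlt
      have : tm r < tm (π q₁) := hx
      exact hu.2.2 r (by omega) hv
    | inr g => exact absurd hv (hu.2.1 g)
  have key : ∀ n, ∀ q, tm q = n → tm q₁ ≤ tm q → tm q < tm q₂ →
      (∃ x, countEarly tm (π q₁) x ∧ v x = v (Sum.inl q)) ∨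
        ∃ p, countN tm π v p ∧ tm q₁ < tm p ∧ v (Sum.inl p) = v (Sum.inl q) := by
    intro n
    induction n using Nat.strong_induction_on with
    | _ n ih =>
      intro q hq h1 h2
      rcases h1.eq_or_lt with h1 | h1
      · left
        have e : q₁ = q := htm h1
        subst e
        rw [← hc.walk]
        exact hold _ le_rfl
      · rcases hX q h1 h2 with h | h
        · exact Or.inr ⟨q, countTy_eq0.1 h, h1, rfl⟩
        · obtain ⟨ho, hGq⟩ := countTy_eq2.1 h
          have hl := count_closing htm hc ho
          obtain ⟨r, hr, hr1⟩ := hsucc q h1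
          have hr2 := hpre _ _ hr
          have hv : v (Sum.inl r) = v (Sum.inl (π q)) := by
            rw [← hr, ← hc.walk (π q), hc.inv]
          rcases ih (tm r) (hq ▸ hr2) r rfl hr1 (by omega) with h3 | ⟨p, hp1, hp2, hp3⟩
          · left
            rw [hv] at h3
            rw [← hc.walk q]
            exact hold _ (hNold _ hGq.1 h3).le
          · have e : p = π q := countN_inj htm hp1 hGq.1 (hp3.trans hv)
            obtain ⟨r', hr', hr1'⟩ := hsucc p hp2
            have hr2' := hpre _ _ hr'
            have := ih (tm r') (by rw [← hq]; rw [e] at hr2'; omega) r' rfl hr1'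
              (by rw [e] at hr2'; omega)
            rwa [← hr', e, hc.walk] at this
  obtain ⟨r, hr, hr1⟩ := hsucc q₂ h12
  have hr2 := hpre _ _ hr
  have hv : v (Sum.inl r) = v (Sum.inl (π q₂)) := by
    rw [← hr, ← hc.walk (π q₂), hc.inv]
  rcases key _ r rfl hr1 hr2 with h3 | ⟨p, hp1, hp2, hp3⟩
  · rw [hv] at h3
    exact hNold _ hG.1 h3
  · have e : p = π q₂ := countN_inj htm hp1 hG.1 (hp3.trans hv)
    rw [e] at hp2
    omega

end abs

end Pool.Agent.H612Z.Op
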