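import Pool.Agent.H612Z.Op.ModelA

set_option autoImplicit false

open scoped ComplexConjugate InnerProductSpace
open Finsupp

namespace Pool.Agent.H612Z.Op

variable {k : ℕ}

/-- the kernel on a block -/
theorem block_ker {Y Y' : ℕ → Level k} {B : Set (Al k)} (hB : Clo Y Y' B) {S : Type}
    {κ : S → List (Al k)} {z : Lt k → En S} (hκ : IsBlock Y B κ z) {p : FA (Gen k)}
    (hp : p ∈ adj B) {u u' : List (Al k)} (hu : u ∈ BL B) (hu' : u' ∈ BL B) (s s' : S) :
    ker (rho Y p) (u ++ κ s) (u' ++ κ s') = ker (ev1 z (Fu Y' p u u')) s s' :=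
  modelA_block_ker hB hκ hp hu hu' s s'

/-- blocks are invariant -/
theorem block_inv {Y Y' : ℕ → Level k} {B : Set (Al k)} (hB : Clo Y Y' B) {S : Type}
    {κ : S → List (Al k)} {z : Lt k → En S} (hκ : IsBlock Y B κ z) {p : FA (Gen k)}
    (hp : p ∈ adj B) {u' : List (Al k)} (hu' : u' ∈ BL B) (s' : S) {l : List (Al k)}
    (h : ker (rho Y p) l (u' ++ κ s') ≠ 0) : ∃ u ∈ BL B, ∃ s, l = u ++ κ s :=
  modelA_block_inv hB hκ hp hu' s' h

/-- uniqueness of the decomposition -/
theorem block_unique {B : Set (Al k)} {u u' r r' : List (Al k)} (hu : u ∈ BL B) (hu' : u' ∈ BL B)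
    (hr : ∀ ι t, r = ι :: t → ι ∉ B) (hr' : ∀ ι t, r' = ι :: t → ι ∉ B)
    (h : u ++ r = u' ++ r') : u = u' ∧ r = r' :=
  modelA_unique hu hu' hr hr' h

/-- locality: bounded change of length, and only the first letters matter -/
theorem rho_local (p : FA (Gen k)) : ∃ W : ℕ, 0 < W ∧ ∀ Y : ℕ → Level k,
    (∀ l l', ker (rho Y p) l l' ≠ 0 → l.length ≤ l'.length + W ∧ l'.length ≤ l.length + W) ∧
    ∀ u t : List (Al k), W ≤ u.length →
      rho Y p (single (u ++ t) 1) = mapDomain (fun v => v ++ t) (rho Y p (single u 1)) :=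
  modelA_local p

theorem mem_adj_BB (p : FA (Gen k)) : ∃ n₀ : ℕ, ∀ n N, n₀ ≤ n → n₀ ≤ N → p ∈ adj (BB k n N) :=
  modelA_mem_adj_BB p

theorem adj_mono {B B' : Set (Al k)} (h : B ⊆ B') : adj B ≤ adj B' := by
  refine Algebra.adjoin_mono (Set.image_mono fun g hg => ?_)
  rcases g with (ι | ι) | a
  · exact h hg
  · exact h hg
  · trivial

theorem block_nil (Y : ℕ → Level k) (B : Set (Al k)) :
    IsBlock Y B (fun _ : Unit => ([] : List (Al k))) (fun _ => 0) :=
  ⟨fun _ _ _ => rfl, fun _ _ _ h => by simp at h, fun a s => by simp [yv]⟩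

theorem block_null (Y : ℕ → Level k) (B : Set (Al k)) (m x : ℕ) (t : List (Al k))
    (hx : (Y m).d ≤ x) (hB : (m, Sum.inl x) ∉ B) :
    IsBlock Y B (fun _ : Unit => ((m, Sum.inl x) :: t : List (Al k))) (fun _ => 0) :=
  ⟨fun _ _ _ => rfl, fun _ ι _ h => by
    simp only [List.cons.injEq] at h
    exact h.1 ▸ hB, fun a s => by simp [yv, not_lt.2 hx]⟩

theorem block_mat (Y : ℕ → Level k) (B : Set (Al k)) (m : ℕ) (t : List (Al k))
    (hB : ∀ x, (m, Sum.inl x) ∉ B) :
    IsBlock Y B (fun x : Fin (Y m).d => ((m, Sum.inl (x : ℕ)) :: t : List (Al k))) (zL (Y m)) :=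
  ⟨fun x y h => Fin.ext (by simpa using h), fun x ι _ h => by
    simp only [List.cons.injEq] at h
    exact h.1 ▸ hB x, fun a s => by
      simp [yv, zL, mE, mapDomain_finsetSum, mapDomain_single]⟩

theorem block_fock (Y : ℕ → Level k) (B : Set (Al k)) (m : ℕ) (b : Lt k) (t : List (Al k))
    (ht : ¬ isF m t) (hB : ∀ a, (m, Sum.inr a) ∉ B) :
    IsBlock Y B (fun w : List (Lt k) =>
      (w.map (fun a => ((m, Sum.inr a) : Al k)) ++ (m, Sum.inr b) :: t)) (cF 0) := by
  refine ⟨fun w w' h => ?_, fun w ι t' h => ?_, fun a w => ?_⟩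
  · exact List.map_injective_iff.2 (fun x y e => by simpa using e) (List.append_cancel_right h)
  · cases w with
    | nil =>
      simp only [List.map_nil, List.nil_append, List.cons.injEq] at h
      exact h.1 ▸ hB b
    | cons c w =>
      simp only [List.map_cons, List.cons_append, List.cons.injEq] at h
      exact h.1 ▸ hB c
  · cases w with
    | nil => simp [yv, cF, ht, mapDomain_single]
    | cons c w =>
      have hF : isF m (w.map (fun a => ((m, Sum.inr a) : Al k)) ++ (m, Sum.inr b) :: t) := by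
        cases w <;> simp [isF]
      simp only [yv, cF, List.map_cons, List.cons_append, lin_single, one_smul, mapDomain_add,
        mapDomain_single, ite_self, sub_zero]
      by_cases h : c = bar a
      · rw [if_pos ⟨h, hF⟩, if_pos h, mapDomain_single]
      · rw [if_neg fun h' => h h'.1, if_neg h, mapDomain_zero]

open Classical in
/-- strip the leading Fock letters of one level until one is left -/
noncomputable def model_strip : List (Al k) → List (Al k)
  | (m, Sum.inr b) :: t => if isF m t then model_strip t else (m, Sum.inr b) :: t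
  | l => l

theorem model_strip_spec (t : List (Al k)) (m : ℕ) (b : Lt k) :
    ∃ (w : List (Lt k)) (b' : Lt k) (t' : List (Al k)), ¬ isF m t' ∧
      (m, Sum.inr b) :: t = w.map (fun a => ((m, Sum.inr a) : Al k)) ++ (m, Sum.inr b') :: t' ∧
      model_strip ((m, Sum.inr b) :: t) = (m, Sum.inr b') :: t' := by
  induction t generalizing b with
  | nil => exact ⟨[], b, [], by simp [isF], rfl, by simp [model_strip, isF]⟩
  | cons c t ih =>
    by_cases h : isF m (c :: t)
    · obtain ⟨m', x | b'⟩ := c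
      · simp [isF] at h
      · have e : m' = m := h
        subst e
        obtain ⟨w, b'', t', h1, h2, h3⟩ := ih b'
        refine ⟨b :: w, b'', t', h1, by rw [h2]; rfl, ?_⟩
        rw [model_strip, if_pos h, h3]
    · exact ⟨[], b, c :: t, h, rfl, by rw [model_strip, if_neg h]⟩

theorem model_strip_eq (w : List (Lt k)) (m : ℕ) (b : Lt k) (t : List (Al k)) (ht : ¬ isF m t) :
    model_strip (w.map (fun a => ((m, Sum.inr a) : Al k)) ++ (m, Sum.inr b) :: t) =
      (m, Sum.inr b) :: t := by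
  induction w with
  | nil => rw [List.map_nil, List.nil_append, model_strip, if_neg ht]
  | cons c w ih =>
    have hF : isF m (w.map (fun a => ((m, Sum.inr a) : Al k)) ++ (m, Sum.inr b) :: t) := by
      cases w <;> simp [isF]
    rw [List.map_cons, List.cons_append, model_strip, if_pos hF, ih]

/-- the canonical root of a root -/
noncomputable def model_lab (Y : ℕ → Level k) : List (Al k) → List (Al k)
  | [] => []
  | (m, Sum.inl x) :: t => if x < (Y m).d then (m, Sum.inl 0) :: t else (m, Sum.inl x) :: t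
  | (m, Sum.inr b) :: t => model_strip ((m, Sum.inr b) :: t)

theorem model_split (B : Set (Al k)) : ∃ root : List (Al k) → List (Al k),
    (∀ l, (∃ u ∈ BL B, l = u ++ root l) ∧ ∀ ι t, root l = ι :: t → ι ∉ B) ∧
    ∀ u ∈ BL B, ∀ r, (∀ ι t, r = ι :: t → ι ∉ B) → root (u ++ r) = r := by
  have h : ∀ l : List (Al k), ∃ r, (∃ u ∈ BL B, l = u ++ r) ∧ ∀ ι t, r = ι :: t → ι ∉ B := by
    intro l
    induction l with
    | nil => exact ⟨[], ⟨[], fun _ h => by simp at h, rfl⟩, fun _ _ h => by simp at h⟩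
    | cons c l ih =>
      by_cases hc : c ∈ B
      · obtain ⟨r, ⟨u, hu, e⟩, hr⟩ := ih
        refine ⟨r, ⟨c :: u, fun ι hι => ?_, by rw [e]; rfl⟩, hr⟩
        rcases List.mem_cons.1 hι with rfl | hι
        · exact hc
        · exact hu ι hι
      · refine ⟨c :: l, ⟨[], fun _ h => by simp at h, rfl⟩, fun ι t h => ?_⟩
        simp only [List.cons.injEq] at h
        exact h.1 ▸ hc
  choose root hroot using h
  refine ⟨root, hroot, fun u hu r hr => ?_⟩
  obtain ⟨⟨u', hu', e⟩, hr'⟩ := hroot (u ++ r)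
  exact (block_unique hu hu' hr hr' e).2.symm

/-- The decomposition of the lists into blocks, relative to `BB k n N`: a set of lists is
described by its canonical root. -/
theorem exists_label (Y : ℕ → Level k) (n N : ℕ) (hN : ∀ m < n, (Y m).d ≤ N) :
    ∃ β : List (Al k) → List (Al k), ∀ r : List (Al k),
      ({l | β l = r} = ∅) ∨
      (r = [] ∧ {l | β l = r} = BL (BB k n N)) ∨
      (∃ m x t, r = (m, Sum.inl x) :: t ∧ (Y m).d ≤ x ∧ (m, Sum.inl x) ∉ BB k n N ∧
        {l | β l = r} = {l | ∃ u ∈ BL (BB k n N), l = u ++ r}) ∨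
      (∃ m t, n ≤ m ∧ {l | β l = r} = {l | ∃ u ∈ BL (BB k n N), ∃ x : Fin (Y m).d,
        l = u ++ (m, Sum.inl (x : ℕ)) :: t}) ∨
      (∃ m b t, n ≤ m ∧ ¬ isF m t ∧ {l | β l = r} = {l | ∃ u ∈ BL (BB k n N), ∃ w : List (Lt k),
        l = u ++ (w.map (fun a => ((m, Sum.inr a) : Al k)) ++ (m, Sum.inr b) :: t)}) := by
  obtain ⟨root, h1, h2⟩ := model_split (BB k n N)
  refine ⟨fun l => model_lab Y (root l), fun r => ?_⟩
  by_cases hne : {l | model_lab Y (root l) = r} = ∅
  · exact Or.inl hne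
  right
  obtain ⟨l0, hl0⟩ := Set.nonempty_iff_ne_empty.2 hne
  have out0 := (h1 l0).2
  simp only [Set.mem_ofPred_eq] at hl0
  have hd : ∀ {ι : Al k} {t : List (Al k)}, ι ∉ BB k n N →
      ∀ ι' t', ι :: t = ι' :: t' → ι' ∉ BB k n N := fun h ι' t' e => by
    simp only [List.cons.injEq] at e
    exact e.1 ▸ h
  generalize root l0 = r0 at hl0 out0
  rcases r0 with _ | ⟨⟨m, x | b⟩, t⟩
  · left
    have hr : r = [] := hl0.symm
    subst hr
    refine ⟨rfl, Set.ext fun l => ⟨fun h => ?_, fun h => ?_⟩⟩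
    · obtain ⟨⟨u, hu, e⟩, -⟩ := h1 l
      simp only [Set.mem_ofPred_eq] at h
      generalize root l = r' at h e
      rcases r' with _ | ⟨⟨m', x' | b'⟩, t'⟩
      · rw [e, List.append_nil]; exact hu
      · simp only [model_lab] at h
        split_ifs at h
      · obtain ⟨w, b'', t'', -, -, h3⟩ := model_strip_spec t' m' b'
        rw [model_lab, h3] at h
        simp at h
    · have := h2 l h [] (fun _ _ h => by simp at h)
      rw [List.append_nil] at this
      simp only [Set.mem_ofPred_eq, this, model_lab]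
  · have hout := out0 _ _ rfl
    right
    by_cases hx : x < (Y m).d
    · right; left
      have hnm : n ≤ m := by
        by_contra hc
        refine hout ⟨not_le.1 hc, fun y hy => ?_⟩
        simp only [Sum.inl.injEq] at hy
        exact lt_of_lt_of_le (hy ▸ hx) (hN m (not_le.1 hc))
      rw [model_lab, if_pos hx] at hl0
      subst hl0
      refine ⟨m, t, hnm, Set.ext fun l => ⟨fun h => ?_, ?_⟩⟩
      · obtain ⟨⟨u, hu, e⟩, -⟩ := h1 l
        simp only [Set.mem_ofPred_eq] at h
        generalize root l = r' at h e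
        rcases r' with _ | ⟨⟨m', x' | b'⟩, t'⟩
        · simp [model_lab] at h
        · simp only [model_lab] at h
          split_ifs at h with hx'
          · simp only [List.cons.injEq, Prod.mk.injEq, and_true] at h
            obtain ⟨rfl, rfl⟩ := h
            exact ⟨u, hu, ⟨x', hx'⟩, e⟩
          · simp only [List.cons.injEq, Prod.mk.injEq, Sum.inl.injEq] at h
            obtain ⟨⟨rfl, rfl⟩, rfl⟩ := h
            omega
        · obtain ⟨w, b'', t'', -, -, h3⟩ := model_strip_spec t' m' b'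
          rw [model_lab, h3] at h
          simp at h
      · rintro ⟨u, hu, x', rfl⟩
        have : ((m, Sum.inl (x' : ℕ)) : Al k) ∉ BB k n N := fun h => absurd h.1 (not_lt.2 hnm)
        simp only [Set.mem_ofPred_eq, h2 u hu _ (hd this), model_lab, if_pos x'.2]
    · left
      rw [model_lab, if_neg hx] at hl0
      subst hl0
      refine ⟨m, x, t, rfl, not_lt.1 hx, hout, Set.ext fun l => ⟨fun h => ?_, ?_⟩⟩
      · obtain ⟨⟨u, hu, e⟩, -⟩ := h1 l
        simp only [Set.mem_ofPred_eq] at h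
        generalize root l = r' at h e
        rcases r' with _ | ⟨⟨m', x' | b'⟩, t'⟩
        · simp [model_lab] at h
        · simp only [model_lab] at h
          split_ifs at h with hx'
          · simp only [List.cons.injEq, Prod.mk.injEq, Sum.inl.injEq] at h
            obtain ⟨⟨rfl, rfl⟩, rfl⟩ := h
            omega
          · exact ⟨u, hu, h ▸ e⟩
        · obtain ⟨w, b'', t'', -, -, h3⟩ := model_strip_spec t' m' b'
          rw [model_lab, h3] at h
          simp at h
      · rintro ⟨u, hu, rfl⟩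
        simp only [Set.mem_ofPred_eq, h2 u hu _ (hd hout), model_lab, if_neg hx]
  · have hout := out0 _ _ rfl
    right; right; right
    have hnm : n ≤ m := by
      by_contra hc
      exact hout ⟨not_le.1 hc, fun y hy => by simp at hy⟩
    obtain ⟨w0, b0, t0, g1, -, g3⟩ := model_strip_spec t m b
    rw [model_lab, g3] at hl0
    subst hl0
    refine ⟨m, b0, t0, hnm, g1, Set.ext fun l => ⟨fun h => ?_, ?_⟩⟩
    · obtain ⟨⟨u, hu, e⟩, -⟩ := h1 l
      simp only [Set.mem_ofPred_eq] at h
      generalize root l = r' at h e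
      rcases r' with _ | ⟨⟨m', x' | b'⟩, t'⟩
      · simp [model_lab] at h
      · simp only [model_lab] at h
        split_ifs at h <;> simp at h
      · obtain ⟨w, b'', t'', -, h2', h3⟩ := model_strip_spec t' m' b'
        rw [model_lab, h3] at h
        simp only [List.cons.injEq, Prod.mk.injEq, Sum.inr.injEq] at h
        obtain ⟨⟨rfl, rfl⟩, rfl⟩ := h
        exact ⟨u, hu, w, by rw [e, h2']⟩
    · rintro ⟨u, hu, w, rfl⟩
      have hB : ∀ a, ((m, Sum.inr a) : Al k) ∉ BB k n N := fun a h => absurd h.1 (not_lt.2 hnm)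
      have := h2 u hu _ ((block_fock Y (BB k n N) m b0 t0 g1 hB).out w)
      simp only [Set.mem_ofPred_eq, this]
      have e := model_strip_eq w m b0 t0 g1
      cases w with
      | nil => exact e
      | cons c w => exact e

theorem model_blocks (Y : ℕ → Level k) : ∃ β : List (Al k) → List (Al k), ∀ j : List (Al k),
    ∃ (S : Type) (κ : S → List (Al k)) (z : Lt k → En S), Function.Injective κ ∧
      (∀ a s, yv Y a (κ s) = mapDomain κ (z a (single s 1))) ∧ {l | β l = β j} = Set.range κ ∧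
      ((∀ m a, KB ((Y m).Y a) Set.univ 4) → ∀ a, KB (ker (z a)) Set.univ 4) ∧
      ((∀ m a, (Y m).Y (bar a) = ((Y m).Y a).conjTranspose) → ∀ a, IsAdj (z (bar a)) (z a)) := by
  obtain ⟨β, hβ⟩ := exists_label Y 0 0 (fun m h => absurd h (Nat.not_lt_zero m))
  have hB : ∀ ι, ι ∉ BB k 0 0 := fun ι h => absurd h.1 (Nat.not_lt_zero _)
  have hBL : ∀ u : List (Al k), u ∈ BL (BB k 0 0) ↔ u = [] := fun u =>
    ⟨fun h => List.eq_nil_iff_forall_not_mem.2 fun ι hι => hB ι (h ι hι),
      fun h ι hι => by simp [h] at hι⟩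
  have z1 : KB (ker (0 : En Unit)) Set.univ 4 :=
    (kb_zero Set.univ (by norm_num)).congr fun i _ j _ => ker_zero i j
  have z2 : IsAdj (0 : En Unit) 0 := fun i j => by simp [ker_zero]
  refine ⟨β, fun j => ?_⟩
  rcases hβ (β j) with h | ⟨-, h⟩ | ⟨m, x, t, e, hx, -, h⟩ | ⟨m, t, -, h⟩ | ⟨m, b, t, -, ht, h⟩
  · exact absurd (h ▸ (rfl : β j = β j) : j ∈ (∅ : Set (List (Al k)))) (Set.notMem_empty j)
  · have hb := block_nil Y (BB k 0 0)
    refine ⟨Unit, _, _, hb.inj, hb.act, ?_, fun _ _ => z1, fun _ _ => z2⟩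
    rw [h]; ext l; simp [hBL]
  · have hb := block_null Y (BB k 0 0) m x t hx (hB _)
    refine ⟨Unit, _, _, hb.inj, hb.act, ?_, fun _ _ => z1, fun _ _ => z2⟩
    rw [h, e]; ext l; simp [hBL]
  · have hb := block_mat Y (BB k 0 0) m t fun _ => hB _
    refine ⟨_, _, _, hb.inj, hb.act, ?_, fun hY a => (hY m a).congr fun i _ j _ => ker_mE _ i j,
      fun hY a => ?_⟩
    · rw [h]; ext l; simp [hBL, eq_comm]
    · simp only [zL, hY m a]
      exact isAdj_mE _
  · have hb := block_fock Y (BB k 0 0) m b t ht fun _ => hB _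
    refine ⟨_, _, _, hb.inj, hb.act, ?_, fun _ a =>
      ((bdd_iff_KB (by norm_num)).1 (bdd_cF a)).mono (by norm_num), fun _ a => cF_adj a⟩
    rw [h]; ext l; simp [hBL, eq_comm]

theorem model_off {Y : ℕ → Level k} {β : List (Al k) → List (Al k)} {i j : List (Al k)} {S : Type}
    {κ : S → List (Al k)} {z : Lt k → En S}
    (h2 : ∀ a s, yv Y a (κ s) = mapDomain κ (z a (single s 1)))
    (h3 : {l | β l = β j} = Set.range κ) (hij : β i ≠ β j) (a : Lt k) : yv Y a j i = 0 := by
  obtain ⟨s, rfl⟩ : j ∈ Set.range κ := h3 ▸ (rfl : β j = β j)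
  rw [h2]
  exact mapDomain_of_notMem_range _ _ fun h => hij (by rw [← h3] at h; exact h)

theorem rho_y_bdd (Y : ℕ → Level k) (hY : ∀ m a, KB ((Y m).Y a) Set.univ 4) (a : Lt k) :
    Bdd (rho Y (FreeAlgebra.ι ℂ (Sum.inr a))) 4 := by
  obtain ⟨β, hβ⟩ := model_blocks Y
  rw [bdd_iff_KB (by norm_num), modelA_rho_gen]
  refine KB.fiber (by norm_num) β (fun i _ j _ hij => ?_) fun b => ?_
  · obtain ⟨S, κ, z, -, h2, h3, -⟩ := hβ j
    rw [ker_lin]
    exact model_off h2 h3 hij a
  · by_cases hb : ∃ j, β j = b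
    · obtain ⟨j, rfl⟩ := hb
      obtain ⟨S, κ, z, h1, h2, h3, h4, -⟩ := hβ j
      refine (h4 hY a).push κ (fun l hl => ?_) fun s _ s' _ => ?_
      · rw [Set.image_univ, ← h3]; exact hl.2
      · rw [ker_lin]
        change _ = yv Y a (κ s') (κ s)
        rw [h2, mapDomain_apply h1]
        rfl
    · refine (kb_zero _ (by norm_num)).congr fun i hi _ _ => absurd ⟨i, hi.2⟩ hb

theorem model_crv (ι : Al k) (ξ : List (Al k) →₀ ℂ) :
    lin (crv ι) ξ = mapDomain (fun t => ι :: t) ξ := by
  have := modelA_ext (lin (crv ι)) (lmapDomain ℂ ℂ fun t => ι :: t) ξ fun i _ => by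
    simp [crv, mapDomain_single]
  simpa using this

theorem model_crv_bdd (ι : Al k) : Bdd (lin (crv ι)) 1 := fun ξ => by
  rw [model_crv, norm_emb_mapDomain _ (fun a b h => by simpa using h), one_mul]

theorem model_anv_adj (ι : Al k) : IsAdj (lin (anv ι)) (lin (crv ι)) := by
  classical
  intro i j
  rw [ker_lin, ker_lin]
  cases j with
  | nil => simp [anv, crv]
  | cons c t =>
    simp only [anv, crv]
    split_ifs with h
    · subst h
      by_cases e : t = i
      · subst e; simp
      · rw [single_eq_of_ne (Ne.symm e), single_eq_of_ne (by simpa using e), map_zero]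
    · rw [single_eq_of_ne (by simp [h]), map_zero]; rfl

theorem rho_bdd (Y : ℕ → Level k) (hY : ∀ m a, KB ((Y m).Y a) Set.univ 4) (p : FA (Gen k)) :
    ∃ C, Bdd (rho Y p) C := by
  suffices h : ∃ C, 0 ≤ C ∧ Bdd (rho Y p) C from h.imp fun _ h => h.2
  induction p using FreeAlgebra.induction with
  | grade0 r =>
    refine ⟨‖r‖ * 1, by positivity, ?_⟩
    rw [AlgHom.commutes, Algebra.algebraMap_eq_smul_one]
    exact Bdd.smul r bdd_one
  | grade1 g =>
    rcases g with (ι | ι) | a
    · exact ⟨1, zero_le_one, by rw [modelA_rho_gen]; exact model_crv_bdd ι⟩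
    · exact ⟨1, zero_le_one, by
        rw [modelA_rho_gen]; exact (model_anv_adj ι).bdd zero_le_one (model_crv_bdd ι)⟩
    · exact ⟨4, by norm_num, rho_y_bdd Y hY a⟩
  | mul a b ha hb =>
    obtain ⟨C1, h1, ha⟩ := ha
    obtain ⟨C2, h2, hb⟩ := hb
    exact ⟨C1 * C2, by positivity, by rw [map_mul]; exact Bdd.mul h1 ha hb⟩
  | add a b ha hb =>
    obtain ⟨C1, h1, ha⟩ := ha
    obtain ⟨C2, h2, hb⟩ := hb
    exact ⟨C1 + C2, by positivity, by rw [map_add]; exact ha.add hb⟩

theorem rho_adj (Y : ℕ → Level k) (hY : ∀ m a, (Y m).Y (bar a) = ((Y m).Y a).conjTranspose)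
    (p : FA (Gen k)) : ∃ q, IsAdj (rho Y q) (rho Y p) := by
  induction p using FreeAlgebra.induction with
  | grade0 r =>
    refine ⟨algebraMap ℂ _ (conj r), ?_⟩
    rw [AlgHom.commutes, AlgHom.commutes, Algebra.algebraMap_eq_smul_one,
      Algebra.algebraMap_eq_smul_one]
    exact isAdj_one.smul r
  | grade1 g =>
    rcases g with (ι | ι) | a
    · exact ⟨FreeAlgebra.ι ℂ (Sum.inl (Sum.inr ι)), by
        rw [modelA_rho_gen, modelA_rho_gen]; exact model_anv_adj ι⟩
    · exact ⟨FreeAlgebra.ι ℂ (Sum.inl (Sum.inl ι)), by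
        rw [modelA_rho_gen, modelA_rho_gen]; exact (model_anv_adj ι).symm⟩
    · refine ⟨FreeAlgebra.ι ℂ (Sum.inr (bar a)), ?_⟩
      rw [modelA_rho_gen, modelA_rho_gen]
      obtain ⟨β, hβ⟩ := model_blocks Y
      intro i j
      rw [ker_lin, ker_lin]
      change yv Y (bar a) j i = conj (yv Y a i j)
      obtain ⟨S, κ, z, h1, h2, h3, -, h5⟩ := hβ j
      by_cases hij : β i = β j
      · obtain ⟨s, rfl⟩ : i ∈ Set.range κ := h3 ▸ hij
        obtain ⟨s', rfl⟩ : j ∈ Set.range κ := h3 ▸ (rfl : β j = β j)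
        rw [h2, h2, mapDomain_apply h1, mapDomain_apply h1]
        exact h5 hY a s s'
      · obtain ⟨S', κ', z', -, h2', h3', -⟩ := hβ i
        rw [model_off h2 h3 hij, model_off h2' h3' (Ne.symm hij), map_zero]
  | mul a b ha hb =>
    obtain ⟨q1, ha⟩ := ha
    obtain ⟨q2, hb⟩ := hb
    exact ⟨q2 * q1, by rw [map_mul, map_mul]; exact ha.mul hb⟩
  | add a b ha hb =>
    obtain ⟨q1, ha⟩ := ha
    obtain ⟨q2, hb⟩ := hb
    exact ⟨q1 + q2, by rw [map_add, map_add]; exact ha.add hb⟩

theorem model_word (Y : ℕ → Level k) (l : List (Al k)) (ξ : List (Al k) →₀ ℂ) :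
    rho Y (l.map fun ι => FreeAlgebra.ι ℂ (Sum.inl (Sum.inl ι) : Gen k)).prod ξ =
      mapDomain (fun t => l ++ t) ξ := by
  induction l with
  | nil =>
    simp only [List.map_nil, List.prod_nil, map_one, Module.End.one_apply, List.nil_append]
    exact (mapDomain_id (v := ξ)).symm
  | cons c l ih =>
    rw [List.map_cons, List.prod_cons, map_mul, Module.End.mul_apply, ih, modelA_rho_gen]
    change lin (crv c) _ = _
    rw [model_crv, ← mapDomain_comp]
    rfl

/-- excision of vector states -/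
theorem rho_exc (Y : ℕ → Level k) (p : FA (Gen k)) (ζ : List (Al k) →₀ ℂ) :
    ∃ x : FA (Gen k), Bdd (rho Y x) (ζ.sum fun _ c => ‖c‖) ∧ ∀ t t' : List (Al k),
      (t' = t → ⟪emb _ (rho Y x (single t' 1)), emb _ (rho Y p (rho Y x (single t 1)))⟫_ℂ =
        ⟪emb _ ζ, emb _ (rho Y p ζ)⟫_ℂ) ∧
      (t' ≠ t → ⟪emb _ (rho Y x (single t' 1)), emb _ (rho Y p (rho Y x (single t 1)))⟫_ℂ = 0) := by
  classical
  obtain ⟨n₀, hn₀⟩ := mem_adj_BB p
  obtain ⟨x₀, hx1, hx2, hx3⟩ : ∃ x₀ : ℕ, (Y 0).d ≤ x₀ ∧ n₀ ≤ x₀ ∧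
      ∀ l ∈ ζ.support, ((0, Sum.inl x₀) : Al k) ∉ l := by
    have hf : ((fun x : ℕ => ((0, Sum.inl x) : Al k)) ⁻¹'
        (ζ.support.biUnion List.toFinset : Finset (Al k))).Finite :=
      (Finset.finite_toSet _).preimage fun a _ b _ h => by simpa using h
    obtain ⟨x, hx, hlt⟩ := (hf.union (Set.finite_lt_nat ((Y 0).d + n₀))).infinite_compl.nonempty
      |>.imp fun x hx => (not_or.1 hx)
    refine ⟨x, by simp at hlt; omega, by simp at hlt; omega, fun l hl h => hx ?_⟩
    exact Finset.mem_coe.2 (Finset.mem_biUnion.2 ⟨l, hl, List.mem_toFinset.2 h⟩)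
  set o : Al k := (0, Sum.inl x₀) with ho
  set B : Set (Al k) := {o}ᶜ with hBdef
  have hB : Clo Y Y B := by
    refine ⟨fun m x x' _ _ h e => ?_, fun m a a' _ e => by simp [ho] at e, fun _ _ _ => rfl⟩
    simp only [ho, Set.mem_singleton_iff, Prod.mk.injEq, Sum.inl.injEq] at e
    obtain ⟨rfl, rfl⟩ := e
    omega
  have hp : p ∈ adj B := by
    refine adj_mono (B := BB k n₀ n₀) ?_ (hn₀ n₀ n₀ le_rfl le_rfl)
    intro ι hι e
    rw [Set.mem_singleton_iff] at e
    have := hι.2 x₀ (by rw [e])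
    omega
  have hoB : o ∉ B := fun h => h rfl
  have hζ : ∀ l ∈ ζ.support, l ∈ BL B := fun l hl ι hι e => hx3 l hl (by
    rw [Set.mem_singleton_iff] at e; exact e ▸ hι)
  have hroot : ∀ t ι t', o :: t = ι :: t' → ι ∉ B := fun t ι t' e => by
    simp only [List.cons.injEq] at e
    exact e.1 ▸ hoB
  have hinj : ∀ t : List (Al k), Function.Injective fun v : List (Al k) => v ++ o :: t :=
    fun t a b h => List.append_cancel_right h
  have hsupp : ∀ u' ∈ BL B, ∀ u, rho Y p (single u' 1) u ≠ 0 → u ∈ BL B := by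
    intro u' hu' u h
    obtain ⟨v, hv, -, e⟩ := block_inv hB (block_nil Y B) hp hu' () (l := u) (by
      simpa [ker] using h)
    rw [e, List.append_nil]; exact hv
  have comm1 : ∀ t, ∀ u' ∈ BL B, rho Y p (single (u' ++ o :: t) 1) =
      mapDomain (fun v => v ++ o :: t) (rho Y p (single u' 1)) := by
    intro t u' hu'
    have hb := block_null Y B 0 x₀ t hx1 hoB
    ext l
    by_cases h : ∃ u ∈ BL B, l = u ++ o :: t
    · obtain ⟨u, hu, rfl⟩ := h
      have e1 := block_ker hB hb hp hu hu' () ()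
      have e2 := block_ker hB (block_nil Y B) hp hu hu' () ()
      rw [mapDomain_apply (hinj t)]
      simp only [List.append_nil] at e2
      exact e1.trans e2.symm
    · have e1 : rho Y p (single (u' ++ o :: t) 1) l = 0 := by
        by_contra hc
        obtain ⟨u, hu, -, e⟩ := block_inv hB hb hp hu' () (l := l) hc
        exact h ⟨u, hu, e⟩
      rw [e1]
      by_cases h' : l ∈ Set.range fun v : List (Al k) => v ++ o :: t
      · obtain ⟨u, rfl⟩ := h'
        rw [mapDomain_apply (hinj t)]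
        by_contra hc
        exact h ⟨u, hsupp u' hu' u (Ne.symm hc), rfl⟩
      · exact (mapDomain_of_notMem_range _ _ h').symm
  have comm : ∀ t, rho Y p (mapDomain (fun v => v ++ o :: t) ζ) =
      mapDomain (fun v => v ++ o :: t) (rho Y p ζ) := by
    intro t
    have := modelA_ext ((rho Y p) ∘ₗ lmapDomain ℂ ℂ fun v => v ++ o :: t)
      ((lmapDomain ℂ ℂ fun v => v ++ o :: t) ∘ₗ rho Y p) ζ fun l hl => by
        simp only [LinearMap.comp_apply, lmapDomain_apply, mapDomain_single]
        exact comm1 t l (hζ l hl)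
    simpa using this
  have hsupp' : ∀ u, rho Y p ζ u ≠ 0 → u ∈ BL B := by
    intro u h
    rw [apply_eq_sum_ker _ _ _ (Finset.Subset.refl _)] at h
    obtain ⟨l, hl, h'⟩ := Finset.exists_ne_zero_of_sum_ne_zero h
    exact hsupp l (hζ l hl) u (left_ne_zero_of_mul h')
  refine ⟨∑ l ∈ ζ.support, ζ l • ((l ++ [o]).map
    fun ι => FreeAlgebra.ι ℂ (Sum.inl (Sum.inl ι) : Gen k)).prod, ?_, fun t t' => ?_⟩
  · rw [map_sum]
    refine Bdd.sum _ _ _ fun l _ => ?_
    rw [map_smul]
    have : Bdd (rho Y ((l ++ [o]).map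
        fun ι => FreeAlgebra.ι ℂ (Sum.inl (Sum.inl ι) : Gen k)).prod) 1 := fun ξ => by
      rw [model_word, norm_emb_mapDomain _ (fun a b h => List.append_cancel_left h), one_mul]
    simpa using Bdd.smul (ζ l) this
  · have ex : ∀ t : List (Al k), rho Y (∑ l ∈ ζ.support, ζ l • ((l ++ [o]).map
        fun ι => FreeAlgebra.ι ℂ (Sum.inl (Sum.inl ι) : Gen k)).prod) (single t 1) =
        mapDomain (fun v => v ++ o :: t) ζ := by
      intro t
      simp only [map_sum, map_smul, LinearMap.coe_sum, Finset.sum_apply, LinearMap.smul_apply,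
        model_word, mapDomain_single]
      simp [mapDomain, Finsupp.sum]
    rw [ex, ex, comm, inner_emb _ _ _ mapDomain_support,
      Finset.sum_image fun a _ b _ h => hinj t' h]
    constructor
    · rintro rfl
      rw [inner_emb _ _ _ (Finset.Subset.refl _)]
      refine Finset.sum_congr rfl fun l _ => ?_
      rw [mapDomain_apply (hinj t'), mapDomain_apply (hinj t')]
    · intro hne
      refine Finset.sum_eq_zero fun l hl => mul_eq_zero_of_right _ ?_
      by_cases h' : l ++ o :: t' ∈ Set.range fun v : List (Al k) => v ++ o :: t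
      · obtain ⟨u, hu⟩ := h'
        rw [← hu, mapDomain_apply (hinj t)]
        by_contra hc
        have := (block_unique (hsupp' u hc) (hζ l hl) (hroot t) (hroot t') hu).2
        simp only [List.cons.injEq, true_and] at this
        exact hne this.symm
      · exact mapDomain_of_notMem_range _ _ h'

end Pool.Agent.H612Z.Op
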