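import Pool.Agent.H612Z.Op.SC
import Pool.Agent.H612Z.Op.Model

set_option autoImplicit false

open scoped ComplexConjugate InnerProductSpace
open Finsupp

namespace Pool.Agent.H612Z.Op

variable {k : ℕ}

/-- kernel form of the strong convergence statement -/
theorem SCK (hk : 0 < k) {E1 E2 : Type} [Finite E1] [Finite E2] (R1 : E1 → Type)
    (h1 : ∀ e, Finite (R1 e)) (G : ∀ e, R1 e → R1 e → FA (Lt k)) (C1 : E1 → ℝ)
    (hC1 : ∀ e, 1 ≤ C1 e) (R2 : E2 → Type) (h2 : ∀ e, Finite (R2 e))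
    (F : ∀ e, Fin k → R2 e → R2 e → FA (Lt k)) (C2 : E2 → ℝ) (hC2 : ∀ e, 1 ≤ C2 e) :
    ∃ L : Level k, LevOK L ∧
      (∀ e, KB (K1 (G e) (cF 0)) Set.univ (C1 e) → KB (K1 (G e) (zL L)) Set.univ (2 * C1 e)) ∧
      (∀ e, KB (K2 (F e) (cF 0) (cF 0)) Set.univ (C2 e) →
        KB (K2 (F e) (zL L) (zL L)) Set.univ (2 * C2 e)) := by
  classical
  letI : Fintype E1 := Fintype.ofFinite _
  letI : Fintype E2 := Fintype.ofFinite _
  letI i1 : ∀ e, Fintype (R1 e) := fun e => @Fintype.ofFinite _ (h1 e)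
  letI i2 : ∀ e, Fintype (R2 e) := fun e => @Fintype.ofFinite _ (h2 e)
  choose x1 hx1 using fun e => exists_K1 (G e)
  choose x2 hx2 using fun e => exists_K2 (F e)
  let R : E1 ⊕ E2 → Type := fun e => match e with
    | Sum.inl e => R1 e
    | Sum.inr e => R2 e
  letI iR : ∀ e, Fintype (R e) := fun e => match e with
    | Sum.inl e => i1 e
    | Sum.inr e => i2 e
  let x : ∀ e, FA (GR (R e) k) := fun e => match e with
    | Sum.inl e => x1 e
    | Sum.inr e => x2 e
  obtain ⟨L, hL, h⟩ := SC hk R x (Sum.elim C1 C2) (by rintro (e | e); exacts [hC1 e, hC2 e])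
  refine ⟨L, hL, fun e he => ?_, fun e he => ?_⟩
  · have hpos : 0 ≤ C1 e := le_trans zero_le_one (hC1 e)
    have hb : Bdd (ev2 (cF 0) (cF 0) (x1 e)) (C1 e) := by
      rw [bdd_iff_KB hpos]
      refine (he.ampl hpos (List (Lt k))).pull (fun u => ((u.1, u.2.1), u.2.2)) ?_ ?_ ?_
      · rintro ⟨a, b, c⟩ - ⟨a', b', c'⟩ - h
        simp only [Prod.mk.injEq] at h
        obtain ⟨⟨rfl, rfl⟩, rfl⟩ := h
        rfl
      · intro u _
        trivial
      · intro a _ b _
        rw [hx1 e]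
        congr
    have hb' := h (Sum.inl e) hb
    have hpos' : 0 ≤ 2 * C1 e := by positivity
    have hb'' : KB (ker (ev2 (zL L) (zL L) (x1 e))) Set.univ (2 * C1 e) :=
      (bdd_iff_KB hpos').1 hb'
    refine hb''.pull (fun u => (u.1, (u.2, (⟨0, hL.pos⟩ : Fin L.d)))) ?_ ?_ ?_
    · rintro ⟨a, b⟩ - ⟨a', b'⟩ - h
      simp only [Prod.mk.injEq] at h
      obtain ⟨rfl, rfl, -⟩ := h
      rfl
    · intro u _
      trivial
    · intro a _ b _
      rw [hx1 e]
      simp
  · have hpos : 0 ≤ C2 e := le_trans zero_le_one (hC2 e)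
    have hb : Bdd (ev2 (cF 0) (cF 0) (x2 e)) (C2 e) := by
      rw [bdd_iff_KB hpos]
      refine he.pull (fun u => ((u.1, u.2.1), u.2.2)) ?_ ?_ ?_
      · rintro ⟨a, b, c⟩ - ⟨a', b', c'⟩ - h
        simp only [Prod.mk.injEq] at h
        obtain ⟨⟨rfl, rfl⟩, rfl⟩ := h
        rfl
      · intro u _
        trivial
      · intro a _ b _
        rw [hx2 e]
    have hb' := h (Sum.inr e) hb
    have hpos' : 0 ≤ 2 * C2 e := by positivity
    have hb'' : KB (ker (ev2 (zL L) (zL L) (x2 e))) Set.univ (2 * C2 e) :=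
      (bdd_iff_KB hpos').1 hb'
    refine hb''.pull (fun u => (u.1.1, (u.1.2, u.2))) ?_ ?_ ?_
    · rintro ⟨⟨a, b⟩, c⟩ - ⟨⟨a', b'⟩, c'⟩ - h
      simp only [Prod.mk.injEq] at h
      obtain ⟨rfl, rfl, rfl⟩ := h
      rfl
    · intro u _
      trivial
    · intro a _ b _
      rw [hx2 e]

def triv (k : ℕ) : Level k := ⟨0, fun _ => 0⟩

def trunc (Y : ℕ → Level k) (n : ℕ) : ℕ → Level k := fun j => if j < n then Y j else triv k

theorem trunc_lt (Y : ℕ → Level k) {n j : ℕ} (h : j < n) : trunc Y n j = Y j := if_pos h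

theorem trunc_trunc (Y : ℕ → Level k) {n m : ℕ} (h : n ≤ m) : trunc (trunc Y m) n = trunc Y n := by
  funext j
  by_cases hj : j < n
  · rw [trunc_lt _ hj, trunc_lt _ hj, trunc_lt _ (lt_of_lt_of_le hj h)]
  · simp [trunc, hj]

theorem exists_seq (Gd : ℕ → (ℕ → Level k) → Level k → Prop) (h : ∀ m Z, ∃ L, Gd m Z L) :
    ∃ Y : ℕ → Level k, ∀ m, Gd m (trunc Y m) (Y m) := by
  classical
  choose f hf using h
  let pre : ℕ → (ℕ → Level k) := fun n => Nat.rec (fun _ => triv k)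
    (fun n Z => Function.update Z n (f n Z)) n
  have hs : ∀ n, pre (n + 1) = Function.update (pre n) n (f n (pre n)) := fun n => rfl
  let Y : ℕ → Level k := fun n => f n (pre n)
  have key : ∀ n, pre n = trunc Y n := by
    intro n
    induction n with
    | zero => funext j; simp [trunc, pre]
    | succ n ih =>
      funext j
      rw [hs]
      by_cases hj : j = n
      · subst hj
        rw [Function.update_self, trunc_lt _ (Nat.lt_succ_self _)]
      · rw [Function.update_of_ne hj, ih]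
        by_cases hlt : j < n
        · rw [trunc_lt _ hlt, trunc_lt _ (Nat.lt_succ_of_lt hlt)]
        · have : ¬ j < n + 1 := by omega
          simp [trunc, hlt, this]
  refine ⟨Y, fun m => ?_⟩
  rw [← key m]
  exact hf m (pre m)

/-- locality with width `W` -/
def Loc (p : FA (Gen k)) (W : ℕ) : Prop := ∀ Y : ℕ → Level k,
  (∀ l l', ker (rho Y p) l l' ≠ 0 → l.length ≤ l'.length + W ∧ l'.length ≤ l.length + W) ∧
    ∀ u t : List (Al k), W ≤ u.length →
      rho Y p (single (u ++ t) 1) = mapDomain (fun v => v ++ t) (rho Y p (single u 1))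

theorem exists_Loc (P : Fin k → FA (Gen k)) : ∃ W : ℕ, 0 < W ∧ ∀ i, Loc (P i) W := by
  choose W hW0 hW using fun i => rho_local (P i)
  refine ⟨1 + ∑ i, W i, by omega, fun i Y => ?_⟩
  have hle : W i ≤ 1 + ∑ i, W i :=
    le_trans (Finset.single_le_sum (f := W) (fun _ _ => Nat.zero_le _) (Finset.mem_univ i))
      (Nat.le_add_left _ _)
  refine ⟨fun l l' h => ?_, fun u t h => (hW i Y).2 u t (le_trans hle h)⟩
  have := (hW i Y).1 l l' h
  omega

theorem Loc.ker_app {p : FA (Gen k)} {W : ℕ} (h : Loc p W) (Y : ℕ → Level k)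
    {u' : List (Al k)} (hu : W ≤ u'.length) (u t : List (Al k)) :
    ker (rho Y p) (u ++ t) (u' ++ t) = ker (rho Y p) u u' := by
  unfold ker
  rw [(h Y).2 u' t hu]
  exact mapDomain_apply (f := fun v => v ++ t) (fun a b hab => List.append_cancel_right hab) _ u

theorem Loc.ker_ne {p : FA (Gen k)} {W : ℕ} (h : Loc p W) (Y : ℕ → Level k)
    {u' : List (Al k)} (hu : W ≤ u'.length) (l t : List (Al k))
    (hne : ker (rho Y p) l (u' ++ t) ≠ 0) : ∃ v, l = v ++ t ∧ ker (rho Y p) v u' ≠ 0 := by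
  have hne' := hne
  unfold ker at hne'
  rw [(h Y).2 u' t hu] at hne'
  by_cases hl : l ∈ Set.range (fun v : List (Al k) => v ++ t)
  · obtain ⟨v, rfl⟩ := hl
    refine ⟨v, rfl, ?_⟩
    rwa [h.ker_app Y hu] at hne
  · exact absurd (mapDomain_notin_range _ _ hl) hne'

theorem finite_BL {A : Type} {B : Set A} (hB : B.Finite) (n : ℕ) :
    Finite {u : List A // u ∈ BL B ∧ u.length < n} := by
  haveI : Finite B := hB
  have h1 := (List.finite_length_lt B n).image (List.map (Subtype.val : B → A))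
  refine Set.Finite.to_subtype (h1.subset ?_)
  rintro u ⟨hu, hl⟩
  refine ⟨u.attach.map (fun x => ⟨x.1, hu x.1 x.2⟩), by simpa using hl, ?_⟩
  simp [List.map_map, Function.comp_def]

theorem finite_BB (n N : ℕ) : (BB k n N).Finite := by
  have : BB k n N ⊆ (Set.Iio n) ×ˢ (Sum.inl '' Set.Iio N ∪ Set.range Sum.inr) := by
    rintro ⟨m, x | a⟩ ⟨h1, h2⟩
    · exact ⟨h1, Or.inl ⟨x, h2 x rfl, rfl⟩⟩
    · exact ⟨h1, Or.inr ⟨a, rfl⟩⟩
  exact ((Set.finite_Iio n).prod (((Set.finite_Iio N).image _).union (Set.finite_range _))).subset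
    this

/-- the letters below level `n` together with the Fock letters of level `n` -/
def BB' (k n N : ℕ) : Set (Al k) := BB k n N ∪ {ι | ι.1 = n ∧ ∃ a, ι.2 = Sum.inr a}

theorem finite_BB' (n N : ℕ) : (BB' k n N).Finite := by
  refine (finite_BB n N).union ((Set.finite_range fun a : Lt k => ((n, Sum.inr a) : Al k)).subset ?_)
  rintro ⟨m, x⟩ ⟨h1, a, h2⟩
  simp only at h1 h2
  exact ⟨a, by rw [h1, h2]⟩

def NN (Z : ℕ → Level k) (n : ℕ) : ℕ := n + ∑ m ∈ Finset.range n, (Z m).d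

theorem d_le_NN (Z : ℕ → Level k) {n m : ℕ} (h : m < n) : (Z m).d ≤ NN Z n :=
  le_trans (Finset.single_le_sum (f := fun m => (Z m).d) (fun _ _ => Nat.zero_le _)
    (Finset.mem_range.2 h)) (Nat.le_add_left _ _)

theorem clo_BB {Y Z : ℕ → Level k} {n N : ℕ} (hN : ∀ m < n, (Z m).d ≤ N)
    (hYZ : ∀ m < n, Y m = Z m) : Clo Y Z (BB k n N) where
  mat := fun m x x' h _ h' => ⟨h.1, fun y hy => by
    obtain rfl : x' = y := Sum.inl.inj hy
    exact lt_of_lt_of_le h' (hN m h.1)⟩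
  foc := fun m a a' h => ⟨h.1, fun y hy => by cases hy⟩
  agree := fun m x h => hYZ m h.1

theorem clo_BB' {Y Z : ℕ → Level k} {n N : ℕ} (hN : ∀ m < n, (Z m).d ≤ N)
    (hYZ : ∀ m < n, Y m = Z m) : Clo Y Z (BB' k n N) where
  mat := fun m x x' h h1 h' => by
    rcases h with h | ⟨_, a, ha⟩
    · exact Or.inl ((clo_BB hN hYZ).mat m x x' h h1 h')
    · cases ha
  foc := fun m a a' h => by
    rcases h with h | ⟨h, -⟩
    · exact Or.inl ((clo_BB hN hYZ).foc m a a' h)
    · exact Or.inr ⟨h, a', rfl⟩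
  agree := fun m x h => by
    rcases h with h | ⟨_, a, ha⟩
    · exact hYZ m h.1
    · cases ha

theorem ker_agree {Y Z : ℕ → Level k} {B : Set (Al k)} (h : Clo Y Z B) (h' : Clo Z Z B)
    {p : FA (Gen k)} (hp : p ∈ adj B) {u u' : List (Al k)} (hu : u ∈ BL B) (hu' : u' ∈ BL B) :
    ker (rho Z p) u u' = ker (rho Y p) u u' := by
  have h1 := block_ker h (block_nil Y B) hp hu hu' () ()
  have h2 := block_ker h' (block_nil Z B) hp hu hu' () ()
  simp only [List.append_nil] at h1 h2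
  rw [h1, h2]

end Pool.Agent.H612Z.Op
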