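import Pool.Agent.H612Z.Op.EstA

set_option autoImplicit false

open scoped ComplexConjugate InnerProductSpace
open Finsupp

namespace Pool.Agent.H612Z.Op

variable {k : ℕ}

noncomputable def XK {D : Type} (Y : ℕ → Level k) (P : Fin k → FA (Gen k))
    (b : Fin k → D → D → ℂ) : List (Al k) × D → List (Al k) × D → ℂ :=
  fun u v => ∑ i, ker (rho Y (P i)) u.1 v.1 * b i u.2 v.2

noncomputable def Kz {D S : Type} (Z : ℕ → Level k) (P : Fin k → FA (Gen k))
    (b : Fin k → D → D → ℂ) (z : Lt k → En S) :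
    (List (Al k) × S) × D → (List (Al k) × S) × D → ℂ :=
  fun u v => ∑ i, ker (ev1 z (Fu Z (P i) u.1.1 v.1.1)) u.1.2 v.1.2 * b i u.2 v.2

theorem XK_ne {D : Type} {Y : ℕ → Level k} {P : Fin k → FA (Gen k)} {b : Fin k → D → D → ℂ}
    {u v : List (Al k) × D} (h : XK Y P b u v ≠ 0) : ∃ i, ker (rho Y (P i)) u.1 v.1 ≠ 0 := by
  by_contra hc
  push Not at hc
  exact h (Finset.sum_eq_zero fun i _ => by rw [hc i, zero_mul])

theorem div_band {a b W : ℕ} (hW : 0 < W) (h : a ≤ b + W) : a / W ≤ b / W + 1 := by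
  rw [← Nat.add_div_right b hW]
  exact Nat.div_le_div_right h

theorem BL_take {A : Type} {B : Set A} {l : List A} (h : l ∈ BL B) (n : ℕ) : l.take n ∈ BL B :=
  fun ι hι => h ι (List.mem_of_mem_take hι)

/-- exactness: the whole operator is controlled by one finite window -/
theorem ex_window {D : Type} {Y : ℕ → Level k} {P : Fin k → FA (Gen k)} {b : Fin k → D → D → ℂ}
    {W : ℕ} (hW : 0 < W) (hL : ∀ i, Loc (P i) W) {B : Set (Al k)} {C : ℝ} (hC : 0 ≤ C)
    (h : KB (XK Y P b) {u | u.1 ∈ BL B ∧ u.1.length < 3 * W} C) :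
    KB (XK Y P b) {u | u.1 ∈ BL B} (3 * C) := by
  refine KB.band hC (fun u => u.1.length / W) ?_ ?_
  · intro u _ v _ hne
    obtain ⟨i, hi⟩ := XK_ne hne
    have := (hL i Y).1 _ _ hi
    exact ⟨div_band hW this.1, div_band hW this.2⟩
  · intro j
    have hwin : ∀ u : List (Al k) × D, (u.1.length / W = j ∨ u.1.length / W = j + 1) →
        j * W ≤ u.1.length ∧ u.1.length < (j + 2) * W := by
      intro u hu
      constructor
      · exact (Nat.le_div_iff_mul_le hW).1 (by omega)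
      · exact (Nat.div_lt_iff_lt_mul hW).1 (by omega)
    rcases j with _ | i
    · refine h.mono_set ?_
      rintro u ⟨h1, h2⟩
      have := hwin u h2
      exact ⟨h1, by omega⟩
    · refine KB.fiber hC (fun u => u.1.drop (u.1.length - i * W)) ?_ ?_
      · rintro u ⟨-, hu⟩ v ⟨-, hv⟩ hne
        by_contra hc
        obtain ⟨a, ha⟩ := XK_ne hc
        have h1 := hwin u hu
        have h2 := hwin v hv
        have e1 : (i + 1) * W = i * W + W := by ring
        have hv' : v.1 = v.1.take (v.1.length - i * W) ++ v.1.drop (v.1.length - i * W) :=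
          (List.take_append_drop _ _).symm
        rw [hv'] at ha
        obtain ⟨w, hw, -⟩ := (hL a).ker_ne Y (by rw [List.length_take]; omega) _ _ ha
        apply hne
        have hlen : u.1.length = w.length + i * W := by
          rw [hw, List.length_append, List.length_drop]
          omega
        have : u.1.length - i * W = w.length := by omega
        rw [this, hw, List.drop_left]
      · intro t
        refine (h.mono_set (t := {u | u.1 ∈ BL B ∧ W ≤ u.1.length ∧ u.1.length < 3 * W})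
          (fun u hu => ⟨hu.1, hu.2.2⟩)).push (fun u => (u.1 ++ t, u.2)) ?_ ?_
        · rintro u ⟨⟨h1, h2⟩, h3⟩
          have h4 := hwin u h2
          have e1 : (i + 1) * W = i * W + W := by ring
          have e2 : (i + 1 + 2) * W = i * W + 3 * W := by ring
          refine ⟨(u.1.take (u.1.length - i * W), u.2), ⟨BL_take h1 _, ?_, ?_⟩, ?_⟩
          · simp only [List.length_take]; omega
          · simp only [List.length_take]; omega
          · have h3' : u.1.drop (u.1.length - i * W) = t := h3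
            simp only
            rw [← h3', List.take_append_drop]
        · rintro u - v ⟨-, hv, -⟩
          unfold XK
          refine Finset.sum_congr rfl fun a _ => ?_
          rw [(hL a).ker_app Y hv]

section blocks

variable {D S : Type} {Y Z : ℕ → Level k} {P : Fin k → FA (Gen k)} {b : Fin k → D → D → ℂ}
  {B : Set (Al k)} {κ : S → List (Al k)} {z : Lt k → En S} {C : ℝ}

theorem Kz_eq (hB : Clo Y Z B) (hκ : IsBlock Y B κ z) (hP : ∀ i, P i ∈ adj B)
    {u v : (List (Al k) × S) × D} (hu : u.1.1 ∈ BL B) (hv : v.1.1 ∈ BL B) :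
    Kz Z P b z u v = XK Y P b (u.1.1 ++ κ u.1.2, u.2) (v.1.1 ++ κ v.1.2, v.2) := by
  unfold Kz XK
  refine Finset.sum_congr rfl fun i _ => ?_
  rw [block_ker hB hκ (hP i) hu hv]

theorem push_block (hB : Clo Y Z B) (hκ : IsBlock Y B κ z) (hP : ∀ i, P i ∈ adj B)
    (h : KB (Kz Z P b z) {u | u.1.1 ∈ BL B} C) :
    KB (XK Y P b) {l | ∃ u ∈ BL B, ∃ s, l.1 = u ++ κ s} C := by
  refine h.push (fun u => (u.1.1 ++ κ u.1.2, u.2)) ?_ ?_
  · rintro l ⟨u, hu, s, hl⟩
    exact ⟨((u, s), l.2), hu, by simp [← hl]⟩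
  · intro u hu v hv
    exact Kz_eq hB hκ hP hu hv

theorem pull_block (hB : Clo Y Z B) (hκ : IsBlock Y B κ z) (hP : ∀ i, P i ∈ adj B)
    {T : Set (List (Al k))} (hT : ∀ u ∈ BL B, ∀ s, u ++ κ s ∈ T)
    (h : KB (XK Y P b) {l | l.1 ∈ T} C) : KB (Kz Z P b z) {u | u.1.1 ∈ BL B} C := by
  refine h.pull (fun u => (u.1.1 ++ κ u.1.2, u.2)) ?_ ?_ ?_
  · rintro ⟨⟨u, s⟩, x⟩ hu ⟨⟨v, s'⟩, x'⟩ hv he
    simp only [Prod.mk.injEq] at he
    obtain ⟨h1, h2⟩ := block_unique hu hv (hκ.out s) (hκ.out s') he.1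
    obtain rfl := hκ.inj h2
    obtain rfl := he.2
    simp only at h1
    rw [h1]
  · intro u hu
    exact hT _ hu _
  · intro u hu v hv
    exact Kz_eq hB hκ hP hu hv

theorem mat_band (hB : Clo Y Z B) (hκ : IsBlock Y B κ z) (hP : ∀ i, P i ∈ adj B)
    (hlen : ∀ s s', (κ s).length = (κ s').length) {W : ℕ} (hW : 0 < W) (hL : ∀ i, Loc (P i) W)
    (hC : 0 ≤ C) (hfar : KB (XK Y P b) {l | l.1 ∈ BL B} C)
    (hnear : KB (Kz Z P b z) {u | u.1.1 ∈ BL B ∧ u.1.1.length < 2 * W} C) :
    KB (Kz Z P b z) {u | u.1.1 ∈ BL B} (3 * C) := by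
  classical
  refine KB.band hC (fun u => u.1.1.length / W) ?_ ?_
  · intro u hu v hv hne
    rw [Kz_eq hB hκ hP hu hv] at hne
    obtain ⟨i, hi⟩ := XK_ne hne
    have := (hL i Y).1 _ _ hi
    simp only [List.length_append] at this
    have h2 := hlen u.1.2 v.1.2
    exact ⟨div_band hW (by omega), div_band hW (by omega)⟩
  · intro j
    have hwin : ∀ u : (List (Al k) × S) × D,
        (u.1.1.length / W = j ∨ u.1.1.length / W = j + 1) →
        j * W ≤ u.1.1.length ∧ u.1.1.length < (j + 2) * W := by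
      intro u hu
      constructor
      · exact (Nat.le_div_iff_mul_le hW).1 (by omega)
      · exact (Nat.div_lt_iff_lt_mul hW).1 (by omega)
    rcases j with _ | i
    · refine hnear.mono_set ?_
      rintro u ⟨h1, h2⟩
      have := hwin u h2
      exact ⟨h1, by omega⟩
    · refine (hfar.ampl hC S).pull (fun u => ((u.1.1, u.2), u.1.2)) ?_ ?_ ?_
      · rintro ⟨⟨u, s⟩, x⟩ - ⟨⟨v, s'⟩, x'⟩ - he
        simp only [Prod.mk.injEq] at he
        obtain ⟨⟨rfl, rfl⟩, rfl⟩ := he
        rfl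
      · intro u hu
        exact hu.1
      · rintro u ⟨hu, -⟩ v ⟨hv, hv2⟩
        have h4 := (hwin v hv2).1
        have e1 : (i + 1) * W = i * W + W := by ring
        have hWv : W ≤ v.1.1.length := by omega
        rw [Kz_eq hB hκ hP hu hv]
        by_cases hs : u.1.2 = v.1.2
        · simp only [hs, if_true, mul_one]
          unfold XK
          refine Finset.sum_congr rfl fun a _ => ?_
          rw [(hL a).ker_app Y hWv]
        · simp only [hs, if_false, mul_zero]
          by_contra hc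
          obtain ⟨a, ha⟩ := XK_ne hc
          obtain ⟨w, hw, -⟩ := (hL a).ker_ne Y hWv _ _ ha
          exact hs (hκ.inj (List.append_inj_right' hw (hlen _ _)))

end blocks

theorem kc_bound {D : Type} {Y Z : ℕ → Level k} {P : Fin k → FA (Gen k)} {b : Fin k → D → D → ℂ}
    {n N : ℕ} (hB : Clo Y Z (BB k n N)) (hP : ∀ i, P i ∈ adj (BB k n N)) (b0 : Lt k) {C : ℝ}
    (h : KB (XK Y P b) {l | l.1 ∈ BL (BB' k n N)} C) :
    KB (Kz Z P b (cF 0)) {u | u.1.1 ∈ BL (BB k n N)} C := by
  refine pull_block hB (block_fock Y (BB k n N) n b0 [] (fun h => h) (fun a h => ?_)) hP ?_ h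
  · exact absurd h.1 (lt_irrefl n)
  · intro u hu w ι hι
    rcases List.mem_append.1 hι with h1 | h1
    · exact Or.inl (hu ι h1)
    · rcases List.mem_append.1 h1 with h2 | h2
      · obtain ⟨a, -, rfl⟩ := List.mem_map.1 h2
        exact Or.inr ⟨rfl, a, rfl⟩
      · rw [List.mem_singleton] at h2
        subst h2
        exact Or.inr ⟨rfl, b0, rfl⟩

/-- the global estimate from the estimate on the finite alphabet and the near windows -/
theorem est_global {D : Type} {Y Z : ℕ → Level k} {P : Fin k → FA (Gen k)}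
    {b : Fin k → D → D → ℂ} {n N : ℕ} (hN : ∀ m < n, (Z m).d ≤ N) (hYZ : ∀ m < n, Y m = Z m)
    (hP : ∀ i, P i ∈ adj (BB k n N)) {W : ℕ} (hW : 0 < W) (hL : ∀ i, Loc (P i) W) {C : ℝ}
    (hC : 0 ≤ C) (h : KB (XK Y P b) {l | l.1 ∈ BL (BB' k n N)} C)
    (hnear : ∀ m, n ≤ m → KB (Kz Z P b (zL (Y m)))
      {u | u.1.1 ∈ BL (BB k n N) ∧ u.1.1.length < 2 * W} C) :
    KB (XK Y P b) Set.univ (3 * C) := by
  have hB : Clo Y Z (BB k n N) := clo_BB hN hYZ
  have hN' : ∀ m < n, (Y m).d ≤ N := fun m hm => by rw [hYZ m hm]; exact hN m hm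
  obtain ⟨β, hβ⟩ := exists_label Y n N hN'
  have hsub : ∀ u ∈ BL (BB k n N), u ∈ BL (BB' k n N) := fun u hu ι hι => Or.inl (hu ι hι)
  have h0 : KB (XK Y P b) {l | l.1 ∈ BL (BB k n N)} C := h.mono_set fun u hu => hsub _ hu
  have hC3 : C ≤ 3 * C := by linarith
  have hmat : ∀ m, n ≤ m → ∀ x, (m, Sum.inl x) ∉ BB k n N := fun m hm x hx =>
    absurd hx.1 (not_lt.2 hm)
  have hfoc : ∀ m, n ≤ m → ∀ a, (m, Sum.inr a) ∉ BB k n N := fun m hm x hx =>
    absurd hx.1 (not_lt.2 hm)
  refine KB.fiber (by positivity) (fun u => β u.1) ?_ ?_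
  · intro u _ v _ hne
    by_contra hc
    obtain ⟨i, hi⟩ := XK_ne hc
    apply hne
    have hv : v.1 ∈ {l | β l = β v.1} := rfl
    show u.1 ∈ {l | β l = β v.1}
    rcases hβ (β v.1) with h1 | ⟨-, h1⟩ | ⟨m, x, t, hr, hx, hxB, h1⟩ | ⟨m, t, hm, h1⟩ |
      ⟨m, b0, t, hm, ht, h1⟩
    · rw [h1] at hv
      exact absurd hv (Set.notMem_empty _)
    · rw [h1] at hv ⊢
      have hi' : ker (rho Y (P i)) u.1 (v.1 ++ []) ≠ 0 := by rwa [List.append_nil]
      obtain ⟨w, hw, -, hl⟩ := block_inv hB (block_nil Y _) (hP i) hv () hi'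
      rw [hl, List.append_nil]
      exact hw
    · rw [h1] at hv ⊢
      obtain ⟨v', hv', hvv⟩ := hv
      rw [hr] at hvv
      rw [hvv] at hi
      obtain ⟨w, hw, -, hl⟩ := block_inv hB (block_null Y _ m x t hx hxB) (hP i) hv' () hi
      exact ⟨w, hw, by rw [hl, hr]⟩
    · rw [h1] at hv ⊢
      obtain ⟨v', hv', x, hvv⟩ := hv
      rw [hvv] at hi
      exact block_inv hB (block_mat Y _ m t (hmat m hm)) (hP i) hv' x hi
    · rw [h1] at hv ⊢
      obtain ⟨v', hv', x, hvv⟩ := hv
      rw [hvv] at hi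
      exact block_inv hB (block_fock Y _ m b0 t ht (hfoc m hm)) (hP i) hv' x hi
  · intro r
    have hset : ∀ T : Set (List (Al k)), {l | β l = r} = T →
        Set.univ ∩ {u : List (Al k) × D | β u.1 = r} ⊆ {u | u.1 ∈ T} := by
      rintro T rfl u hu
      exact hu.2
    rcases hβ r with h1 | ⟨-, h1⟩ | ⟨m, x, t, hr, hx, hxB, h1⟩ | ⟨m, t, hm, h1⟩ |
      ⟨m, b0, t, hm, ht, h1⟩
    · refine (h0.mono hC3).mono_set fun u hu => ?_
      exact absurd (hset _ h1 hu) (Set.notMem_empty _)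
    · exact (h0.mono hC3).mono_set (hset _ h1)
    · have h2 := pull_block (b := b) hB (block_nil Y _) hP (T := BL (BB k n N))
        (fun u hu _ => by rwa [List.append_nil]) h0
      have h3 := push_block hB (block_null Y _ m x t hx hxB) hP h2
      refine (h3.mono hC3).mono_set fun u hu => ?_
      obtain ⟨w, hw, hl⟩ := hset _ h1 hu
      exact ⟨w, hw, (), by rw [hl, hr]⟩
    · have hκ := block_mat Y (BB k n N) m t (hmat m hm)
      have h2 := mat_band hB hκ hP (fun _ _ => rfl) hW hL hC h0 (hnear m hm)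
      exact (push_block hB hκ hP h2).mono_set (hset _ h1)
    · have h2 := kc_bound hB hP b0 h
      have h3 := push_block hB (block_fock Y _ m b0 t ht (hfoc m hm)) hP h2
      exact (h3.mono hC3).mono_set (hset _ h1)

end Pool.Agent.H612Z.Op
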