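import Pool.Agent.H612Z.Op.Basic

set_option autoImplicit false

namespace Pool.Agent.H612Z.Op

open Finset

theorem Finner_update {V Λ : Type} [Fintype V] [DecidableEq V] [Fintype Λ] (v : V) (g : (V → Λ) → ℝ) :
    ∑ a : V → Λ, ∑ x : Λ, g (Function.update a v x) = (Fintype.card Λ : ℝ) * ∑ a : V → Λ, g a := by
  have inv : Function.Involutive (fun q : (V → Λ) × Λ => (Function.update q.1 v q.2, q.1 v)) := by
    rintro ⟨a, x⟩
    simp
  have h1 := Equiv.sum_comp inv.toPerm (fun q : (V → Λ) × Λ => g q.1)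
  rw [← Fintype.sum_prod_type' (fun (a : V → Λ) (x : Λ) => g (Function.update a v x))]
  refine Eq.trans ?_ (h1.trans ?_)
  · rfl
  · rw [Fintype.sum_prod_type]
    simp only [sum_const, card_univ, nsmul_eq_mul]
    rw [mul_sum]

theorem Finner_two {S Λ : Type} [Fintype Λ] [Nonempty Λ] (T : Finset S) (hT : T.card ≤ 2) (h : S → Λ → ℝ) :
    (∑ x, ∏ s ∈ T, h s x) / (Fintype.card Λ : ℝ) ≤ ∏ s ∈ T, √((∑ x, h s x ^ 2) / (Fintype.card Λ : ℝ)) := by
  classical
  have hN : (0 : ℝ) < Fintype.card Λ := by exact_mod_cast Fintype.card_pos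
  have cs : ∀ u w : Λ → ℝ, (∑ x, u x * w x) / (Fintype.card Λ : ℝ)
      ≤ √((∑ x, u x ^ 2) / (Fintype.card Λ : ℝ)) * √((∑ x, w x ^ 2) / (Fintype.card Λ : ℝ)) := by
    intro u w
    rw [← Real.sqrt_mul (by positivity)]
    apply Real.le_sqrt_of_sq_le
    rw [div_pow, div_mul_div_comm, ← sq]
    exact div_le_div_of_nonneg_right (sum_mul_sq_le_sq_mul_sq univ u w) (by positivity)
  obtain h0 | h1 | h2 : T.card = 0 ∨ T.card = 1 ∨ T.card = 2 := by omega
  · rw [card_eq_zero] at h0
    subst h0
    simp [hN.ne']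
  · obtain ⟨s, rfl⟩ := card_eq_one.1 h1
    simp only [prod_singleton]
    have := cs (h s) (fun _ => 1)
    simpa [hN.ne'] using this
  · obtain ⟨s, t, hst, rfl⟩ := card_eq_two.1 h2
    simp only [prod_pair hst]
    exact cs (h s) (h t)

theorem Finner_main {V Λ S : Type} [Fintype V] [DecidableEq V] [Fintype Λ] [Nonempty Λ] [Fintype S]
    (U : Finset V) : ∀ (f : S → (V → Λ) → ℝ) (Vs : S → Finset V), (∀ s, Vs s ⊆ U) → (∀ s a, 0 ≤ f s a) →
    (∀ s a a', (∀ v ∈ Vs s, a v = a' v) → f s a = f s a') →
    (∀ v, (univ.filter (fun s => v ∈ Vs s)).card ≤ 2) →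
    ((∑ a, ∏ s, f s a) / (Fintype.card (V → Λ) : ℝ)) ^ 2
      ≤ ∏ s, ((∑ a, f s a ^ 2) / (Fintype.card (V → Λ) : ℝ)) := by
  have hN : (0 : ℝ) < Fintype.card Λ := by exact_mod_cast Fintype.card_pos
  have hM : (0 : ℝ) < Fintype.card (V → Λ) := by exact_mod_cast Fintype.card_pos
  induction U using Finset.induction_on with
  | empty =>
    intro f Vs hU _ hdep _
    obtain ⟨a0⟩ : Nonempty (V → Λ) := inferInstance
    have hc : ∀ s a, f s a = f s a0 := fun s a => hdep s a a0 (fun v hv => absurd (hU s hv) (notMem_empty v))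
    simp only [hc, sum_const, card_univ, nsmul_eq_mul, mul_div_cancel_left₀ _ hM.ne']
    rw [prod_pow]
  | insert v U hv ih =>
    intro f Vs hU h0 hdep htwo
    set f' : S → (V → Λ) → ℝ := fun s a =>
      √((∑ x, f s (Function.update a v x) ^ 2) / (Fintype.card Λ : ℝ)) with hf'
    have key := ih f' (fun s => (Vs s).erase v) (by
        intro s w hw
        rw [mem_erase] at hw
        exact (mem_insert.1 (hU s hw.2)).resolve_left hw.1)
      (fun s a => Real.sqrt_nonneg _) (by
        intro s a a' h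
        simp only [hf']
        congr 2
        apply sum_congr rfl
        intro x _
        congr 1
        apply hdep
        intro w hw
        by_cases hwv : w = v
        · subst hwv
          simp
        · rw [Function.update_of_ne hwv, Function.update_of_ne hwv]
          exact h w (mem_erase.2 ⟨hwv, hw⟩)) (by
        intro w
        refine le_trans (card_le_card ?_) (htwo w)
        intro s hs
        rw [mem_filter] at hs ⊢
        exact ⟨hs.1, (mem_erase.1 hs.2).2⟩)
    have e1 : ∀ s, ∑ a, f' s a ^ 2 = ∑ a, f s a ^ 2 := by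
      intro s
      have : ∀ a, f' s a ^ 2 = (∑ x, f s (Function.update a v x) ^ 2) / (Fintype.card Λ : ℝ) := by
        intro a
        simp only [hf']
        rw [Real.sq_sqrt (by positivity)]
      simp only [this]
      rw [← sum_div, Finner_update v (fun a => f s a ^ 2), mul_div_cancel_left₀ _ hN.ne']
    simp only [e1] at key
    refine le_trans ?_ key
    have e2 : ∑ a, ∏ s, f s a ≤ ∑ a, ∏ s, f' s a := by
      have h1 : ∑ a, ∏ s, f s a
          = ∑ a : V → Λ, (∑ x, ∏ s, f s (Function.update a v x)) / (Fintype.card Λ : ℝ) := by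
        rw [← sum_div, Finner_update v (fun a => ∏ s, f s a), mul_div_cancel_left₀ _ hN.ne']
      rw [h1]
      apply sum_le_sum
      intro a _
      have hout : ∀ s, v ∉ Vs s → ∀ x, f s (Function.update a v x) = f s a := by
        intro s hs x
        apply hdep
        intro w hw
        rw [Function.update_of_ne (fun (e : w = v) => hs (e ▸ hw))]
      have hout' : ∀ s, v ∉ Vs s → f' s a = f s a := by
        intro s hs
        simp only [hf', hout s hs, sum_const, card_univ, nsmul_eq_mul, mul_div_cancel_left₀ _ hN.ne']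
        exact Real.sqrt_sq (h0 s a)
      have h2 : ∀ x, ∏ s, f s (Function.update a v x)
          = (∏ s ∈ univ.filter (fun s => v ∈ Vs s), f s (Function.update a v x))
            * ∏ s ∈ univ.filter (fun s => ¬ v ∈ Vs s), f s a := by
        intro x
        rw [← prod_filter_mul_prod_filter_not univ (fun s => v ∈ Vs s)]
        congr 1
        exact prod_congr rfl (fun s hs => hout s (mem_filter.1 hs).2 x)
      have h3 : ∏ s, f' s a = (∏ s ∈ univ.filter (fun s => v ∈ Vs s), f' s a)
            * ∏ s ∈ univ.filter (fun s => ¬ v ∈ Vs s), f s a := by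
        rw [← prod_filter_mul_prod_filter_not univ (fun s => v ∈ Vs s)]
        congr 1
        exact prod_congr rfl (fun s hs => hout' s (mem_filter.1 hs).2)
      simp only [h2]
      rw [h3, ← sum_mul, mul_div_right_comm]
      apply mul_le_mul_of_nonneg_right _ (prod_nonneg (fun s _ => h0 s a))
      exact Finner_two _ (htwo v) (fun s x => f s (Function.update a v x))
    have e3 : 0 ≤ ∑ a, ∏ s, f s a := sum_nonneg (fun a _ => prod_nonneg (fun s _ => h0 s a))
    gcongr

theorem Finner_fiber {V Λ Y : Type} [Fintype V] [DecidableEq V] [Fintype Λ] [Nonempty Λ] [Fintype Y]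
    (W : Finset V) (φ : (V → Λ) → Y) (hφ : ∀ a a', φ a = φ a' → ∀ v ∈ W, a v = a' v) (G : Y → ℝ)
    (hG : ∀ y, 0 ≤ G y) :
    (∑ a, G (φ a)) / (Fintype.card (V → Λ) : ℝ) ≤ (∑ y, G y) / (Fintype.card Λ : ℝ) ^ W.card := by
  classical
  have hN : (0 : ℝ) < Fintype.card Λ := by exact_mod_cast Fintype.card_pos
  have hM : (0 : ℝ) < Fintype.card (V → Λ) := by exact_mod_cast Fintype.card_pos
  have hfib : ∀ y, (univ.filter (fun a => φ a = y)).card * Fintype.card Λ ^ W.card ≤ Fintype.card (V → Λ) := by
    intro y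
    have h1 : (univ.filter (fun a => φ a = y)).card ≤ Fintype.card ({v // v ∉ W} → Λ) := by
      rw [← card_univ]
      apply card_le_card_of_injOn (fun a (v : {v // v ∉ W}) => a v.1)
      · intro a _
        exact mem_coe.2 (mem_univ _)
      · intro a ha a' ha' e
        have h2 := hφ a a' ((mem_filter.1 (mem_coe.1 ha)).2.trans (mem_filter.1 (mem_coe.1 ha')).2.symm)
        funext v
        by_cases hv : v ∈ W
        · exact h2 v hv
        · exact congrFun e ⟨v, hv⟩
    refine (Nat.mul_le_mul_right _ h1).trans (le_of_eq ?_)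
    rw [Fintype.card_fun, Fintype.card_fun, ← pow_add, Fintype.card_subtype_compl, Fintype.card_coe,
      Nat.sub_add_cancel (card_le_univ W)]
  rw [div_le_div_iff₀ hM (by positivity)]
  have h1 : ∑ a, G (φ a) = ∑ y, ((univ.filter (fun a => φ a = y)).card : ℝ) * G y := by
    rw [← sum_fiberwise_of_maps_to (s := univ) (t := univ) (g := φ) (fun _ _ => mem_univ _)]
    apply sum_congr rfl
    intro y _
    rw [sum_congr rfl (g := fun _ => G y) (fun a ha => by rw [(mem_filter.1 ha).2]), sum_const, nsmul_eq_mul]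
  rw [h1, sum_mul, sum_mul]
  apply sum_le_sum
  intro y _
  have h2 : ((univ.filter (fun a => φ a = y)).card : ℝ) * (Fintype.card Λ : ℝ) ^ W.card
      ≤ Fintype.card (V → Λ) := by exact_mod_cast hfib y
  have := mul_le_mul_of_nonneg_left h2 (hG y)
  linarith

open Classical in
theorem letter_sum {Λ : Type} [Fintype Λ] [Nonempty Λ] (br : Λ → Λ) (hbr : ∀ a, br (br a) = a)
    {m J : ℕ} (len : Bool × Fin m → ℕ) (hlen : ∀ β, len β ≤ J) (π : Pos len → Pos len)
    (hπ : PairOK π)
    (g : ∀ s : Fin m, (Fin (len (false, s)) → Λ) → (Fin (len (true, s)) → Λ) → ℝ)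
    (hg : ∀ s w w', 0 ≤ g s w w') {C : ℝ} (hC : 0 ≤ C)
    (hgC : ∀ s, ∑ w, ∑ w', g s w w' ^ 2 ≤ C ^ 2) :
    (∑ A : (∀ β : Bool × Fin m, Fin (len β) → Λ),
      if (∀ p : Pos len, A (π p).1 (π p).2 = br (A p.1 p.2)) then
        ∏ s : Fin m, g s (A (false, s)) (A (true, s)) else 0) ≤
      C ^ m * (((Fintype.card Λ : ℝ)) ^ J) ^ badN π := by
  obtain ⟨hinv, hne, -⟩ := hπ
  set tm : Pos len → ℕ := fun p => (Fintype.equivFin (Pos len) p : ℕ) with htm
  have tinj : ∀ p q, tm p = tm q → p = q := fun p q e => (Fintype.equivFin (Pos len)).injective (Fin.ext e)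
  have flip : ∀ p, ¬ tm p < tm (π p) → tm (π p) < tm (π (π p)) := by
    intro p h
    rw [hinv]
    have h2 : tm (π p) ≠ tm p := fun e => hne p (tinj _ _ e)
    omega
  set O := {p : Pos len // tm p < tm (π p)} with hO
  set ex : (O → Λ) → Pos len → Λ := fun a p =>
    if h : tm p < tm (π p) then a ⟨p, h⟩ else br (a ⟨π p, flip p h⟩) with hex
  have ex1 : ∀ a (o : O), ex a o.1 = a o := fun a o => by
    simp only [hex, dif_pos o.2]
    rfl
  have ex2 : ∀ a (o : O), ex a (π o.1) = br (a o) := by
    intro a o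
    have h : ¬ tm (π o.1) < tm (π (π o.1)) := by
      rw [hinv]
      exact not_lt.2 o.2.le
    simp only [hex, dif_neg h]
    congr 2
    exact Subtype.ext (hinv _)
  set φ : ∀ s : Fin m, (O → Λ) → (Fin (len (false, s)) → Λ) × (Fin (len (true, s)) → Λ) :=
    fun s a => (fun t => ex a ⟨(false, s), t⟩, fun t => ex a ⟨(true, s), t⟩) with hφ
  set Vs : Fin m → Finset O := fun s => univ.filter (fun o => o.1.1.2 = s ∨ (π o.1).1.2 = s) with hVs
  have hN : (1 : ℝ) ≤ Fintype.card Λ := by exact_mod_cast Fintype.card_pos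
  have hM : (0 : ℝ) < Fintype.card (O → Λ) := by exact_mod_cast Fintype.card_pos
  have hφ1 : ∀ s a a', φ s a = φ s a' ↔ ∀ p : Pos len, p.1.2 = s → ex a p = ex a' p := by
    intro s a a'
    constructor
    · rintro e ⟨⟨b, s'⟩, t⟩ rfl
      cases b
      · exact congrFun (congrArg Prod.fst e) t
      · exact congrFun (congrArg Prod.snd e) t
    · intro h
      exact Prod.ext (funext fun t => h _ rfl) (funext fun t => h _ rfl)
  have step1 : (∑ A : (∀ β : Bool × Fin m, Fin (len β) → Λ),
      if (∀ p : Pos len, A (π p).1 (π p).2 = br (A p.1 p.2)) then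
        ∏ s : Fin m, g s (A (false, s)) (A (true, s)) else 0)
      ≤ ∑ a : O → Λ, ∏ s : Fin m, g s (φ s a).1 (φ s a).2 := by
    rw [← sum_filter]
    have hA : ∀ A : (∀ β : Bool × Fin m, Fin (len β) → Λ),
        (∀ p : Pos len, A (π p).1 (π p).2 = br (A p.1 p.2)) →
        ∀ p : Pos len, ex (fun o => A o.1.1 o.1.2) p = A p.1 p.2 := by
      intro A h p
      by_cases hp : tm p < tm (π p)
      · exact ex1 (fun o => A o.1.1 o.1.2) ⟨p, hp⟩
      · simp only [hex, dif_neg hp]
        rw [h p, hbr]
    have h1 := sum_image (s := univ.filter (fun A : (∀ β : Bool × Fin m, Fin (len β) → Λ) =>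
        ∀ p : Pos len, A (π p).1 (π p).2 = br (A p.1 p.2)))
      (g := fun A (o : O) => A o.1.1 o.1.2) (f := fun a : O → Λ => ∏ s : Fin m, g s (φ s a).1 (φ s a).2) (by
        intro A hA1 A' hA2 e
        have h1 := hA A (mem_filter.1 (mem_coe.1 hA1)).2
        have h2 := hA A' (mem_filter.1 (mem_coe.1 hA2)).2
        funext β t
        have e' : (fun o : O => A o.1.1 o.1.2) = fun o : O => A' o.1.1 o.1.2 := e
        rw [← h1 ⟨β, t⟩, ← h2 ⟨β, t⟩, e'])
    refine le_trans (le_of_eq ?_) (h1.symm.le.trans ?_)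
    · apply sum_congr rfl
      intro A hA1
      have h1 := hA A (mem_filter.1 hA1).2
      apply prod_congr rfl
      intro s _
      congr 1
      · funext t
        exact (h1 ⟨(false, s), t⟩).symm
      · funext t
        exact (h1 ⟨(true, s), t⟩).symm
    · apply sum_le_sum_of_subset_of_nonneg (subset_univ _)
      intro a _ _
      exact prod_nonneg (fun s _ => hg _ _ _)
  have hcov : ∀ o : O, univ.filter (fun s => o ∈ Vs s) = {o.1.1.2, (π o.1).1.2} := by
    intro o
    ext s
    simp only [hVs, mem_filter, mem_univ, true_and, mem_insert, mem_singleton]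
    exact ⟨fun h => h.imp Eq.symm Eq.symm, fun h => h.imp Eq.symm Eq.symm⟩
  have step2 := Finner_main (S := Fin m) (univ : Finset O) (fun s a => g s (φ s a).1 (φ s a).2) Vs
    (fun s => subset_univ _) (fun s a => hg _ _ _) (by
      intro s a a' h
      have : φ s a = φ s a' := by
        rw [hφ1]
        intro p hp
        by_cases hp' : tm p < tm (π p)
        · rw [ex1 a ⟨p, hp'⟩, ex1 a' ⟨p, hp'⟩]
          exact h _ (mem_filter.2 ⟨mem_univ _, Or.inl hp⟩)
        · simp only [hex, dif_neg hp']
          congr 1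
          apply h
          refine mem_filter.2 ⟨mem_univ _, Or.inr ?_⟩
          simp only [hinv]
          exact hp
      simp only [this]) (by
      intro o
      rw [hcov]
      exact card_le_two)
  have step3 : ∀ s, (∑ a : O → Λ, g s (φ s a).1 (φ s a).2 ^ 2) / (Fintype.card (O → Λ) : ℝ)
      ≤ C ^ 2 / (Fintype.card Λ : ℝ) ^ (Vs s).card := by
    intro s
    refine (Finner_fiber (Vs s) (φ s) ?_ (fun y => g s y.1 y.2 ^ 2) (fun y => sq_nonneg _)).trans ?_
    · intro a a' e o ho
      rw [hφ1] at e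
      rcases (mem_filter.1 ho).2 with h | h
      · rw [← ex1 a o, ← ex1 a' o]
        exact e _ h
      · have h1 := e _ h
        rw [ex2, ex2] at h1
        rw [← hbr (a o), h1, hbr]
    · apply div_le_div_of_nonneg_right _ (by positivity)
      rw [Fintype.sum_prod_type]
      exact hgC s
  have step4 : 2 * Fintype.card O ≤ ∑ s, (Vs s).card + 2 * J * badN π := by
    have h1 : ∑ s, (Vs s).card = ∑ o : O, (univ.filter (fun s => o ∈ Vs s)).card := by
      simp only [card_filter]
      rw [sum_comm]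
      apply sum_congr rfl
      intro s _
      rw [← card_filter]
      congr 1
      ext o
      simp
    have h2 : (univ.filter (fun o : O => o.1.1.2 = (π o.1).1.2)).card ≤ 2 * J * badN π := by
      unfold badN
      have h3 : 2 * J * (univ.filter fun s : Fin m => ∃ p : Pos len, p.1.2 = s ∧ (π p).1.2 = s).card
          = (((univ : Finset Bool) ×ˢ range J) ×ˢ
            (univ.filter fun s : Fin m => ∃ p : Pos len, p.1.2 = s ∧ (π p).1.2 = s)).card := by
        rw [card_product, card_product, card_range, card_univ, Fintype.card_bool]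
      rw [h3]
      apply card_le_card_of_injOn (fun o : O => ((o.1.1.1, (o.1.2 : ℕ)), o.1.1.2))
      · intro o ho
        have h4 := (mem_filter.1 (mem_coe.1 ho)).2
        rw [mem_coe, mem_product, mem_product, mem_range, mem_filter]
        exact ⟨⟨mem_univ _, o.1.2.2.trans_le (hlen _)⟩, mem_univ _, o.1, rfl, h4.symm⟩
      · rintro ⟨⟨⟨b, s⟩, t⟩, h⟩ _ ⟨⟨⟨b', s'⟩, t'⟩, h'⟩ _ e
        simp only [Prod.mk.injEq] at e
        obtain ⟨⟨rfl, e2⟩, rfl⟩ := e
        have : t = t' := Fin.ext e2
        subst this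
        rfl
    have h3 : 2 * Fintype.card O ≤ ∑ o : O, ((univ.filter (fun s => o ∈ Vs s)).card
        + if o.1.1.2 = (π o.1).1.2 then 1 else 0) := by
      rw [mul_comm, ← card_univ, ← smul_eq_mul, ← sum_const]
      apply sum_le_sum
      intro o _
      rw [hcov]
      split_ifs with h
      · rw [← h]
        simp
      · rw [card_pair h]
    rw [sum_add_distrib, ← card_filter, ← h1] at h3
    omega
  refine step1.trans ?_
  apply le_of_sq_le_sq _ (by positivity)
  have h5 := step2.trans (prod_le_prod (fun s _ => by positivity) (fun s _ => step3 s))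
  rw [prod_div_distrib, prod_const, card_univ, Fintype.card_fin, prod_pow_eq_pow_sum, div_pow,
    div_le_div_iff₀ (by positivity) (by positivity), Fintype.card_fun] at h5
  push_cast at h5
  have h6 : ((Fintype.card Λ : ℝ) ^ Fintype.card O) ^ 2
      ≤ (Fintype.card Λ : ℝ) ^ (2 * J * badN π) * (Fintype.card Λ : ℝ) ^ (∑ s, (Vs s).card) := by
    rw [← pow_mul, ← pow_add]
    apply pow_le_pow_right₀ hN
    omega
  have h7 : (0 : ℝ) < (Fintype.card Λ : ℝ) ^ (∑ s, (Vs s).card) := by positivity
  have h8 := h5.trans (mul_le_mul_of_nonneg_left h6 (by positivity))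
  rw [← mul_assoc] at h8
  refine (le_of_mul_le_mul_right h8 h7).trans (le_of_eq ?_)
  rw [mul_pow, ← pow_mul, ← pow_mul, ← pow_mul, ← pow_mul]
  congr 2
  · ring
  · ring

end Pool.Agent.H612Z.Op
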