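import Pool.Agent.H612Z.Op.Basic

set_option autoImplicit false

open scoped ComplexConjugate InnerProductSpace
open Finsupp

namespace Pool.Agent.H612Z.Op

variable {I J : Type}

theorem Ker_inner (η ξ : I →₀ ℂ) (F : Finset I) (h : η.support ⊆ F) :
    ⟪emb I η, emb I ξ⟫_ℂ = ∑ i ∈ F, conj (η i) * ξ i := by
  unfold emb
  rw [(default : HilbertBasis I ℂ (HS I)).orthonormal.inner_finsupp_eq_sum_left,
    Finsupp.sum_of_support_subset η h _ (by simp)]

theorem Ker_norm_inner_self (x : HS I) : ‖⟪x, x⟫_ℂ‖ = ‖x‖ ^ 2 := by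
  rw [inner_self_eq_norm_sq_to_K]
  simp

theorem Ker_le_of_sq {x y : ℝ} (hx : 0 ≤ x) (hy : 0 ≤ y) (h : x ^ 2 ≤ x * y) : x ≤ y := by
  rcases hx.eq_or_lt with h0 | h0
  · rw [← h0]
    exact hy
  · rw [sq] at h
    exact le_of_mul_le_mul_left h h0

open Classical in
/-- cutting a function off to a finite set -/
noncomputable def Ker_cut (F : Finset I) (η : I → ℂ) : I →₀ ℂ :=
  onFinset F (fun i => if i ∈ F then η i else 0) fun i hi => by
    by_contra h
    exact hi (if_neg h)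

theorem Ker_cut_apply {F : Finset I} (η : I → ℂ) {i : I} (hi : i ∈ F) : Ker_cut F η i = η i := by
  simp [Ker_cut, hi]

theorem norm_emb_sq (ξ : I →₀ ℂ) (F : Finset I) (h : ξ.support ⊆ F) :
    ‖emb I ξ‖ ^ 2 = ∑ i ∈ F, ‖ξ i‖ ^ 2 := by
  have h1 := Ker_inner ξ ξ F h
  rw [inner_self_eq_norm_sq_to_K] at h1
  simp only [Complex.conj_mul'] at h1
  apply Complex.ofReal_injective
  push_cast
  exact h1

theorem norm_emb_single (i : I) (c : ℂ) : ‖emb I (single i c)‖ = ‖c‖ := by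
  have h := norm_emb_sq (single i c) {i} support_single_subset
  simp only [Finset.sum_singleton, single_eq_same] at h
  exact (pow_left_inj₀ (norm_nonneg _) (norm_nonneg _) two_ne_zero).mp h

theorem inner_emb (η ξ : I →₀ ℂ) (F : Finset I) (h : η.support ⊆ F) :
    ⟪emb I η, emb I ξ⟫_ℂ = ∑ i ∈ F, conj (η i) * ξ i :=
  Ker_inner η ξ F h

theorem dense_emb : DenseRange (emb I) := by
  have h := (default : HilbertBasis I ℂ (HS I)).dense_span
  rw [← Finsupp.range_linearCombination, ← Submodule.dense_iff_topologicalClosure_eq_top] at h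
  exact h

theorem norm_emb_mapDomain (e : J → I) (he : Function.Injective e) (ξ : J →₀ ℂ) :
    ‖emb I (mapDomain e ξ)‖ = ‖emb J ξ‖ := by
  classical
  have h1 := norm_emb_sq (mapDomain e ξ) (ξ.support.image e) mapDomain_support
  have h2 := norm_emb_sq ξ ξ.support subset_rfl
  rw [Finset.sum_image (fun a _ b _ hab => he hab)] at h1
  simp only [mapDomain_apply he] at h1
  exact (pow_left_inj₀ (norm_nonneg _) (norm_nonneg _) two_ne_zero).mp (h1.trans h2.symm)

theorem apply_eq_sum_ker (T : En I) (ξ : I →₀ ℂ) (F : Finset I) (h : ξ.support ⊆ F) (i : I) :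
    T ξ i = ∑ j ∈ F, ker T i j * ξ j := by
  have h1 : ξ = ∑ j ∈ F, ξ j • single j (1 : ℂ) := by
    conv_lhs => rw [← Finsupp.sum_single ξ]
    rw [Finsupp.sum_of_support_subset ξ h _ (by simp)]
    simp
  conv_lhs => rw [h1]
  rw [map_sum, Finset.sum_apply']
  refine Finset.sum_congr rfl fun j _ => ?_
  rw [map_smul, Finsupp.smul_apply, smul_eq_mul, mul_comm]
  rfl

theorem ker_ext {S T : En I} (h : ∀ i j, ker S i j = ker T i j) : S = T := by
  refine LinearMap.ext fun ξ => Finsupp.ext fun i => ?_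
  rw [apply_eq_sum_ker S ξ _ subset_rfl, apply_eq_sum_ker T ξ _ subset_rfl]
  simp only [h]

theorem ker_add (S T : En I) (i j : I) : ker (S + T) i j = ker S i j + ker T i j := by
  simp [ker]

theorem ker_sub (S T : En I) (i j : I) : ker (S - T) i j = ker S i j - ker T i j := by
  simp [ker]

theorem ker_smul (c : ℂ) (T : En I) (i j : I) : ker (c • T) i j = c * ker T i j := by
  simp [ker]

theorem ker_zero (i j : I) : ker (0 : En I) i j = 0 := by
  simp [ker]

theorem ker_sum {α : Type} (s : Finset α) (T : α → En I) (i j : I) :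
    ker (∑ a ∈ s, T a) i j = ∑ a ∈ s, ker (T a) i j := by
  simp [ker, LinearMap.sum_apply, Finset.sum_apply']

open Classical in
theorem ker_one (i j : I) : ker (1 : En I) i j = if i = j then 1 else 0 := by
  simp [ker, single_apply, eq_comm]

theorem ker_lin (f : I → (I →₀ ℂ)) (i j : I) : ker (lin f) i j = f j i := by
  simp [ker]

theorem ker_mE [Fintype I] (M : Matrix I I ℂ) (i j : I) : ker (mE M) i j = M i j := by
  classical
  rw [mE, ker_lin, Finset.sum_apply']
  simp [single_apply]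

theorem ker_mul (S T : En I) (i j : I) (F : Finset I) (h : (T (single j 1)).support ⊆ F) :
    ker (S * T) i j = ∑ l ∈ F, ker S i l * ker T l j :=
  apply_eq_sum_ker S (T (single j 1)) F h i

theorem Ker_ker_inner (T : En I) (i j : I) :
    ker T i j = ⟪emb I (single i 1), emb I (T (single j 1))⟫_ℂ := by
  rw [inner_emb _ _ {i} support_single_subset]
  simp [ker]

/-- rectangular form of the bound -/
theorem Ker_rect {K : I → I → ℂ} {s : Set I} {C : ℝ} (h : KB K s C) (F1 F2 : Finset I)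
    (h1 : (F1 : Set I) ⊆ s) (h2 : (F2 : Set I) ⊆ s) (η ξ : I → ℂ) :
    ‖∑ i ∈ F1, ∑ j ∈ F2, conj (η i) * K i j * ξ j‖ ≤
      C * √(∑ i ∈ F1, ‖η i‖ ^ 2) * √(∑ j ∈ F2, ‖ξ j‖ ^ 2) := by
  classical
  have h3 := h (F1 ∪ F2) (by rw [Finset.coe_union]; exact Set.union_subset h1 h2)
    (fun i => if i ∈ F1 then η i else 0) fun j => if j ∈ F2 then ξ j else 0
  have e : ∀ (F : Finset I) (ζ : I → ℂ), F ⊆ F1 ∪ F2 →
      ∑ i ∈ F1 ∪ F2, ‖if i ∈ F then ζ i else 0‖ ^ 2 = ∑ i ∈ F, ‖ζ i‖ ^ 2 := by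
    intro F ζ hF
    rw [← Finset.sum_subset hF (fun i _ hi => by simp [hi])]
    exact Finset.sum_congr rfl fun i hi => by rw [if_pos hi]
  rw [e F1 η Finset.subset_union_left, e F2 ξ Finset.subset_union_right] at h3
  refine le_trans (le_of_eq ?_) h3
  congr 1
  rw [← Finset.sum_subset (Finset.subset_union_left (s₂ := F2)) (fun i _ hi => by simp [hi])]
  refine Finset.sum_congr rfl fun i hi => ?_
  rw [← Finset.sum_subset (Finset.subset_union_right (s₁ := F1)) (fun j _ hj => by simp [hj])]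
  refine Finset.sum_congr rfl fun j hj => ?_
  rw [if_pos hi, if_pos hj]

/-- gluing blocks -/
theorem Ker_block {B : Type} [DecidableEq B] {K : I → I → ℂ} {s : Set I} {C : ℝ} (hC : 0 ≤ C)
    (β γ : I → B)
    (h : ∀ (b : B) (F1 F2 : Finset I), (F1 : Set I) ⊆ s → (F2 : Set I) ⊆ s →
      (∀ i ∈ F1, β i = b) → (∀ j ∈ F2, γ j = b) → ∀ η ξ : I → ℂ,
      ‖∑ i ∈ F1, ∑ j ∈ F2, conj (η i) * K i j * ξ j‖ ≤
        C * √(∑ i ∈ F1, ‖η i‖ ^ 2) * √(∑ j ∈ F2, ‖ξ j‖ ^ 2)) :
    KB (fun i j => if β i = γ j then K i j else 0) s C := by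
  intro F hF η ξ
  set S : Finset B := F.image β ∪ F.image γ with hS
  have m1 : ∀ i ∈ F, β i ∈ S := fun i hi =>
    Finset.mem_union_left _ (Finset.mem_image_of_mem _ hi)
  have m2 : ∀ i ∈ F, γ i ∈ S := fun i hi =>
    Finset.mem_union_right _ (Finset.mem_image_of_mem _ hi)
  have e : ∑ i ∈ F, ∑ j ∈ F, conj (η i) * (if β i = γ j then K i j else 0) * ξ j =
      ∑ b ∈ S, ∑ i ∈ F with β i = b, ∑ j ∈ F with γ j = b, conj (η i) * K i j * ξ j := by
    rw [← Finset.sum_fiberwise_of_maps_to m1]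
    refine Finset.sum_congr rfl fun b _ => Finset.sum_congr rfl fun i hi => ?_
    rw [Finset.sum_filter, (Finset.mem_filter.mp hi).2]
    refine Finset.sum_congr rfl fun j _ => ?_
    by_cases hb : b = γ j
    · rw [if_pos hb, if_pos hb.symm]
    · rw [if_neg hb, if_neg (Ne.symm hb)]
      simp
  rw [e]
  refine (norm_sum_le _ _).trans ?_
  refine (Finset.sum_le_sum fun b _ => h b _ _
    (fun i hi => hF (Finset.mem_filter.mp hi).1) (fun i hi => hF (Finset.mem_filter.mp hi).1)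
    (fun i hi => (Finset.mem_filter.mp hi).2) (fun i hi => (Finset.mem_filter.mp hi).2) η ξ).trans ?_
  simp only [mul_assoc]
  rw [← Finset.mul_sum]
  refine mul_le_mul_of_nonneg_left ?_ hC
  refine (Real.sum_sqrt_mul_sqrt_le S (fun b => by positivity) fun b => by positivity).trans
    (le_of_eq ?_)
  rw [Finset.sum_fiberwise_of_maps_to m1, Finset.sum_fiberwise_of_maps_to m2]

theorem bdd_iff_KB {T : En I} {C : ℝ} (hC : 0 ≤ C) : Bdd T C ↔ KB (ker T) Set.univ C := by
  classical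
  constructor
  · intro h F _ η ξ
    have hη : (Ker_cut F η).support ⊆ F := support_onFinset_subset
    have hξ : (Ker_cut F ξ).support ⊆ F := support_onFinset_subset
    have e : ∑ i ∈ F, ∑ j ∈ F, conj (η i) * ker T i j * ξ j =
        ⟪emb I (Ker_cut F η), emb I (T (Ker_cut F ξ))⟫_ℂ := by
      rw [inner_emb _ _ F hη]
      refine Finset.sum_congr rfl fun i hi => ?_
      rw [apply_eq_sum_ker T _ F hξ, Finset.mul_sum, Ker_cut_apply η hi]
      refine Finset.sum_congr rfl fun j hj => ?_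
      rw [Ker_cut_apply ξ hj, mul_assoc]
    have hn : ∀ ζ : I → ℂ, √(∑ i ∈ F, ‖ζ i‖ ^ 2) = ‖emb I (Ker_cut F ζ)‖ := by
      intro ζ
      rw [← Real.sqrt_sq (norm_nonneg (emb I (Ker_cut F ζ))),
        norm_emb_sq (Ker_cut F ζ) F support_onFinset_subset]
      congr 1
      exact Finset.sum_congr rfl fun i hi => by rw [Ker_cut_apply ζ hi]
    rw [e, hn, hn]
    calc _ ≤ ‖emb I (Ker_cut F η)‖ * ‖emb I (T (Ker_cut F ξ))‖ := norm_inner_le_norm _ _
      _ ≤ ‖emb I (Ker_cut F η)‖ * (C * ‖emb I (Ker_cut F ξ)‖) :=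
          mul_le_mul_of_nonneg_left (h _) (norm_nonneg _)
      _ = _ := by ring
  · intro h ξ
    have h1 : ξ.support ⊆ ξ.support ∪ (T ξ).support := Finset.subset_union_left
    have h2 : (T ξ).support ⊆ ξ.support ∪ (T ξ).support := Finset.subset_union_right
    have h3 := h (ξ.support ∪ (T ξ).support) (Set.subset_univ _) (T ξ) ξ
    rw [← norm_emb_sq _ _ h1, ← norm_emb_sq _ _ h2, Real.sqrt_sq (norm_nonneg _),
      Real.sqrt_sq (norm_nonneg _)] at h3
    have e : ∑ i ∈ ξ.support ∪ (T ξ).support, ∑ j ∈ ξ.support ∪ (T ξ).support,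
        conj (T ξ i) * ker T i j * ξ j = ⟪emb I (T ξ), emb I (T ξ)⟫_ℂ := by
      rw [inner_emb _ _ _ h2]
      refine Finset.sum_congr rfl fun i _ => ?_
      conv_rhs => rw [apply_eq_sum_ker T _ _ h1 i]
      rw [← apply_eq_sum_ker T _ _ h1 i]
      conv_rhs => enter [2]; rw [apply_eq_sum_ker T _ _ h1 i]
      rw [Finset.mul_sum]
      refine Finset.sum_congr rfl fun j _ => ?_
      rw [mul_assoc]
    rw [e, Ker_norm_inner_self] at h3
    exact Ker_le_of_sq (norm_nonneg _) (mul_nonneg hC (norm_nonneg _)) (by linarith)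

theorem Bdd.mono {T : En I} {C C' : ℝ} (h : Bdd T C) (hC : C ≤ C') : Bdd T C' := fun ξ =>
  (h ξ).trans (mul_le_mul_of_nonneg_right hC (norm_nonneg _))

theorem Bdd.add {S T : En I} {C C' : ℝ} (h : Bdd S C) (h' : Bdd T C') : Bdd (S + T) (C + C') := by
  intro ξ
  rw [LinearMap.add_apply, map_add, add_mul]
  exact (norm_add_le _ _).trans (add_le_add (h ξ) (h' ξ))

theorem Bdd.sub {S T : En I} {C C' : ℝ} (h : Bdd S C) (h' : Bdd T C') : Bdd (S - T) (C + C') := by
  intro ξ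
  rw [LinearMap.sub_apply, map_sub, add_mul]
  exact (norm_sub_le _ _).trans (add_le_add (h ξ) (h' ξ))

theorem Bdd.mul {S T : En I} {C C' : ℝ} (hC : 0 ≤ C) (h : Bdd S C) (h' : Bdd T C') :
    Bdd (S * T) (C * C') := by
  intro ξ
  rw [Module.End.mul_apply, mul_assoc]
  exact (h _).trans (mul_le_mul_of_nonneg_left (h' ξ) hC)

theorem Bdd.smul {T : En I} {C : ℝ} (c : ℂ) (h : Bdd T C) : Bdd (c • T) (‖c‖ * C) := by
  intro ξ
  rw [LinearMap.smul_apply, map_smul, norm_smul, mul_assoc]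
  exact mul_le_mul_of_nonneg_left (h ξ) (norm_nonneg _)

theorem Bdd.sum {α : Type} (s : Finset α) (T : α → En I) (C : α → ℝ)
    (h : ∀ a ∈ s, Bdd (T a) (C a)) : Bdd (∑ a ∈ s, T a) (∑ a ∈ s, C a) := by
  classical
  induction s using Finset.induction_on with
  | empty => intro ξ; simp
  | insert a s ha ih =>
    rw [Finset.sum_insert ha, Finset.sum_insert ha]
    exact (h a (Finset.mem_insert_self _ _)).add
      (ih fun b hb => h b (Finset.mem_insert_of_mem hb))

theorem Bdd.pow {T : En I} {C : ℝ} (hC : 0 ≤ C) (h : Bdd T C) (n : ℕ) : Bdd (T ^ n) (C ^ n) := by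
  induction n with
  | zero => intro ξ; simp
  | succ n ih =>
    rw [pow_succ, pow_succ]
    exact Bdd.mul (pow_nonneg hC n) ih h

theorem bdd_one : Bdd (1 : En I) 1 := by
  intro ξ
  simp

theorem bdd_zero : Bdd (0 : En I) 0 := by
  intro ξ
  simp

theorem KB.mono_set {K : I → I → ℂ} {s t : Set I} {C : ℝ} (h : KB K s C) (hst : t ⊆ s) :
    KB K t C :=
  fun F hF => h F (hF.trans hst)

theorem KB.mono {K : I → I → ℂ} {s : Set I} {C C' : ℝ} (h : KB K s C) (hC : C ≤ C') :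
    KB K s C' := by
  intro F hF η ξ
  refine (h F hF η ξ).trans ?_
  gcongr

theorem KB.congr {K K' : I → I → ℂ} {s : Set I} {C : ℝ} (h : KB K s C)
    (hK : ∀ i ∈ s, ∀ j ∈ s, K' i j = K i j) : KB K' s C := by
  intro F hF η ξ
  refine le_trans (le_of_eq ?_) (h F hF η ξ)
  congr 1
  refine Finset.sum_congr rfl fun i hi => Finset.sum_congr rfl fun j hj => ?_
  rw [hK i (hF hi) j (hF hj)]

theorem KB.add {K K' : I → I → ℂ} {s : Set I} {C C' : ℝ} (h : KB K s C) (h' : KB K' s C') :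
    KB (fun i j => K i j + K' i j) s (C + C') := by
  intro F hF η ξ
  simp only [mul_add, add_mul, Finset.sum_add_distrib]
  exact (norm_add_le _ _).trans (add_le_add (h F hF η ξ) (h' F hF η ξ))

theorem KB.entry {K : I → I → ℂ} {s : Set I} {C : ℝ} (h : KB K s C) {i j : I} (hi : i ∈ s)
    (hj : j ∈ s) : ‖K i j‖ ≤ C := by
  have h1 := Ker_rect h {i} {j} (by simpa using hi) (by simpa using hj) (fun _ => 1) fun _ => 1
  simpa using h1

theorem kb_zero (s : Set I) {C : ℝ} (hC : 0 ≤ C) : KB (fun _ _ : I => (0 : ℂ)) s C := by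
  intro F _ η ξ
  simp only [mul_zero, zero_mul, Finset.sum_const_zero, norm_zero]
  positivity

/-- compression along an injection -/
theorem KB.pull {K : I → I → ℂ} {s : Set I} {C : ℝ} (h : KB K s C) (e : J → I) {t : Set J}
    (he : Set.InjOn e t) (hm : Set.MapsTo e t s) {K' : J → J → ℂ}
    (hK : ∀ a ∈ t, ∀ b ∈ t, K' a b = K (e a) (e b)) : KB K' t C := by
  classical
  intro F hF η ξ
  rcases F.eq_empty_or_nonempty with rfl | ⟨a0, _⟩
  · simp
  have : Nonempty J := ⟨a0⟩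
  have hinj : Set.InjOn e F := he.mono hF
  have hinv : ∀ a ∈ F, Function.invFunOn e t (e a) = a := fun a ha =>
    he.leftInvOn_invFunOn (hF ha)
  have h1 := h (F.image e) (by
    intro i hi
    obtain ⟨a, ha, rfl⟩ := Finset.mem_image.mp (Finset.mem_coe.mp hi)
    exact hm (hF ha)) (fun i => η (Function.invFunOn e t i)) fun i => ξ (Function.invFunOn e t i)
  simp only [Finset.sum_image hinj] at h1
  have e1 : ∀ ζ : J → ℂ, ∑ a ∈ F, ‖ζ (Function.invFunOn e t (e a))‖ ^ 2 = ∑ a ∈ F, ‖ζ a‖ ^ 2 :=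
    fun ζ => Finset.sum_congr rfl fun a ha => by rw [hinv a ha]
  rw [e1, e1] at h1
  refine le_trans (le_of_eq ?_) h1
  congr 1
  refine Finset.sum_congr rfl fun a ha => Finset.sum_congr rfl fun b hb => ?_
  rw [hinv a ha, hinv b hb, hK a (hF ha) b (hF hb)]

/-- transport along a map onto `s` -/
theorem KB.push {K' : J → J → ℂ} {t : Set J} {C : ℝ} (h : KB K' t C) (e : J → I)
    {s : Set I} (hs : s ⊆ e '' t) {K : I → I → ℂ}
    (hK : ∀ a ∈ t, ∀ b ∈ t, K' a b = K (e a) (e b)) : KB K s C := by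
  rcases s.eq_empty_or_nonempty with rfl | ⟨i0, hi0⟩
  · intro F hF η ξ
    have : F = ∅ := by simpa using hF
    subst this
    simp
  obtain ⟨a0, -, -⟩ := hs hi0
  have : Nonempty J := ⟨a0⟩
  have h1 : ∀ i ∈ s, e (Function.invFunOn e t i) = i := fun i hi => Function.invFunOn_eq (hs hi)
  have h2 : ∀ i ∈ s, Function.invFunOn e t i ∈ t := fun i hi => Function.invFunOn_mem (hs hi)
  refine h.pull (Function.invFunOn e t) ?_ h2 ?_
  · intro i hi j hj hij
    rw [← h1 i hi, ← h1 j hj, hij]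
  · intro i hi j hj
    rw [hK _ (h2 i hi) _ (h2 j hj), h1 i hi, h1 j hj]

/-- block diagonal kernels -/
theorem KB.fiber {B : Type} {K : I → I → ℂ} {s : Set I} {C : ℝ} (hC : 0 ≤ C) (β : I → B)
    (h0 : ∀ i ∈ s, ∀ j ∈ s, β i ≠ β j → K i j = 0)
    (h : ∀ b, KB K (s ∩ {i | β i = b}) C) : KB K s C := by
  classical
  refine (Ker_block (K := K) (s := s) hC β β ?_).congr ?_
  · intro b F1 F2 h1 h2 h3 h4 η ξ
    exact Ker_rect (h b) F1 F2 (fun i hi => ⟨h1 hi, h3 i hi⟩) (fun i hi => ⟨h2 hi, h4 i hi⟩) η ξ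
  · intro i hi j hj
    split_ifs with hij
    · rfl
    · exact h0 i hi j hj hij

/-- block tridiagonal kernels -/
theorem KB.band {K : I → I → ℂ} {s : Set I} {C : ℝ} (hC : 0 ≤ C) (h : I → ℕ)
    (h0 : ∀ i ∈ s, ∀ j ∈ s, K i j ≠ 0 → h i ≤ h j + 1 ∧ h j ≤ h i + 1)
    (hK : ∀ n, KB K (s ∩ {i | h i = n ∨ h i = n + 1}) C) : KB K s (3 * C) := by
  have a0 := Ker_block (K := K) (s := s) hC h h (by
    intro b F1 F2 h1 h2 h3 h4 η ξ
    exact Ker_rect (hK b) F1 F2 (fun i hi => ⟨h1 hi, Or.inl (h3 i hi)⟩)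
      (fun i hi => ⟨h2 hi, Or.inl (h4 i hi)⟩) η ξ)
  have a1 := Ker_block (K := K) (s := s) hC h (fun j => h j + 1) (by
    intro b F1 F2 h1 h2 h3 h4 η ξ
    rcases F2.eq_empty_or_nonempty with rfl | ⟨j0, hj0⟩
    · simp
    have hb := h4 j0 hj0
    refine Ker_rect (hK (h j0)) F1 F2 (fun i hi => ⟨h1 hi, Or.inr ?_⟩)
      (fun i hi => ⟨h2 hi, Or.inl ?_⟩) η ξ
    · have := h3 i hi
      omega
    · have := h4 i hi
      omega)
  have a2 := Ker_block (K := K) (s := s) hC (fun j => h j + 1) h (by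
    intro b F1 F2 h1 h2 h3 h4 η ξ
    rcases F1.eq_empty_or_nonempty with rfl | ⟨j0, hj0⟩
    · simp
    have hb := h3 j0 hj0
    refine Ker_rect (hK (h j0)) F1 F2 (fun i hi => ⟨h1 hi, Or.inl ?_⟩)
      (fun i hi => ⟨h2 hi, Or.inr ?_⟩) η ξ
    · have := h3 i hi
      omega
    · have := h4 i hi
      omega)
  have a3 := (a0.add a1).add a2
  rw [show C + C + C = 3 * C by ring] at a3
  refine a3.congr ?_
  intro i hi j hj
  by_cases hz : K i j = 0
  · simp [hz]
  · obtain ⟨b1, b2⟩ := h0 i hi j hj hz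
    by_cases c1 : h i = h j
    · rw [if_pos c1, if_neg (by omega), if_neg (by omega)]
      simp
    · by_cases c2 : h i = h j + 1
      · rw [if_neg c1, if_pos c2, if_neg (by omega)]
        simp
      · rw [if_neg c1, if_neg c2, if_pos (by omega)]
        simp

/-- a kernel that lives on `t` -/
theorem KB.supp {K : I → I → ℂ} {s t : Set I} {C : ℝ} (hC : 0 ≤ C) (h : KB K t C)
    (h0 : ∀ i ∈ s, ∀ j ∈ s, K i j ≠ 0 → i ∈ t ∧ j ∈ t) : KB K s C := by
  classical
  intro F hF η ξ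
  have h1 := h (F.filter (· ∈ t)) (fun i hi => (Finset.mem_filter.mp hi).2) η ξ
  have e : ∑ i ∈ F, ∑ j ∈ F, conj (η i) * K i j * ξ j =
      ∑ i ∈ F.filter (· ∈ t), ∑ j ∈ F.filter (· ∈ t), conj (η i) * K i j * ξ j := by
    simp only [Finset.sum_filter]
    refine Finset.sum_congr rfl fun i hi => ?_
    split_ifs with hit
    · refine Finset.sum_congr rfl fun j hj => ?_
      split_ifs with hjt
      · rfl
      · have : K i j = 0 := by
          by_contra hne
          exact hjt (h0 i (hF hi) j (hF hj) hne).2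
        simp [this]
    · refine Finset.sum_eq_zero fun j hj => ?_
      have : K i j = 0 := by
        by_contra hne
        exact hit (h0 i (hF hi) j (hF hj) hne).1
      simp [this]
  rw [e]
  refine h1.trans ?_
  have hm : ∀ ζ : I → ℂ, √(∑ i ∈ F.filter (· ∈ t), ‖ζ i‖ ^ 2) ≤ √(∑ i ∈ F, ‖ζ i‖ ^ 2) :=
    fun ζ => Real.sqrt_le_sqrt (Finset.sum_le_sum_of_subset_of_nonneg (Finset.filter_subset _ _)
      fun i _ _ => by positivity)
  have := hm η
  have := hm ξ
  gcongr

open Classical in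
/-- amplification -/
theorem KB.ampl {K : I → I → ℂ} {s : Set I} {C : ℝ} (hC : 0 ≤ C) (h : KB K s C) (J : Type) :
    KB (fun u v : I × J => K u.1 v.1 * if u.2 = v.2 then 1 else 0) {u | u.1 ∈ s} C := by
  refine KB.fiber hC Prod.snd ?_ ?_
  · intro u _ v _ huv
    rw [if_neg huv, mul_zero]
  · intro b
    refine h.pull Prod.fst ?_ ?_ ?_
    · intro u hu v hv huv
      exact Prod.ext huv (hu.2.trans hv.2.symm)
    · intro u hu
      exact hu.1
    · intro u hu v hv
      rw [if_pos (hu.2.trans hv.2.symm), mul_one]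

theorem IsAdj.symm {S T : En I} (h : IsAdj S T) : IsAdj T S := by
  intro i j
  rw [h j i, Complex.conj_conj]

theorem IsAdj.inner {S T : En I} (h : IsAdj S T) (η ξ : I →₀ ℂ) :
    ⟪emb I (S η), emb I ξ⟫_ℂ = ⟪emb I η, emb I (T ξ)⟫_ℂ := by
  classical
  have h1 : (S η).support ⊆ (S η).support ∪ ξ.support := Finset.subset_union_left
  have h2 : ξ.support ⊆ (S η).support ∪ ξ.support := Finset.subset_union_right
  rw [inner_emb _ _ _ h1, inner_emb _ _ _ (subset_refl η.support)]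
  simp only [apply_eq_sum_ker S η _ subset_rfl, apply_eq_sum_ker T ξ _ h2, map_sum, map_mul,
    Finset.sum_mul, Finset.mul_sum]
  rw [Finset.sum_comm]
  refine Finset.sum_congr rfl fun j _ => Finset.sum_congr rfl fun i _ => ?_
  rw [h i j, Complex.conj_conj]
  ring

theorem IsAdj.mul {S T S' T' : En I} (h : IsAdj S T) (h' : IsAdj S' T') :
    IsAdj (S' * S) (T * T') := by
  intro i j
  rw [Ker_ker_inner, Ker_ker_inner, Module.End.mul_apply, Module.End.mul_apply, ← h.inner,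
    ← h'.inner, inner_conj_symm]

theorem IsAdj.add {S T S' T' : En I} (h : IsAdj S T) (h' : IsAdj S' T') :
    IsAdj (S + S') (T + T') := by
  intro i j
  rw [ker_add, ker_add, map_add, h i j, h' i j]

theorem IsAdj.smul {S T : En I} (h : IsAdj S T) (c : ℂ) : IsAdj (conj c • S) (c • T) := by
  intro i j
  rw [ker_smul, ker_smul, map_mul, h i j]

theorem isAdj_one : IsAdj (1 : En I) 1 := by
  intro i j
  rw [ker_one, ker_one]
  by_cases hij : i = j
  · simp [hij]
  · simp [hij, Ne.symm hij]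

theorem IsAdj.pow {S : En I} (h : IsAdj S S) (n : ℕ) : IsAdj (S ^ n) (S ^ n) := by
  induction n with
  | zero => simpa using isAdj_one
  | succ n ih =>
    have := IsAdj.mul h ih
    rwa [← pow_succ, ← pow_succ'] at this

theorem IsAdj.bdd {S T : En I} {C : ℝ} (hC : 0 ≤ C) (h : IsAdj S T) (hT : Bdd T C) : Bdd S C := by
  intro η
  have h1 := h.inner η (S η)
  have h2 : ‖⟪emb I η, emb I (T (S η))⟫_ℂ‖ ≤ ‖emb I η‖ * (C * ‖emb I (S η)‖) :=
    (norm_inner_le_norm _ _).trans (mul_le_mul_of_nonneg_left (hT _) (norm_nonneg _))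
  rw [← h1, Ker_norm_inner_self] at h2
  exact Ker_le_of_sq (norm_nonneg _) (mul_nonneg hC (norm_nonneg _)) (by linarith)

theorem bdd_of_sq {S T : En I} {C : ℝ} (hC : 0 ≤ C) (h : IsAdj S T) (hb : Bdd (S * T) (C ^ 2)) :
    Bdd T C := by
  intro ξ
  have h1 := h.inner (T ξ) ξ
  have h2 : ‖⟪emb I (S (T ξ)), emb I ξ⟫_ℂ‖ ≤ (C ^ 2 * ‖emb I ξ‖) * ‖emb I ξ‖ :=
    (norm_inner_le_norm _ _).trans (mul_le_mul_of_nonneg_right (hb ξ) (norm_nonneg _))
  rw [h1, Ker_norm_inner_self] at h2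
  refine le_of_pow_le_pow_left₀ two_ne_zero (mul_nonneg hC (norm_nonneg _)) ?_
  linarith

theorem bdd_of_pow {S : En I} {C : ℝ} (hC : 0 ≤ C) (h : IsAdj S S) (r : ℕ)
    (hb : Bdd (S ^ 2 ^ r) (C ^ 2 ^ r)) : Bdd S C := by
  induction r with
  | zero => simpa using hb
  | succ r ih =>
    refine ih (bdd_of_sq (pow_nonneg hC _) (h.pow (2 ^ r)) ?_)
    rwa [← pow_add, ← pow_mul, ← mul_two, ← pow_succ]

/-- the Hilbert-Schmidt bound -/
theorem bdd_of_HS [Fintype I] {T : En I} {C : ℝ} (hC : 0 ≤ C)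
    (h : ∑ i, ∑ j, ‖ker T i j‖ ^ 2 ≤ C ^ 2) : Bdd T C := by
  intro ξ
  refine le_of_pow_le_pow_left₀ two_ne_zero (mul_nonneg hC (norm_nonneg _)) ?_
  rw [mul_pow, norm_emb_sq _ _ (Finset.subset_univ _), norm_emb_sq _ _ (Finset.subset_univ _)]
  refine le_trans ?_ (mul_le_mul_of_nonneg_right h (by positivity))
  rw [Finset.sum_mul]
  refine Finset.sum_le_sum fun i _ => ?_
  rw [apply_eq_sum_ker T ξ _ (Finset.subset_univ _)]
  refine le_trans ?_ (Finset.sum_mul_sq_le_sq_mul_sq _ (fun j => ‖ker T i j‖) fun j => ‖ξ j‖)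
  refine pow_le_pow_left₀ (norm_nonneg _) ((norm_sum_le _ _).trans (le_of_eq ?_)) 2
  simp only [norm_mul]

end Pool.Agent.H612Z.Op
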