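import Pool.Agent.H612Z.Op.EstB
import Pool.Agent.H612Z.Op.CStar

set_option autoImplicit false

open scoped ComplexConjugate InnerProductSpace
open Finsupp

namespace Pool.Agent.H612Z.Op

variable {k : ℕ}

abbrev U0 (Z : ℕ → Level k) (n W : ℕ) : Type :=
  {u : List (Al k) // u ∈ BL (BB k n (NN Z n)) ∧ u.length < 2 * W}

abbrev U1 (Z : ℕ → Level k) (n W : ℕ) : Type :=
  {u : List (Al k) // u ∈ BL (BB' k n (NN Z n)) ∧ u.length < 3 * W}

noncomputable def Ga (a : Lt k) : Unit → Unit → FA (Lt k) := fun _ _ => FreeAlgebra.ι ℂ a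

noncomputable def Gb (Z : ℕ → Level k) (n W : ℕ) (P : Fin k → FA (Gen k)) :
    U1 Z n W → U1 Z n W → FA (Lt k) :=
  fun u u' => ∑ i, ker (rho Z (P i)) u.1 u'.1 • FreeAlgebra.ι ℂ ((i, false) : Lt k)

noncomputable def Fc (Z : ℕ → Level k) (n W : ℕ) (P : Fin k → FA (Gen k)) :
    Fin k → U0 Z n W → U0 Z n W → FA (Lt k) := fun i u u' => Fu Z (P i) u.1 u'.1

noncomputable def Gd (Z : ℕ → Level k) (L : Level k) (n W : ℕ) (P : Fin k → FA (Gen k)) :
    U0 Z n W × Fin L.d → U0 Z n W × Fin L.d → FA (Lt k) :=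
  fun u u' => ∑ i, L.Y (i, false) u.2 u'.2 • Fu Z (P i) u.1.1 u'.1.1

def EvD (Z : ℕ → Level k) (L₀ : Level k) (n W : ℕ) (P : Fin k → FA (Gen k)) (A : ℝ)
    (L : Level k) : Prop :=
  KB (K1 (Gd Z L₀ n W P) (cF 0)) Set.univ A → KB (K1 (Gd Z L₀ n W P) (zL L)) Set.univ (2 * A)

structure Good (P : ℕ → Fin k → FA (Gen k)) (W : ℕ → ℕ) (A : ℝ) (m : ℕ) (Z : ℕ → Level k)
    (L : Level k) : Prop where
  ok : LevOK L
  ea : ∀ a, KB (K1 (Ga a) (cF 0)) Set.univ 2 → KB (K1 (Ga a) (zL L)) Set.univ (2 * 2)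
  eb : KB (K1 (Gb Z m (W m) (P m)) (cF 0)) Set.univ A →
    KB (K1 (Gb Z m (W m) (P m)) (zL L)) Set.univ (2 * A)
  ec : KB (K2 (Fc Z m (W m) (P m)) (cF 0) (cF 0)) Set.univ A →
    KB (K2 (Fc Z m (W m) (P m)) (zL L) (zL L)) Set.univ (2 * A)
  ed : ∀ n < m, EvD (trunc Z n) (Z n) n (W n) (P n) (6 * A) L

theorem exists_good (hk : 0 < k) (P : ℕ → Fin k → FA (Gen k)) (W : ℕ → ℕ) {A : ℝ} (hA : 1 ≤ A)
    (m : ℕ) (Z : ℕ → Level k) : ∃ L, Good P W A m Z L := by
  let R1 : Lt k ⊕ (Unit ⊕ Fin m) → Type := fun e => match e with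
    | Sum.inl _ => Unit
    | Sum.inr (Sum.inl _) => U1 Z m (W m)
    | Sum.inr (Sum.inr n) => U0 (trunc Z n) n (W n) × Fin (Z n).d
  have h1 : ∀ e, Finite (R1 e) := by
    rintro (a | a | n)
    · exact inferInstanceAs (Finite Unit)
    · exact finite_BL (finite_BB' _ _) _
    · have := finite_BL (finite_BB (k := k) n (NN (trunc Z n) n)) (2 * W n)
      exact inferInstanceAs (Finite (U0 (trunc Z n) n (W n) × Fin (Z n).d))
  let G : ∀ e, R1 e → R1 e → FA (Lt k) := fun e => match e with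
    | Sum.inl a => Ga a
    | Sum.inr (Sum.inl _) => Gb Z m (W m) (P m)
    | Sum.inr (Sum.inr n) => Gd (trunc Z n) (Z n) n (W n) (P n)
  let C1 : Lt k ⊕ (Unit ⊕ Fin m) → ℝ := fun e => match e with
    | Sum.inl _ => 2
    | Sum.inr (Sum.inl _) => A
    | Sum.inr (Sum.inr _) => 6 * A
  have hC1 : ∀ e, 1 ≤ C1 e := by
    rintro (a | a | n)
    · show (1 : ℝ) ≤ 2
      norm_num
    · exact hA
    · show 1 ≤ 6 * A
      linarith
  obtain ⟨L, hL, h, h'⟩ := SCK hk R1 h1 G C1 hC1 (fun _ : Unit => U0 Z m (W m))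
    (fun _ => finite_BL (finite_BB _ _) _) (fun _ => Fc Z m (W m) (P m)) (fun _ => A)
    (fun _ => hA)
  exact ⟨L, hL, fun a => h (Sum.inl a), h (Sum.inr (Sum.inl ())), h' (),
    fun n hn => h (Sum.inr (Sum.inr ⟨n, hn⟩))⟩

theorem ev1_ι {S : Type} (z : Lt k → En S) (a : Lt k) : ev1 z (FreeAlgebra.ι ℂ a) = z a := by
  simp [ev1]

theorem Good.norm4 {P : ℕ → Fin k → FA (Gen k)} {W : ℕ → ℕ} {A : ℝ} {m : ℕ} {Z : ℕ → Level k}
    {L : Level k} (h : Good P W A m Z L) (a : Lt k) : KB (L.Y a) Set.univ 4 := by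
  have h1 : KB (K1 (Ga a) (cF 0)) Set.univ 2 := by
    refine ((bdd_iff_KB (by norm_num)).1 (bdd_cF a)).pull (fun u => u.2) ?_ ?_ ?_
    · rintro ⟨u, v⟩ - ⟨u', v'⟩ - he
      simp only at he
      rw [he]
    · intro u _
      trivial
    · intro u _ v _
      simp [K1, Ga, ev1_ι]
  have h2 := h.ea a h1
  refine (h2.pull (fun x => ((), x)) ?_ ?_ ?_).mono (by norm_num)
  · intro x _ y _ he
    exact (Prod.mk.inj he).2
  · intro u _
    trivial
  · intro u _ v _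
    simp [K1, Ga, ev1_ι, zL, ker_mE]

theorem K1_Gb {S : Type} (Z : ℕ → Level k) (n W : ℕ) (P : Fin k → FA (Gen k)) (z : Lt k → En S)
    (u v : U1 Z n W × S) : K1 (Gb Z n W P) z u v =
      ∑ i, ker (rho Z (P i)) u.1.1 v.1.1 * ker (z (i, false)) u.2 v.2 := by
  unfold K1 Gb
  rw [map_sum, ker_sum]
  refine Finset.sum_congr rfl fun i _ => ?_
  rw [map_smul, ker_smul, ev1_ι]

theorem K1_Gd {S : Type} (Z : ℕ → Level k) (L : Level k) (n W : ℕ) (P : Fin k → FA (Gen k))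
    (z : Lt k → En S) (u v : (U0 Z n W × Fin L.d) × S) : K1 (Gd Z L n W P) z u v =
      Kz Z P (fun i => L.Y (i, false)) z ((u.1.1.1, u.2), u.1.2) ((v.1.1.1, v.2), v.1.2) := by
  unfold K1 Gd Kz
  rw [map_sum, ker_sum]
  refine Finset.sum_congr rfl fun i _ => ?_
  rw [map_smul, ker_smul, mul_comm]

theorem est_final (hk : 0 < k) {P : ℕ → Fin k → FA (Gen k)} {W : ℕ → ℕ} (hW : ∀ n, 0 < W n)
    (hL : ∀ n i, Loc (P n i) (W n)) {Y : ℕ → Level k}
    (hG : ∀ m, Good P W (10 * √(k : ℝ)) m (trunc Y m) (Y m)) {n : ℕ}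
    (hP : ∀ i, P n i ∈ adj (BB k n n)) (h5 : ∀ i, Bdd (rho Y (P n i)) 5) :
    KB (XK Y (P n) (fun i => (Y n).Y (i, false))) Set.univ (360 * √(k : ℝ)) := by
  set A : ℝ := 10 * √(k : ℝ) with hA
  have hA0 : 0 ≤ A := by positivity
  have hA' : 2 * √(k : ℝ) * 5 = A := by rw [hA]; ring
  set Z := trunc Y n with hZ
  have hN : ∀ m < n, (Z m).d ≤ NN Z n := fun m hm => d_le_NN Z hm
  have hYZ : ∀ m < n, Y m = Z m := fun m hm => (trunc_lt Y hm).symm
  have hP0 : ∀ i, P n i ∈ adj (BB k n (NN Z n)) := fun i => adj_mono (B := BB k n n) (B' := BB k n (NN Z n)) (fun ι hι =>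
    ⟨hι.1, fun x hx => lt_of_lt_of_le (hι.2 x hx) (Nat.le_add_right _ _)⟩) (hP i)
  have hP1 : ∀ i, P n i ∈ adj (BB' k n (NN Z n)) := fun i =>
    adj_mono Set.subset_union_left (hP0 i)
  have hB : Clo Y Z (BB k n (NN Z n)) := clo_BB hN hYZ
  have hK5 : ∀ i, KB (ker (rho Y (P n i))) Set.univ 5 := fun i =>
    (bdd_iff_KB (by norm_num)).1 (h5 i)
  have hag : ∀ (i : Fin k) (u u' : U1 Z n (W n)),
      ker (rho Z (P n i)) u.1 u'.1 = ker (rho Y (P n i)) u.1 u'.1 := fun i u u' =>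
    ker_agree (clo_BB' hN hYZ) (clo_BB' hN (fun _ _ => rfl)) (hP1 i) u.2.1 u'.2.1
  -- the finite window
  have hb1 : KB (K1 (Gb Z n (W n) (P n)) (cF 0)) Set.univ A := by
    have h1 : ∀ i, KB (fun u u' : U1 Z n (W n) => ker (rho Z (P n i)) u.1 u'.1) Set.univ 5 :=
      fun i => (hK5 i).pull Subtype.val Subtype.val_injective.injOn (fun _ _ => trivial)
        (fun u _ v _ => hag i u v)
    have h2 := fock_bound _ (by norm_num) h1
    rw [hA'] at h2
    exact (h2.mono_set (fun _ _ => trivial)).congr fun u _ v _ => K1_Gb Z n (W n) (P n) _ u v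
  have hb2 := (hG n).eb hb1
  have hb3 : KB (XK Y (P n) (fun i => (Y n).Y (i, false)))
      {u | u.1 ∈ BL (BB' k n (NN Z n)) ∧ u.1.length < 3 * W n} (2 * A) := by
    refine hb2.push (fun u => (u.1.1, u.2)) ?_ ?_
    · intro u hu
      exact ⟨(⟨u.1, hu⟩, u.2), trivial, rfl⟩
    · intro u _ v _
      rw [K1_Gb]
      unfold XK
      refine Finset.sum_congr rfl fun i _ => ?_
      rw [hag, zL, ker_mE]
  have hb4 := ex_window (hW n) (hL n) (by positivity) hb3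
  have e6 : 3 * (2 * A) = 6 * A := by ring
  rw [e6] at hb4
  let b0 : Lt k := (⟨0, hk⟩, false)
  have hkc := kc_bound hB hP0 b0 hb4
  have hfin := est_global (C := 12 * A) hN hYZ hP0 (hW n) (hL n) (by positivity)
    (hb4.mono (by linarith)) ?_
  · refine hfin.mono (le_of_eq ?_)
    rw [hA]; ring
  intro m hm
  rcases hm.eq_or_lt with rfl | hlt
  · -- the diagonal term
    have hκ := block_fock Y (BB k n (NN Z n)) n b0 [] (fun h => h)
      (fun a h => absurd h.1 (lt_irrefl n))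
    have h1 : ∀ i, KB (K1 (Fc Z n (W n) (P n) i) (cF 0)) Set.univ 5 := by
      intro i
      refine (hK5 i).pull (fun u => u.1.1 ++ (u.2.map (fun a => ((n, Sum.inr a) : Al k)) ++
        [(n, Sum.inr b0)])) ?_ (fun _ _ => trivial) ?_
      · rintro ⟨u, w⟩ - ⟨u', w'⟩ - he
        obtain ⟨h1, h2⟩ := block_unique u.2.1 u'.2.1 (hκ.out w) (hκ.out w') he
        obtain rfl := hκ.inj h2
        rw [Subtype.ext h1]
      · intro u _ v _
        exact (block_ker hB hκ (hP0 i) u.1.2.1 v.1.2.1 u.2 v.2).symm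
    have h2 := fock_bound _ (by norm_num) h1
    rw [hA'] at h2
    have h3 := (hG n).ec (h2.mono_set (fun _ _ => trivial))
    refine (h3.push (fun u => ((u.1.1.1, u.1.2), u.2)) ?_ ?_).mono (by linarith)
    · intro u hu
      exact ⟨((⟨u.1.1, hu⟩, u.1.2), u.2), trivial, rfl⟩
    · intro u _ v _
      unfold K2 Kz Fc
      refine Finset.sum_congr rfl fun i _ => ?_
      rw [zL, ker_mE]
  · have h1 := (hG m).ed n hlt
    rw [trunc_trunc Y hlt.le, trunc_lt Y hlt] at h1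
    have h2 : KB (K1 (Gd Z (Y n) n (W n) (P n)) (cF 0)) Set.univ (6 * A) := by
      refine hkc.pull (fun u => ((u.1.1.1, u.2), u.1.2)) ?_ ?_ ?_
      · rintro ⟨⟨u, x⟩, w⟩ - ⟨⟨u', x'⟩, w'⟩ - he
        simp only [Prod.mk.injEq] at he
        obtain ⟨⟨h1, rfl⟩, rfl⟩ := he
        rw [Subtype.ext h1]
      · intro u _
        exact u.1.1.2.1
      · intro u _ v _
        exact K1_Gd Z (Y n) n (W n) (P n) _ u v
    have h3 := h1 h2
    refine (h3.push (fun u => ((u.1.1.1, u.2), u.1.2)) ?_ ?_).mono (by linarith)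
    · intro u hu
      exact ⟨((⟨u.1.1, hu⟩, u.2), u.1.2), trivial, rfl⟩
    · intro u _ v _
      exact K1_Gd Z (Y n) n (W n) (P n) _ u v

theorem ker_y_level (Y : ℕ → Level k) (n : ℕ) (a : Lt k) (s t : Fin (Y n).d) :
    ker (rho Y (FreeAlgebra.ι ℂ (Sum.inr a))) [(n, Sum.inl (s : ℕ))] [(n, Sum.inl (t : ℕ))] =
      (Y n).Y a s t := by
  have hκ := block_mat Y ∅ n [] (fun _ h => h)
  have h1 := hκ.act a t
  unfold ker
  simp only [rho, FreeAlgebra.lift_ι_apply, lin_single, one_smul, colG]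
  rw [h1]
  exact (mapDomain_apply hκ.inj _ s).trans (ker_mE ((Y n).Y a) s t)

theorem main_k (hk : 720 ^ 2 < k) :
    ∃ (A : Type) (_ : NonUnitalCStarAlgebra A),
      TopologicalSpace.SeparableSpace A ∧
      Nontrivial A ∧
      (∀ I : TwoSidedIdeal A, IsClosed (I : Set A) → I = ⊥ ∨ I = ⊤) ∧
      (∃ a b : A, a * b ≠ b * a) ∧
      (∀ c d : A, c ≠ 0 → d ≠ 0 → ∀ ε : ℝ, 0 < ε →
        ∃ x : A, ‖star x * (star c * c) * x - star d * d‖ < ε) ∧
      IsEmpty (A ≃⋆ₐ[ℂ] Aᵐᵒᵖ) := by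
  have hk0 : 0 < k := lt_of_le_of_lt (Nat.zero_le _) hk
  obtain ⟨f, hf⟩ := exists_surjective_nat (Fin k → Code (Gen k))
  let P : ℕ → Fin k → FA (Gen k) := fun n i => code (f (Nat.unpair n).1 i)
  choose W hW hL using fun n => exists_Loc (P n)
  have hA : (1 : ℝ) ≤ 10 * √(k : ℝ) := by
    have : (1 : ℝ) ≤ √(k : ℝ) := Real.one_le_sqrt.2 (by exact_mod_cast hk0)
    linarith
  obtain ⟨Y, hG⟩ := exists_seq (Good P W (10 * √(k : ℝ))) (exists_good hk0 P W hA)
  have h4 : ∀ m a, KB ((Y m).Y a) Set.univ 4 := fun m a => (hG m).norm4 a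
  refine cstar_main (rho Y) (rho_bdd Y h4) (rho_adj Y fun m => (hG m).ok.herm) (rho_exc Y)
    (fun s => FreeAlgebra.ι ℂ (Sum.inl (Sum.inl (0, Sum.inl s))))
    (fun s t => ((0, Sum.inl s) : Al k) :: t) ?_ ?_ k hk
    (fun i => FreeAlgebra.ι ℂ (Sum.inr (i, true))) (fun i => rho_y_bdd Y h4 _) ?_
  · rintro ⟨s, t⟩ ⟨s', t'⟩ h
    simp only [Function.uncurry_apply_pair, List.cons.injEq, Prod.mk.injEq, Sum.inl.injEq,
      true_and] at h
    rw [h.1, h.2]
  · intro s t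
    simp [rho, colG, crv]
  · intro c hc
    obtain ⟨j, hj⟩ := hf c
    choose n₀ hn₀ using fun i => mem_adj_BB (code (c i))
    let n := Nat.pair j (∑ i, n₀ i)
    have hPn : ∀ i, P n i = code (c i) := fun i => by
      simp only [P, n, Nat.unpair_pair, hj]
    have hle : ∀ i, n₀ i ≤ n := fun i =>
      le_trans (Finset.single_le_sum (f := n₀) (fun _ _ => Nat.zero_le _) (Finset.mem_univ i))
        (Nat.right_le_pair _ _)
    have hfin := est_final hk0 hW hL hG (n := n)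
      (fun i => by rw [hPn]; exact hn₀ i n n (hle i) (hle i)) (fun i => by rw [hPn]; exact hc i)
    refine ⟨(Y n).d, (hG n).ok.pos, fun i => (Y n).Y (i, false),
      fun s => [(n, Sum.inl (s : ℕ))], fun i => h4 n _, fun i s t => (hG n).ok.uni _ s t, ?_, ?_⟩
    · intro i s t
      rw [ker_y_level]
      have := (hG n).ok.herm (i, false)
      rw [show bar ((i, false) : Lt k) = (i, true) from rfl] at this
      rw [this, Matrix.conjTranspose_apply]
      rfl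
    · refine hfin.congr fun u _ v _ => ?_
      unfold XK
      simp only [hPn]

end Pool.Agent.H612Z.Op
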