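import Pool.Agent.H612Z.Op.Tens

set_option autoImplicit false

open scoped ComplexConjugate InnerProductSpace
open Finsupp

namespace Pool.Agent.H612Z.Op

variable {k : ℕ}

theorem modelA_ext {I M : Type} [AddCommMonoid M] [Module ℂ M] (A B : (I →₀ ℂ) →ₗ[ℂ] M)
    (v : I →₀ ℂ) (h : ∀ i ∈ v.support, A (single i 1) = B (single i 1)) : A v = B v := by
  conv_lhs => rw [← Finsupp.sum_single v]
  conv_rhs => rw [← Finsupp.sum_single v]
  simp only [Finsupp.sum, map_sum]
  refine Finset.sum_congr rfl fun i hi => ?_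
  rw [← mul_one (v i), ← smul_eq_mul, ← Finsupp.smul_single, map_smul, map_smul, h i hi]

theorem modelA_rho_gen (Y : ℕ → Level k) (g : Gen k) :
    rho Y (FreeAlgebra.ι ℂ g) = lin (colG Y g) := by
  simp [rho]

theorem modelA_unique {B : Set (Al k)} {u u' r r' : List (Al k)} (hu : u ∈ BL B) (hu' : u' ∈ BL B)
    (hr : ∀ ι t, r = ι :: t → ι ∉ B) (hr' : ∀ ι t, r' = ι :: t → ι ∉ B)
    (h : u ++ r = u' ++ r') : u = u' ∧ r = r' := by
  induction u generalizing u' with
  | nil =>
    cases u' with
    | nil => exact ⟨rfl, h⟩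
    | cons a u' => exact absurd (hu' a (by simp)) (hr a _ h)
  | cons a u ih =>
    cases u' with
    | nil => exact absurd (hu a (by simp)) (hr' a _ h.symm)
    | cons a' u' =>
      simp only [List.cons_append, List.cons.injEq] at h
      obtain ⟨h1, h2⟩ := ih (fun ι hι => hu ι (by simp [hι])) (fun ι hι => hu' ι (by simp [hι])) h.2
      exact ⟨by rw [h.1, h1], h2⟩

theorem modelA_isF_append (m : ℕ) (a : Al k) (t r : List (Al k)) :
    isF m (a :: t ++ r) ↔ isF m (a :: t) := by
  obtain ⟨m', x | b⟩ := a <;> simp [isF]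

theorem modelA_yv_app {Y Y' : ℕ → Level k} (a : Lt k) (ι : Al k) (t r : List (Al k))
    (h1 : ∀ m x, ι = (m, Sum.inl x) → Y m = Y' m)
    (h2 : ∀ m b, ι = (m, Sum.inr b) → (isF m (t ++ r) ↔ isF m t)) :
    yv Y a (ι :: t ++ r) = mapDomain (fun v => v ++ r) (yv Y' a (ι :: t)) := by
  obtain ⟨m, x | b⟩ := ι
  · have e := h1 m x rfl
    simp only [List.cons_append, yv]
    rw [e]
    split_ifs with h
    · rw [mapDomain_finsetSum]
      simp [mapDomain_single]
    · simp
  · have e := h2 m b rfl
    simp only [List.cons_append, yv, mapDomain_add, mapDomain_single]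
    by_cases h : b = bar a ∧ isF m t
    · rw [if_pos h, if_pos ⟨h.1, e.2 h.2⟩, mapDomain_single]
    · rw [if_neg h, if_neg fun h' => h ⟨h'.1, e.1 h'.2⟩, mapDomain_zero]

theorem modelA_col_app {Y Y' : ℕ → Level k} {B : Set (Al k)} (hB : Clo Y Y' B) {g : Gen k}
    (hg : genIn B g) {u r : List (Al k)} (hu : u ∈ BL B) (hr : ∀ ι t, r = ι :: t → ι ∉ B)
    (hne : u = [] → ∀ a, g ≠ Sum.inr a) :
    colG Y g (u ++ r) = mapDomain (fun v => v ++ r) (colG Y' g u) := by
  rcases g with (ι | ι) | a
  · simp [colG, crv, mapDomain_single]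
  · cases u with
    | nil =>
      cases r with
      | nil => simp [colG, anv]
      | cons ι' t =>
        have : ι' ≠ ι := fun e => hr ι' t rfl (e ▸ hg)
        simp [colG, anv, this]
    | cons ι' u =>
      simp only [colG, anv, List.cons_append]
      split_ifs <;> simp [mapDomain_single]
  · cases u with
    | nil => exact absurd rfl (hne rfl a)
    | cons ι t =>
      refine modelA_yv_app a ι t r (fun m x e => hB.agree m x (e ▸ hu ι (by simp))) fun m b e => ?_
      cases t with
      | nil =>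
        have hb : (m, Sum.inr b) ∈ B := e ▸ hu ι (by simp)
        rcases r with _ | ⟨⟨m', x | b'⟩, r⟩
        · simp
        · simp [isF]
        · simp only [List.nil_append, isF, iff_false]
          rintro rfl
          exact hr _ _ rfl (hB.foc _ _ _ hb)
      | cons c t => exact modelA_isF_append m c t r

theorem modelA_col_supp {Y Y' : ℕ → Level k} {B : Set (Al k)} (hB : Clo Y Y' B) {g : Gen k}
    (hg : genIn B g) {u : List (Al k)} (hu : u ∈ BL B) :
    colG Y' g u ∈ supported ℂ ℂ (BL B) := by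
  have cons : ∀ {ι : Al k} {t : List (Al k)}, ι ∈ B → t ∈ BL B → ι :: t ∈ BL B := by
    intro ι t h1 h2 c hc
    rcases List.mem_cons.1 hc with rfl | hc
    · exact h1
    · exact h2 c hc
  have tail : ∀ {ι : Al k} {t : List (Al k)}, ι :: t ∈ BL B → t ∈ BL B :=
    fun h c hc => h c (List.mem_cons_of_mem _ hc)
  rcases g with (ι | ι) | a
  · exact single_mem_supported ℂ _ (cons hg hu)
  · cases u with
    | nil => exact zero_mem _
    | cons ι' u =>
      simp only [colG, anv]
      split_ifs
      · exact single_mem_supported ℂ _ (tail hu)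
      · exact zero_mem _
  · rcases u with _ | ⟨⟨m, x | b⟩, t⟩
    · exact zero_mem _
    · simp only [colG, yv]
      split_ifs with h
      · exact Submodule.sum_mem _ fun x' _ => single_mem_supported ℂ _
          (cons (hB.mat m x x' (hu _ (by simp)) h x'.2) (tail hu))
      · exact zero_mem _
    · simp only [colG, yv]
      refine add_mem (single_mem_supported ℂ _ (cons (hB.foc m b a (hu _ (by simp))) hu)) ?_
      split_ifs
      · exact single_mem_supported ℂ _ (tail hu)
      · exact zero_mem _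

/-- transfer from the universal model to a block -/
noncomputable def modelA_Phi {S : Type} (κ : S → List (Al k)) (z : Lt k → En S) (s' : S) :
    (List (Al k) →₀ FA (Lt k)) →ₗ[ℂ] (List (Al k) →₀ ℂ) :=
  Finsupp.lsum ℂ fun u => (lmapDomain ℂ ℂ fun s => u ++ κ s) ∘ₗ
    (LinearMap.applyₗ (single s' (1 : ℂ))) ∘ₗ (ev1 z).toLinearMap

theorem modelA_Phi_single {S : Type} (κ : S → List (Al k)) (z : Lt k → En S) (s' : S)
    (u : List (Al k)) (f : FA (Lt k)) :
    modelA_Phi κ z s' (single u f) = mapDomain (fun s => u ++ κ s) (ev1 z f (single s' 1)) := by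
  simp [modelA_Phi]

theorem modelA_uG_inl (Y : ℕ → Level k) (g : Al k ⊕ Al k) (u : List (Al k)) (f : FA (Lt k)) :
    uG Y (Sum.inl g) (single u f) = (colG Y (Sum.inl g) u).sum fun u' c => c • single u' f := by
  simp only [uG, add_zero, lsum_single]
  simp [Finsupp.sum]

theorem modelA_uG_inr (Y : ℕ → Level k) (a : Lt k) (u : List (Al k)) (f : FA (Lt k)) :
    uG Y (Sum.inr a) (single u f) = ((colG Y (Sum.inr a) u).sum fun u' c => c • single u' f) +
      single [] (FreeAlgebra.ι ℂ a * (single u f : List (Al k) →₀ FA (Lt k)) []) := by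
  simp only [uG, LinearMap.add_apply, lsum_single]
  simp [Finsupp.sum]

theorem modelA_gen {Y Y' : ℕ → Level k} {B : Set (Al k)} (hB : Clo Y Y' B) {S : Type}
    {κ : S → List (Al k)} {z : Lt k → En S} (hκ : IsBlock Y B κ z) (s' : S) {g : Gen k}
    (hg : genIn B g) {u : List (Al k)} (hu : u ∈ BL B) (f : FA (Lt k)) :
    uG Y' g (single u f) ∈ supported (FA (Lt k)) ℂ (BL B) ∧
      lin (colG Y g) (modelA_Phi κ z s' (single u f)) =
        modelA_Phi κ z s' (uG Y' g (single u f)) := by
  have hs : ((colG Y' g u).sum fun u' c => c • single u' f) ∈ supported (FA (Lt k)) ℂ (BL B) :=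
    Submodule.sum_mem _ fun u' hu' => Submodule.smul_mem _ _
      (single_mem_supported ℂ _ ((mem_supported ℂ _).1 (modelA_col_supp hB hg hu) hu'))
  have main : (u = [] → ∀ a, g ≠ Sum.inr a) → lin (colG Y g) (modelA_Phi κ z s' (single u f)) =
      modelA_Phi κ z s' ((colG Y' g u).sum fun u' c => c • single u' f) := by
    intro hne
    rw [modelA_Phi_single]
    simp only [Finsupp.sum, map_sum, map_smul, modelA_Phi_single]
    generalize ev1 z f (single s' 1) = v
    have := modelA_ext ((lin (colG Y g)) ∘ₗ lmapDomain ℂ ℂ fun s => u ++ κ s)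
      (∑ u' ∈ (colG Y' g u).support, colG Y' g u u' • lmapDomain ℂ ℂ fun s => u' ++ κ s) v ?_
    · simpa using this
    · intro s _
      simp only [LinearMap.comp_apply, lmapDomain_apply, mapDomain_single, lin_single, one_smul,
        LinearMap.coe_sum, Finset.sum_apply, LinearMap.smul_apply, smul_single, smul_eq_mul,
        mul_one]
      rw [modelA_col_app hB hg hu (hκ.out s) hne]
      rfl
  rcases g with g | a
  · rw [modelA_uG_inl]
    exact ⟨hs, main fun _ a => by simp⟩
  · rw [modelA_uG_inr]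
    refine ⟨add_mem hs (single_mem_supported ℂ _ fun ι hι => by simp at hι), ?_⟩
    by_cases h : u = []
    · subst h
      simp only [colG, yv, sum_zero_index, zero_add, single_eq_same, modelA_Phi_single,
        List.nil_append, map_mul]
      have e : ev1 z (FreeAlgebra.ι ℂ a) = z a := by simp [ev1]
      rw [e, Module.End.mul_apply]
      generalize ev1 z f (single s' 1) = v
      have := modelA_ext ((lin (yv Y a)) ∘ₗ lmapDomain ℂ ℂ κ) ((lmapDomain ℂ ℂ κ) ∘ₗ z a) v ?_
      · simpa using this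
      · intro s _
        simp [mapDomain_single, hκ.act]
    · rw [single_eq_of_ne (Ne.symm h), mul_zero, single_zero, add_zero]
      exact main fun e => absurd e h

theorem modelA_main {Y Y' : ℕ → Level k} {B : Set (Al k)} (hB : Clo Y Y' B) {S : Type}
    {κ : S → List (Al k)} {z : Lt k → En S} (hκ : IsBlock Y B κ z) (s' : S) {p : FA (Gen k)}
    (hp : p ∈ adj B) : ∀ G ∈ supported (FA (Lt k)) ℂ (BL B),
      univ' Y' p G ∈ supported (FA (Lt k)) ℂ (BL B) ∧
        rho Y p (modelA_Phi κ z s' G) = modelA_Phi κ z s' (univ' Y' p G) := by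
  induction hp using Algebra.adjoin_induction with
  | mem x hx =>
    obtain ⟨g, hg, rfl⟩ := hx
    intro G hG
    have e : univ' Y' (FreeAlgebra.ι ℂ g) = uG Y' g := by simp [univ']
    rw [e, modelA_rho_gen, ← Finsupp.sum_single G]
    simp only [Finsupp.sum, map_sum]
    exact ⟨Submodule.sum_mem _ fun u hu =>
      (modelA_gen hB hκ s' hg ((mem_supported ℂ _).1 hG hu) _).1,
      Finset.sum_congr rfl fun u hu => (modelA_gen hB hκ s' hg ((mem_supported ℂ _).1 hG hu) _).2⟩
  | algebraMap r =>
    intro G hG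
    simp only [AlgHom.commutes, Module.algebraMap_end_apply, map_smul, and_true]
    exact Submodule.smul_mem _ _ hG
  | add x y _ _ hx hy =>
    intro G hG
    simp only [map_add, LinearMap.add_apply]
    exact ⟨add_mem (hx G hG).1 (hy G hG).1, by rw [(hx G hG).2, (hy G hG).2]⟩
  | mul x y _ _ hx hy =>
    intro G hG
    simp only [map_mul, Module.End.mul_apply]
    exact ⟨(hx _ (hy G hG).1).1, by rw [(hy G hG).2, (hx _ (hy G hG).1).2]⟩

theorem modelA_formula {Y Y' : ℕ → Level k} {B : Set (Al k)} (hB : Clo Y Y' B) {S : Type}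
    {κ : S → List (Al k)} {z : Lt k → En S} (hκ : IsBlock Y B κ z) {p : FA (Gen k)}
    (hp : p ∈ adj B) {u' : List (Al k)} (hu' : u' ∈ BL B) (s' : S) :
    ∃ F : Finset (List (Al k)), (∀ u ∈ F, u ∈ BL B) ∧ (∀ u, u ∉ F → Fu Y' p u u' = 0) ∧
      rho Y p (single (u' ++ κ s') 1) =
        ∑ u ∈ F, mapDomain (fun s => u ++ κ s) (ev1 z (Fu Y' p u u') (single s' 1)) := by
  obtain ⟨h1, h2⟩ := modelA_main hB hκ s' hp (single u' 1) (single_mem_supported ℂ _ hu')
  refine ⟨(univ' Y' p (single u' 1)).support, fun u hu => (mem_supported ℂ _).1 h1 hu,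
    fun u hu => notMem_support_iff.1 hu, ?_⟩
  rw [modelA_Phi_single, map_one, Module.End.one_apply, mapDomain_single] at h2
  rw [h2]
  conv_lhs => rw [← Finsupp.sum_single (univ' Y' p (single u' 1))]
  simp only [Finsupp.sum, map_sum, modelA_Phi_single, Fu]

theorem modelA_block_ker {Y Y' : ℕ → Level k} {B : Set (Al k)} (hB : Clo Y Y' B) {S : Type}
    {κ : S → List (Al k)} {z : Lt k → En S} (hκ : IsBlock Y B κ z) {p : FA (Gen k)}
    (hp : p ∈ adj B) {u u' : List (Al k)} (hu : u ∈ BL B) (hu' : u' ∈ BL B) (s s' : S) :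
    ker (rho Y p) (u ++ κ s) (u' ++ κ s') = ker (ev1 z (Fu Y' p u u')) s s' := by
  obtain ⟨F, h1, h2, h3⟩ := modelA_formula hB hκ hp hu' s'
  unfold ker
  rw [h3, Finsupp.finsetSum_apply, Finset.sum_eq_single u]
  · exact mapDomain_apply (f := fun s => u ++ κ s)
      (fun a b h => hκ.inj (List.append_cancel_left h)) _ s
  · intro l hl hne
    refine mapDomain_of_notMem_range _ _ ?_
    rintro ⟨a, ha⟩
    exact hne (modelA_unique (h1 l hl) hu (hκ.out a) (hκ.out s) ha).1
  · intro h
    simp [h2 u h]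

theorem modelA_block_inv {Y Y' : ℕ → Level k} {B : Set (Al k)} (hB : Clo Y Y' B) {S : Type}
    {κ : S → List (Al k)} {z : Lt k → En S} (hκ : IsBlock Y B κ z) {p : FA (Gen k)}
    (hp : p ∈ adj B) {u' : List (Al k)} (hu' : u' ∈ BL B) (s' : S) {l : List (Al k)}
    (h : ker (rho Y p) l (u' ++ κ s') ≠ 0) : ∃ u ∈ BL B, ∃ s, l = u ++ κ s := by
  obtain ⟨F, h1, -, h3⟩ := modelA_formula hB hκ hp hu' s'
  unfold ker at h
  rw [h3, Finsupp.finsetSum_apply] at h
  obtain ⟨u, hu, hne⟩ := Finset.exists_ne_zero_of_sum_ne_zero h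
  by_contra hc
  refine hne (mapDomain_of_notMem_range _ _ ?_)
  rintro ⟨a, ha⟩
  exact hc ⟨u, h1 u hu, a, ha.symm⟩

theorem modelA_col_len (Y : ℕ → Level k) (g : Gen k) (l l' : List (Al k))
    (h : colG Y g l' l ≠ 0) : l.length ≤ l'.length + 2 ∧ l'.length ≤ l.length + 2 := by
  have key : colG Y g l' ∈ supported ℂ ℂ
      {l : List (Al k) | l.length ≤ l'.length + 2 ∧ l'.length ≤ l.length + 2} := by
    rcases g with (ι | ι) | a
    · exact single_mem_supported ℂ _ (by simp; omega)
    · cases l' with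
      | nil => exact zero_mem _
      | cons ι' u =>
        simp only [colG, anv]
        split_ifs
        · exact single_mem_supported ℂ _ (by simp; omega)
        · exact zero_mem _
    · rcases l' with _ | ⟨⟨m, x | b⟩, t⟩
      · exact zero_mem _
      · simp only [colG, yv]
        split_ifs with h
        · exact Submodule.sum_mem _ fun x' _ => single_mem_supported ℂ _ (by simp; omega)
        · exact zero_mem _
      · simp only [colG, yv]
        refine add_mem (single_mem_supported ℂ _ (by simp; omega)) ?_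
        split_ifs
        · exact single_mem_supported ℂ _ (by simp; omega)
        · exact zero_mem _
  exact (mem_supported ℂ _).1 key (mem_support_iff.2 h)

theorem modelA_col_loc (Y : ℕ → Level k) (g : Gen k) (u t : List (Al k)) (hu : 2 ≤ u.length) :
    colG Y g (u ++ t) = mapDomain (fun v => v ++ t) (colG Y g u) := by
  rcases u with _ | ⟨ι', _ | ⟨c, u⟩⟩
  · simp at hu
  · simp at hu
  rcases g with (ι | ι) | a
  · simp [colG, crv, mapDomain_single]
  · simp only [colG, anv, List.cons_append]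
    split_ifs <;> simp [mapDomain_single]
  · exact modelA_yv_app a ι' (c :: u) t (fun _ _ _ => rfl) fun m _ _ => modelA_isF_append m c u t

theorem modelA_local (p : FA (Gen k)) : ∃ W : ℕ, 0 < W ∧ ∀ Y : ℕ → Level k,
    (∀ l l', ker (rho Y p) l l' ≠ 0 → l.length ≤ l'.length + W ∧ l'.length ≤ l.length + W) ∧
    ∀ u t : List (Al k), W ≤ u.length →
      rho Y p (single (u ++ t) 1) = mapDomain (fun v => v ++ t) (rho Y p (single u 1)) := by
  induction p using FreeAlgebra.induction with
  | grade0 r =>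
    refine ⟨1, one_pos, fun Y => ⟨fun l l' h => ?_, fun u t _ => ?_⟩⟩
    · have : l' = l := by
        by_contra hne
        simp [ker, Module.algebraMap_end_apply, single_eq_of_ne (Ne.symm hne)] at h
      subst this; omega
    · simp [Module.algebraMap_end_apply, mapDomain_single]
  | grade1 g =>
    refine ⟨2, two_pos, fun Y => ⟨fun l l' h => ?_, fun u t hu => ?_⟩⟩
    · rw [modelA_rho_gen, ker_lin] at h
      exact modelA_col_len Y g l l' h
    · simp only [modelA_rho_gen, lin_single, one_smul]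
      exact modelA_col_loc Y g u t hu
  | mul a b ha hb =>
    obtain ⟨W1, h1, ha⟩ := ha
    obtain ⟨W2, h2, hb⟩ := hb
    refine ⟨W1 + W2, by omega, fun Y => ⟨fun l l' h => ?_, fun u t hu => ?_⟩⟩
    · rw [map_mul, ker_mul _ _ _ _ _ (Finset.Subset.refl _)] at h
      obtain ⟨m, -, hm⟩ := Finset.exists_ne_zero_of_sum_ne_zero h
      have e1 := (ha Y).1 l m (left_ne_zero_of_mul hm)
      have e2 := (hb Y).1 m l' (right_ne_zero_of_mul hm)
      omega
    · rw [map_mul, Module.End.mul_apply, Module.End.mul_apply, (hb Y).2 u t (by omega)]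
      have := modelA_ext ((rho Y a) ∘ₗ lmapDomain ℂ ℂ fun v => v ++ t)
        ((lmapDomain ℂ ℂ fun v => v ++ t) ∘ₗ rho Y a) (rho Y b (single u 1)) ?_
      · simpa using this
      · intro m hm
        have e2 := (hb Y).1 m u (mem_support_iff.1 hm)
        simp only [LinearMap.comp_apply, lmapDomain_apply, mapDomain_single]
        exact (ha Y).2 m t (by omega)
  | add a b ha hb =>
    obtain ⟨W1, h1, ha⟩ := ha
    obtain ⟨W2, h2, hb⟩ := hb
    refine ⟨W1 + W2, by omega, fun Y => ⟨fun l l' h => ?_, fun u t hu => ?_⟩⟩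
    · rw [map_add, ker_add] at h
      by_cases h' : ker (rho Y a) l l' = 0
      · rw [h', zero_add] at h
        have := (hb Y).1 l l' h
        omega
      · have := (ha Y).1 l l' h'
        omega
    · rw [map_add, LinearMap.add_apply, LinearMap.add_apply, (ha Y).2 u t (by omega),
        (hb Y).2 u t (by omega), mapDomain_add]

theorem modelA_mem_adj_BB (p : FA (Gen k)) :
    ∃ n₀ : ℕ, ∀ n N, n₀ ≤ n → n₀ ≤ N → p ∈ adj (BB k n N) := by
  have hι : ∀ ι : Al k, ∃ n₀ : ℕ, ∀ n N, n₀ ≤ n → n₀ ≤ N → ι ∈ BB k n N := by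
    rintro ⟨m, x | b⟩
    · refine ⟨m + x + 1, fun n N h1 h2 => ⟨by simp; omega, fun y hy => ?_⟩⟩
      simp only [Sum.inl.injEq] at hy
      omega
    · exact ⟨m + 1, fun n N h1 h2 => ⟨by simp; omega, fun y hy => by simp at hy⟩⟩
  induction p using FreeAlgebra.induction with
  | grade0 r => exact ⟨0, fun n N _ _ => Subalgebra.algebraMap_mem _ r⟩
  | grade1 g =>
    rcases g with (ι | ι) | a
    · obtain ⟨n₀, h⟩ := hι ι
      exact ⟨n₀, fun n N h1 h2 => Algebra.subset_adjoin ⟨Sum.inl (Sum.inl ι), h n N h1 h2, rfl⟩⟩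
    · obtain ⟨n₀, h⟩ := hι ι
      exact ⟨n₀, fun n N h1 h2 => Algebra.subset_adjoin ⟨Sum.inl (Sum.inr ι), h n N h1 h2, rfl⟩⟩
    · exact ⟨0, fun n N _ _ => Algebra.subset_adjoin ⟨Sum.inr a, trivial, rfl⟩⟩
  | mul a b ha hb =>
    obtain ⟨n1, ha⟩ := ha
    obtain ⟨n2, hb⟩ := hb
    exact ⟨n1 + n2, fun n N h1 h2 => mul_mem (ha n N (by omega) (by omega))
      (hb n N (by omega) (by omega))⟩
  | add a b ha hb =>
    obtain ⟨n1, ha⟩ := ha
    obtain ⟨n2, hb⟩ := hb
    exact ⟨n1 + n2, fun n N h1 h2 => add_mem (ha n N (by omega) (by omega))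
      (hb n N (by omega) (by omega))⟩

end Pool.Agent.H612Z.Op
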