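import Pool.Agent.H612Z.Op.Finner
import Pool.Agent.H612Z.Op.Count

set_option autoImplicit false

namespace Pool.Agent.H612Z.Op

open Finset

theorem RM_pow {ι : Type} [Fintype ι] [DecidableEq ι] (M : Matrix ι ι ℂ) (m : ℕ) (a b : ι) :
    (M ^ m) a b = ∑ z : Fin (m + 1) → ι,
      if z 0 = a ∧ z (Fin.last m) = b then ∏ s : Fin m, M (z s.castSucc) (z s.succ) else 0 := by
  induction m generalizing a with
  | zero =>
    rw [pow_zero, Matrix.one_apply, Finset.sum_eq_single (fun _ => a)]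
    · simp
    · intro z _ hz
      rw [if_neg]
      rintro ⟨h, _⟩
      apply hz
      funext i
      rw [← h]
      congr 1
      omega
    · simp
  | succ m ih =>
    have hs : ∀ F : (Fin (m + 1 + 1) → ι) → ℂ, ∑ z, F z =
        ∑ c : ι, ∑ z : Fin (m + 1) → ι, F (Fin.cons c z) := by
      intro F
      rw [← (Fin.consEquiv fun _ : Fin (m + 1 + 1) => ι).sum_comp, Fintype.sum_prod_type]
      rfl
    rw [hs, Finset.sum_eq_single a]
    · rw [pow_succ', Matrix.mul_apply]
      simp only [ih, Finset.mul_sum]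
      rw [Finset.sum_comm]
      refine Finset.sum_congr rfl fun z _ => ?_
      rw [Finset.sum_eq_single (z 0)]
      · have e2 : (Fin.cons a z : Fin (m + 1 + 1) → ι) (Fin.last (m + 1)) = z (Fin.last m) := rfl
        rw [Fin.cons_zero, e2, Fin.prod_univ_succ]
        by_cases h : z (Fin.last m) = b
        · rw [if_pos ⟨rfl, h⟩, if_pos ⟨rfl, h⟩]
          rfl
        · rw [if_neg (fun hh => h hh.2), if_neg (fun hh => h hh.2), mul_zero]
      · intro c _ hc
        rw [if_neg (fun hh => hc hh.1.symm), mul_zero]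
      · simp
    · intro c _ hc
      refine Finset.sum_eq_zero fun z _ => ?_
      rw [if_neg]
      rintro ⟨h, _⟩
      exact hc h
    · simp

/-- families over two legs -/
def RM_eqv {m : ℕ} (X : Bool × Fin m → Type) :
    (∀ β, X β) ≃ (∀ s : Fin m, X (false, s) × X (true, s)) where
  toFun A s := (A (false, s), A (true, s))
  invFun B β := match β with
    | (false, s) => (B s).1
    | (true, s) => (B s).2
  left_inv A := by
    funext β
    obtain ⟨b, s⟩ := β
    cases b <;> rfl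
  right_inv B := rfl

theorem RM_bool_prod {m : ℕ} (X : Bool × Fin m → Type) [∀ β, Fintype (X β)]
    [Fintype (∀ β, X β)] (F : ∀ s : Fin m, X (false, s) → X (true, s) → ℂ) :
    ∏ s, ∑ x, ∑ y, F s x y = ∑ A : (∀ β, X β), ∏ s, F s (A (false, s)) (A (true, s)) := by
  have h : ∀ s, ∑ x, ∑ y, F s x y = ∑ u : X (false, s) × X (true, s), F s u.1 u.2 := fun s =>
    (Fintype.sum_prod_type' _).symm
  simp only [h]
  rw [Fintype.prod_sum, ← (RM_eqv X).sum_comp]
  rfl

theorem RM_char_sum {q : ℕ} [NeZero q] {P : Type} (t : Finset P) (f : P → ZMod q) :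
    ∏ p ∈ t, ZMod.stdAddChar (f p) = ZMod.stdAddChar (∑ p ∈ t, f p) := by
  classical
  induction t using Finset.induction_on with
  | empty => simp
  | insert a t ha ih => rw [prod_insert ha, sum_insert ha, ih, AddChar.map_add_eq_mul]

theorem RM_xi_norm {k d q : ℕ} [NeZero q] (ω : Fin k × Fin d × Fin d → ZMod q) (a : Lt k)
    (x x' : Fin d) : ‖xi ω a x x'‖ = 1 := by
  unfold xi
  split_ifs <;> simp [ZMod.stdAddChar_apply]

theorem RM_xi_add {k d q : ℕ} [NeZero q] (ω δ : Fin k × Fin d × Fin d → ZMod q) (a : Lt k)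
    (x x' : Fin d) : xi (ω + δ) a x x' = xi ω a x x' * xi δ a x x' := by
  unfold xi
  split_ifs
  · rw [← AddChar.map_add_eq_mul, Pi.add_apply, neg_add]
  · rw [← AddChar.map_add_eq_mul, Pi.add_apply]

theorem RM_omega {k d q : ℕ} [NeZero q] {P : Type} [Fintype P] (hP : Fintype.card P < q)
    (a : P → Lt k) (src tgt : P → Fin d)
    (h : ∑ ω : Fin k × Fin d × Fin d → ZMod q, ∏ p, xi ω (a p) (src p) (tgt p) ≠ 0) :
    ∃ π : P → P, (∀ p, π (π p) = p) ∧ (∀ p, a (π p) = bar (a p)) ∧ ∀ p, src (π p) = tgt p := by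
  classical
  let v : P → Fin k × Fin d × Fin d := fun p =>
    if (a p).2 = true then ((a p).1, tgt p, src p) else ((a p).1, src p, tgt p)
  have hcount : ∀ v0, (univ.filter fun p => (a p).2 = false ∧ v p = v0).card =
      (univ.filter fun p => (a p).2 = true ∧ v p = v0).card := by
    intro v0
    let δ : Fin k × Fin d × Fin d → ZMod q := Pi.single v0 1
    have h1 : ∑ ω : Fin k × Fin d × Fin d → ZMod q, ∏ p, xi ω (a p) (src p) (tgt p) =
        (∑ ω : Fin k × Fin d × Fin d → ZMod q, ∏ p, xi ω (a p) (src p) (tgt p)) *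
          ∏ p, xi δ (a p) (src p) (tgt p) := by
      rw [Finset.sum_mul, ← Equiv.sum_comp (Equiv.addRight δ)
        (fun ω => ∏ p, xi ω (a p) (src p) (tgt p))]
      refine Finset.sum_congr rfl fun ω _ => ?_
      rw [← Finset.prod_mul_distrib]
      refine Finset.prod_congr rfl fun p _ => ?_
      exact RM_xi_add ω δ _ _ _
    have h2 : ∏ p, xi δ (a p) (src p) (tgt p) = 1 := by
      have := mul_left_cancel₀ h ((mul_one _).trans h1)
      exact this.symm
    have h3 : ∀ p, xi δ (a p) (src p) (tgt p) = ZMod.stdAddChar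
        ((if (a p).2 = false ∧ v p = v0 then (1 : ZMod q) else 0) -
          (if (a p).2 = true ∧ v p = v0 then (1 : ZMod q) else 0)) := by
      intro p
      unfold xi
      by_cases hb : (a p).2 = true
      · simp only [v, δ, hb, if_true, Pi.single_apply]
        simp
      · have hb' : (a p).2 = false := by simpa using hb
        simp only [v, δ, hb', Pi.single_apply]
        simp
    simp only [h3] at h2
    rw [RM_char_sum, Finset.sum_sub_distrib, Finset.sum_boole, Finset.sum_boole] at h2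
    have h4 := ZMod.injective_stdAddChar (h2.trans (AddChar.map_zero_eq_one _).symm)
    rw [sub_eq_zero, ZMod.natCast_eq_natCast_iff'] at h4
    rwa [Nat.mod_eq_of_lt (lt_of_le_of_lt (Finset.card_le_univ _) hP),
      Nat.mod_eq_of_lt (lt_of_le_of_lt (Finset.card_le_univ _) hP)] at h4
  have hfib : ∀ v0, Nonempty ({x : {p // (a p).2 = false} // v x.1 = v0} ≃
      {x : {p // (a p).2 = true} // v x.1 = v0}) := by
    intro v0
    refine ⟨(Equiv.subtypeSubtypeEquivSubtypeInter (fun p => (a p).2 = false)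
      (fun p => v p = v0)).trans ((Fintype.equivOfCardEq ?_).trans
        (Equiv.subtypeSubtypeEquivSubtypeInter (fun p => (a p).2 = true)
          (fun p => v p = v0)).symm)⟩
    rw [Fintype.card_subtype, Fintype.card_subtype]
    exact hcount v0
  let e : {p // (a p).2 = false} ≃ {p // (a p).2 = true} :=
    Equiv.ofFiberEquiv (f := fun x => v x.1) (g := fun x => v x.1) fun c => (hfib c).some
  have he : ∀ x, v (e x).1 = v x.1 := fun x =>
    Equiv.ofFiberEquiv_map (f := fun x : {p // (a p).2 = false} => v x.1)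
      (g := fun x : {p // (a p).2 = true} => v x.1) (fun c => (hfib c).some) x
  have key : ∀ x : {p // (a p).2 = false}, (a (e x).1).1 = (a x.1).1 ∧ tgt (e x).1 = src x.1 ∧
      src (e x).1 = tgt x.1 := by
    intro x
    have h1 := he x
    simp only [v, (e x).2, x.2, if_true, Bool.false_eq_true, if_false, Prod.mk.injEq] at h1
    exact h1
  let π : P → P := fun p =>
    if hp : (a p).2 = true then (e.symm ⟨p, hp⟩).1 else (e ⟨p, by simpa using hp⟩).1
  have hπ1 : ∀ x : {p // (a p).2 = false}, π x.1 = (e x).1 := by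
    intro x
    have : ¬ (a x.1).2 = true := by simp [x.2]
    simp only [π, dif_neg this]
  have hπ2 : ∀ x : {p // (a p).2 = false}, π (e x).1 = x.1 := by
    intro x
    simp only [π, dif_pos (e x).2]
    simp
  have hcase : ∀ p, (∃ x : {p // (a p).2 = false}, p = x.1) ∨
      ∃ x : {p // (a p).2 = false}, p = (e x).1 := by
    intro p
    by_cases hp : (a p).2 = true
    · exact Or.inr ⟨e.symm ⟨p, hp⟩, by simp⟩
    · exact Or.inl ⟨⟨p, by simpa using hp⟩, rfl⟩
  refine ⟨π, ?_, ?_, ?_⟩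
  · intro p
    rcases hcase p with ⟨x, rfl⟩ | ⟨x, rfl⟩
    · rw [hπ1, hπ2]
    · rw [hπ2, hπ1]
  · intro p
    rcases hcase p with ⟨x, rfl⟩ | ⟨x, rfl⟩
    · rw [hπ1]
      exact Prod.ext (key x).1 (by simp [bar, (e x).2, x.2])
    · rw [hπ2]
      exact Prod.ext (key x).1.symm (by simp [bar, (e x).2, x.2])
  · intro p
    rcases hcase p with ⟨x, rfl⟩ | ⟨x, rfl⟩
    · rw [hπ1]; exact (key x).2.2
    · rw [hπ2]; exact (key x).2.1.symm

/-- end point and non-backtracking conditions -/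
def RM_ok {k m : ℕ} {len : Bool × Fin m → ℕ} {D : Type} (z : Fin (m + 1) → D × D)
    (A : ∀ β : Bool × Fin m, Fin (len β) → Lt k)
    (Γ : ∀ β : Bool × Fin m, Fin (len β + 1) → D) : Prop :=
  ∀ s : Fin m,
    (Γ (false, s) 0 = (z s.castSucc).1 ∧ Γ (false, s) (Fin.last _) = (z s.succ).1 ∧
      NBc (A (false, s)) (Γ (false, s))) ∧
    (Γ (true, s) 0 = (z s.castSucc).2 ∧ Γ (true, s) (Fin.last _) = (z s.succ).2 ∧
      NBc (A (true, s)) (Γ (true, s)))

open Classical in
theorem RM_NB {k d q m : ℕ} [NeZero q] (ω : Fin k × Fin d × Fin d → ZMod q)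
    (len : Bool × Fin m → ℕ) (z : Fin (m + 1) → Fin d × Fin d)
    (A : ∀ β : Bool × Fin m, Fin (len β) → Lt k) :
    ∏ s : Fin m, (NB ω (A (false, s)) (z s.castSucc).1 (z s.succ).1 *
      NB ω (A (true, s)) (z s.castSucc).2 (z s.succ).2) =
    ∑ Γ : (∀ β : Bool × Fin m, Fin (len β + 1) → Fin d), if RM_ok z A Γ then
      ∏ p : Pos len, xi ω (A p.1 p.2) (Γ p.1 p.2.castSucc) (Γ p.1 p.2.succ) else 0 := by
  unfold NB
  simp only [Finset.sum_mul_sum]
  rw [RM_bool_prod (fun β => Fin (len β + 1) → Fin d)]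
  refine Finset.sum_congr rfl fun Γ _ => ?_
  by_cases h : RM_ok z A Γ
  · rw [if_pos h, Fintype.prod_sigma, Fintype.prod_prod_type, Fintype.prod_bool, mul_comm,
      ← Finset.prod_mul_distrib]
    refine Finset.prod_congr rfl fun s _ => ?_
    rw [if_pos (h s).1, if_pos (h s).2]
  · rw [if_neg h]
    unfold RM_ok at h
    obtain ⟨s, hs⟩ := not_forall.1 h
    refine Finset.prod_eq_zero (Finset.mem_univ s) ?_
    rcases not_and_or.1 hs with h1 | h1
    · rw [if_neg h1, zero_mul]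
    · rw [if_neg h1, mul_zero]

open Classical in
theorem RM_inner {k d q m J : ℕ} [NeZero q] (hq : 2 * m * J < q)
    (len : Bool × Fin m → ℕ) (hlen : ∀ β, len β ≤ J) (z : Fin (m + 1) → Fin d × Fin d)
    (A : ∀ β : Bool × Fin m, Fin (len β) → Lt k)
    (Γ : ∀ β : Bool × Fin m, Fin (len β + 1) → Fin d) :
    ‖∑ ω : Fin k × Fin d × Fin d → ZMod q, if RM_ok z A Γ then
      ∏ p : Pos len, xi ω (A p.1 p.2) (Γ p.1 p.2.castSucc) (Γ p.1 p.2.succ) else 0‖ ≤
    (Fintype.card (Fin k × Fin d × Fin d → ZMod q) : ℝ) *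
      ∑ π : Pos len → Pos len, if PairOK π ∧ WalkOK π z Γ then
        (if (∀ p : Pos len, A (π p).1 (π p).2 = bar (A p.1 p.2)) then (1 : ℝ) else 0) else 0 := by
  have hnn : ∀ π : Pos len → Pos len, (0 : ℝ) ≤ if PairOK π ∧ WalkOK π z Γ then
        (if (∀ p : Pos len, A (π p).1 (π p).2 = bar (A p.1 p.2)) then (1 : ℝ) else 0) else 0 := by
    intro π
    split_ifs <;> norm_num
  have hz : (0 : ℝ) ≤ (Fintype.card (Fin k × Fin d × Fin d → ZMod q) : ℝ) *
      ∑ π : Pos len → Pos len, if PairOK π ∧ WalkOK π z Γ then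
        (if (∀ p : Pos len, A (π p).1 (π p).2 = bar (A p.1 p.2)) then (1 : ℝ) else 0) else 0 :=
    mul_nonneg (Nat.cast_nonneg _) (Finset.sum_nonneg fun π _ => hnn π)
  by_cases h : RM_ok z A Γ
  · simp only [if_pos h]
    by_cases h0 : ∑ ω : Fin k × Fin d × Fin d → ZMod q,
      ∏ p : Pos len, xi ω (A p.1 p.2) (Γ p.1 p.2.castSucc) (Γ p.1 p.2.succ) = 0
    · rw [h0, norm_zero]; exact hz
    · have hc : Fintype.card (Pos len) < q := by
        refine lt_of_le_of_lt ?_ hq
        rw [Fintype.card_sigma]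
        simp only [Fintype.card_fin]
        refine (Finset.sum_le_card_nsmul _ _ J fun β _ => hlen β).trans ?_
        simp
      obtain ⟨π, h1, h2, h3⟩ := RM_omega hc (fun p : Pos len => A p.1 p.2)
        (fun p => Γ p.1 p.2.castSucc) (fun p => Γ p.1 p.2.succ) h0
      have hP : PairOK π := by
        refine ⟨h1, ?_, ?_⟩
        · intro p hp
          have := h2 p
          rw [hp] at this
          exact bar_ne _ this.symm
        · intro β t ht hp
          have hN : NBc (A β) (Γ β) := by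
            obtain ⟨b, s⟩ := β
            cases b
            · exact (h s).1.2.2
            · exact (h s).2.2.2
          have e2 := h2 ⟨β, ⟨t, by omega⟩⟩
          rw [hp] at e2
          have e3 := h3 ⟨β, ⟨t + 1, ht⟩⟩
          rw [← hp, h1, hp] at e3
          exact hN t ht e2 e3.symm
      have hW : WalkOK π z Γ :=
        ⟨fun s => ⟨(h s).1.1, (h s).1.2.1, (h s).2.1, (h s).2.2.1⟩, h3⟩
      refine (norm_sum_le _ _).trans ?_
      have hone : ∀ ω : Fin k × Fin d × Fin d → ZMod q,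
          ‖∏ p : Pos len, xi ω (A p.1 p.2) (Γ p.1 p.2.castSucc) (Γ p.1 p.2.succ)‖ = 1 := by
        intro ω
        rw [norm_prod]
        simp only [RM_xi_norm, Finset.prod_const_one]
      simp only [hone, Finset.sum_const, Finset.card_univ, nsmul_eq_mul]
      refine mul_le_mul_of_nonneg_left ?_ (Nat.cast_nonneg _)
      refine le_trans (le_of_eq ?_) (Finset.single_le_sum (fun π _ => hnn π) (Finset.mem_univ π))
      rw [if_pos ⟨hP, hW⟩, if_pos h2]
  · simp only [if_neg h, Finset.sum_const_zero, norm_zero]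
    exact hz

open Classical in
theorem RM_fixed {k d q m J : ℕ} [NeZero q] (hk : 0 < k) (hq : 2 * m * J < q)
    (hd : (((2 * k) ^ J) ^ 2 * (2 * m * J + 2) * 4 ^ J) ^ 3 ≤ d)
    (len : Bool × Fin m → ℕ) (hlen : ∀ β, len β ≤ J)
    (a : ∀ s : Fin m, (Fin (len (false, s)) → Lt k) → (Fin (len (true, s)) → Lt k) → ℂ)
    {C : ℝ} (hC : 0 ≤ C) (ha : ∀ s, ∑ w, ∑ w', ‖a s w w'‖ ^ 2 ≤ C ^ 2) :
    ∑ z : Fin (m + 1) → Fin d × Fin d, ‖∑ ω : Fin k × Fin d × Fin d → ZMod q,
      ∏ s : Fin m, ∑ w, ∑ w', a s w w' * NB ω w (z s.castSucc).1 (z s.succ).1 *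
        NB ω w' (z s.castSucc).2 (z s.succ).2 /
          ((√(d : ℝ) : ℝ) : ℂ) ^ (len (false, s) + len (true, s))‖ ≤
      (Fintype.card (Fin k × Fin d × Fin d → ZMod q) : ℝ) *
        ((((2 * k : ℝ)) ^ J * (d : ℝ) ^ 2 * ((J : ℝ) + 2) ^ (2 * m)) * C ^ m) := by
  have hK : 1 ≤ (2 * k) ^ J := Nat.one_le_pow _ _ (by omega)
  have hd0 : 0 < d := lt_of_lt_of_le (by positivity) hd
  have hs : (0 : ℝ) < √(d : ℝ) := Real.sqrt_pos.2 (by exact_mod_cast hd0)
  set L : ℕ := ∑ β, len β with hL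
  set N : ℝ := (Fintype.card (Fin k × Fin d × Fin d → ZMod q) : ℝ) with hN
  have hN0 : 0 ≤ N := Nat.cast_nonneg _
  have hLs : ∏ s : Fin m, ((√(d : ℝ) : ℝ) : ℂ) ^ (len (false, s) + len (true, s)) =
      ((√(d : ℝ) : ℝ) : ℂ) ^ L := by
    rw [Finset.prod_pow_eq_pow_sum, hL, Fintype.sum_prod_type, Fintype.sum_bool, add_comm,
      ← Finset.sum_add_distrib]
  haveI : Nonempty (Lt k) := ⟨(⟨0, hk⟩, false)⟩
  -- expansion
  have hexp : ∀ (z : Fin (m + 1) → Fin d × Fin d),
      ∑ ω : Fin k × Fin d × Fin d → ZMod q,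
      ∏ s : Fin m, ∑ w, ∑ w', a s w w' * NB ω w (z s.castSucc).1 (z s.succ).1 *
        NB ω w' (z s.castSucc).2 (z s.succ).2 /
          ((√(d : ℝ) : ℝ) : ℂ) ^ (len (false, s) + len (true, s)) =
      ∑ A : (∀ β : Bool × Fin m, Fin (len β) → Lt k),
        ∑ Γ : (∀ β : Bool × Fin m, Fin (len β + 1) → Fin d),
          ((∏ s, a s (A (false, s)) (A (true, s))) / ((√(d : ℝ) : ℝ) : ℂ) ^ L) *
            ∑ ω : Fin k × Fin d × Fin d → ZMod q, if RM_ok z A Γ then
              ∏ p : Pos len, xi ω (A p.1 p.2) (Γ p.1 p.2.castSucc) (Γ p.1 p.2.succ) else 0 := by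
    intro z
    have h1 : ∀ ω : Fin k × Fin d × Fin d → ZMod q,
        ∏ s : Fin m, ∑ w, ∑ w', a s w w' * NB ω w (z s.castSucc).1 (z s.succ).1 *
        NB ω w' (z s.castSucc).2 (z s.succ).2 /
          ((√(d : ℝ) : ℝ) : ℂ) ^ (len (false, s) + len (true, s)) =
        ∑ A : (∀ β : Bool × Fin m, Fin (len β) → Lt k),
        ∑ Γ : (∀ β : Bool × Fin m, Fin (len β + 1) → Fin d),
          ((∏ s, a s (A (false, s)) (A (true, s))) / ((√(d : ℝ) : ℝ) : ℂ) ^ L) *
            if RM_ok z A Γ then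
              ∏ p : Pos len, xi ω (A p.1 p.2) (Γ p.1 p.2.castSucc) (Γ p.1 p.2.succ) else 0 := by
      intro ω
      rw [RM_bool_prod (fun β => Fin (len β) → Lt k)]
      refine Finset.sum_congr rfl fun A _ => ?_
      rw [← Finset.mul_sum, ← RM_NB, Finset.prod_div_distrib, hLs]
      simp only [mul_assoc]
      rw [Finset.prod_mul_distrib]
      ring
    simp only [h1]
    rw [Finset.sum_comm]
    refine Finset.sum_congr rfl fun A _ => ?_
    rw [Finset.sum_comm]
    refine Finset.sum_congr rfl fun Γ _ => ?_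
    rw [Finset.mul_sum]
  simp only [hexp]
  -- bound for each z
  have hz : ∀ (z : Fin (m + 1) → Fin d × Fin d),
      ‖∑ A : (∀ β : Bool × Fin m, Fin (len β) → Lt k),
        ∑ Γ : (∀ β : Bool × Fin m, Fin (len β + 1) → Fin d),
          ((∏ s, a s (A (false, s)) (A (true, s))) / ((√(d : ℝ) : ℝ) : ℂ) ^ L) *
            ∑ ω : Fin k × Fin d × Fin d → ZMod q, if RM_ok z A Γ then
              ∏ p : Pos len, xi ω (A p.1 p.2) (Γ p.1 p.2.castSucc) (Γ p.1 p.2.succ) else 0‖ ≤
      N * C ^ m / √(d : ℝ) ^ L * ∑ π : Pos len → Pos len,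
        ∑ Γ : (∀ β : Bool × Fin m, Fin (len β + 1) → Fin d),
          if PairOK π ∧ WalkOK π z Γ then (((2 * k) ^ J : ℕ) : ℝ) ^ badN π else 0 := by
    intro z
    refine (norm_sum_le _ _).trans ?_
    refine (Finset.sum_le_sum fun A _ => norm_sum_le _ _).trans ?_
    have h2 : ∀ (A : ∀ β : Bool × Fin m, Fin (len β) → Lt k)
        (Γ : ∀ β : Bool × Fin m, Fin (len β + 1) → Fin d),
        ‖((∏ s, a s (A (false, s)) (A (true, s))) / ((√(d : ℝ) : ℝ) : ℂ) ^ L) *
            ∑ ω : Fin k × Fin d × Fin d → ZMod q, if RM_ok z A Γ then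
              ∏ p : Pos len, xi ω (A p.1 p.2) (Γ p.1 p.2.castSucc) (Γ p.1 p.2.succ) else 0‖ ≤
        ∑ π : Pos len → Pos len, N / √(d : ℝ) ^ L * (if PairOK π ∧ WalkOK π z Γ then
          (if (∀ p : Pos len, A (π p).1 (π p).2 = bar (A p.1 p.2)) then
            ∏ s, ‖a s (A (false, s)) (A (true, s))‖ else 0) else 0) := by
      intro A Γ
      rw [norm_mul, norm_div, norm_prod, norm_pow, Complex.norm_real, Real.norm_of_nonneg hs.le]
      refine (mul_le_mul_of_nonneg_left (RM_inner hq len hlen z A Γ) (by positivity)).trans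
        (le_of_eq ?_)
      rw [Finset.mul_sum, Finset.mul_sum]
      refine Finset.sum_congr rfl fun π _ => ?_
      split_ifs <;> ring
    refine (Finset.sum_le_sum fun A _ => Finset.sum_le_sum fun Γ _ => h2 A Γ).trans ?_
    rw [Finset.sum_comm]
    rw [Finset.sum_comm (s := (univ : Finset (Pos len → Pos len))), Finset.mul_sum]
    refine Finset.sum_le_sum fun Γ _ => ?_
    rw [Finset.sum_comm, Finset.mul_sum]
    refine Finset.sum_le_sum fun π _ => ?_
    rw [← Finset.mul_sum]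
    by_cases hc : PairOK π ∧ WalkOK π z Γ
    · simp only [if_pos hc]
      have h3 := letter_sum (Λ := Lt k) bar bar_bar len hlen π hc.1
        (fun s w w' => ‖a s w w'‖) (fun s w w' => norm_nonneg _) hC ha
      have h4 : ((Fintype.card (Lt k) : ℝ)) ^ J = (((2 * k) ^ J : ℕ) : ℝ) := by
        simp [mul_comm]
      rw [h4] at h3
      calc _ ≤ N / √(d : ℝ) ^ L * (C ^ m * (((2 * k) ^ J : ℕ) : ℝ) ^ badN π) := by
            refine mul_le_mul_of_nonneg_left ?_ (by positivity)
            refine le_trans (le_of_eq (Finset.sum_congr rfl fun A _ => ?_)) h3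
            congr
        _ = _ := by ring
    · simp only [if_neg hc, Finset.sum_const_zero, mul_zero, le_refl]
  refine (Finset.sum_le_sum fun z _ => hz z).trans ?_
  rw [← Finset.mul_sum, Finset.sum_comm]
  have h5 := walk_count (d := d) hK len hlen hd
  calc _ ≤ N * C ^ m / √(d : ℝ) ^ L * ((((2 * k) ^ J : ℕ) : ℝ) * (d : ℝ) ^ 2 * √(d : ℝ) ^ L *
        ((J : ℝ) + 2) ^ (2 * m)) := by
        refine mul_le_mul_of_nonneg_left ?_ (by positivity)
        exact h5
    _ = _ := by
        push_cast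
        field_simp

theorem trace_moment {k d q m J : ℕ} [NeZero q] (hk : 0 < k) (hq : 2 * m * J < q)
    (hd : (((2 * k) ^ J) ^ 2 * (2 * m * J + 2) * 4 ^ J) ^ 3 ≤ d)
    {R : Type} [Fintype R] [DecidableEq R]
    (α : R → R → (j j' : Fin (J + 1)) → (Fin j → Lt k) → (Fin j' → Lt k) → ℂ)
    {C : ℝ} (hC : 0 ≤ C) (hα : ∀ r r' j j', ∑ w, ∑ w', ‖α r r' j j' w w'‖ ^ 2 ≤ C ^ 2) :
    ‖∑ ω : Fin k × Fin d × Fin d → ZMod q, Matrix.trace (SM α ω ^ m)‖ ≤
      (Fintype.card (Fin k × Fin d × Fin d → ZMod q) : ℝ) *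
        ((Fintype.card R : ℝ) ^ (m + 1) * ((J : ℝ) + 1) ^ (2 * m) *
          (((2 * k : ℝ)) ^ J * (d : ℝ) ^ 2 * ((J : ℝ) + 2) ^ (2 * m)) * C ^ m) := by
  have h1 : ∀ ω : Fin k × Fin d × Fin d → ZMod q, Matrix.trace (SM α ω ^ m) =
      ∑ z : Fin (m + 1) → R × (Fin d × Fin d), if z (Fin.last m) = z 0 then
        ∏ s : Fin m, SM α ω (z s.castSucc) (z s.succ) else 0 := by
    intro ω
    simp only [Matrix.trace, Matrix.diag_apply, RM_pow]
    rw [Finset.sum_comm]
    refine Finset.sum_congr rfl fun z _ => ?_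
    rw [Finset.sum_eq_single (z 0)]
    · simp
    · intro c _ hc
      rw [if_neg (fun hh => hc hh.1.symm)]
    · simp
  simp only [h1]
  rw [Finset.sum_comm]
  refine (norm_sum_le _ _).trans ?_
  have h2 : ∀ z : Fin (m + 1) → R × (Fin d × Fin d),
      ‖∑ ω : Fin k × Fin d × Fin d → ZMod q, if z (Fin.last m) = z 0 then
        ∏ s : Fin m, SM α ω (z s.castSucc) (z s.succ) else 0‖ ≤
      ∑ jj : Bool × Fin m → Fin (J + 1), ‖∑ ω : Fin k × Fin d × Fin d → ZMod q,
        ∏ s : Fin m, ∑ w, ∑ w', α (z s.castSucc).1 (z s.succ).1 (jj (false, s)) (jj (true, s)) w w' *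
          NB ω w (z s.castSucc).2.1 (z s.succ).2.1 * NB ω w' (z s.castSucc).2.2 (z s.succ).2.2 /
          ((√(d : ℝ) : ℝ) : ℂ) ^ ((jj (false, s) : ℕ) + (jj (true, s) : ℕ))‖ := by
    intro z
    by_cases hz : z (Fin.last m) = z 0
    · simp only [if_pos hz]
      refine le_trans (le_of_eq ?_) (norm_sum_le _ _)
      rw [Finset.sum_comm]
      congr 1
      refine Finset.sum_congr rfl fun ω _ => ?_
      unfold SM
      rw [RM_bool_prod (fun _ => Fin (J + 1))]
    · simp only [if_neg hz, Finset.sum_const_zero, norm_zero]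
      exact Finset.sum_nonneg fun _ _ => norm_nonneg _
  refine (Finset.sum_le_sum fun z _ => h2 z).trans ?_
  rw [← (Equiv.arrowProdEquivProdArrow (Fin (m + 1)) (fun _ => R)
    (fun _ => Fin d × Fin d)).symm.sum_comp, Fintype.sum_prod_type]
  have h3 : ∀ r : Fin (m + 1) → R, ∀ jj : Bool × Fin m → Fin (J + 1), _ := fun r jj =>
    RM_fixed (q := q) hk hq hd (fun β => (jj β : ℕ)) (fun β => Nat.lt_succ_iff.1 (jj β).2)
      (fun s => α (r s.castSucc) (r s.succ) (jj (false, s)) (jj (true, s))) hC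
      (fun s => hα _ _ _ _)
  calc _ ≤ ∑ r : Fin (m + 1) → R, ∑ jj : Bool × Fin m → Fin (J + 1),
        (Fintype.card (Fin k × Fin d × Fin d → ZMod q) : ℝ) *
        ((((2 * k : ℝ)) ^ J * (d : ℝ) ^ 2 * ((J : ℝ) + 2) ^ (2 * m)) * C ^ m) := by
        refine Finset.sum_le_sum fun r _ => ?_
        rw [Finset.sum_comm]
        refine Finset.sum_le_sum fun jj _ => ?_
        exact h3 r jj
    _ = _ := by
        simp only [Finset.sum_const, Finset.card_univ, nsmul_eq_mul, Fintype.card_fun,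
          Fintype.card_fin, Fintype.card_prod, Fintype.card_bool]
        push_cast
        ring

end Pool.Agent.H612Z.Op
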