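import Pool.Agent.H612Z.Op.SCB
import Pool.Agent.H612Z.Op.RM

set_option autoImplicit false
set_option maxHeartbeats 400000

open scoped ComplexConjugate InnerProductSpace
open Finsupp

namespace Pool.Agent.H612Z.Op

theorem poly_le_exp (c p : ℕ) : ∃ N0, ∀ M, N0 ≤ M → c * (M + 1) ^ p ≤ 2 ^ M := by
  have h := (tendsto_pow_const_div_const_pow_of_one_lt p (r := 2) one_lt_two).comp
    (Filter.tendsto_add_atTop_nat 1)
  have hpos : (0 : ℝ) < 1 / (2 * (c + 1)) := by positivity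
  obtain ⟨N0, hN⟩ := Filter.eventually_atTop.1 (h.eventually (gt_mem_nhds hpos))
  refine ⟨N0, fun M hM => ?_⟩
  have h1 := hN M hM
  simp only [Function.comp] at h1
  rw [div_lt_div_iff₀ (by positivity) (by positivity), pow_succ (2 : ℝ) M] at h1
  have h2 : (c : ℝ) * ((M + 1 : ℕ) : ℝ) ^ p ≤ 2 ^ M := by
    have h3 : (0 : ℝ) ≤ ((M + 1 : ℕ) : ℝ) ^ p := by positivity
    nlinarith
  exact_mod_cast h2

theorem len_pow {R : Type} {k : ℕ} (T : En (R × (List (Lt k) × List (Lt k)))) (L : ℕ)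
    (h : ∀ u v, ker T u v ≠ 0 → u.2.1.length ≤ v.2.1.length + L ∧ u.2.2.length ≤ v.2.2.length + L)
    (s : ℕ) : ∀ u v, ker (T ^ s) u v ≠ 0 →
      u.2.1.length ≤ v.2.1.length + s * L ∧ u.2.2.length ≤ v.2.2.length + s * L := by
  classical
  induction s with
  | zero =>
    intro u v huv
    rw [pow_zero, ker_one] at huv
    have : u = v := by
      by_contra hc
      exact huv (if_neg hc)
    subst this
    simp
  | succ s ih =>
    intro u v huv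
    rw [pow_succ, ker_mul _ _ _ _ _ subset_rfl] at huv
    obtain ⟨l, -, hl⟩ := Finset.exists_ne_zero_of_sum_ne_zero huv
    have h1 := ih u l (left_ne_zero_of_mul hl)
    have h2 := h l v (right_ne_zero_of_mul hl)
    have e : (s + 1) * L = s * L + L := by ring
    omega

theorem ker_pow_eq {I : Type} [Fintype I] [DecidableEq I] (T : En I) (A : Matrix I I ℂ)
    (h : ∀ i j, ker T i j = A i j) (n : ℕ) : ∀ i j, ker (T ^ n) i j = (A ^ n) i j := by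
  induction n with
  | zero =>
    intro i j
    rw [pow_zero, pow_zero, ker_one, Matrix.one_apply]
    congr
  | succ n ih =>
    intro i j
    rw [pow_succ, pow_succ, ker_mul _ _ _ _ Finset.univ (Finset.subset_univ _), Matrix.mul_apply]
    exact Finset.sum_congr rfl fun l _ => by rw [ih, h]

theorem trace_eq_HS {I : Type} [Fintype I] [DecidableEq I] (T : En I) (hT : IsAdj T T)
    (A : Matrix I I ℂ) (h : ∀ i j, ker T i j = A i j) (M : ℕ) :
    Matrix.trace (A ^ (2 * M)) = ((∑ i, ∑ j, ‖ker (T ^ M) i j‖ ^ 2 : ℝ) : ℂ) := by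
  rw [two_mul, pow_add, Matrix.trace]
  push_cast
  refine Finset.sum_congr rfl fun i _ => ?_
  rw [Matrix.diag_apply, Matrix.mul_apply]
  refine Finset.sum_congr rfl fun j _ => ?_
  rw [← ker_pow_eq T A h M, ← ker_pow_eq T A h M, hT.pow M j i, Complex.mul_conj,
    Complex.normSq_eq_norm_sq]
  push_cast
  rfl

theorem numeric_bound {c ρ J K s M : ℕ} {C : ℝ} (hC : 1 ≤ C) (hc : c ≤ ρ)
    (hs : 8 * ρ * (J + 2) ^ 4 ≤ 4 ^ s) :
    (c : ℝ) ^ (2 * M + 1) * ((J : ℝ) + 1) ^ (2 * (2 * M)) *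
      ((K : ℝ) * ((2 ^ M : ℕ) : ℝ) ^ 2 * ((J : ℝ) + 2) ^ (2 * (2 * M))) *
        (2 * C ^ (2 * s)) ^ (2 * M) ≤
      ((ρ : ℝ) * K / 4 ^ M) * (((2 * C) ^ 2) ^ (s * M)) ^ 2 := by
  have hc' : (c : ℝ) ≤ ρ := by exact_mod_cast hc
  have hs' : 8 * (ρ : ℝ) * ((J : ℝ) + 2) ^ 4 ≤ 4 ^ s := by exact_mod_cast hs
  have hC0 : 0 ≤ C := le_trans zero_le_one hC
  have h1 : (c : ℝ) ^ (2 * M + 1) ≤ (ρ : ℝ) ^ (2 * M + 1) := pow_le_pow_left₀ (by positivity) hc' _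
  have h2 : ((J : ℝ) + 1) ^ (2 * (2 * M)) ≤ ((J : ℝ) + 2) ^ (2 * (2 * M)) :=
    pow_le_pow_left₀ (by positivity) (by linarith) _
  have h3 : (2 * (ρ : ℝ) * ((J : ℝ) + 2) ^ 4) ^ (2 * M) ≤ ((4 : ℝ) ^ s / 4) ^ (2 * M) :=
    pow_le_pow_left₀ (by positivity) (by linarith) _
  calc (c : ℝ) ^ (2 * M + 1) * ((J : ℝ) + 1) ^ (2 * (2 * M)) *
      ((K : ℝ) * ((2 ^ M : ℕ) : ℝ) ^ 2 * ((J : ℝ) + 2) ^ (2 * (2 * M))) *
        (2 * C ^ (2 * s)) ^ (2 * M)
      ≤ (ρ : ℝ) ^ (2 * M + 1) * ((J : ℝ) + 2) ^ (2 * (2 * M)) *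
      ((K : ℝ) * ((2 ^ M : ℕ) : ℝ) ^ 2 * ((J : ℝ) + 2) ^ (2 * (2 * M))) *
        (2 * C ^ (2 * s)) ^ (2 * M) := by gcongr
    _ = (ρ : ℝ) * K * 4 ^ M * (C ^ (2 * s)) ^ (2 * M) *
        (2 * (ρ : ℝ) * ((J : ℝ) + 2) ^ 4) ^ (2 * M) := by
        have e1 : ((2 ^ M : ℕ) : ℝ) ^ 2 = 4 ^ M := by
          push_cast
          rw [← pow_mul, mul_comm M 2, pow_mul]
          norm_num
        have e2 : (((J : ℝ) + 2) ^ 4) ^ (2 * M) =
            ((J : ℝ) + 2) ^ (2 * (2 * M)) * ((J : ℝ) + 2) ^ (2 * (2 * M)) := by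
          rw [← pow_mul, ← pow_add]
          congr 1
          ring
        rw [e1, mul_pow, mul_pow, mul_pow, e2, pow_succ (ρ : ℝ)]
        ring
    _ ≤ (ρ : ℝ) * K * 4 ^ M * (C ^ (2 * s)) ^ (2 * M) * ((4 : ℝ) ^ s / 4) ^ (2 * M) := by gcongr
    _ = ((ρ : ℝ) * K / 4 ^ M) * (((2 * C) ^ 2) ^ (s * M)) ^ 2 := by
        have e1 : (((2 * C) ^ 2) ^ (s * M)) ^ 2 =
            ((4 : ℝ) ^ s) ^ (2 * M) * (C ^ (2 * s)) ^ (2 * M) := by
          rw [mul_pow, mul_pow, mul_pow, ← pow_mul, ← pow_mul, ← pow_mul, ← pow_mul, ← pow_mul,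
            ← pow_mul, show (4 : ℝ) = 2 ^ 2 by norm_num, ← pow_mul]
          congr 1 <;> congr 1 <;> ring
        have e2 : (4 : ℝ) ^ (2 * M) = 4 ^ M * 4 ^ M := by rw [two_mul, pow_add]
        rw [e1, div_pow, e2]
        field_simp

theorem SC0 {k : ℕ} (hk : 0 < k) {E : Type} [Fintype E] (R : E → Type) [∀ e, Fintype (R e)]
    (x : ∀ e, FA (GR (R e) k)) (C : E → ℝ) (hC : ∀ e, 1 ≤ C e)
    (hx : ∀ e, Bdd (ev2 (cF 0) (cF 0) (x e)) (C e)) :
    ∃ L : Level k, LevOK L ∧ ∀ e, Bdd (ev2 (zL L) (zL L) (x e)) (2 * C e) := by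
  classical
  have hC0 : ∀ e, 0 ≤ C e := fun e => le_trans zero_le_one (hC e)
  choose x' hx' using fun e => ev2_adj (x e)
  choose L hL using fun e => ev2_cF_len (x' e * x e)
  set ρ : ℕ := ∑ e, Fintype.card (R e) with hρ
  set L0 : ℕ := ∑ e, L e with hL0
  have hρe : ∀ e, Fintype.card (R e) ≤ ρ := fun e =>
    Finset.single_le_sum (f := fun e => Fintype.card (R e)) (fun _ _ => Nat.zero_le _)
      (Finset.mem_univ e)
  have hLe : ∀ e, L e ≤ L0 := fun e =>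
    Finset.single_le_sum (f := L) (fun _ _ => Nat.zero_le _) (Finset.mem_univ e)
  obtain ⟨a, ha⟩ := poly_le_exp (8 * ρ * (L0 + 2) ^ 4) 4
  set s : ℕ := 2 ^ a with hs
  set J : ℕ := s * L0 with hJ
  have hs4 : 8 * ρ * (J + 2) ^ 4 ≤ 4 ^ s := by
    have h1 := ha s (Nat.lt_two_pow_self).le
    have h2 : J + 2 ≤ (L0 + 2) * (s + 1) := by rw [hJ]; nlinarith
    calc 8 * ρ * (J + 2) ^ 4 ≤ 8 * ρ * ((L0 + 2) * (s + 1)) ^ 4 := by gcongr
      _ = 8 * ρ * (L0 + 2) ^ 4 * (s + 1) ^ 4 := by ring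
      _ ≤ 2 ^ s := h1
      _ ≤ 4 ^ s := Nat.pow_le_pow_left (by norm_num) _
  choose CT hCT0 hCT using fun e => ev2_cF_sub ((x' e * x e) ^ s)
  set K : ℕ := (2 * k) ^ J with hK
  obtain ⟨r1, hr1⟩ := poly_le_exp ((K ^ 2 * (4 * J + 2) * 4 ^ J) ^ 3) 3
  obtain ⟨r2, hr2⟩ := poly_le_exp (⌈∑ e, CT e⌉₊ + (Fintype.card E * ρ * K + 1)) 0
  set M : ℕ := 2 ^ (r1 + r2) with hM
  have hM1 : r1 + r2 ≤ M := (Nat.lt_two_pow_self).le
  set d : ℕ := 2 ^ M with hd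
  have hd0 : 0 < d := by positivity
  have hdR : (0 : ℝ) < d := by exact_mod_cast hd0
  have hd1 : (K ^ 2 * (2 * (2 * M) * J + 2) * 4 ^ J) ^ 3 ≤ d := by
    have h1 := hr1 M (by omega)
    have h2 : 2 * (2 * M) * J + 2 ≤ (4 * J + 2) * (M + 1) := by nlinarith
    calc (K ^ 2 * (2 * (2 * M) * J + 2) * 4 ^ J) ^ 3
        ≤ (K ^ 2 * ((4 * J + 2) * (M + 1)) * 4 ^ J) ^ 3 := by gcongr
      _ = (K ^ 2 * (4 * J + 2) * 4 ^ J) ^ 3 * (M + 1) ^ 3 := by ring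
      _ ≤ d := h1
  have hd2 := hr2 M (by omega)
  rw [pow_zero, mul_one] at hd2
  have hd3 : ∀ e, CT e ≤ d := fun e => by
    have h1 : CT e ≤ ∑ e, CT e :=
      Finset.single_le_sum (f := CT) (fun e _ => hCT0 e) (Finset.mem_univ e)
    have h2 : ((⌈∑ e, CT e⌉₊ : ℕ) : ℝ) ≤ d := by
      exact_mod_cast le_trans (Nat.le_add_right _ _) hd2
    exact h1.trans ((Nat.le_ceil _).trans h2)
  have hd4 : (Fintype.card E : ℝ) * ((ρ : ℝ) * K / 4 ^ M) < 1 := by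
    have h1 : Fintype.card E * ρ * K < 4 ^ M :=
      lt_of_lt_of_le (by omega : Fintype.card E * ρ * K < 2 ^ M)
        (Nat.pow_le_pow_left (by norm_num) _)
    have h2 : ((Fintype.card E * ρ * K : ℕ) : ℝ) < ((4 ^ M : ℕ) : ℝ) := by exact_mod_cast h1
    push_cast at h2
    rw [← mul_div_assoc, div_lt_one (by positivity), ← mul_assoc]
    exact h2
  set q : ℕ := 2 * (2 * M) * J + 1 with hq
  haveI : NeZero q := ⟨by omega⟩
  have hθ : ‖(1 / (d : ℂ))‖ = 1 / (d : ℝ) := by simp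
  have hθ1 : ‖(1 / (d : ℂ))‖ ≤ 1 := by
    rw [hθ, div_le_one hdR]
    exact_mod_cast hd0
  -- the Fock side
  have hF : ∀ e, Bdd (ev2 (cF (1 / (d : ℂ))) (cF (1 / (d : ℂ))) ((x' e * x e) ^ s))
      (2 * C e ^ (2 * s)) := by
    intro e
    have h1 := hx' e _ _ (cF 0) (cF 0) cF_adj cF_adj
    have h2 : Bdd (ev2 (cF 0) (cF 0) ((x' e * x e) ^ s)) ((C e * C e) ^ s) := by
      rw [map_pow, map_mul]
      exact (Bdd.mul (hC0 e) (h1.bdd (hC0 e) (hx e)) (hx e)).pow (mul_nonneg (hC0 e) (hC0 e)) s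
    have h3 := (hCT e _ hθ1).add h2
    have e0 : ∀ S T : En (R e × (List (Lt k) × List (Lt k))), S - T + T = S := fun S T =>
      LinearMap.ext fun v => by simp
    rw [e0] at h3
    refine h3.mono ?_
    have h4 : CT e * ‖(1 / (d : ℂ))‖ ≤ 1 := by
      rw [hθ, mul_one_div, div_le_one hdR]
      exact hd3 e
    have h5 : 1 ≤ C e ^ (2 * s) := one_le_pow₀ (hC e)
    rw [← pow_two, ← pow_mul]
    linarith
  have hlen : ∀ e u r', ker (ev2 (cF (1 / (d : ℂ))) (cF (1 / (d : ℂ))) ((x' e * x e) ^ s)) u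
      (r', ([], [])) ≠ 0 → u.2.1.length ≤ J ∧ u.2.2.length ≤ J := by
    intro e u r' h
    rw [map_pow] at h
    have h1 := len_pow _ (L e) (hL e _) s u _ h
    have h2 : s * L e ≤ J := Nat.mul_le_mul_left _ (hLe e)
    simp only [List.length_nil, zero_add] at h1
    omega
  have hzadj : ∀ (ω : Fin k × Fin d × Fin d → ZMod q) (a : Lt k),
      IsAdj (zw ω (bar a)) (zw ω a) := by
    intro ω a
    have h1 : Ym ω (bar a) = (Ym ω a).conjTranspose := (lev_ok ω hd0).herm a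
    rw [zw, zw, h1]
    exact isAdj_mE _
  have hadj : ∀ (ω : Fin k × Fin d × Fin d → ZMod q) e,
      IsAdj (ev2 (zw ω) (zw ω) (x' e)) (ev2 (zw ω) (zw ω) (x e)) :=
    fun ω e => hx' e _ _ _ _ (hzadj ω) (hzadj ω)
  have hsa : ∀ (ω : Fin k × Fin d × Fin d → ZMod q) e,
      IsAdj (ev2 (zw ω) (zw ω) (x' e * x e)) (ev2 (zw ω) (zw ω) (x' e * x e)) := by
    intro ω e
    rw [map_mul]
    exact (hadj ω e).symm.mul (hadj ω e)
  let HS : (Fin k × Fin d × Fin d → ZMod q) → E → ℝ := fun ω e =>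
    ∑ i, ∑ j, ‖ker (ev2 (zw ω) (zw ω) ((x' e * x e) ^ s) ^ M) i j‖ ^ 2
  let B : E → ℝ := fun e => (((2 * C e) ^ 2) ^ (s * M)) ^ 2
  have hB : ∀ e, 0 < B e := fun e => by
    have := hC e
    simp only [B]
    positivity
  have hHS0 : ∀ ω e, 0 ≤ HS ω e := fun ω e => by
    simp only [HS]
    positivity
  have hsum : ∀ e, ∑ ω, HS ω e ≤ (Fintype.card (Fin k × Fin d × Fin d → ZMod q) : ℝ) *
      (((ρ : ℝ) * K / 4 ^ M) * B e) := by
    intro e
    have h1 := trace_moment (k := k) (d := d) (q := q) (m := 2 * M) (J := J) hk (by omega) hd1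
      (coefA J (ev2 (cF (1 / (d : ℂ))) (cF (1 / (d : ℂ))) ((x' e * x e) ^ s)))
      (C := 2 * C e ^ (2 * s)) (by have := hC0 e; positivity) (coefA_le J (hF e))
    have h2 : ∀ ω : Fin k × Fin d × Fin d → ZMod q, Matrix.trace
        (SM (coefA J (ev2 (cF (1 / (d : ℂ))) (cF (1 / (d : ℂ))) ((x' e * x e) ^ s))) ω ^ (2 * M)) =
        ((HS ω e : ℝ) : ℂ) := by
      intro ω
      refine trace_eq_HS _ ?_ _ (ker_eq_SM ω hd0 _ J (hlen e)) M
      rw [map_pow]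
      exact (hsa ω e).pow s
    simp only [h2] at h1
    rw [← Complex.ofReal_sum, Complex.norm_real, Real.norm_eq_abs] at h1
    refine (le_abs_self _).trans (h1.trans ?_)
    refine mul_le_mul_of_nonneg_left ?_ (Nat.cast_nonneg _)
    have h3 := numeric_bound (K := K) (M := M) (hC e) (hρe e) hs4
    have e1 : ((2 * k : ℝ)) ^ J = (K : ℝ) := by rw [hK]; push_cast; rfl
    rw [e1]
    exact h3
  have hex : ∃ ω, ∀ e, HS ω e ≤ B e := by
    by_contra hc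
    push Not at hc
    have h1 : ∀ ω, (1 : ℝ) ≤ ∑ e, HS ω e / B e := by
      intro ω
      obtain ⟨e, he⟩ := hc ω
      refine le_trans ?_ (Finset.single_le_sum (f := fun e => HS ω e / B e)
        (fun e _ => div_nonneg (hHS0 ω e) (hB e).le) (Finset.mem_univ e))
      exact (one_le_div (hB e)).2 he.le
    have h2 : (Fintype.card (Fin k × Fin d × Fin d → ZMod q) : ℝ) ≤
        ∑ ω, ∑ e, HS ω e / B e := by
      refine le_trans (le_of_eq ?_) (Finset.sum_le_sum fun ω _ => h1 ω)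
      simp
    rw [Finset.sum_comm] at h2
    have h3 : ∑ e, ∑ ω, HS ω e / B e ≤ ∑ _e : E,
        (Fintype.card (Fin k × Fin d × Fin d → ZMod q) : ℝ) * ((ρ : ℝ) * K / 4 ^ M) := by
      refine Finset.sum_le_sum fun e _ => ?_
      rw [← Finset.sum_div, div_le_iff₀ (hB e), mul_assoc]
      exact hsum e
    rw [Finset.sum_const, Finset.card_univ, nsmul_eq_mul] at h3
    have h4 : (0 : ℝ) < (Fintype.card (Fin k × Fin d × Fin d → ZMod q) : ℝ) := by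
      exact_mod_cast Fintype.card_pos
    nlinarith
  obtain ⟨ω, hω⟩ := hex
  refine ⟨lev ω, lev_ok ω hd0, fun e => ?_⟩
  show Bdd (ev2 (zw ω) (zw ω) (x e)) (2 * C e)
  have h2C : 0 ≤ 2 * C e := by have := hC0 e; positivity
  have h1 := bdd_of_HS (C := ((2 * C e) ^ 2) ^ (s * M)) (by positivity) (hω e)
  rw [map_pow, ← pow_mul, hs, hM, ← pow_add] at h1
  have h2 := bdd_of_pow (by positivity) (hsa ω e) _ h1
  rw [map_mul] at h2
  exact bdd_of_sq h2C (hadj ω e) h2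

/-- strong convergence (upper bound, with a factor two) for finitely many two-leg elements -/
theorem SC {k : ℕ} (hk : 0 < k) {E : Type} [Fintype E] (R : E → Type) [∀ e, Fintype (R e)]
    (x : ∀ e, FA (GR (R e) k)) (C : E → ℝ) (hC : ∀ e, 1 ≤ C e) :
    ∃ L : Level k, LevOK L ∧ ∀ e, Bdd (ev2 (cF 0) (cF 0) (x e)) (C e) →
      Bdd (ev2 (zL L) (zL L) (x e)) (2 * C e) := by
  classical
  obtain ⟨L, hL, h⟩ := SC0 hk (E := {e // Bdd (ev2 (cF 0) (cF 0) (x e)) (C e)})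
    (fun e => R e.1) (fun e => x e.1) (fun e => C e.1) (fun e => hC e.1) (fun e => e.2)
  exact ⟨L, hL, fun e he => h ⟨e, he⟩⟩

end Pool.Agent.H612Z.Op
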