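import Pool.Agent.H612Z.Op.Tens

set_option autoImplicit false

open scoped ComplexConjugate InnerProductSpace
open Finsupp

namespace Pool.Agent.H612Z.Op

variable {k d q : ℕ} [NeZero q] (ω : Fin k × Fin d × Fin d → ZMod q)

open Classical in
/-- recursive form of the non-backtracking sums -/
noncomputable def nbs : List (Lt k) → Option (Lt k × Fin d) → Fin d → Fin d → ℂ
  | [], _, x, y => if x = y then 1 else 0
  | a :: w, p, x, y => ∑ x1, if p = some (bar a, x1) then 0 else
      xi ω a x x1 * nbs w (some (a, x)) x1 y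

theorem xi_mul (a : Lt k) (x y : Fin d) : xi ω a x y * xi ω (bar a) y x = 1 := by
  obtain ⟨i, b⟩ := a
  cases b <;> simp [xi, bar, ← AddChar.map_add_eq_mul]

theorem xi_norm (a : Lt k) (x y : Fin d) : ‖xi ω a x y‖ = 1 := by
  unfold xi
  split_ifs <;> exact AddChar.norm_apply _ _

theorem xi_bar (a : Lt k) (x y : Fin d) : xi ω (bar a) x y = conj (xi ω a y x) := by
  have h1 := xi_mul ω a y x
  have h2 : xi ω a y x * conj (xi ω a y x) = 1 := by
    rw [Complex.mul_conj, Complex.normSq_eq_norm_sq, xi_norm]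
    simp
  have h3 : xi ω a y x ≠ 0 := by
    intro h
    rw [h, zero_mul] at h1
    exact zero_ne_one h1
  exact mul_left_cancel₀ h3 (h1.trans h2.symm)

def Hd {j : ℕ} (p : Option (Lt k × Fin d)) (w : Fin j → Lt k) (γ : Fin (j + 1) → Fin d) : Prop :=
  ∀ h : 0 < j, p ≠ some (bar (w ⟨0, h⟩), γ ⟨1, by omega⟩)

theorem NBc_cons {j : ℕ} (w : Fin (j + 1) → Lt k) (x : Fin d) (γ : Fin (j + 1) → Fin d) :
    NBc w (Fin.cons x γ : Fin (j + 2) → Fin d) ↔
      NBc (fun i => w i.succ) γ ∧ Hd (some (w 0, x)) (fun i => w i.succ) γ := by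
  constructor
  · intro h
    refine ⟨fun t ht hw => h (t + 1) (by omega) hw, fun hj he => ?_⟩
    simp only [Option.some.injEq, Prod.mk.injEq] at he
    refine h 0 (by omega) ?_ ?_
    · show w (Fin.succ ⟨0, hj⟩) = bar (w 0)
      rw [he.1, bar_bar]
    · show γ ⟨1, by omega⟩ = x
      exact he.2.symm
  · rintro ⟨h1, h2⟩ t ht hw
    rcases t with _ | t
    · intro he
      apply h2 (by omega)
      have e1 : w (Fin.succ ⟨0, by omega⟩) = bar (w 0) := hw
      have e2 : γ ⟨1, by omega⟩ = x := he
      simp only [e1, e2, bar_bar]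
    · exact h1 t (by omega) hw

open Classical in
theorem nbs_ofFn (j : ℕ) : ∀ (w : Fin j → Lt k) (p : Option (Lt k × Fin d)) (x y : Fin d),
    nbs ω (List.ofFn w) p x y = ∑ γ : Fin (j + 1) → Fin d,
      if γ 0 = x ∧ γ (Fin.last j) = y ∧ NBc w γ ∧ Hd p w γ then
        ∏ t : Fin j, xi ω (w t) (γ t.castSucc) (γ t.succ) else 0 := by
  induction j with
  | zero =>
    intro w p x y
    rw [List.ofFn_zero, nbs, Fintype.sum_eq_single (fun _ => x)]
    · have h1 : NBc w (fun _ : Fin 1 => x) := fun t ht => absurd ht (by omega)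
      have h2 : Hd p w (fun _ : Fin 1 => x) := fun h => absurd h (lt_irrefl 0)
      simp [h1, h2]
    · intro γ hγ
      rw [if_neg]
      rintro ⟨h, -⟩
      apply hγ
      funext i
      rw [Subsingleton.elim (α := Fin 1) i 0]
      exact h
  | succ j ih =>
    intro w p x y
    rw [List.ofFn_succ, nbs]
    symm
    rw [← (Fin.consEquiv (fun _ : Fin (j + 2) => Fin d)).sum_comp,
      Fintype.sum_prod_type, Fintype.sum_eq_single x]
    · symm
      simp only [ih, Finset.mul_sum]
      have e1 : ∀ x1 : Fin d, (if p = some (bar (w 0), x1) then (0 : ℂ) else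
          ∑ γ : Fin (j + 1) → Fin d, xi ω (w 0) x x1 *
            if γ 0 = x1 ∧ γ (Fin.last j) = y ∧ NBc (fun i => w i.succ) γ ∧
              Hd (some (w 0, x)) (fun i => w i.succ) γ then
              ∏ t : Fin j, xi ω (w t.succ) (γ t.castSucc) (γ t.succ) else 0) =
          ∑ γ : Fin (j + 1) → Fin d, if γ 0 = x1 then
            (if γ (Fin.last j) = y ∧ (NBc (fun i => w i.succ) γ ∧
              Hd (some (w 0, x)) (fun i => w i.succ) γ) ∧ p ≠ some (bar (w 0), γ 0) then
              xi ω (w 0) x (γ 0) * ∏ t : Fin j, xi ω (w t.succ) (γ t.castSucc) (γ t.succ)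
            else 0) else 0 := by
        intro x1
        split_ifs with hp
        · symm
          refine Finset.sum_eq_zero fun γ _ => ?_
          split_ifs with h1 h2
          · exact absurd (h1 ▸ hp) h2.2.2
          · rfl
          · rfl
        · refine Finset.sum_congr rfl fun γ _ => ?_
          by_cases h1 : γ 0 = x1
          · subst h1
            simp only [true_and, if_true, hp, ne_eq, not_false_eq_true, and_true, mul_ite,
              mul_zero]
          · simp [h1]
      rw [Finset.sum_congr rfl fun x1 _ => e1 x1, Finset.sum_comm]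
      refine Finset.sum_congr rfl fun γ _ => ?_
      rw [Finset.sum_ite_eq, if_pos (Finset.mem_univ _)]
      have e2 : (Fin.consEquiv (fun _ : Fin (j + 2) => Fin d)) (x, γ) =
          (Fin.cons x γ : Fin (j + 2) → Fin d) := rfl
      rw [e2, Fin.prod_univ_succ]
      have e3 : Hd p w (Fin.cons x γ : Fin (j + 2) → Fin d) ↔ p ≠ some (bar (w 0), γ 0) :=
        ⟨fun h => h (Nat.succ_pos j), fun h _ => h⟩
      have e4 : (Fin.cons x γ : Fin (j + 2) → Fin d) (Fin.last (j + 1)) = γ (Fin.last j) := rfl
      simp only [NBc_cons, e3, e4, Fin.cons_zero, true_and, Fin.castSucc_zero, Fin.cons_succ]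
      rfl
    · intro x0 hx0
      refine Finset.sum_eq_zero fun γ _ => if_neg ?_
      rintro ⟨h, -⟩
      exact hx0 h

theorem NB_eq_nbs {j : ℕ} (w : Fin j → Lt k) (x y : Fin d) :
    NB ω w x y = nbs ω (List.ofFn w) none x y := by
  classical
  rw [nbs_ofFn, NB]
  refine Finset.sum_congr rfl fun γ _ => ?_
  have : Hd (none : Option (Lt k × Fin d)) w γ := fun _ h => by cases h
  simp only [this, and_true]

open Classical in
theorem nbs_none (b a : Lt k) (w : List (Lt k)) (x0 x y : Fin d) :
    nbs ω (b :: w) none x y = nbs ω (b :: w) (some (a, x0)) x y +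
      if a = bar b then xi ω b x x0 * nbs ω w (some (b, x)) x0 y else 0 := by
  simp only [nbs]
  by_cases h : a = bar b
  · subst h
    rw [if_pos rfl, ← Finset.add_sum_erase _ _ (Finset.mem_univ x0),
      ← Finset.add_sum_erase _ _ (Finset.mem_univ x0)]
    simp only [reduceCtorEq, if_false, if_true, zero_add]
    rw [add_comm]
    congr 1
    refine Finset.sum_congr rfl fun x1 hx1 => ?_
    rw [if_neg]
    simp only [Option.some.injEq, Prod.mk.injEq, true_and]
    exact (Finset.ne_of_mem_erase hx1).symm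
  · simp [h]

open Classical in
theorem nbs_sum_prev (a : Lt k) (w : List (Lt k)) (x y : Fin d) :
    ∑ x0, nbs ω w (some (bar a, x0)) x y =
      ((d : ℂ) - if w.head? = some a then 1 else 0) * nbs ω w none x y := by
  rcases w with _ | ⟨c, w⟩
  · simp [nbs]
  · have h1 : ∀ x0, nbs ω (c :: w) (some (bar a, x0)) x y = nbs ω (c :: w) none x y -
        if bar a = bar c then xi ω c x x0 * nbs ω w (some (c, x)) x0 y else 0 := fun x0 => by
      rw [nbs_none ω c (bar a) w x0 x y]
      ring
    simp only [h1, Finset.sum_sub_distrib, Finset.sum_const, Finset.card_univ, Fintype.card_fin,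
      nsmul_eq_mul, List.head?_cons, Option.some.injEq]
    by_cases h : c = a
    · subst h
      simp only [if_true, sub_mul, one_mul]
      congr 1
    · have h' : bar a ≠ bar c := fun he => h (by rw [← bar_bar c, ← he, bar_bar])
      simp [h, h']

open Classical in
theorem nbs_rec (a : Lt k) (w : List (Lt k)) (x y : Fin d) :
    ∑ x0, xi ω a x x0 * nbs ω w none x0 y = nbs ω (a :: w) none x y +
      match w with
      | [] => 0
      | b :: w' => if b = bar a then
          ((d : ℂ) - if w'.head? = some a then 1 else 0) * nbs ω w' none x y else 0 := by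
  rcases w with _ | ⟨b, w⟩
  · simp [nbs]
  · have h1 : nbs ω (a :: b :: w) none x y =
        ∑ x0, xi ω a x x0 * nbs ω (b :: w) (some (a, x)) x0 y := by
      rw [nbs]
      simp
    rw [h1]
    simp only [nbs_none ω b a w x _ y, mul_add, Finset.sum_add_distrib]
    congr 1
    by_cases h : b = bar a
    · subst h
      simp only [bar_bar, if_true]
      rw [← nbs_sum_prev]
      refine Finset.sum_congr rfl fun x0 _ => ?_
      rw [← mul_assoc, xi_mul, one_mul]
    · have h' : a ≠ bar b := fun he => h (by rw [he, bar_bar])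
      simp [h, h']

/-- the normalised Wick words -/
noncomputable def Wm (w : List (Lt k)) (x y : Fin d) : ℂ :=
  nbs ω w none x y / ((√(d : ℝ) : ℝ) : ℂ) ^ w.length

noncomputable def Ym (a : Lt k) : Matrix (Fin d) (Fin d) ℂ :=
  fun x y => xi ω a x y / ((√(d : ℝ) : ℝ) : ℂ)

noncomputable def zw (a : Lt k) : En (Fin d) := mE (Ym ω a)

theorem ker_zw (a : Lt k) (x y : Fin d) : ker (zw ω a) x y = Ym ω a x y := ker_mE _ _ _

/-- the level of a sample -/
noncomputable def lev : Level k := ⟨d, Ym ω⟩

theorem lev_ok (hd : 0 < d) : LevOK (lev ω) where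
  pos := hd
  herm := fun a => by
    show Ym ω (bar a) = (Ym ω a).conjTranspose
    ext x y
    simp only [Ym, Matrix.conjTranspose_apply, xi_bar]
    simp
  uni := fun a x y => by
    have : (0 : ℝ) ≤ d := Nat.cast_nonneg d
    simp only [lev, Ym, norm_div, xi_norm, Complex.norm_real, Real.norm_eq_abs, div_pow, sq_abs,
      Real.sq_sqrt this, one_pow]

theorem Wm_rec (hd : 0 < d) (a : Lt k) (w : List (Lt k)) (x y : Fin d) :
    Finsupp.linearCombination ℂ (fun w1 => Wm ω w1 x y) (cF (1 / (d : ℂ)) a (single w 1)) =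
      ∑ x0, Ym ω a x x0 * Wm ω w x0 y := by
  classical
  have hs : ((√(d : ℝ) : ℝ) : ℂ) ≠ 0 := by
    have : (0 : ℝ) < √(d : ℝ) := Real.sqrt_pos.2 (by exact_mod_cast hd)
    exact_mod_cast this.ne'
  have hs2 : ((√(d : ℝ) : ℝ) : ℂ) ^ 2 = d := by
    rw [← Complex.ofReal_pow, Real.sq_sqrt (Nat.cast_nonneg d)]
    simp
  have hd' : (d : ℂ) ≠ 0 := by exact_mod_cast hd.ne'
  have e1 : ∑ x0, Ym ω a x x0 * Wm ω w x0 y =
      (∑ x0, xi ω a x x0 * nbs ω w none x0 y) / ((√(d : ℝ) : ℝ) : ℂ) ^ (w.length + 1) := by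
    rw [Finset.sum_div]
    refine Finset.sum_congr rfl fun x0 _ => ?_
    simp only [Ym, Wm]
    field_simp
    ring
  rw [e1, nbs_rec, cF, lin_single, one_smul, map_add, linearCombination_single, one_smul, add_div]
  congr 1
  rcases w with _ | ⟨b, w⟩
  · simp
  · by_cases h : b = bar a
    · simp only [h, if_true, linearCombination_single, smul_eq_mul, Wm, List.length_cons]
      rw [show w.length + 1 + 1 = w.length + 2 from rfl, pow_add, hs2]
      split_ifs <;> field_simp
      ring
    · simp [h]

end Pool.Agent.H612Z.Op
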