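import Pool.Agent.H612Z.Op.SCA

set_option autoImplicit false
set_option maxHeartbeats 400000

open scoped ComplexConjugate InnerProductSpace
open Finsupp

namespace Pool.Agent.H612Z.Op

theorem tens_leg1 {R S S' : Type} (A : En S) (r : R) (w : S) (w' : S') :
    tens (1 : En R) (tens A (1 : En S')) (single (r, (w, w')) 1) =
      mapDomain (fun w1 => (r, (w1, w'))) (A (single w 1)) := by
  classical
  ext ⟨r2, w1, w2⟩
  have h1 := ker_tens (1 : En R) (tens A (1 : En S')) (r2, (w1, w2)) (r, (w, w'))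
  rw [ker_tens A, ker_one, ker_one] at h1
  refine h1.trans ?_
  by_cases h : r2 = r ∧ w2 = w'
  · obtain ⟨rfl, rfl⟩ := h
    rw [mapDomain_apply (fun a b hab => (Prod.mk.inj (Prod.mk.inj hab).2).1)]
    simp [ker]
  · rw [mapDomain_of_notMem_range]
    · by_cases h2 : r2 = r
      · have : w2 ≠ w' := fun h3 => h ⟨h2, h3⟩
        simp [this]
      · simp [h2]
    · rintro ⟨a, ha⟩
      simp only [Prod.mk.injEq] at ha
      exact h ⟨ha.1.symm, ha.2.2.symm⟩

theorem tens_leg2 {R S S' : Type} (A : En S') (r : R) (w : S) (w' : S') :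
    tens (1 : En R) (tens (1 : En S) A) (single (r, (w, w')) 1) =
      mapDomain (fun w1 => (r, (w, w1))) (A (single w' 1)) := by
  classical
  ext ⟨r2, w1, w2⟩
  have h1 := ker_tens (1 : En R) (tens (1 : En S) A) (r2, (w1, w2)) (r, (w, w'))
  rw [ker_tens (1 : En S), ker_one, ker_one] at h1
  refine h1.trans ?_
  by_cases h : r2 = r ∧ w1 = w
  · obtain ⟨rfl, rfl⟩ := h
    rw [mapDomain_apply (fun a b hab => (Prod.mk.inj (Prod.mk.inj hab).2).2)]
    simp [ker]
  · rw [mapDomain_of_notMem_range]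
    · by_cases h2 : r2 = r
      · have : w1 ≠ w := fun h3 => h ⟨h2, h3⟩
        simp [this]
      · simp [h2]
    · rintro ⟨a, ha⟩
      simp only [Prod.mk.injEq] at ha
      exact h ⟨ha.1.symm, ha.2.1.symm⟩

open Classical in
theorem tens_unit {R S : Type} (r r' r0 : R) (v : S) :
    tens (unitE r r') (1 : En S) (single (r0, v) 1) =
      if r0 = r' then single (r, v) 1 else 0 := by
  ext ⟨r2, w⟩
  have h1 := ker_tens (unitE r r') (1 : En S) (r2, w) (r0, v)
  rw [ker_unitE, ker_one] at h1
  refine h1.trans ?_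
  by_cases h : r0 = r'
  · subst h
    simp only [and_true, if_true, single_apply, Prod.mk.injEq]
    by_cases h2 : r2 = r
    · by_cases h3 : w = v
      · simp [h2, h3]
      · have h4 : ¬ v = w := fun e => h3 e.symm
        simp [h3, h4]
    · have h4 : ¬ r = r2 := fun e => h2 e.symm
      simp [h2, h4]
  · simp [h]

variable {k d q : ℕ} [NeZero q] (ω : Fin k × Fin d × Fin d → ZMod q) {R : Type} [Fintype R]

open Classical in
/-- the matrix coefficient functionals -/
noncomputable def Lam (x' y' : Fin d) (u : R × (Fin d × Fin d)) :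
    (R × (List (Lt k) × List (Lt k)) →₀ ℂ) →ₗ[ℂ] ℂ :=
  Finsupp.linearCombination ℂ fun p =>
    (if u.1 = p.1 then 1 else 0) * (Wm ω p.2.1 u.2.1 x' * Wm ω p.2.2 u.2.2 y')

def Rel (x' y' : Fin d) (T : En (R × (Fin d × Fin d)))
    (T' : En (R × (List (Lt k) × List (Lt k)))) : Prop :=
  ∀ g u, Lam ω x' y' u (T' g) = ∑ v, ker T u v * Lam ω x' y' v g

theorem rel_of_single {x' y' : Fin d} {T : En (R × (Fin d × Fin d))}
    {T' : En (R × (List (Lt k) × List (Lt k)))}
    (h : ∀ p u, Lam ω x' y' u (T' (single p 1)) = ∑ v, ker T u v * Lam ω x' y' v (single p 1)) :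
    Rel ω x' y' T T' := by
  intro g u
  induction g using Finsupp.induction_linear with
  | zero => simp
  | add f g hf hg => simp only [map_add, hf, hg, mul_add, Finset.sum_add_distrib]
  | single p c =>
    have : (single p c : _ →₀ ℂ) = c • single p 1 := by simp
    rw [this]
    simp only [map_smul, h, smul_eq_mul, Finset.mul_sum]
    exact Finset.sum_congr rfl fun v _ => by ring

theorem lc_mul {α : Type} (f : α → ℂ) (c c' : ℂ) (g : α →₀ ℂ) :
    Finsupp.linearCombination ℂ (fun a => c * (f a * c')) g =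
      c * (Finsupp.linearCombination ℂ f g * c') := by
  simp only [Finsupp.linearCombination_apply, Finsupp.sum, smul_eq_mul, Finset.mul_sum,
    Finset.sum_mul]
  exact Finset.sum_congr rfl fun a _ => by ring

theorem rel_unit (x' y' : Fin d) (r r' : R) :
    Rel ω x' y' (tens (unitE r r') 1) (tens (unitE r r') 1) := by
  classical
  refine rel_of_single ω ?_
  rintro ⟨r0, w, w'⟩ ⟨r1, x, y⟩
  rw [tens_unit, Fintype.sum_eq_single (r', (x, y))]
  · rw [ker_tens, ker_unitE, ker_one]
    by_cases h : r0 = r'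
    · subst h
      simp [Lam]
    · have h' : ¬ r' = r0 := fun e => h e.symm
      simp [Lam, h, h']
  · rintro ⟨r2, v⟩ hne
    rw [ker_tens, ker_unitE, ker_one]
    by_cases h : r2 = r'
    · subst h
      have : ¬ (x, y) = v := fun e => hne (by rw [e])
      simp [this]
    · simp [h]

theorem rel_leg1 (hd : 0 < d) (x' y' : Fin d) (a : Lt k) :
    Rel (R := R) ω x' y' (tens 1 (tens (zw ω a) 1)) (tens 1 (tens (cF (1 / (d : ℂ)) a) 1)) := by
  classical
  refine rel_of_single ω ?_
  rintro ⟨r0, w, w'⟩ ⟨r1, x, y⟩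
  have e : ∀ g : List (Lt k) →₀ ℂ, Lam ω x' y' (r1, (x, y))
      (mapDomain (fun w1 => (r0, (w1, w'))) g) = (if r1 = r0 then (1 : ℂ) else 0) *
      (Finsupp.linearCombination ℂ (fun w1 => Wm ω w1 x x') g * Wm ω w' y y') := by
    intro g
    rw [Lam, linearCombination_mapDomain, ← lc_mul]
    rfl
  rw [tens_leg1, e, Wm_rec ω hd, Fintype.sum_prod_type, Fintype.sum_eq_single r1,
    Fintype.sum_prod_type, Finset.sum_mul, Finset.mul_sum]
  · refine Finset.sum_congr rfl fun x0 _ => ?_
    rw [Fintype.sum_eq_single y]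
    · rw [ker_tens, ker_tens, ker_one, ker_one, ker_zw, Lam, linearCombination_single]
      simp only [if_true, one_smul]
      ring
    · intro y0 hy
      have : ¬ y = y0 := fun e => hy e.symm
      rw [ker_tens, ker_tens, ker_one, ker_one]
      simp [this]
  · intro r2 hr
    refine Finset.sum_eq_zero fun v _ => ?_
    have : ¬ r1 = r2 := fun e => hr e.symm
    rw [ker_tens, ker_one]
    simp [this]

theorem rel_leg2 (hd : 0 < d) (x' y' : Fin d) (a : Lt k) :
    Rel (R := R) ω x' y' (tens 1 (tens 1 (zw ω a))) (tens 1 (tens 1 (cF (1 / (d : ℂ)) a))) := by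
  classical
  refine rel_of_single ω ?_
  rintro ⟨r0, w, w'⟩ ⟨r1, x, y⟩
  have e : ∀ g : List (Lt k) →₀ ℂ, Lam ω x' y' (r1, (x, y))
      (mapDomain (fun w1 => (r0, (w, w1))) g) = (if r1 = r0 then (1 : ℂ) else 0) *
      (Finsupp.linearCombination ℂ (fun w1 => Wm ω w1 y y') g * Wm ω w x x') := by
    intro g
    rw [Lam, linearCombination_mapDomain, ← lc_mul]
    congr 2
    funext w1
    simp only [Function.comp]
    ring
  rw [tens_leg2, e, Wm_rec ω hd, Finset.sum_mul, Finset.mul_sum]
  symm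
  rw [Fintype.sum_prod_type, Fintype.sum_eq_single r1,
    Fintype.sum_prod_type, Fintype.sum_eq_single x]
  · refine Finset.sum_congr rfl fun y0 _ => ?_
    rw [ker_tens, ker_tens, ker_one, ker_one, ker_zw, Lam, linearCombination_single]
    simp only [if_true, one_smul]
    ring
  · intro x0 hx
    refine Finset.sum_eq_zero fun v _ => ?_
    have : ¬ x = x0 := fun e => hx e.symm
    rw [ker_tens, ker_tens, ker_one, ker_one]
    simp [this]
  · intro r2 hr
    refine Finset.sum_eq_zero fun v _ => ?_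
    have : ¬ r1 = r2 := fun e => hr e.symm
    rw [ker_tens, ker_one]
    simp [this]

theorem rel_ev2 (hd : 0 < d) (x' y' : Fin d) (x : FA (GR R k)) :
    Rel ω x' y' (ev2 (zw ω) (zw ω) x) (ev2 (cF (1 / (d : ℂ))) (cF (1 / (d : ℂ))) x) := by
  classical
  induction x using FreeAlgebra.induction with
  | grade0 c =>
    intro g u
    rw [AlgHom.commutes, AlgHom.commutes, Algebra.algebraMap_eq_smul_one,
      Algebra.algebraMap_eq_smul_one, Fintype.sum_eq_single u]
    · rw [ker_smul, ker_one]
      simp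
    · intro v hv
      have : ¬ u = v := fun e => hv e.symm
      rw [ker_smul, ker_one]
      simp [this]
  | grade1 a =>
    rw [ev2, ev2, FreeAlgebra.lift_ι_apply, FreeAlgebra.lift_ι_apply]
    rcases a with ⟨r, r'⟩ | a | a
    · exact rel_unit ω x' y' r r'
    · exact rel_leg1 ω hd x' y' a
    · exact rel_leg2 ω hd x' y' a
  | mul a b ha hb =>
    intro g u
    rw [map_mul, map_mul, Module.End.mul_apply, ha]
    simp only [hb g, Finset.mul_sum]
    rw [Finset.sum_comm]
    refine Finset.sum_congr rfl fun l _ => ?_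
    rw [ker_mul _ _ _ _ Finset.univ (Finset.subset_univ _), Finset.sum_mul]
    exact Finset.sum_congr rfl fun v _ => by ring
  | add a b ha hb =>
    intro g u
    rw [map_add, map_add, LinearMap.add_apply, map_add, ha, hb, ← Finset.sum_add_distrib]
    exact Finset.sum_congr rfl fun v _ => by rw [ker_add, add_mul]

/-- the words of length at most `J` -/
noncomputable def WJ (k J : ℕ) : Finset (List (Lt k)) :=
  open Classical in
  Finset.univ.image fun p : (Σ j : Fin (J + 1), (Fin j → Lt k)) => List.ofFn p.2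

theorem sum_WJ {M : Type} [AddCommMonoid M] (k J : ℕ) (f : List (Lt k) → M) :
    ∑ l ∈ WJ k J, f l = ∑ j : Fin (J + 1), ∑ w : Fin j → Lt k, f (List.ofFn w) := by
  classical
  rw [WJ, Finset.sum_image, Fintype.sum_sigma]
  rintro ⟨j, w⟩ - ⟨j', w'⟩ - h
  have h1 : j = j' := by
    have := congrArg List.length h
    simp only [List.length_ofFn] at this
    exact Fin.ext this
  subst h1
  have h2 : w = w' := List.ofFn_injective h
  rw [h2]

theorem mem_WJ {k J : ℕ} {l : List (Lt k)} (h : l.length ≤ J) : l ∈ WJ k J := by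
  classical
  rw [WJ, Finset.mem_image]
  exact ⟨⟨⟨l.length, by omega⟩, l.get⟩, Finset.mem_univ _, List.ofFn_get l⟩

/-- the coefficient array of an operator on the Fock side -/
noncomputable def coefA {k : ℕ} (J : ℕ) {R : Type} (T' : En (R × (List (Lt k) × List (Lt k)))) :
    R → R → (j j' : Fin (J + 1)) → (Fin j → Lt k) → (Fin j' → Lt k) → ℂ :=
  fun r r' _ _ w w' => ker T' (r, (List.ofFn w, List.ofFn w')) (r', ([], []))

theorem coefA_le {k : ℕ} (J : ℕ) {R : Type} {T' : En (R × (List (Lt k) × List (Lt k)))} {C : ℝ}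
    (h : Bdd T' C) (r r' : R) (j j' : Fin (J + 1)) :
    ∑ w, ∑ w', ‖coefA J T' r r' j j' w w'‖ ^ 2 ≤ C ^ 2 := by
  classical
  set g := T' (single (r', ([], [])) 1) with hg
  have h1 : ‖emb _ g‖ ≤ C := by
    have := h (single (r', ([], [])) 1)
    rwa [norm_emb_single, norm_one, mul_one] at this
  let e : (Fin j → Lt k) × (Fin j' → Lt k) → R × (List (Lt k) × List (Lt k)) :=
    fun p => (r, (List.ofFn p.1, List.ofFn p.2))
  have he : Function.Injective e := by
    rintro ⟨a, b⟩ ⟨a', b'⟩ hab
    simp only [e, Prod.mk.injEq, true_and] at hab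
    rw [List.ofFn_injective hab.1, List.ofFn_injective hab.2]
  have h2 : ∑ w, ∑ w', ‖coefA J T' r r' j j' w w'‖ ^ 2 =
      ∑ p ∈ Finset.univ.image e, ‖g p‖ ^ 2 := by
    rw [Finset.sum_image he.injOn, Fintype.sum_prod_type]
    rfl
  rw [h2]
  calc ∑ p ∈ Finset.univ.image e, ‖g p‖ ^ 2
      ≤ ∑ p ∈ g.support ∪ Finset.univ.image e, ‖g p‖ ^ 2 :=
        Finset.sum_le_sum_of_subset_of_nonneg Finset.subset_union_right fun _ _ _ => by positivity
    _ = ‖emb _ g‖ ^ 2 := (norm_emb_sq g _ Finset.subset_union_left).symm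
    _ ≤ C ^ 2 := pow_le_pow_left₀ (norm_nonneg _) h1 2

theorem ker_eq_SM (hd : 0 < d) (x : FA (GR R k)) (J : ℕ)
    (hJ : ∀ u r', ker (ev2 (cF (1 / (d : ℂ))) (cF (1 / (d : ℂ))) x) u (r', ([], [])) ≠ 0 →
      u.2.1.length ≤ J ∧ u.2.2.length ≤ J) (u v : R × (Fin d × Fin d)) :
    ker (ev2 (zw ω) (zw ω) x) u v =
      SM (coefA J (ev2 (cF (1 / (d : ℂ))) (cF (1 / (d : ℂ))) x)) ω u v := by
  classical
  obtain ⟨r', x', y'⟩ := v
  have h := rel_ev2 ω hd x' y' x (single (r', ([], [])) 1) u
  set T' := ev2 (cF (1 / (d : ℂ))) (cF (1 / (d : ℂ))) x with hT'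
  have h1 : ∑ v, ker (ev2 (zw ω) (zw ω) x) u v *
      Lam ω x' y' v (single (r', ([], [])) 1) =
      ker (ev2 (zw ω) (zw ω) x) u (r', (x', y')) := by
    rw [Fintype.sum_eq_single (r', (x', y'))]
    · simp [Lam, Wm, nbs]
    · rintro ⟨r2, x2, y2⟩ hne
      simp only [Lam, Wm, nbs, linearCombination_single, one_smul, List.length_nil, pow_zero,
        div_one]
      by_cases h1 : r2 = r'
      · by_cases h2 : x2 = x'
        · have h3 : y2 ≠ y' := fun h3 => hne (by rw [h1, h2, h3])
          simp [h3]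
        · simp [h2]
      · simp [h1]
  rw [← h1, ← h, Lam, Finsupp.linearCombination_apply,
    Finsupp.sum_of_support_subset _ (s := Finset.univ ×ˢ (WJ k J ×ˢ WJ k J)) ?_ _
      (fun _ _ => by simp)]
  · rw [Finset.sum_product, Fintype.sum_eq_single u.1, Finset.sum_product, sum_WJ]
    · unfold SM
      refine Finset.sum_congr rfl fun j _ => ?_
      simp only [sum_WJ]
      rw [Finset.sum_comm]
      refine Finset.sum_congr rfl fun j' _ => Finset.sum_congr rfl fun w _ =>
        Finset.sum_congr rfl fun w' _ => ?_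
      simp only [if_true, one_mul, smul_eq_mul, Wm, List.length_ofFn, ← NB_eq_nbs, coefA, ker,
        pow_add]
      ring
    · intro r hr
      refine Finset.sum_eq_zero fun p _ => ?_
      have : ¬ u.1 = r := fun e => hr e.symm
      simp [this]
  · intro p hp
    have := hJ p r' (Finsupp.mem_support_iff.1 hp)
    simp only [Finset.mem_product, Finset.mem_univ, true_and]
    exact ⟨mem_WJ this.1, mem_WJ this.2⟩

end Pool.Agent.H612Z.Op
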