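import Pool.Agent.H612Z.Op.Ker

set_option autoImplicit false

open scoped ComplexConjugate InnerProductSpace
open Finsupp

namespace Pool.Agent.H612Z.Op

variable {I J : Type}

theorem tens_sub_self (T : En I) : T - T = 0 := LinearMap.ext fun x => by simp

theorem tens_add_sub (S T : En I) : S + (T - S) = T := LinearMap.ext fun x => by simp

theorem tens_mul_sub (A B C D : En I) : (A - B) * C + B * (C - D) = A * C - B * D :=
  LinearMap.ext fun x => by simp [Module.End.mul_apply]

theorem tens_add_sub_add (A B C D : En I) : A + B - (C + D) = (A - C) + (B - D) :=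
  LinearMap.ext fun x => by simp only [LinearMap.add_apply, LinearMap.sub_apply]; abel

theorem ker_tens (S : En I) (T : En J) (u v : I × J) :
    ker (tens S T) u v = ker S u.1 v.1 * ker T u.2 v.2 := by
  obtain ⟨u1, u2⟩ := u
  simp only [ker, tens, LinearEquiv.conjAlgEquiv_apply, LinearMap.comp_apply,
    LinearEquiv.coe_coe, finsuppTensorFinsupp'_symm_single_eq_single_one_tmul,
    TensorProduct.map_tmul, finsuppTensorFinsupp'_apply_apply]

theorem tens_mul (S S' : En I) (T T' : En J) : tens S T * tens S' T' = tens (S * S') (T * T') := by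
  simp only [tens, ← map_mul, TensorProduct.map_mul]

theorem tens_one : tens (1 : En I) (1 : En J) = 1 := by
  simp only [tens, TensorProduct.map_one, map_one]

theorem tens_add_left (S S' : En I) (T : En J) : tens (S + S') T = tens S T + tens S' T :=
  ker_ext fun u v => by simp only [ker_tens, ker_add]; ring

theorem tens_add_right (S : En I) (T T' : En J) : tens S (T + T') = tens S T + tens S T' :=
  ker_ext fun u v => by simp only [ker_tens, ker_add]; ring

theorem tens_sub_left (S S' : En I) (T : En J) : tens (S - S') T = tens S T - tens S' T :=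
  ker_ext fun u v => by simp only [ker_tens, ker_sub]; ring

theorem tens_sub_right (S : En I) (T T' : En J) : tens S (T - T') = tens S T - tens S T' :=
  ker_ext fun u v => by simp only [ker_tens, ker_sub]; ring

theorem tens_smul_left (c : ℂ) (S : En I) (T : En J) : tens (c • S) T = c • tens S T :=
  ker_ext fun u v => by simp only [ker_tens, ker_smul]; ring

theorem tens_smul_right (c : ℂ) (S : En I) (T : En J) : tens S (c • T) = c • tens S T :=
  ker_ext fun u v => by simp only [ker_tens, ker_smul]; ring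

theorem IsAdj.tens {S S' : En I} {T T' : En J} (h : IsAdj S S') (h' : IsAdj T T') :
    IsAdj (Op.tens S T) (Op.tens S' T') := fun u v => by
  rw [ker_tens, ker_tens, h, h', map_mul]

theorem Bdd.tens_left {S : En I} {C : ℝ} (hC : 0 ≤ C) (h : Bdd S C) :
    Bdd (tens S (1 : En J)) C := by
  refine (bdd_iff_KB hC).2 ?_
  have := (((bdd_iff_KB hC).1 h).ampl hC J).mono_set (t := Set.univ) (fun _ _ => trivial)
  exact this.congr fun i _ j _ => by rw [ker_tens, ker_one]

theorem Bdd.tens_right {T : En J} {C : ℝ} (hC : 0 ≤ C) (h : Bdd T C) :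
    Bdd (tens (1 : En I) T) C := by
  refine (bdd_iff_KB hC).2 ?_
  have := (bdd_iff_KB hC).1 (h.tens_left (J := I) hC)
  exact this.pull Prod.swap Prod.swap_injective.injOn (fun _ _ => trivial) fun a _ b _ => by
    rw [ker_tens, ker_tens, mul_comm]; rfl

open Classical in
theorem ker_unitE {R : Type} (r r' i j : R) :
    ker (unitE r r') i j = if i = r ∧ j = r' then 1 else 0 := by
  rw [unitE, ker_lin]
  by_cases h : j = r' <;> by_cases h' : i = r <;> simp [h, h', Finsupp.single_apply, eq_comm]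

theorem bdd_unitE {R : Type} (r r' : R) : Bdd (unitE r r') 1 := by
  classical
  refine (bdd_iff_KB zero_le_one).2 fun F _ η ξ => ?_
  have key : ∀ (f : R → ℂ) (x : R), ‖if x ∈ F then f x else 0‖ ≤ √(∑ i ∈ F, ‖f i‖ ^ 2) := by
    intro f x
    split_ifs with hx
    · exact Real.le_sqrt_of_sq_le
        (Finset.single_le_sum (f := fun i => ‖f i‖ ^ 2) (fun _ _ => by positivity) hx)
    · simp
  have e : ∑ i ∈ F, ∑ j ∈ F, conj (η i) * ker (unitE r r') i j * ξ j =
      conj (if r ∈ F then η r else 0) * if r' ∈ F then ξ r' else 0 := by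
    simp only [ker_unitE, ite_and, mul_ite, ite_mul, mul_one, mul_zero, zero_mul,
      Finset.sum_ite_irrel, Finset.sum_const_zero, Finset.sum_ite_eq']
    split_ifs <;> simp
  rw [e, norm_mul, RCLike.norm_conj, one_mul]
  exact mul_le_mul (key η r) (key ξ r') (norm_nonneg _) (Real.sqrt_nonneg _)

theorem isAdj_unitE {R : Type} (r r' : R) : IsAdj (unitE r' r) (unitE r r') := fun i j => by
  rw [ker_unitE, ker_unitE]
  by_cases h : i = r' <;> by_cases h' : j = r <;> simp [h, h']

theorem isAdj_mE {D : Type} [Fintype D] (M : Matrix D D ℂ) :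
    IsAdj (mE M.conjTranspose) (mE M) := fun i j => by
  rw [ker_mE, ker_mE, Matrix.conjTranspose_apply]; rfl

open Classical in
theorem tens_ker_cF {k : ℕ} (θ : ℂ) (a : Lt k) (i j : List (Lt k)) :
    ker (cF θ a) i j = (if i = a :: j then 1 else 0) +
      if j = bar a :: i then (1 - if i.head? = some a then θ else 0) else 0 := by
  rw [cF, ker_lin, Finsupp.add_apply, Finsupp.single_apply]
  congr 1
  · simp only [eq_comm]
  · cases j with
    | nil => simp
    | cons b w =>
      by_cases h : b = bar a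
      · by_cases h' : w = i
        · simp [h, h']
        · simp [h, h']
      · simp [h]

theorem tens_bdd_wmap (e : I → I) (he : Function.Injective e) (c : I → ℂ) {C : ℝ} (hC : 0 ≤ C)
    (hc : ∀ i, ‖c i‖ ≤ C) : Bdd (lin fun i => single (e i) (c i)) C := by
  classical
  intro ξ
  have e1 : (lin fun i => single (e i) (c i)) =
      (Finsupp.lmapDomain ℂ ℂ e) ∘ₗ (lin fun i => single i (c i)) := by
    refine Finsupp.lhom_ext fun i x => ?_
    simp only [lin_single, LinearMap.comp_apply, map_smul, Finsupp.lmapDomain_apply,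
      Finsupp.mapDomain_single]
  have e2 : ∀ i, (lin fun i => single i (c i)) ξ i = c i * ξ i := by
    intro i
    rw [apply_eq_sum_ker _ ξ (insert i ξ.support) (Finset.subset_insert _ _)]
    simp only [ker_lin, Finsupp.single_apply, ite_mul, zero_mul, Finset.sum_ite_eq',
      Finset.mem_insert_self, if_true]
  rw [e1, LinearMap.comp_apply, Finsupp.lmapDomain_apply, norm_emb_mapDomain e he]
  refine (sq_le_sq₀ (norm_nonneg _) (by positivity)).1 ?_
  rw [mul_pow, norm_emb_sq ξ ξ.support subset_rfl, norm_emb_sq _ ξ.support (by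
    intro i hi
    rw [Finsupp.mem_support_iff] at hi ⊢
    intro h; apply hi; rw [e2, h, mul_zero]), Finset.mul_sum]
  refine Finset.sum_le_sum fun i _ => ?_
  rw [e2, norm_mul, mul_pow]
  gcongr
  exact hc i

theorem cF_adj {k : ℕ} (a : Lt k) : IsAdj (cF 0 (bar a)) (cF 0 a) := fun i j => by
  rw [tens_ker_cF, tens_ker_cF, bar_bar, add_comm, map_add]
  congr 1 <;> split_ifs <;> simp

theorem bdd_cF {k : ℕ} (a : Lt k) : Bdd (cF 0 a) 2 := by
  classical
  have h1 : ∀ b : Lt k, Bdd (lin fun w : List (Lt k) => single (b :: w) (1 : ℂ)) 1 := fun b =>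
    tens_bdd_wmap _ (List.cons_injective (a := b)) (fun _ => 1) zero_le_one (by simp)
  have h2 : IsAdj (cF 0 a - lin fun w : List (Lt k) => single (a :: w) (1 : ℂ))
      (lin fun w : List (Lt k) => single (bar a :: w) (1 : ℂ)) := fun i j => by
    rw [ker_sub, tens_ker_cF, ker_lin, ker_lin, Finsupp.single_apply, Finsupp.single_apply]
    simp only [eq_comm (a := a :: j), eq_comm (a := bar a :: i)]
    split_ifs <;> simp
  have := (h1 a).add (h2.bdd zero_le_one (h1 (bar a)))
  rw [tens_add_sub] at this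
  exact this.mono (by norm_num)

theorem bdd_cF_sub {k : ℕ} (θ : ℂ) (a : Lt k) : Bdd (cF θ a - cF 0 a) ‖θ‖ := by
  classical
  have h1 : Bdd (lin fun w : List (Lt k) =>
      single (bar a :: w) (conj (-(if w.head? = some a then θ else 0)))) ‖θ‖ :=
    tens_bdd_wmap _ (List.cons_injective (a := bar a)) _ (norm_nonneg _) fun w => by
      split_ifs <;> simp
  refine IsAdj.bdd (norm_nonneg _) (fun i j => ?_) h1
  rw [ker_sub, tens_ker_cF, tens_ker_cF, ker_lin, Finsupp.single_apply]
  by_cases q : j = bar a :: i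
  · subst q
    simp
  · rw [if_neg q, if_neg q, if_neg (show ¬ bar a :: i = j from fun h => q h.symm)]; simp

theorem tens_KB_two {K : I → I → ℂ} {s : Set I} {C : ℝ} (h : KB K s C) (F G : Finset I)
    (hF : (F : Set I) ⊆ s) (hG : (G : Set I) ⊆ s) (η ξ : I → ℂ) :
    ‖∑ i ∈ F, ∑ j ∈ G, conj (η i) * K i j * ξ j‖ ≤
      C * √(∑ i ∈ F, ‖η i‖ ^ 2) * √(∑ j ∈ G, ‖ξ j‖ ^ 2) := by
  classical
  have := h (F ∪ G) (by rw [Finset.coe_union]; exact Set.union_subset hF hG)
    (fun i => if i ∈ F then η i else 0) (fun j => if j ∈ G then ξ j else 0)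
  have e1 : ∀ (A : Finset I) (f : I → ℂ), A ⊆ F ∪ G →
      ∑ i ∈ F ∪ G, ‖if i ∈ A then f i else 0‖ ^ 2 = ∑ i ∈ A, ‖f i‖ ^ 2 := by
    intro A f hA
    rw [← Finset.sum_subset hA (fun x _ hx => by simp [hx])]
    exact Finset.sum_congr rfl fun x hx => by rw [if_pos hx]
  rw [e1 F η Finset.subset_union_left, e1 G ξ Finset.subset_union_right,
    ← Finset.sum_subset Finset.subset_union_left (fun x _ hx => by simp [hx])] at this
  refine le_of_eq_of_le ?_ this
  congr 1
  refine Finset.sum_congr rfl fun i hi => ?_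
  rw [← Finset.sum_subset Finset.subset_union_right (fun x _ hx => by simp [hx])]
  exact Finset.sum_congr rfl fun j hj => by rw [if_pos hi, if_pos hj]

theorem tens_KB_star {K : I → I → ℂ} {s : Set I} {C : ℝ} (h : KB K s C) :
    KB (fun i j => conj (K j i)) s C := by
  intro F hF η ξ
  have := h F hF ξ η
  rw [mul_right_comm, ← RCLike.norm_conj] at this
  refine le_of_eq_of_le ?_ this
  congr 1
  rw [Finset.sum_comm]
  simp only [map_sum, map_mul, RingHomCompTriple.comp_apply, RingHom.id_apply]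
  exact Finset.sum_congr rfl fun _ _ => Finset.sum_congr rfl fun _ _ => by ring

theorem tens_KB_row {k : ℕ} {K A : Fin k → I → I → ℂ} {s : Set I} {C : ℝ} (hC : 0 ≤ C)
    (h : ∀ i, KB (K i) s C) (e : Fin k → I → I) (he : ∀ i, Function.Injective (e i))
    (hd : ∀ i i' x x', e i x = e i' x' → i = i') (hs : ∀ i x, e i x ∈ s → x ∈ s)
    (hA : ∀ i x v, A i (e i x) v = K i x v) (hA0 : ∀ i u v, u ∉ Set.range (e i) → A i u v = 0) :
    KB (fun u v => ∑ i, A i u v) s (√(k : ℝ) * C) := by
  classical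
  intro F hF η ξ
  let N : Fin k → ℝ := fun i => ∑ u ∈ F, if u ∈ Set.range (e i) then ‖η u‖ ^ 2 else 0
  have hN : ∀ i, 0 ≤ N i := fun i => Finset.sum_nonneg fun u _ => by split_ifs <;> positivity
  have h1 : ∀ i, ‖∑ u ∈ F, ∑ v ∈ F, conj (η u) * A i u v * ξ v‖ ≤
      C * √(N i) * √(∑ j ∈ F, ‖ξ j‖ ^ 2) := by
    intro i
    have := tens_KB_two (h i) (F.preimage (e i) (he i).injOn) F
      (fun x hx => hs i x (hF (by simpa using hx))) hF (fun x => η (e i x)) ξ
    rw [← Finset.sum_preimage (e i) F (he i).injOn _ (fun u _ hu => by simp [hA0 i u _ hu])]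
    simp only [N]
    rw [← Finset.sum_preimage (e i) F (he i).injOn _ (fun u _ hu => if_neg hu)]
    simpa only [hA, Set.mem_range_self, if_true] using this
  have h2 : ∑ i, N i ≤ ∑ u ∈ F, ‖η u‖ ^ 2 := by
    simp only [N]
    rw [Finset.sum_comm]
    refine Finset.sum_le_sum fun u _ => ?_
    by_cases hu : ∃ i, u ∈ Set.range (e i)
    · obtain ⟨i0, x0, rfl⟩ := hu
      rw [Finset.sum_eq_single i0 (fun i _ hi => if_neg (by
        rintro ⟨x, hx⟩; exact hi (hd _ _ _ _ hx))) (by simp)]
      simp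
    · push Not at hu
      rw [Finset.sum_eq_zero fun i _ => if_neg (hu i)]; positivity
  have h3 : ∑ i, √(N i) ≤ √(k : ℝ) * √(∑ u ∈ F, ‖η u‖ ^ 2) := by
    have := Real.sum_sqrt_mul_sqrt_le (Finset.univ : Finset (Fin k)) (f := fun _ => (1 : ℝ))
      (g := N) (fun _ => zero_le_one) hN
    simp only [Real.sqrt_one, one_mul, Finset.sum_const, Finset.card_univ, Fintype.card_fin,
      nsmul_eq_mul, mul_one] at this
    exact this.trans (by gcongr)
  have e1 : ∑ u ∈ F, ∑ v ∈ F, conj (η u) * (∑ i, A i u v) * ξ v =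
      ∑ i, ∑ u ∈ F, ∑ v ∈ F, conj (η u) * A i u v * ξ v := by
    simp only [Finset.mul_sum, Finset.sum_mul]
    rw [Finset.sum_comm]
    refine (Finset.sum_comm.trans (Finset.sum_congr rfl fun u _ => Finset.sum_comm)).trans ?_
    exact Finset.sum_comm
  rw [e1]
  refine (norm_sum_le _ _).trans ((Finset.sum_le_sum fun i _ => h1 i).trans ?_)
  rw [← Finset.sum_mul, ← Finset.mul_sum]
  calc C * (∑ i, √(N i)) * √(∑ j ∈ F, ‖ξ j‖ ^ 2)
      ≤ C * (√(k : ℝ) * √(∑ u ∈ F, ‖η u‖ ^ 2)) * √(∑ j ∈ F, ‖ξ j‖ ^ 2) := by gcongr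
    _ = _ := by ring

/-- the row and column estimate for a free circular family -/
theorem fock_bound {k : ℕ} (K : Fin k → I → I → ℂ) {s : Set I} {C : ℝ} (hC : 0 ≤ C)
    (h : ∀ i, KB (K i) s C) :
    KB (fun u v : I × List (Lt k) => ∑ i, K i u.1 v.1 * ker (cF 0 (i, false)) u.2 v.2)
      {u | u.1 ∈ s} (2 * √(k : ℝ) * C) := by
  classical
  have row : ∀ (K : Fin k → I → I → ℂ) (b : Bool), (∀ i, KB (K i) s C) →
      KB (fun u v : I × List (Lt k) => ∑ i, K i u.1 v.1 * if u.2 = (i, b) :: v.2 then 1 else 0)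
        {u | u.1 ∈ s} (√(k : ℝ) * C) := by
    intro K b h
    refine tens_KB_row hC (fun i => (h i).ampl hC (List (Lt k)))
      (fun i x => (x.1, (i, b) :: x.2)) ?_ ?_ (fun i x hx => hx) ?_ ?_
    · intro i x x' hx
      simp only [Prod.mk.injEq, List.cons.injEq, true_and] at hx
      exact Prod.ext hx.1 hx.2
    · intro i i' x x' hx
      simp only [Prod.mk.injEq, List.cons.injEq] at hx
      exact hx.2.1.1
    · intro i x v
      simp only [List.cons.injEq, true_and]
      congr
    · intro i u v hu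
      rw [if_neg, mul_zero]
      intro h'
      exact hu ⟨(u.1, v.2), Prod.ext rfl h'.symm⟩
  have h1 := row K false h
  have h2 := tens_KB_star (row (fun i a b => conj (K i b a)) true fun i => tens_KB_star (h i))
  refine ((h1.add h2).congr fun u _ v _ => ?_).mono (le_of_eq (by ring))
  rw [map_sum, ← Finset.sum_add_distrib]
  refine Finset.sum_congr rfl fun i _ => ?_
  rw [tens_ker_cF, mul_add, map_mul, RingHomCompTriple.comp_apply, RingHom.id_apply]
  have : bar (i, false) = (i, true) := rfl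
  rw [this]
  congr 2 <;> split_ifs <;> simp

/-- every element has a formal adjoint in all two-leg evaluations -/
theorem ev2_adj {R : Type} {k : ℕ} (x : FA (GR R k)) : ∃ x' : FA (GR R k),
    ∀ (S S' : Type) (z : Lt k → En S) (z' : Lt k → En S'), (∀ a, IsAdj (z (bar a)) (z a)) →
      (∀ a, IsAdj (z' (bar a)) (z' a)) → IsAdj (ev2 z z' x') (ev2 z z' x) := by
  induction x using FreeAlgebra.induction with
  | grade0 r =>
    refine ⟨algebraMap ℂ _ (conj r), fun S S' z z' _ _ => ?_⟩
    rw [AlgHom.commutes, AlgHom.commutes, Algebra.algebraMap_eq_smul_one,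
      Algebra.algebraMap_eq_smul_one]
    exact isAdj_one.smul r
  | grade1 g =>
    rcases g with ⟨r, r'⟩ | a | a
    · refine ⟨FreeAlgebra.ι ℂ (Sum.inl (r', r)), fun S S' z z' _ _ => ?_⟩
      simp only [ev2, FreeAlgebra.lift_ι_apply]
      exact (isAdj_unitE r r').tens isAdj_one
    · refine ⟨FreeAlgebra.ι ℂ (Sum.inr (Sum.inl (bar a))), fun S S' z z' h _ => ?_⟩
      simp only [ev2, FreeAlgebra.lift_ι_apply]
      exact isAdj_one.tens ((h a).tens isAdj_one)
    · refine ⟨FreeAlgebra.ι ℂ (Sum.inr (Sum.inr (bar a))), fun S S' z z' _ h => ?_⟩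
      simp only [ev2, FreeAlgebra.lift_ι_apply]
      exact isAdj_one.tens (isAdj_one.tens (h a))
  | mul x y hx hy =>
    obtain ⟨x', hx⟩ := hx
    obtain ⟨y', hy⟩ := hy
    refine ⟨y' * x', fun S S' z z' h h' => ?_⟩
    rw [map_mul, map_mul]
    exact (hx S S' z z' h h').mul (hy S S' z z' h h')
  | add x y hx hy =>
    obtain ⟨x', hx⟩ := hx
    obtain ⟨y', hy⟩ := hy
    refine ⟨x' + y', fun S S' z z' h h' => ?_⟩
    rw [map_add, map_add]
    exact (hx S S' z z' h h').add (hy S S' z z' h h')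

/-- continuity in the deformation parameter -/
theorem ev2_cF_sub {R : Type} {k : ℕ} (x : FA (GR R k)) : ∃ C : ℝ, 0 ≤ C ∧ ∀ θ : ℂ, ‖θ‖ ≤ 1 →
    Bdd (ev2 (cF θ) (cF θ) x - ev2 (cF 0) (cF 0) x) (C * ‖θ‖) := by
  suffices H : ∃ C : ℝ, 0 ≤ C ∧ ∀ θ : ℂ, ‖θ‖ ≤ 1 → Bdd (ev2 (cF θ) (cF θ) x) C ∧
      Bdd (ev2 (cF θ) (cF θ) x - ev2 (cF 0) (cF 0) x) (C * ‖θ‖) by
    obtain ⟨C, h0, h⟩ := H
    exact ⟨C, h0, fun θ hθ => (h θ hθ).2⟩
  have h3 : ∀ (θ : ℂ) (a : Lt k), ‖θ‖ ≤ 1 → Bdd (cF θ a) 3 := by
    intro θ a hθ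
    have := (bdd_cF a).add (bdd_cF_sub θ a)
    rw [tens_add_sub] at this
    exact this.mono (by linarith)
  induction x using FreeAlgebra.induction with
  | grade0 r =>
    refine ⟨‖r‖, norm_nonneg _, fun θ _ => ?_⟩
    rw [AlgHom.commutes, AlgHom.commutes, tens_sub_self, Algebra.algebraMap_eq_smul_one]
    exact ⟨(bdd_one.smul r).mono (by simp), bdd_zero.mono (by positivity)⟩
  | grade1 g =>
    refine ⟨3, by norm_num, fun θ hθ => ?_⟩
    have := norm_nonneg θ
    rcases g with ⟨r, r'⟩ | a | a <;> simp only [ev2, FreeAlgebra.lift_ι_apply]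
    · rw [tens_sub_self]
      exact ⟨((bdd_unitE r r').tens_left zero_le_one).mono (by norm_num),
        bdd_zero.mono (by positivity)⟩
    · rw [← tens_sub_right, ← tens_sub_left]
      exact ⟨((h3 θ a hθ).tens_left (by norm_num)).tens_right (by norm_num),
        (((bdd_cF_sub θ a).tens_left this).tens_right this).mono (by linarith)⟩
    · rw [← tens_sub_right, ← tens_sub_right]
      exact ⟨((h3 θ a hθ).tens_right (by norm_num)).tens_right (by norm_num),
        (((bdd_cF_sub θ a).tens_right this).tens_right this).mono (by linarith)⟩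
  | mul x y hx hy =>
    obtain ⟨C1, p1, hx⟩ := hx
    obtain ⟨C2, p2, hy⟩ := hy
    have p3 := mul_nonneg p1 p2
    refine ⟨2 * (C1 * C2), by positivity, fun θ hθ => ?_⟩
    rw [map_mul, map_mul]
    refine ⟨((hx θ hθ).1.mul p1 (hy θ hθ).1).mono (by linarith), ?_⟩
    have a1 := (hx θ hθ).2.mul (by positivity) (hy θ hθ).1
    have a2 := (hx 0 (by simp)).1.mul p1 (hy θ hθ).2
    have := a1.add a2
    rw [tens_mul_sub] at this
    exact this.mono (le_of_eq (by ring))
  | add x y hx hy =>
    obtain ⟨C1, p1, hx⟩ := hx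
    obtain ⟨C2, p2, hy⟩ := hy
    refine ⟨C1 + C2, by positivity, fun θ hθ => ?_⟩
    rw [map_add, map_add, tens_add_sub_add]
    exact ⟨(hx θ hθ).1.add (hy θ hθ).1,
      ((hx θ hθ).2.add (hy θ hθ).2).mono (le_of_eq (by ring))⟩

/-- the length of the words in the image of the vacuum -/
theorem ev2_cF_len {R : Type} {k : ℕ} (x : FA (GR R k)) : ∃ L : ℕ, ∀ (θ : ℂ)
    (u v : R × (List (Lt k) × List (Lt k))), ker (ev2 (cF θ) (cF θ) x) u v ≠ 0 →
      u.2.1.length ≤ v.2.1.length + L ∧ u.2.2.length ≤ v.2.2.length + L := by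
  have h1 : ∀ {T : Type} {i j : T}, ker (1 : En T) i j ≠ 0 → i = j := by
    intro T i j h
    by_contra hc
    rw [ker_one, if_neg hc] at h
    exact h rfl
  have h2 : ∀ {θ : ℂ} {a : Lt k} {i j : List (Lt k)}, ker (cF θ a) i j ≠ 0 →
      i.length ≤ j.length + 1 := by
    intro θ a i j h
    rw [tens_ker_cF] at h
    by_cases p : i = a :: j
    · simp [p]
    · by_cases q : j = bar a :: i
      · rw [q, List.length_cons]; omega
      · rw [if_neg p, if_neg q, add_zero] at h
        exact absurd rfl h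
  induction x using FreeAlgebra.induction with
  | grade0 r =>
    refine ⟨0, fun θ u v h => ?_⟩
    rw [AlgHom.commutes, Algebra.algebraMap_eq_smul_one, ker_smul] at h
    rw [h1 (right_ne_zero_of_mul h)]; simp
  | grade1 g =>
    refine ⟨1, fun θ u v h => ?_⟩
    rcases g with ⟨r, r'⟩ | a | a <;> simp only [ev2, FreeAlgebra.lift_ι_apply, ker_tens] at h
    · rw [h1 (right_ne_zero_of_mul h)]; simp
    · have := right_ne_zero_of_mul h
      rw [h1 (right_ne_zero_of_mul this)]
      exact ⟨h2 (left_ne_zero_of_mul this), by simp⟩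
    · have := right_ne_zero_of_mul h
      rw [h1 (left_ne_zero_of_mul this)]
      exact ⟨by simp, h2 (right_ne_zero_of_mul this)⟩
  | mul x y hx hy =>
    obtain ⟨L1, hx⟩ := hx
    obtain ⟨L2, hy⟩ := hy
    refine ⟨L1 + L2, fun θ u v h => ?_⟩
    rw [map_mul, ker_mul _ _ _ _ _ subset_rfl] at h
    obtain ⟨l, -, hl⟩ := Finset.exists_ne_zero_of_sum_ne_zero h
    have a1 := hx θ _ _ (left_ne_zero_of_mul hl)
    have a2 := hy θ _ _ (right_ne_zero_of_mul hl)
    omega
  | add x y hx hy =>
    obtain ⟨L1, hx⟩ := hx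
    obtain ⟨L2, hy⟩ := hy
    refine ⟨L1 + L2, fun θ u v h => ?_⟩
    rw [map_add, ker_add] at h
    by_cases p : ker (ev2 (cF θ) (cF θ) x) u v = 0
    · rw [p, zero_add] at h
      have := hy θ _ _ h
      omega
    · have := hx θ _ _ p
      omega

/-- the first leg -/
noncomputable def tensLeg (R : Type) (k : ℕ) : FA (Lt k) →ₐ[ℂ] FA (GR R k) :=
  FreeAlgebra.lift ℂ fun a => FreeAlgebra.ι ℂ (Sum.inr (Sum.inl a))

theorem tens_ev2_leg {R S S' : Type} {k : ℕ} (z : Lt k → En S) (z' : Lt k → En S')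
    (f : FA (Lt k)) : ev2 z z' (tensLeg R k f) = tens 1 (tens (ev1 z f) 1) := by
  induction f using FreeAlgebra.induction with
  | grade0 r =>
    rw [AlgHom.commutes, AlgHom.commutes, AlgHom.commutes, Algebra.algebraMap_eq_smul_one,
      Algebra.algebraMap_eq_smul_one, tens_smul_left, tens_smul_right, tens_one, tens_one]
  | grade1 a => simp only [tensLeg, ev1, ev2, FreeAlgebra.lift_ι_apply]
  | mul x y hx hy => rw [map_mul, map_mul, map_mul, hx, hy, tens_mul, tens_mul, mul_one, mul_one]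
  | add x y hx hy => rw [map_add, map_add, map_add, hx, hy, tens_add_left, tens_add_right]

theorem tens_ev2_unit {R S S' : Type} {k : ℕ} (z : Lt k → En S) (z' : Lt k → En S') (r r' : R) :
    ev2 z z' (FreeAlgebra.ι ℂ (Sum.inl (r, r'))) = tens (unitE r r') 1 := by
  simp only [ev2, FreeAlgebra.lift_ι_apply]

theorem tens_sum_unit {R : Type} [Fintype R] (f : R → R → ℂ) (i j : R) :
    ∑ r, ∑ r', ker (unitE r r') i j * f r r' = f i j := by
  classical
  simp only [ker_unitE, ite_and, ite_mul, one_mul, zero_mul, Finset.sum_ite_irrel,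
    Finset.sum_const_zero, Finset.sum_ite_eq, Finset.mem_univ, if_true]

/-- a one-leg kernel comes from an element of the two-leg algebra -/
theorem exists_K1 {R : Type} [Fintype R] {k : ℕ} (G : R → R → FA (Lt k)) :
    ∃ x : FA (GR R k), ∀ (S S' : Type) [DecidableEq S'] (z : Lt k → En S) (z' : Lt k → En S')
      (u v : R × (S × S')), ker (ev2 z z' x) u v =
        K1 G z (u.1, u.2.1) (v.1, v.2.1) * if u.2.2 = v.2.2 then 1 else 0 := by
  refine ⟨∑ r, ∑ r', FreeAlgebra.ι ℂ (Sum.inl (r, r')) * tensLeg R k (G r r'),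
    fun S S' _ z z' u v => ?_⟩
  simp only [map_sum, map_mul, tens_ev2_leg, tens_ev2_unit, tens_mul, mul_one, one_mul, ker_sum,
    ker_tens]
  rw [tens_sum_unit, ker_one, K1]
  congr

/-- a two-leg kernel comes from an element of the two-leg algebra -/
theorem exists_K2 {R : Type} [Fintype R] {k : ℕ} (F : Fin k → R → R → FA (Lt k)) :
    ∃ x : FA (GR R k), ∀ (S S' : Type) (z : Lt k → En S) (z' : Lt k → En S')
      (u v : R × (S × S')), ker (ev2 z z' x) u v =
        K2 F z z' ((u.1, u.2.1), u.2.2) ((v.1, v.2.1), v.2.2) := by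
  refine ⟨∑ i, ∑ r, ∑ r', FreeAlgebra.ι ℂ (Sum.inl (r, r')) * (tensLeg R k (F i r r') *
    FreeAlgebra.ι ℂ (Sum.inr (Sum.inr (i, false)))), fun S S' z z' u v => ?_⟩
  have e : ∀ a, ev2 (R := R) z z' (FreeAlgebra.ι ℂ (Sum.inr (Sum.inr a))) =
      tens 1 (tens 1 (z' a)) := fun a => by simp only [ev2, FreeAlgebra.lift_ι_apply]
  simp only [map_sum, map_mul, tens_ev2_leg, tens_ev2_unit, e, tens_mul, mul_one, one_mul,
    ker_sum, ker_tens, K2]
  exact Finset.sum_congr rfl fun i _ => tens_sum_unit _ _ _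

end Pool.Agent.H612Z.Op
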